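import Pool.Agent.Lib.H89X.AD
import Pool.Agent.Lib.H89T.N2

set_option autoImplicit false

/-!
CHUNK A1 (M).  The lowest parts of the `u i` at the Fermat point.
-/

open MvPolynomial

namespace Pool.Agent.H89X

open Pool.Agent.H89T Pool.Agent.H67T Pool.Agent.H53U Pool.Agent.H53V Pool.Agent.H44K

variable {n d k : ℕ}

theorem aa1_degree {B : Type*} [CommRing B] (φ : ℂ →+* B) :
    (MvPolynomial.map φ (1 + ∑ b : Fin n, (X b : MvPolynomial (Fin n) ℂ) ^ d)).totalDegree ≤ d := by
  have h1 : (1 + ∑ b : Fin n, (X b : MvPolynomial (Fin n) ℂ) ^ d).totalDegree ≤ d := by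
    refine (totalDegree_add _ _).trans (max_le ?_ ?_)
    · rw [totalDegree_one]
      exact Nat.zero_le _
    · refine (totalDegree_finsetSum _ _).trans (Finset.sup_le fun b _ => ?_)
      rw [totalDegree_X_pow]
  refine le_trans ?_ h1
  unfold totalDegree
  exact Finset.sup_mono (support_map_subset φ _)

/-- PROOF.  `(1 + ∑ X_b ^ d).totalDegree ≤ d`, so by `ev_cofs` (Lib/H53U/M1.lean) `ev (algebraMap ∘ a1) x = 1 + ∑ x_b ^ d` in every `ℂ`-algebra (first prove it for
`x : Fin n → B`: `ev_cofs` for the image of the polynomial in `MvPolynomial (Fin n) B`, or apply `aeval`). -/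
theorem ev_a1 {B : Type*} [CommRing B] [Algebra ℂ B] (hd : 1 ≤ d) (x : Fin n → B) :
    ev (fun α => algebraMap ℂ B (a1 n d α)) x = 1 + ∑ b, x b ^ d := by
  have h1 : (fun α => algebraMap ℂ B (a1 n d α)) =
      cofs d (MvPolynomial.map (algebraMap ℂ B) (1 + ∑ b : Fin n, (X b : MvPolynomial (Fin n) ℂ) ^ d)) := by
    funext α
    unfold a1 cofs
    rw [coeff_map]
  rw [h1, ev_cofs (aa1_degree (algebraMap ℂ B))]
  simp only [map_add, map_one, map_sum, map_pow, map_X, eval_X]

/-- All the monomials have degree at least `e` in the jets of positive order. -/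
def aa1_ge (e : ℕ) (f : MvPolynomial (JV n k) ℂ) : Prop := ∀ ν ∈ f.support, e ≤ jd ν

theorem aa1_add_mem {f g : MvPolynomial (JV n k) ℂ} {ν : JV n k →₀ ℕ} (h : ν ∈ (f + g).support) :
    ν ∈ f.support ∨ ν ∈ g.support := by
  classical
  exact Finset.mem_union.1 (MvPolynomial.support_add h)

theorem aa1_ge_zero (e : ℕ) : aa1_ge e (0 : MvPolynomial (JV n k) ℂ) := by
  intro ν hν
  rw [MvPolynomial.support_zero] at hν
  exact absurd hν (Finset.notMem_empty ν)

theorem aa1_ge_add {e : ℕ} {f g : MvPolynomial (JV n k) ℂ} (hf : aa1_ge e f) (hg : aa1_ge e g) : aa1_ge e (f + g) := by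
  intro ν hν
  rcases aa1_add_mem hν with h | h
  · exact hf ν h
  · exact hg ν h

theorem aa1_ge_sum {ι : Type*} (s : Finset ι) {e : ℕ} {f : ι → MvPolynomial (JV n k) ℂ}
    (h : ∀ i ∈ s, aa1_ge e (f i)) : aa1_ge e (∑ i ∈ s, f i) := by
  classical
  induction s using Finset.induction_on with
  | empty =>
    rw [Finset.sum_empty]
    exact aa1_ge_zero e
  | insert a s ha ih =>
    rw [Finset.sum_insert ha]
    exact aa1_ge_add (h a (Finset.mem_insert_self a s)) (ih fun i hi => h i (Finset.mem_insert_of_mem hi))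

theorem aa1_mul_mem {f g : MvPolynomial (JV n k) ℂ} {ν : JV n k →₀ ℕ} (h : ν ∈ (f * g).support) :
    ∃ ν1 ∈ f.support, ∃ ν2 ∈ g.support, ν1 + ν2 = ν := by
  classical
  have h1 := MvPolynomial.support_mul f g h
  rw [Finset.mem_add] at h1
  exact h1

theorem aa1_ge_mul {e e' : ℕ} {f g : MvPolynomial (JV n k) ℂ} (hf : aa1_ge e f) (hg : aa1_ge e' g) :
    aa1_ge (e + e') (f * g) := by
  intro ν hν
  obtain ⟨ν1, h1, ν2, h2, rfl⟩ := aa1_mul_mem hν
  rw [jd_add]
  exact Nat.add_le_add (hf ν1 h1) (hg ν2 h2)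

/-- The same for all the coefficients of a polynomial in one more variable. -/
def aa1_P (e : ℕ) (f : Polynomial (MvPolynomial (JV n k) ℂ)) : Prop := ∀ j, aa1_ge e (f.coeff j)

theorem aa1_P_mul {e e' : ℕ} {f g : Polynomial (MvPolynomial (JV n k) ℂ)} (hf : aa1_P e f) (hg : aa1_P e' g) :
    aa1_P (e + e') (f * g) := by
  intro j
  rw [Polynomial.coeff_mul]
  exact aa1_ge_sum _ fun p _ => aa1_ge_mul (hf p.1) (hg p.2)

theorem aa1_P_any (f : Polynomial (MvPolynomial (JV n k) ℂ)) : aa1_P 0 f := fun _ _ _ => Nat.zero_le _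

/-- The exact degree. -/
def aa1_eq (e : ℕ) (f : MvPolynomial (JV n k) ℂ) : Prop := ∀ ν ∈ f.support, jd ν = e

theorem aa1_eq_mul {e e' : ℕ} {f g : MvPolynomial (JV n k) ℂ} (hf : aa1_eq e f) (hg : aa1_eq e' g) :
    aa1_eq (e + e') (f * g) := by
  intro ν hν
  obtain ⟨ν1, h1, ν2, h2, rfl⟩ := aa1_mul_mem hν
  rw [jd_add, hf ν1 h1, hg ν2 h2]

theorem aa1_eq_add {e : ℕ} {f g : MvPolynomial (JV n k) ℂ} (hf : aa1_eq e f) (hg : aa1_eq e g) : aa1_eq e (f + g) := by
  intro ν hν
  rcases aa1_add_mem hν with h | h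
  · exact hf ν h
  · exact hg ν h

theorem aa1_eq_sum {ι : Type*} (s : Finset ι) {e : ℕ} {f : ι → MvPolynomial (JV n k) ℂ}
    (h : ∀ i ∈ s, aa1_eq e (f i)) : aa1_eq e (∑ i ∈ s, f i) := by
  classical
  induction s using Finset.induction_on with
  | empty =>
    rw [Finset.sum_empty]
    intro ν hν
    rw [MvPolynomial.support_zero] at hν
    exact absurd hν (Finset.notMem_empty ν)
  | insert a s ha ih =>
    rw [Finset.sum_insert ha]
    exact aa1_eq_add (h a (Finset.mem_insert_self a s)) (ih fun i hi => h i (Finset.mem_insert_of_mem hi))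

theorem aa1_jd_single (p : JV n k) (q : ℕ) : jd (Finsupp.single p q) = if p.2 = 0 then 0 else q := by
  unfold jd
  rw [Finset.sum_eq_single p]
  · simp
  · intro b _ hb
    rw [Finsupp.single_eq_of_ne hb]
    simp
  · intro h
    exact absurd (Finset.mem_univ p) h

theorem aa1_eq_C (c : ℂ) : aa1_eq 0 (C c : MvPolynomial (JV n k) ℂ) := by
  intro ν hν
  have h1 := MvPolynomial.support_monomial_subset hν
  rw [Finset.mem_singleton] at h1
  rw [h1]
  unfold jd
  refine Finset.sum_eq_zero fun p _ => ?_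
  simp

theorem aa1_eq_X (p : JV n k) : aa1_eq (if p.2 = 0 then 0 else 1) (X p : MvPolynomial (JV n k) ℂ) := by
  intro ν hν
  have h1 := MvPolynomial.support_monomial_subset hν
  rw [Finset.mem_singleton] at h1
  rw [h1, aa1_jd_single]

theorem aa1_eq_X0 (b : Fin n) (q : ℕ) : aa1_eq 0 ((X (b, 0) : MvPolynomial (JV n k) ℂ) ^ q) := by
  induction q with
  | zero =>
    rw [pow_zero]
    have := aa1_eq_C (n := n) (k := k) 1
    rwa [C_1] at this
  | succ q ih =>
    rw [pow_succ]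
    have h1 := aa1_eq_X (n := n) (k := k) (b, 0)
    rw [if_pos rfl] at h1
    exact aa1_eq_mul ih h1

/-- The tail of the arc. -/
theorem aa1_tail (b : Fin n) : aa1_P 1 (arc (fun p => (X p : MvPolynomial (JV n k) ℂ)) b - Polynomial.C (X (b, 0))) := by
  intro j ν hν
  rw [Polynomial.coeff_sub, coeff_arc, Polynomial.coeff_C] at hν
  by_cases hj0 : j = 0
  · subst hj0
    rw [dif_pos (Nat.succ_pos k), if_pos rfl] at hν
    have h1 : (X (b, (⟨0, Nat.succ_pos k⟩ : Fin (k + 1))) : MvPolynomial (JV n k) ℂ) - X (b, 0) = 0 := sub_self _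
    rw [h1, MvPolynomial.support_zero] at hν
    exact absurd hν (Finset.notMem_empty ν)
  · rw [if_neg hj0, sub_zero] at hν
    by_cases hj : j < k + 1
    · rw [dif_pos hj] at hν
      have h1 := aa1_eq_X (n := n) (k := k) (b, ⟨j, hj⟩) ν hν
      have h2 : ¬ ((⟨j, hj⟩ : Fin (k + 1)) = 0) := by
        intro h3
        exact hj0 (congrArg Fin.val h3)
      rw [if_neg h2] at h1
      exact h1.ge
    · rw [dif_neg hj, MvPolynomial.support_zero] at hν
      exact absurd hν (Finset.notMem_empty ν)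

/-- The powers of the arc. -/
theorem aa1_pow (b : Fin n) (i : Fin (k + 1)) (hi : i ≠ 0) : ∃ h : MvPolynomial (JV n k) ℂ, aa1_ge 2 h ∧
    ((arc (fun p => (X p : MvPolynomial (JV n k) ℂ)) b) ^ d).coeff (i : ℕ) =
      C (d : ℂ) * (X (b, 0) ^ (d - 1) * X (b, i)) + h := by
  obtain ⟨v, hv⟩ : ∃ v, v = arc (fun p => (X p : MvPolynomial (JV n k) ℂ)) b - Polynomial.C (X (b, 0)) := ⟨_, rfl⟩
  have hv1 : aa1_P 1 v := by
    rw [hv]
    exact aa1_tail b
  have harc : arc (fun p => (X p : MvPolynomial (JV n k) ℂ)) b = Polynomial.C (X (b, 0)) + v := by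
    rw [hv]
    ring
  obtain ⟨g, hg⟩ := Polynomial.powAddExpansion (Polynomial.C (X (b, 0) : MvPolynomial (JV n k) ℂ)) v d
  have hi0 : (i : ℕ) ≠ 0 := fun h => hi (Fin.ext h)
  refine ⟨(g * v ^ 2).coeff (i : ℕ), ?_, ?_⟩
  · have h1 : aa1_P (0 + (1 + 1)) (g * (v * v)) := aa1_P_mul (aa1_P_any g) (aa1_P_mul hv1 hv1)
    rw [← pow_two] at h1
    exact h1 (i : ℕ)
  · rw [harc, hg, Polynomial.coeff_add, Polynomial.coeff_add]
    have h2 : ((Polynomial.C (X (b, 0) : MvPolynomial (JV n k) ℂ)) ^ d).coeff (i : ℕ) = 0 := by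
      rw [← Polynomial.C_pow, Polynomial.coeff_C, if_neg hi0]
    have h3 : ((d : Polynomial (MvPolynomial (JV n k) ℂ)) * Polynomial.C (X (b, 0)) ^ (d - 1) * v).coeff (i : ℕ) =
        C (d : ℂ) * (X (b, 0) ^ (d - 1) * X (b, i)) := by
      have h4 : (d : Polynomial (MvPolynomial (JV n k) ℂ)) * Polynomial.C (X (b, 0)) ^ (d - 1) =
          Polynomial.C (C (d : ℂ) * X (b, 0) ^ (d - 1)) := by
        rw [← Polynomial.C_pow, Polynomial.C_mul]
        congr 1
      rw [h4, Polynomial.coeff_C_mul, hv, Polynomial.coeff_sub, coeff_arc, dif_pos i.2, Polynomial.coeff_C, if_neg hi0,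
        sub_zero, mul_assoc]
    rw [h2, h3, zero_add]

/-- PROOF.  `uR_map` (as in `u0_a0`, `u1_a0` of Lib/H89T/A1.lean): `map (eval a1) (uR gen i)` is the coefficient of `T ^ i` of `1 + ∑_b (arc_b) ^ d` (`ev_a1`), `arc_b = C X_(b,0) + v_b`,
`v_b = ∑_(l ≥ 1) C X_(b,l) T ^ l`.  For `i = 0`: evaluate at `T = 0` (`Polynomial.coeff_zero_eq_eval_zero`): exactly `fs 0`.  For `i ≥ 1`:
`(x + v) ^ d = x ^ d + d x ^ (d - 1) v + v ^ 2 g` (`add_pow` or `Commute`/`Polynomial` lemma `sub_dvd_eval_sub`-like; simplest: induction on `d`), and all the monomials of the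
coefficients of `v` have `jd ≥ 1`, those of `v ^ 2 g` have `jd ≥ 2` (the predicate `all coefficients of the polynomial in T have only monomials with jd ≥ e` is stable under products
with `e + e'`, and under sums). -/
theorem low_u (hd : 1 ≤ d) (i : Fin (k + 1)) :
    Low (if i = 0 then 0 else 1) (map (eval (a1 n d)) (uR (gen n d) (i : ℕ))) (fs n d k i) := by
  rw [uR_map]
  simp only [eval_X]
  have h0 : (uR (r := k) (a1 n d) (i : ℕ) : MvPolynomial (JV n k) ℂ) =
      (1 + ∑ b, (arc (fun p => (X p : MvPolynomial (JV n k) ℂ)) b) ^ d).coeff (i : ℕ) := by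
    unfold uR uu Fx
    have h1 := ev_a1 (n := n) (d := d) (B := Polynomial (MvPolynomial (JV n k) ℂ)) hd
      (arc (fun p => (X p : MvPolynomial (JV n k) ℂ)))
    rw [← h1]
    rfl
  rw [h0, Polynomial.coeff_add, Polynomial.finsetSum_coeff]
  unfold fs
  by_cases hi : i = 0
  · rw [if_pos hi, if_pos hi, hi]
    have h2 : ∀ b : Fin n, (((arc (fun p => (X p : MvPolynomial (JV n k) ℂ)) b) ^ d).coeff ((0 : Fin (k + 1)) : ℕ)) = X (b, 0) ^ d := by
      intro b
      have h3 : ((0 : Fin (k + 1)) : ℕ) = 0 := rfl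
      rw [h3, Polynomial.coeff_zero_eq_eval_zero, Polynomial.eval_pow, ← Polynomial.coeff_zero_eq_eval_zero, coeff_arc,
        dif_pos (Nat.succ_pos k)]
      rfl
    have h4 : (1 : Polynomial (MvPolynomial (JV n k) ℂ)).coeff ((0 : Fin (k + 1)) : ℕ) = 1 := Polynomial.coeff_one_zero
    rw [h4, Finset.sum_congr rfl fun b _ => h2 b]
    constructor
    · have h5 : aa1_eq 0 (1 + ∑ b, (X (b, 0) : MvPolynomial (JV n k) ℂ) ^ d) := by
        refine aa1_eq_add ?_ (aa1_eq_sum _ fun b _ => aa1_eq_X0 b d)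
        have := aa1_eq_C (n := n) (k := k) 1
        rwa [C_1] at this
      exact h5
    · intro ν hν
      rw [sub_self, MvPolynomial.support_zero] at hν
      exact absurd hν (Finset.notMem_empty ν)
  · rw [if_neg hi, if_neg hi]
    have hi0 : (i : ℕ) ≠ 0 := fun h => hi (Fin.ext h)
    have h2 : (1 : Polynomial (MvPolynomial (JV n k) ℂ)).coeff (i : ℕ) = 0 := by
      rw [Polynomial.coeff_one, if_neg hi0]
    have h3 := fun b : Fin n => aa1_pow (n := n) (d := d) (k := k) b i hi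
    choose h hge heq using h3
    rw [h2, zero_add, Finset.sum_congr rfl fun b _ => heq b, Finset.sum_add_distrib]
    constructor
    · have h5 : aa1_eq 1 (∑ b, C (d : ℂ) * ((X (b, 0) : MvPolynomial (JV n k) ℂ) ^ (d - 1) * X (b, i))) := by
        refine aa1_eq_sum _ fun b _ => ?_
        have h6 := aa1_eq_X (n := n) (k := k) (b, i)
        rw [if_neg hi] at h6
        have h7 := aa1_eq_mul (aa1_eq_C (n := n) (k := k) (d : ℂ)) (aa1_eq_mul (aa1_eq_X0 b (d - 1)) h6)
        rw [Nat.zero_add, Nat.zero_add] at h7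
        exact h7
      exact h5
    · intro ν hν
      rw [add_sub_cancel_left] at hν
      exact aa1_ge_sum _ (fun b _ => hge b) ν hν

end Pool.Agent.H89X
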