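import Mathlib

set_option autoImplicit false

/-!
CHUNK A3 (M/L, only Mathlib).  Generic spanning from spanning at a special point, with lowest parts.  Compare
`exists_smul_mem` in Lib/H89T/A3.lean (the case `T (a) = 1`), whose proof can be copied for the second half.
-/

open MvPolynomial

namespace Pool.Agent.H89X

/-- The combination `G m`. -/
theorem a3_comb {σ ι I : Type} (a : ι → ℂ) (s : Finset (σ →₀ ℕ))
    (N : Submodule (MvPolynomial ι ℂ) (MvPolynomial σ (MvPolynomial ι ℂ)))
    (vd : (σ →₀ ℕ) → ℕ) (w : I → MvPolynomial σ (MvPolynomial ι ℂ)) (p : I → MvPolynomial σ ℂ)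
    (g : I → ℕ) (hN : ∀ i, w i ∈ N) (hs : ∀ i, ∀ m ∈ (w i).support, m ∈ s)
    (hp : ∀ i, ∀ m ∈ (p i).support, vd m = g i)
    (hlow : ∀ i, ∀ m ∈ (MvPolynomial.map (eval a) (w i) - p i).support, g i < vd m)
    (m : σ →₀ ℕ) (hspan : monomial m (1 : ℂ) ∈ Submodule.span ℂ (Set.range p)) :
    ∃ G ∈ N, (∀ m' ∈ G.support, m' ∈ s) ∧ ∀ m', vd m' ≤ vd m →
      coeff m' (MvPolynomial.map (eval a) G) = coeff m' (monomial m (1 : ℂ)) := by
  classical
  obtain ⟨c, hc⟩ := (Finsupp.mem_span_range_iff_exists_finsupp).1 hspan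
  refine ⟨∑ i ∈ c.support.filter (fun i => g i = vd m), (C (c i) : MvPolynomial ι ℂ) • w i, ?_, ?_, ?_⟩
  · exact Submodule.sum_mem _ fun i _ => Submodule.smul_mem _ _ (hN i)
  · intro m' hm'
    by_contra hcon
    rw [mem_support_iff] at hm'
    apply hm'
    rw [coeff_sum]
    refine Finset.sum_eq_zero fun i _ => ?_
    rw [coeff_smul]
    have h1 : coeff m' (w i) = 0 := by
      by_contra h2
      exact hcon (hs i m' (mem_support_iff.2 h2))
    rw [h1, smul_zero]
  · intro m' hm'
    have h1 : coeff m' (MvPolynomial.map (eval a)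
        (∑ i ∈ c.support.filter (fun i => g i = vd m), (C (c i) : MvPolynomial ι ℂ) • w i)) =
        ∑ i ∈ c.support.filter (fun i => g i = vd m), c i * coeff m' (p i) := by
      rw [map_sum, coeff_sum]
      refine Finset.sum_congr rfl fun i hi => ?_
      have hgi := (Finset.mem_filter.1 hi).2
      have h2 : coeff m' (MvPolynomial.map (eval a) (w i)) = coeff m' (p i) := by
        by_contra h3
        have h4 : m' ∈ (MvPolynomial.map (eval a) (w i) - p i).support := by
          rw [mem_support_iff, coeff_sub]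
          exact sub_ne_zero.2 h3
        have h5 := hlow i m' h4
        omega
      rw [← h2, coeff_map, coeff_map, coeff_smul, smul_eq_mul, map_mul, eval_C]
    rw [h1, ← hc, Finsupp.sum, coeff_sum]
    have h6 : ∀ i, coeff m' (c i • p i) = c i * coeff m' (p i) := by
      intro i
      rw [coeff_smul, smul_eq_mul]
    rw [Finset.sum_congr rfl fun i _ => h6 i]
    by_cases hv : vd m' = vd m
    · refine Finset.sum_subset (Finset.filter_subset _ _) ?_
      intro i hi hi2
      have h7 : g i ≠ vd m := fun h8 => hi2 (Finset.mem_filter.2 ⟨hi, h8⟩)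
      have h9 : coeff m' (p i) = 0 := by
        by_contra h10
        have h11 := hp i m' (mem_support_iff.2 h10)
        exact h7 (h11.symm.trans hv)
      rw [h9, mul_zero]
    · have h12 : ∑ i ∈ c.support.filter (fun i => g i = vd m), c i * coeff m' (p i) = 0 := by
        refine Finset.sum_eq_zero fun i hi => ?_
        have hgi := (Finset.mem_filter.1 hi).2
        have h9 : coeff m' (p i) = 0 := by
          by_contra h10
          have h11 := hp i m' (mem_support_iff.2 h10)
          exact hv (h11.trans hgi)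
        rw [h9, mul_zero]
      have h13 : ∑ i ∈ c.support, c i * coeff m' (p i) = coeff m' (monomial m (1 : ℂ)) := by
        rw [← hc, Finsupp.sum, coeff_sum]
        exact Finset.sum_congr rfl fun i _ => (h6 i).symm
      rw [h12, h13, coeff_monomial, if_neg]
      intro h14
      exact hv (by rw [h14])

/-- A matrix which is the unit matrix up to entries above the blocks has determinant `1`. -/
theorem a3_det {J : Type} [Fintype J] [DecidableEq J] (b : J → ℕ) (M : Matrix J J ℂ)
    (h : ∀ i j, b j ≤ b i → M i j = if i = j then 1 else 0) : M.det = 1 := by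
  have hM : M.BlockTriangular b := by
    intro i j hij
    rw [h i j hij.le, if_neg]
    intro h1
    rw [h1] at hij
    exact lt_irrefl _ hij
  rw [hM.det]
  refine Finset.prod_eq_one fun k _ => ?_
  have h2 : M.toSquareBlock b k = 1 := by
    ext i j
    have h3 : M.toSquareBlock b k i j = M i.1 j.1 := rfl
    rw [h3, h i.1 j.1 (by rw [i.2, j.2]), Matrix.one_apply]
    simp only [Subtype.ext_iff]
  rw [h2, Matrix.det_one]

/-- PROOF.  Let `m ∈ s`.  Write `monomial m 1 = ∑ i ∈ I0, α i • p i` (`Finsupp.mem_span_range_iff_exists_finsupp` or `Submodule.mem_span_range_iff..`).  Since all the monomials of `p i`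
have `vd = g i`, the terms with `g i = vd m` alone give `∑_(g i = vd m) α i • p i = monomial m 1` (compare coefficients: at `ν` with `vd ν = vd m` only these terms contribute, at the other `ν`
both sides are `0`).  Put `G m = ∑_(g i = vd m) C (C (α i)) * w i ∈ N` (smul by `C (α i) : MvPolynomial ι ℂ`), monomials in `s`; `map (eval a) (G m) = monomial m 1 +` terms with `vd > vd m`.
`T m m' = coeff m' (G m)` on `s`: `T (a)` has `1` on the diagonal and `T (a) m m' = 0` if `m ≠ m'` and `vd m' ≤ vd m`.  So `det (T (a)) = 1`: `Matrix.BlockTriangular` for the function `vd`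
(`T (a) i j = 0` if `vd j < vd i`), `Matrix.BlockTriangular.det`, every diagonal block is the unit matrix.  (Or: `T (a) - 1` is nilpotent, so `T (a)` is a unit and `det ≠ 0`, which is enough.)
So `t = det T ≠ 0` and `t • monomial m 1 = ∑ adj T m m' • G m' ∈ N`. -/
theorem transfer {σ ι I : Type} (a : ι → ℂ) (s : Finset (σ →₀ ℕ))
    (N : Submodule (MvPolynomial ι ℂ) (MvPolynomial σ (MvPolynomial ι ℂ)))
    (vd : (σ →₀ ℕ) → ℕ) (w : I → MvPolynomial σ (MvPolynomial ι ℂ)) (p : I → MvPolynomial σ ℂ)
    (g : I → ℕ) (hN : ∀ i, w i ∈ N) (hs : ∀ i, ∀ m ∈ (w i).support, m ∈ s)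
    (hp : ∀ i, ∀ m ∈ (p i).support, vd m = g i)
    (hlow : ∀ i, ∀ m ∈ (MvPolynomial.map (eval a) (w i) - p i).support, g i < vd m)
    (hspan : ∀ m ∈ s, monomial m (1 : ℂ) ∈ Submodule.span ℂ (Set.range p)) :
    ∃ t : MvPolynomial ι ℂ, t ≠ 0 ∧ ∀ m ∈ s, t • monomial m (1 : MvPolynomial ι ℂ) ∈ N := by
  classical
  have h : ∀ m ∈ s, ∃ G ∈ N, (∀ m' ∈ G.support, m' ∈ s) ∧ ∀ m', vd m' ≤ vd m →
      coeff m' (MvPolynomial.map (eval a) G) = coeff m' (monomial m (1 : ℂ)) :=
    fun m hm => a3_comb a s N vd w p g hN hs hp hlow m (hspan m hm)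
  choose! G hG hsup hmap using h
  let T : Matrix s s (MvPolynomial ι ℂ) := fun m m' => coeff m'.1 (G m.1)
  have hdet : eval a T.det = 1 := by
    rw [RingHom.map_det]
    refine a3_det (fun m : s => vd m.1) _ ?_
    intro m m' hv
    rw [RingHom.mapMatrix_apply, Matrix.map_apply]
    change eval a (coeff m'.1 (G m.1)) = _
    have h1 := hmap m.1 m.2 m'.1 hv
    rw [coeff_map, coeff_monomial] at h1
    rw [h1]
    simp only [Subtype.ext_iff]
  refine ⟨T.det, ?_, ?_⟩
  · intro h0
    rw [h0, map_zero] at hdet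
    exact zero_ne_one hdet
  · intro m hm
    have hGm : ∀ m : s, G m.1 = ∑ m' : s, T m m' • monomial m'.1 (1 : MvPolynomial ι ℂ) := by
      intro m
      have h1 : ∑ m' : s, T m m' • monomial m'.1 (1 : MvPolynomial ι ℂ) =
          ∑ m' ∈ s, coeff m' (G m.1) • monomial m' (1 : MvPolynomial ι ℂ) :=
        Finset.sum_coe_sort s (fun m' => coeff m' (G m.1) • monomial m' (1 : MvPolynomial ι ℂ))
      rw [h1]
      have h2 : ∑ m' ∈ s, coeff m' (G m.1) • monomial m' (1 : MvPolynomial ι ℂ) =
          ∑ m' ∈ (G m.1).support, coeff m' (G m.1) • monomial m' (1 : MvPolynomial ι ℂ) := by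
        symm
        refine Finset.sum_subset (fun m' hm' => hsup m.1 m.2 m' hm') ?_
        intro m' _ hm'
        rw [notMem_support_iff.1 hm', zero_smul]
      rw [h2]
      conv_lhs => rw [(G m.1).as_sum]
      refine Finset.sum_congr rfl fun m' _ => ?_
      rw [smul_monomial, smul_eq_mul, mul_one]
    have key : T.det • monomial m (1 : MvPolynomial ι ℂ) =
        ∑ m' : s, T.adjugate ⟨m, hm⟩ m' • G m'.1 := by
      have h1 : ∀ m' : s, T.adjugate ⟨m, hm⟩ m' • G m'.1 =
          ∑ m'' : s, (T.adjugate ⟨m, hm⟩ m' * T m' m'') • monomial m''.1 (1 : MvPolynomial ι ℂ) := by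
        intro m'
        rw [hGm m', Finset.smul_sum]
        refine Finset.sum_congr rfl fun m'' _ => ?_
        rw [smul_smul]
      rw [Finset.sum_congr rfl fun m' _ => h1 m', Finset.sum_comm]
      have h2 : ∀ m'' : s, ∑ m' : s, (T.adjugate ⟨m, hm⟩ m' * T m' m'') •
          monomial m''.1 (1 : MvPolynomial ι ℂ) =
          ((T.det • (1 : Matrix s s (MvPolynomial ι ℂ))) ⟨m, hm⟩ m'') •
            monomial m''.1 (1 : MvPolynomial ι ℂ) := by
        intro m''
        rw [← Finset.sum_smul, ← Matrix.mul_apply, Matrix.adjugate_mul]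
      rw [Finset.sum_congr rfl fun m'' _ => h2 m'']
      rw [Finset.sum_eq_single (⟨m, hm⟩ : s)]
      · rw [Matrix.smul_apply, Matrix.one_apply_eq, smul_eq_mul, mul_one]
      · intro b _ hb
        rw [Matrix.smul_apply, Matrix.one_apply_ne (Ne.symm hb), smul_zero, zero_smul]
      · intro h0
        exact absurd (Finset.mem_univ _) h0
    rw [key]
    exact Submodule.sum_mem _ fun m' _ => Submodule.smul_mem _ _ (hG m'.1 m'.2)

end Pool.Agent.H89X
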