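import Pool.Agent.Lib.H89X.AD

set_option autoImplicit false

/-!
CHUNK A5 (S/M).  The leading monomials of the `fs`.
-/

open MvPolynomial

namespace Pool.Agent.H89X

open Pool.Agent.H89T Pool.Agent.H67T Pool.Agent.H53U Pool.Agent.H53V Pool.Agent.H44K

variable {n d k : ℕ}

theorem a5_fk (hk : n ≤ k + 1) (s : Fin n) : ((fk k s : Fin (k + 1)) : ℕ) = (s : ℕ) := by
  have h : (s : ℕ) < k + 1 := lt_of_lt_of_le s.2 hk
  unfold fk
  rw [dif_pos h]

theorem a5_fk_zero (hk : n ≤ k + 1) (s : Fin n) : fk k s = 0 ↔ (s : ℕ) = 0 := by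
  rw [← a5_fk hk s]
  constructor
  · intro h
    rw [h]
    rfl
  · intro h
    exact Fin.ext h

theorem a5_lm (hk : n ≤ k + 1) (s : Fin n) :
    lm n d k s = Finsupp.single (s, 0) (d - 1) + Finsupp.single (s, fk k s) 1 := by
  ext p
  have h1 : lm n d k s p = (if p = (s, 0) then d - 1 else 0) +
      if p.1 = s ∧ (p.2 : ℕ) = (s : ℕ) then 1 else 0 := rfl
  have h2 : (p.1 = s ∧ (p.2 : ℕ) = (s : ℕ)) ↔ p = (s, fk k s) := by
    constructor
    · rintro ⟨h3, h4⟩
      exact Prod.ext h3 (Fin.ext (h4.trans (a5_fk hk s).symm))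
    · rintro rfl
      exact ⟨rfl, a5_fk hk s⟩
  rw [h1, Finsupp.add_apply, Finsupp.single_apply, Finsupp.single_apply]
  congr 1
  · by_cases h : p = (s, 0)
    · rw [if_pos h, if_pos h.symm]
    · rw [if_neg h, if_neg (fun h' => h h'.symm)]
  · by_cases h : p = (s, fk k s)
    · rw [if_pos (h2.2 h), if_pos h.symm]
    · rw [if_neg (fun h' => h (h2.1 h')), if_neg (fun h' => h h'.symm)]

theorem a5_xd_add (μ μ' : JV n k →₀ ℕ) : xd (μ + μ') = xd μ + xd μ' := by
  unfold xd
  rw [← Finset.sum_add_distrib]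
  exact Finset.sum_congr rfl fun p _ => rfl

theorem a5_xd_single (s : Fin n) (q : Fin (k + 1)) (c : ℕ) :
    xd (Finsupp.single ((s, q) : JV n k) c) = if q = 0 then c else 0 := by
  unfold xd
  rw [Finset.sum_eq_single s]
  · rw [Finsupp.single_apply]
    by_cases h : q = 0
    · rw [if_pos h, if_pos (by rw [h])]
    · rw [if_neg h, if_neg]
      intro h'
      exact h (congrArg Prod.snd h')
  · intro b _ hb
    rw [Finsupp.single_apply, if_neg]
    intro h'
    exact hb (congrArg Prod.fst h').symm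
  · intro h
    exact absurd (Finset.mem_univ s) h

theorem a5_jw_single (p : JV n k) (c : ℕ) : H53V.jw (Finsupp.single p c) = (p.2 : ℕ) * c := by
  unfold H53V.jw
  rw [Finset.sum_eq_single p]
  · rw [Finsupp.single_eq_same]
  · intro b _ hb
    rw [Finsupp.single_apply, if_neg (fun h => hb h.symm), mul_zero]
  · intro h
    exact absurd (Finset.mem_univ p) h

theorem a5_xd_lm (hk : n ≤ k + 1) (s : Fin n) :
    xd (lm n d k s) = (d - 1) + if (s : ℕ) = 0 then 1 else 0 := by
  rw [a5_lm hk, a5_xd_add, a5_xd_single, a5_xd_single, if_pos rfl]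
  congr 1
  by_cases h : (s : ℕ) = 0
  · rw [if_pos h, if_pos ((a5_fk_zero hk s).2 h)]
  · rw [if_neg h, if_neg (fun h' => h ((a5_fk_zero hk s).1 h'))]

theorem a5_jw_lm (hk : n ≤ k + 1) (s : Fin n) : H53V.jw (lm n d k s) = (s : ℕ) := by
  rw [a5_lm hk, er2_jw_add, a5_jw_single, a5_jw_single, mul_one]
  show ((0 : Fin (k + 1)) : ℕ) * (d - 1) + ((fk k s : Fin (k + 1)) : ℕ) = (s : ℕ)
  rw [a5_fk hk, Fin.val_zero, zero_mul, zero_add]

theorem a5_lead {σ β : Type} [DecidableEq β] (om : σ → ℕ) (T : Finset β) (mm : β → σ →₀ ℕ) (cc : β → ℂ)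
    {b0 : β} (hb0 : b0 ∈ T) (hc : cc b0 ≠ 0)
    (h : ∀ b ∈ T, b ≠ b0 → Finsupp.weight om (mm b) < Finsupp.weight om (mm b0)) :
    Lead om (∑ b ∈ T, monomial (mm b) (cc b)) (mm b0) := by
  classical
  constructor
  · rw [coeff_sum, Finset.sum_eq_single b0]
    · rw [coeff_monomial, if_pos rfl]
      exact hc
    · intro b hb hne
      rw [coeff_monomial, if_neg]
      intro h'
      have h1 := h b hb hne
      rw [h'] at h1
      exact lt_irrefl _ h1
    · intro h'
      exact absurd hb0 h'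
  · intro m' hm'
    rw [mem_support_iff, coeff_sum] at hm'
    obtain ⟨b, hb, hb'⟩ := Finset.exists_ne_zero_of_sum_ne_zero hm'
    rw [coeff_monomial] at hb'
    have h1 : mm b = m' := by
      by_contra h2
      exact hb' (if_neg h2)
    by_cases h2 : b = b0
    · left
      rw [← h1, h2]
    · right
      rw [← h1]
      exact h b hb h2

theorem a5_om_ne {b : Fin n} (hb : (b : ℕ) ≠ 0) : omA n d k (b, 0) = 0 := by
  unfold omA
  rw [if_pos rfl, if_neg hb]

theorem a5_om_zero {b : Fin n} (hb : (b : ℕ) = 0) : omA n d k (b, 0) = 1 := by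
  unfold omA
  rw [if_pos rfl, if_pos hb]

theorem a5_om_jet (hk : n ≤ k + 1) {s : Fin n} (hs : (s : ℕ) ≠ 0) (b : Fin n) :
    omA n d k (b, fk k s) = if b = s then d + 1 else 0 := by
  unfold omA
  have h1 : ¬ fk k s = 0 := fun h => hs ((a5_fk_zero hk s).1 h)
  rw [if_neg h1]
  by_cases h : b = s
  · rw [if_pos h, if_pos]
    rw [h]
    exact a5_fk hk s
  · rw [if_neg h, if_neg]
    intro h'
    exact h (Fin.ext (h'.symm.trans (a5_fk hk s)))

/-- PROOF.  `fk k s` has value `s`.  `s = 0`: `fs 0 = 1 + ∑ X (b, 0) ^ d`, `lm 0 = single (0, 0) d` (`ldf`: `d - 1 + 1`), weight `d`; the other terms have weight `0` (`b ≠ 0`, and the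
constant `1`).  `s ≥ 1`: `lm s = (d - 1) single (s, 0) + single (s, s)`, weight `0 + (d + 1)`; the terms `b ≠ s` have weight at most `(d - 1) * 1 + 0`
(`X (b, s)` has weight `0` because `b ≠ s`, `s ≠ 0`).  Coefficient `d ≠ 0` (`1` for `s = 0`). -/
theorem lead_fs (hd : 1 ≤ d) (hk : n ≤ k + 1) (s : Fin n) :
    Lead (omA n d k) (fs n d k (fk k s)) (lm n d k s) := by
  classical
  by_cases hs : (s : ℕ) = 0
  · have h0 : fk k s = 0 := (a5_fk_zero hk s).2 hs
    have e1 : fs n d k (fk k s) = ∑ o : Option (Fin n),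
        monomial (o.elim 0 fun b => Finsupp.single ((b, 0) : JV n k) d) (1 : ℂ) := by
      rw [Fintype.sum_option, h0]
      unfold fs
      rw [if_pos rfl]
      congr 1
      refine Finset.sum_congr rfl fun b _ => ?_
      rw [X_pow_eq_monomial]
      rfl
    have e2 : lm n d k s = (some s).elim (0 : JV n k →₀ ℕ) fun b => Finsupp.single ((b, 0) : JV n k) d := by
      show lm n d k s = Finsupp.single ((s, 0) : JV n k) d
      rw [a5_lm hk, h0, ← Finsupp.single_add, Nat.sub_add_cancel hd]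
    have hw : ∀ b : Fin n, Finsupp.weight (omA n d k) (Finsupp.single ((b, 0) : JV n k) d) =
        if (b : ℕ) = 0 then d else 0 := by
      intro b
      rw [Finsupp.weight_single, smul_eq_mul]
      by_cases hb : (b : ℕ) = 0
      · rw [if_pos hb, a5_om_zero hb, mul_one]
      · rw [if_neg hb, a5_om_ne hb, mul_zero]
    rw [e1, e2]
    refine a5_lead (omA n d k) Finset.univ
      (fun o : Option (Fin n) => o.elim 0 fun b => Finsupp.single ((b, 0) : JV n k) d)
      (fun _ => 1) (Finset.mem_univ (some s)) one_ne_zero ?_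
    rintro (_ | b) - hne
    · show Finsupp.weight (omA n d k) 0 < Finsupp.weight (omA n d k) (Finsupp.single ((s, 0) : JV n k) d)
      rw [map_zero, hw, if_pos hs]
      exact hd
    · show Finsupp.weight (omA n d k) (Finsupp.single ((b, 0) : JV n k) d) <
        Finsupp.weight (omA n d k) (Finsupp.single ((s, 0) : JV n k) d)
      have hb : (b : ℕ) ≠ 0 := by
        intro hb
        apply hne
        rw [Fin.ext (hb.trans hs.symm)]
      rw [hw, hw, if_pos hs, if_neg hb]
      exact hd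
  · have h0 : ¬ fk k s = 0 := fun h => hs ((a5_fk_zero hk s).1 h)
    have e1 : fs n d k (fk k s) = ∑ b : Fin n,
        monomial (Finsupp.single ((b, 0) : JV n k) (d - 1) + Finsupp.single ((b, fk k s) : JV n k) 1) (d : ℂ) := by
      unfold fs
      rw [if_neg h0]
      refine Finset.sum_congr rfl fun b _ => ?_
      have e3 : (X ((b, fk k s) : JV n k) : MvPolynomial (JV n k) ℂ) =
          monomial (Finsupp.single ((b, fk k s) : JV n k) 1) 1 := rfl
      rw [X_pow_eq_monomial, e3, monomial_mul, C_mul_monomial, mul_one, mul_one]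
    have hw : ∀ b : Fin n, Finsupp.weight (omA n d k)
        (Finsupp.single ((b, 0) : JV n k) (d - 1) + Finsupp.single ((b, fk k s) : JV n k) 1) =
        (d - 1) * omA n d k (b, 0) + if b = s then d + 1 else 0 := by
      intro b
      rw [map_add, Finsupp.weight_single, Finsupp.weight_single, smul_eq_mul, one_smul, a5_om_jet hk hs]
    rw [e1, a5_lm hk]
    refine a5_lead (omA n d k) Finset.univ
      (fun b : Fin n => Finsupp.single ((b, 0) : JV n k) (d - 1) + Finsupp.single ((b, fk k s) : JV n k) 1)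
      (fun _ => (d : ℂ)) (Finset.mem_univ s) (Nat.cast_ne_zero.2 (by omega)) ?_
    intro b _ hb
    show Finsupp.weight (omA n d k)
        (Finsupp.single ((b, 0) : JV n k) (d - 1) + Finsupp.single ((b, fk k s) : JV n k) 1) <
      Finsupp.weight (omA n d k)
        (Finsupp.single ((s, 0) : JV n k) (d - 1) + Finsupp.single ((s, fk k s) : JV n k) 1)
    rw [hw, hw, if_pos rfl, if_neg hb, add_zero]
    have h3 : omA n d k (b, 0) ≤ 1 := by
      by_cases hb0 : (b : ℕ) = 0
      · rw [a5_om_zero hb0]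
      · rw [a5_om_ne hb0]
        exact zero_le_one
    have h4 : (d - 1) * omA n d k (b, 0) ≤ (d - 1) * 1 := Nat.mul_le_mul_left _ h3
    omega

/-- PROOF.  Directly from the definitions: `xd (lm s) = d - 1` for `s ≥ 1` and `d` for `s = 0`; `jw (lm s) = s`. -/
theorem lm_bi (hd : 1 ≤ d) (hk : n ≤ k + 1) (s : Fin n) :
    xd (lm n d k s) = (if (s : ℕ) = 0 then d else d - 1) ∧ H53V.jw (lm n d k s) = (s : ℕ) := by
  refine ⟨?_, a5_jw_lm hk s⟩
  rw [a5_xd_lm hk]
  by_cases h : (s : ℕ) = 0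
  · rw [if_pos h, if_pos h]
    omega
  · rw [if_neg h, if_neg h, add_zero]

/-- The bidegrees of the `u s` over any ring: `er2_G_Fx` (Lib/H53V/ER2.lean: every monomial has `jw = i`, `xd + jd ≤ d`), `er2_jd_pos`. -/
theorem u_bi {R : Type*} [CommRing R] (a : Idx n d → R) (hk : n ≤ k + 1) (s : Fin n) :
    ∀ ν ∈ (uR a (s : ℕ) : MvPolynomial (JV n k) R).support,
      xd ν ≤ xd (lm n d k s) ∧ H53V.jw ν = (s : ℕ) := by
  intro ν hν
  obtain ⟨h1, h2⟩ := er2_G_Fx a (s : ℕ) ν hν
  refine ⟨?_, h1⟩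
  rw [a5_xd_lm hk]
  by_cases h : (s : ℕ) = 0
  · rw [if_pos h]
    omega
  · rw [if_neg h]
    have h3 := er2_jd_pos (μ := ν) (by omega)
    omega

end Pool.Agent.H89X
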