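import Pool.Agent.Lib.H89X.AD
import Pool.Agent.Lib.H89T.N2

set_option autoImplicit false

/-!
CHUNK A6 (M, nine small lemmas).  Bidegrees: `BiK A m P` (H53V/D0): every monomial of `P` has `xd ≤ A` and `jw = m`.
The model for all of them is Lib/H89T/N2.lean (`HasMon.mul`, ..., `HasMon.NN`); `xd_add` is there, `er2_jw_add` in
Lib/H53V/ER2.lean.
-/

open MvPolynomial

namespace Pool.Agent.H89X

open Pool.Agent.H89T Pool.Agent.H67T Pool.Agent.H53U Pool.Agent.H53V Pool.Agent.H44K

variable {n k : ℕ} {R : Type*} [CommRing R]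

/-- PROOF.  Termwise: a variable of order `l ≥ 1` contributes `1` to `jd` and `l` to `jw`. -/
theorem jd_le_jw (ν : JV n k →₀ ℕ) : jd ν ≤ H53V.jw ν := by
  unfold jd H53V.jw
  refine Finset.sum_le_sum fun p _ => ?_
  split_ifs with h
  · exact Nat.zero_le _
  · have h1 : 1 ≤ (p.2 : ℕ) := by
      by_contra h2
      have h3 : (p.2 : ℕ) = 0 := by omega
      exact h (Fin.ext h3)
    calc ν p = 1 * ν p := (one_mul _).symm
      _ ≤ (p.2 : ℕ) * ν p := Nat.mul_le_mul_right _ h1

/-- PROOF.  Contained in `Mon n k A m`, `Mon_finite` (Lib/H89T/N2.lean). -/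
theorem bi_finite (n k A m : ℕ) : {ν : JV n k →₀ ℕ | xd ν ≤ A ∧ H53V.jw ν = m}.Finite := by
  refine (Mon_finite n k A m).subset fun ν hν => ?_
  exact ⟨hν.1, (jd_le_jw ν).trans hν.2.le⟩

theorem bi_mono {A A' m : ℕ} {P : MvPolynomial (JV n k) R} (h : BiK A m P) (hA : A ≤ A') :
    BiK A' m P := by
  intro μ hμ
  exact ⟨(h μ hμ).1.trans hA, (h μ hμ).2⟩

theorem bi_mul {A m A' m' : ℕ} {P Q : MvPolynomial (JV n k) R} (hP : BiK A m P)
    (hQ : BiK A' m' Q) : BiK (A + A') (m + m') (P * Q) := by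
  classical
  intro μ hμ
  obtain ⟨a, ha, b, hb, rfl⟩ := Finset.mem_add.mp (support_mul _ _ hμ)
  rw [xd_add, er2_jw_add, (hP a ha).2, (hQ b hb).2]
  exact ⟨add_le_add (hP a ha).1 (hQ b hb).1, rfl⟩

theorem bi_add {A m : ℕ} {P Q : MvPolynomial (JV n k) R} (hP : BiK A m P)
    (hQ : BiK A m Q) : BiK A m (P + Q) := by
  classical
  intro μ hμ
  rcases Finset.mem_union.mp (support_add hμ) with h | h
  · exact hP μ h
  · exact hQ μ h

theorem a6_zero {A m : ℕ} : BiK A m (0 : MvPolynomial (JV n k) R) := by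
  intro μ hμ
  simp at hμ

theorem bi_sum {ι : Type*} (s : Finset ι) {A m : ℕ} {P : ι → MvPolynomial (JV n k) R}
    (h : ∀ i ∈ s, BiK A m (P i)) : BiK A m (∑ i ∈ s, P i) := by
  classical
  induction s using Finset.induction_on with
  | empty => simpa using a6_zero
  | insert a s ha ih =>
    rw [Finset.sum_insert ha]
    exact bi_add (h a (Finset.mem_insert_self _ _))
      (ih fun i hi => h i (Finset.mem_insert_of_mem hi))

theorem bi_smul {A m : ℕ} (c : R) {P : MvPolynomial (JV n k) R} (h : BiK A m P) :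
    BiK A m (c • P) := by
  intro μ hμ
  exact h μ (support_smul hμ)

theorem bi_monomial (ν : JV n k →₀ ℕ) (c : R) : BiK (xd ν) (H53V.jw ν) (monomial ν c) := by
  intro μ hμ
  have h := Finset.mem_singleton.mp (support_monomial_subset hμ)
  subst h
  exact ⟨le_refl _, rfl⟩

theorem a6_one : BiK 0 0 (1 : MvPolynomial (JV n k) R) := by
  have h := bi_monomial (n := n) (k := k) (0 : JV n k →₀ ℕ) (1 : R)
  have h1 : xd (0 : JV n k →₀ ℕ) = 0 := by simp [xd]
  have h2 : H53V.jw (0 : JV n k →₀ ℕ) = 0 := by simp [H53V.jw]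
  rw [h1, h2] at h
  exact h

/-- PROOF.  `bi_mul`, induction. -/
theorem bi_pow {A m : ℕ} {P : MvPolynomial (JV n k) R} (h : BiK A m P) (q : ℕ) :
    BiK (q * A) (q * m) (P ^ q) := by
  induction q with
  | zero => simpa using a6_one (n := n) (k := k) (R := R)
  | succ q ih =>
    rw [pow_succ, Nat.succ_mul, Nat.succ_mul]
    exact bi_mul ih h

theorem bi_prod {ι : Type*} (s : Finset ι) {A m : ι → ℕ} {P : ι → MvPolynomial (JV n k) R}
    (h : ∀ i ∈ s, BiK (A i) (m i) (P i)) : BiK (∑ i ∈ s, A i) (∑ i ∈ s, m i) (∏ i ∈ s, P i) := by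
  classical
  induction s using Finset.induction_on with
  | empty => simpa using a6_one (n := n) (k := k) (R := R)
  | insert a s ha ih =>
    rw [Finset.sum_insert ha, Finset.sum_insert ha, Finset.prod_insert ha]
    exact bi_mul (h a (Finset.mem_insert_self _ _))
      (ih fun i hi => h i (Finset.mem_insert_of_mem hi))

theorem a6_jw_single (p : JV n k) : H53V.jw (Finsupp.single p 1 : JV n k →₀ ℕ) = (p.2 : ℕ) := by
  unfold H53V.jw
  rw [Finset.sum_eq_single p]
  · rw [Finsupp.single_eq_same, mul_one]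
  · intro q _ hq
    rw [Finsupp.single_eq_of_ne hq, mul_zero]
  · intro h
    exact absurd (Finset.mem_univ _) h

theorem a6_X (p : JV n k) (hp : p.2 ≠ 0) :
    BiK 0 (p.2 : ℕ) (X p : MvPolynomial (JV n k) R) := by
  have h := bi_monomial (n := n) (k := k) (Finsupp.single p 1) (1 : R)
  rw [a6_jw_single] at h
  have h1 : xd (Finsupp.single p 1 : JV n k →₀ ℕ) = 0 := by
    refine Finset.sum_eq_zero fun b _ => ?_
    rw [Finsupp.single_eq_of_ne]
    rintro rfl
    exact hp rfl
  rw [h1] at h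
  exact h

/-- PROOF.  As `HasMon.NN` (Lib/H89T/N2.lean): the derivation replaces one variable `x_(b,l)` by `(l + 1) x_(b,l+1)` (or by `0`, if `l = k`): `jw` grows by exactly `1`, `xd` does not grow. -/
theorem bi_NN {A m : ℕ} {P : MvPolynomial (JV n k) R} (h : BiK A m P) :
    BiK A (m + 1) (NN n k R P) := by
  classical
  rw [P.as_sum, map_sum]
  refine bi_sum _ fun ν hν => ?_
  obtain ⟨h1, h2⟩ := h ν hν
  rw [Pool.Agent.H89T.NN, mkDerivation_monomial]
  refine bi_smul _ ?_
  rw [Finsupp.sum]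
  refine bi_sum _ fun p hp => ?_
  have hp0 : ν p ≠ 0 := Finsupp.mem_support_iff.mp hp
  have hle : Finsupp.single p 1 ≤ ν := by
    rw [Finsupp.single_le_iff]
    omega
  have hsum : ν - Finsupp.single p 1 + Finsupp.single p 1 = ν := tsub_add_cancel_of_le hle
  rw [smul_eq_mul]
  have hx : xd (ν - Finsupp.single p 1) + xd (Finsupp.single p 1) = xd ν := by
    rw [← xd_add, hsum]
  have hj : H53V.jw (ν - Finsupp.single p 1) + (p.2 : ℕ) = H53V.jw ν := by
    rw [← a6_jw_single p, ← er2_jw_add, hsum]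
  split_ifs with h'
  · have hX : BiK 0 (((⟨(p.2 : ℕ) + 1, by omega⟩ : Fin (k + 1)) : ℕ))
        (X (p.1, (⟨(p.2 : ℕ) + 1, by omega⟩ : Fin (k + 1))) : MvPolynomial (JV n k) R) :=
      a6_X (p.1, (⟨(p.2 : ℕ) + 1, by omega⟩ : Fin (k + 1))) (by
        intro h''
        have := congrArg Fin.val h''
        simp at this)
    have h3 := bi_mul (bi_monomial (n := n) (k := k) (ν - Finsupp.single p 1) ((ν p : ℕ) : R))
      (bi_smul ((((p.2 : ℕ) + 1 : ℕ) : R)) hX)
    have hC : ((p.2 : ℕ) + 1) • (X (p.1, (⟨(p.2 : ℕ) + 1, by omega⟩ : Fin (k + 1))) :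
        MvPolynomial (JV n k) R) = (((p.2 : ℕ) + 1 : ℕ) : R) •
          X (p.1, (⟨(p.2 : ℕ) + 1, by omega⟩ : Fin (k + 1))) := by
      rw [Nat.cast_smul_eq_nsmul]
    rw [hC]
    have e1 : H53V.jw (ν - Finsupp.single p 1) + ((p.2 : ℕ) + 1) = m + 1 := by omega
    have e2 : xd (ν - Finsupp.single p 1) + 0 ≤ A := by omega
    have h4 := bi_mono h3 e2
    have h5 : H53V.jw (ν - Finsupp.single p 1) +
        ((⟨(p.2 : ℕ) + 1, by omega⟩ : Fin (k + 1)) : ℕ) = m + 1 := e1
    rw [h5] at h4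
    exact h4
  · rw [mul_zero]
    exact a6_zero

/-- PROOF.  Induction, `Function.iterate_succ_apply'`. -/
theorem bi_NN_iterate {A m : ℕ} {P : MvPolynomial (JV n k) R} (h : BiK A m P) (l : ℕ) :
    BiK A (m + l) ((NN n k R)^[l] P) := by
  induction l with
  | zero => exact h
  | succ l ih =>
    rw [Function.iterate_succ_apply', ← add_assoc]
    exact bi_NN ih

/-- A multiple of a polynomial of bidegree `(A, m)` belongs to a submodule which contains the multiples of the monomials.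
PROOF.  `A5_smul_mem` in Lib/H89T/A5.lean. -/
theorem bi_smul_mem {A m : ℕ} {N : Submodule R (MvPolynomial (JV n k) R)} {t : R}
    (h : ∀ ν : JV n k →₀ ℕ, xd ν ≤ A → H53V.jw ν = m → t • monomial ν (1 : R) ∈ N)
    {P : MvPolynomial (JV n k) R} (hP : BiK A m P) : t • P ∈ N := by
  rw [P.as_sum, Finset.smul_sum]
  refine Submodule.sum_mem _ fun ν hν => ?_
  have h1 : t • monomial ν (coeff ν P) = coeff ν P • (t • monomial ν (1 : R)) := by
    rw [smul_monomial, smul_monomial, smul_monomial]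
    congr 1
    simp [mul_comm]
  rw [h1]
  exact Submodule.smul_mem _ _ (h ν (hP ν hν).1 (hP ν hν).2)

end Pool.Agent.H89X
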