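import Pool.Agent.Lib.H89X.A2
import Pool.Agent.Lib.H89X.A1
import Pool.Agent.Lib.H89X.A3
import Pool.Agent.Lib.H89X.A4
import Pool.Agent.Lib.H89X.A5
import Pool.Agent.Lib.H89X.A6

set_option autoImplicit false

/-!
CHUNK A8 (M).  The powers of the ideals and the normal monomials span generically.
-/

open MvPolynomial

namespace Pool.Agent.H89X

open Pool.Agent.H89T Pool.Agent.H67T Pool.Agent.H53U Pool.Agent.H53V Pool.Agent.H44K

variable {n d k : ℕ}

/-- The power of the ideal and the normal monomials. -/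
noncomputable def JW (n d k i q A m : ℕ) : Submodule (RR n d) (MvPolynomial (JV n k) (RR n d)) :=
  (UI k (gen n d) i ^ q).restrictScalars (RR n d) ⊔
    Submodule.span (RR n d) ((fun ν : JV n k →₀ ℕ => monomial ν (1 : RR n d)) '' Nor n d k i q A m)

/-- PROOF.  A monomial `ν` of `p` has `jd ν = e`, so it is not in the support of `f - p`; `coeff ν f = coeff ν p ≠ 0`. -/
theorem Low.support_subset {e : ℕ} {f p : MvPolynomial (JV n k) ℂ} (h : Low e f p) :
    p.support ⊆ f.support := by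
  intro ν hν
  have h1 := h.hom ν hν
  have h2 : coeff ν (f - p) = 0 := by
    by_contra h3
    have h4 := h.rest ν (mem_support_iff.2 h3)
    omega
  rw [coeff_sub, sub_eq_zero] at h2
  rw [mem_support_iff, h2]
  exact mem_support_iff.1 hν

/-- The products of the generators.
PROOF.  `u s ^ c s ∈ UI k a i ^ c s` (for `s ≥ i` because `c s = 0`), `Ideal.prod_mem_prod`, `Finset.prod_pow_eq_pow_sum`, `Ideal.mul_mem_left`. -/
theorem prod_mem_UI {R : Type*} [CommRing R] (a : Idx n d → R) {i q : ℕ} {c : Fin n → ℕ}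
    (hc : ∀ s : Fin n, i ≤ (s : ℕ) → c s = 0) (hq : ∑ s, c s = q)
    (f : MvPolynomial (JV n k) R) :
    f * ∏ s : Fin n, uR a (s : ℕ) ^ c s ∈ UI k a i ^ q := by
  classical
  refine Ideal.mul_mem_left _ f ?_
  rw [← hq, ← Finset.prod_pow_eq_pow_sum]
  refine Ideal.prod_mem_prod fun s _ => ?_
  by_cases hs : i ≤ (s : ℕ)
  · rw [hc s hs, pow_zero, pow_zero, Ideal.one_eq_top]
    exact Submodule.mem_top
  · have h1 : (uR a (s : ℕ) : MvPolynomial (JV n k) R) ∈ UI k a i :=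
      Ideal.subset_span ⟨(⟨(s : ℕ), by omega⟩ : Fin i), rfl⟩
    exact Ideal.pow_mem_pow h1 _

theorem a8_fk (hk : n ≤ k + 1) (s : Fin n) : ((fk k s : Fin (k + 1)) : ℕ) = (s : ℕ) := by
  have h1 := s.2
  unfold fk
  rw [dif_pos (by omega)]

theorem a8_xd_sum {ι : Type*} (s : Finset ι) (f : ι → JV n k →₀ ℕ) : xd (∑ i ∈ s, f i) = ∑ i ∈ s, xd (f i) := by
  unfold xd
  rw [Finset.sum_comm]
  exact Finset.sum_congr rfl fun b _ => Finsupp.finsetSum_apply _ _ _

theorem a8_jw_sum {ι : Type*} (s : Finset ι) (f : ι → JV n k →₀ ℕ) :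
    H53V.jw (∑ i ∈ s, f i) = ∑ i ∈ s, H53V.jw (f i) := by
  unfold H53V.jw
  rw [Finset.sum_comm]
  refine Finset.sum_congr rfl fun b _ => ?_
  rw [Finsupp.finsetSum_apply, Finset.mul_sum]

theorem a8_xd_smul (c : ℕ) (f : JV n k →₀ ℕ) : xd (c • f) = c * xd f := by
  unfold xd
  rw [Finset.mul_sum]
  exact Finset.sum_congr rfl fun b _ => by rw [Finsupp.smul_apply, smul_eq_mul]

theorem a8_jw_smul (c : ℕ) (f : JV n k →₀ ℕ) : H53V.jw (c • f) = c * H53V.jw f := by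
  unfold H53V.jw
  rw [Finset.mul_sum]
  exact Finset.sum_congr rfl fun b _ => by rw [Finsupp.smul_apply, smul_eq_mul]; ring

theorem a8_jw_add (f f' : JV n k →₀ ℕ) : H53V.jw (f + f') = H53V.jw f + H53V.jw f' := by
  unfold H53V.jw
  rw [← Finset.sum_add_distrib]
  exact Finset.sum_congr rfl fun b _ => by rw [Finsupp.add_apply, mul_add]

theorem a8_xd_add (f f' : JV n k →₀ ℕ) : xd (f + f') = xd f + xd f' := by
  unfold xd
  rw [← Finset.sum_add_distrib]
  exact Finset.sum_congr rfl fun b _ => by rw [Finsupp.add_apply]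

/-- The multiples of the products. -/
theorem a8_bi (hd : 1 ≤ d) (hk : n ≤ k + 1) {A m : ℕ} (μ : JV n k →₀ ℕ) (c : Fin n → ℕ)
    (h1 : xd (μ + ∑ s, c s • lm n d k s) ≤ A) (h2 : H53V.jw (μ + ∑ s, c s • lm n d k s) = m) :
    BiK A m (monomial μ 1 * ∏ s : Fin n, uR (gen n d) (s : ℕ) ^ c s : MvPolynomial (JV n k) (RR n d)) := by
  have h3 := bi_mul (bi_monomial (R := RR n d) μ 1) (bi_prod Finset.univ (A := fun s : Fin n => c s * xd (lm n d k s))
    (m := fun s : Fin n => c s * (s : ℕ)) (P := fun s : Fin n => uR (gen n d) (s : ℕ) ^ c s)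
    fun s _ => bi_pow (A := xd (lm n d k s)) (m := (s : ℕ)) (u_bi (gen n d) hk s) (c s))
  have h4 : H53V.jw μ + ∑ s : Fin n, c s * (s : ℕ) = m := by
    rw [← h2, a8_jw_add, a8_jw_sum]
    congr 1
    exact Finset.sum_congr rfl fun s _ => by rw [a8_jw_smul, (lm_bi hd hk s).2]
  have h5 : xd μ + ∑ s : Fin n, c s * xd (lm n d k s) ≤ A := by
    refine le_trans (le_of_eq ?_) h1
    rw [a8_xd_add, a8_xd_sum]
    congr 1
    exact Finset.sum_congr rfl fun s _ => by rw [a8_xd_smul]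
  rw [h4] at h3
  exact bi_mono h3 h5

theorem a8_low (hd : 1 ≤ d) (hk : n ≤ k + 1) (μ : JV n k →₀ ℕ) (c : Fin n → ℕ) :
    Low (jd μ + ∑ s : Fin n, c s * (if fk k s = 0 then 0 else 1))
      (map (eval (a1 n d)) (monomial μ 1 * ∏ s : Fin n, uR (gen n d) (s : ℕ) ^ c s : MvPolynomial (JV n k) (RR n d)))
      (monomial μ 1 * ∏ s : Fin n, fs n d k (fk k s) ^ c s) := by
  rw [map_mul, map_monomial, map_one, map_prod]
  refine Low.mul (Low.monomial μ 1) (Low.prod _ fun s _ => ?_)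
  rw [map_pow]
  have h1 := low_u (n := n) (d := d) hd (fk k s)
  rw [a8_fk hk s] at h1
  exact h1.pow (c s)

/-- The family. -/
theorem a8_family (hd : 1 ≤ d) (hk : n ≤ k + 1) (i q A m : ℕ) :
    ∃ (I : Type) (w : I → MvPolynomial (JV n k) (RR n d)) (p : I → MvPolynomial (JV n k) ℂ) (g : I → ℕ),
      (∀ j, w j ∈ JW n d k i q A m) ∧ (∀ j, ∀ ν ∈ (w j).support, xd ν ≤ A ∧ H53V.jw ν = m) ∧
      (∀ j, Low (g j) (map (eval (a1 n d)) (w j)) (p j)) ∧
      ∀ ν : JV n k →₀ ℕ, xd ν ≤ A ∧ H53V.jw ν = m → ∃ j, Lead (omA n d k) (p j) ν := by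
  classical
  refine ⟨{ν : JV n k →₀ ℕ // ν ∈ Nor n d k i q A m} ⊕
      {x : (JV n k →₀ ℕ) × (Fin n → ℕ) // (∀ s : Fin n, i ≤ (s : ℕ) → x.2 s = 0) ∧ ∑ s, x.2 s = q ∧
        xd (x.1 + ∑ s, x.2 s • lm n d k s) ≤ A ∧ H53V.jw (x.1 + ∑ s, x.2 s • lm n d k s) = m},
    Sum.elim (fun ν => monomial ν.1 1) (fun x => monomial x.1.1 1 * ∏ s : Fin n, uR (gen n d) (s : ℕ) ^ x.1.2 s),
    Sum.elim (fun ν => monomial ν.1 1) (fun x => monomial x.1.1 1 * ∏ s : Fin n, fs n d k (fk k s) ^ x.1.2 s),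
    Sum.elim (fun ν => jd ν.1) (fun x => jd x.1.1 + ∑ s : Fin n, x.1.2 s * (if fk k s = 0 then 0 else 1)),
    ?_, ?_, ?_, ?_⟩
  · rintro (⟨ν, hν⟩ | ⟨⟨μ, c⟩, h1, h2, h3, h4⟩)
    · exact Submodule.mem_sup_right (Submodule.subset_span ⟨ν, hν, rfl⟩)
    · refine Submodule.mem_sup_left ?_
      exact prod_mem_UI (gen n d) h1 h2 (monomial μ 1)
  · rintro (⟨ν, hν⟩ | ⟨⟨μ, c⟩, h1, h2, h3, h4⟩)
    · intro ν' hν'
      have h5 := Finset.mem_singleton.1 (support_monomial_subset hν')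
      rw [h5]
      exact ⟨hν.1, hν.2.1⟩
    · intro ν' hν'
      exact a8_bi hd hk μ c h3 h4 ν' hν'
  · rintro (⟨ν, hν⟩ | ⟨⟨μ, c⟩, h1, h2, h3, h4⟩)
    · show Low (jd ν) (map (eval (a1 n d)) (monomial ν 1)) (monomial ν 1)
      rw [map_monomial, map_one]
      exact Low.monomial ν 1
    · exact a8_low hd hk μ c
  · rintro ν ⟨h1, h2⟩
    by_cases hν : ν ∈ Nor n d k i q A m
    · exact ⟨Sum.inl ⟨ν, hν⟩, Lead.monomial _ ν one_ne_zero⟩
    · have h3 : ∃ c : Fin n → ℕ, (∀ s : Fin n, i ≤ (s : ℕ) → c s = 0) ∧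
          ∑ s, c s = q ∧ ∀ p, ∑ s, c s * ldf n d k s p ≤ ν p := by
        by_contra h4
        exact hν ⟨h1, h2, h4⟩
      obtain ⟨c, hc, hq, hle⟩ := h3
      have h4 : ∑ s, c s • lm n d k s ≤ ν := by
        intro p
        refine le_trans (le_of_eq ?_) (hle p)
        rw [Finsupp.finsetSum_apply]
        exact Finset.sum_congr rfl fun s _ => by rw [Finsupp.smul_apply, smul_eq_mul]; rfl
      have h5 : ν - ∑ s, c s • lm n d k s + ∑ s, c s • lm n d k s = ν := tsub_add_cancel_of_le h4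
      refine ⟨Sum.inr ⟨(ν - ∑ s, c s • lm n d k s, c), hc, hq, ?_, ?_⟩, ?_⟩
      · dsimp only
        rw [h5]
        exact h1
      · dsimp only
        rw [h5]
        exact h2
      · have h6 := Lead.mul (Lead.monomial (omA n d k) (ν - ∑ s, c s • lm n d k s) (c := 1) one_ne_zero)
          (Lead.prod Finset.univ (f := fun s : Fin n => fs n d k (fk k s) ^ c s)
            (m := fun s : Fin n => c s • lm n d k s) fun s _ => (lead_fs hd hk s).pow (c s))
        rw [h5] at h6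
        exact h6

/-- PROOF.  `transfer` (A3) with `a = a1 n d`, `s` = all exponents of bidegree `(A, m)` (`bi_finite`), `N = JW`, `vd = jd`, `I = Nor ⊕ {(μ', c) | c s = 0 for s ≥ i, ∑ c = q, the exponent
μ' + ∑ c s • lm s has xd ≤ A and jw = m}`; `w (inl ν) = monomial ν 1 = p (inl ν)`, `w (inr (μ', c)) = monomial μ' 1 * ∏ s, u s ^ c s`,
`p (inr (μ', c)) = monomial μ' 1 * ∏ s, fs (fk k s) ^ c s`, `g = jd ν` and `jd μ' + ∑ c s * (if s = 0 then 0 else 1)` (`low_u` with `Low.mul`, `Low.monomial`, `Low.prod`, `Low.pow`;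
`fk k s` has value `s`; `map` is multiplicative).  Supports: `u_bi`, `bi_mul`, `bi_prod`, `bi_pow`.  `hN`: `prod_mem_UI`.
`hspan`: `span_of_lead` (A4) with `om = omA n d k`: for `ν ∈ Nor` take `monomial ν 1`; otherwise there is `c` as in the definition of `Nor`; then `∑ c s • lm s ≤ ν` (pointwise),
`ν = μ' + ∑ c s • lm s` (`tsub_add_cancel_of_le`) and `p (inr (μ', c))` has the leading monomial `ν` (`Lead.mul`, `Lead.prod`, `Lead.pow`, `lead_fs`); its support is contained in `s` by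
`Low.support_subset` and `support_map_subset`. -/
theorem exists_tW (hd : 1 ≤ d) (hk : n ≤ k + 1) (i q A m : ℕ) :
    ∃ t : RR n d, t ≠ 0 ∧ ∀ ν : JV n k →₀ ℕ, xd ν ≤ A → H53V.jw ν = m →
      t • monomial ν (1 : RR n d) ∈ JW n d k i q A m := by
  classical
  obtain ⟨I, w, p, g, hN, hs, hlow, hmain⟩ := a8_family hd hk i q A m
  obtain ⟨t, ht, h⟩ := transfer (a1 n d) (bi_finite n k A m).toFinset (JW n d k i q A m) jd w p g hN
    (fun i m' hm' => (Set.Finite.mem_toFinset _).2 (hs i m' hm'))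
    (fun i => (hlow i).hom) (fun i => (hlow i).rest)
    (fun m' hm' => span_of_lead {ν : JV n k →₀ ℕ | xd ν ≤ A ∧ H53V.jw ν = m} (omA n d k)
      (Submodule.span ℂ (Set.range p)) (fun ν hν => by
        obtain ⟨j, hj⟩ := hmain ν hν
        refine ⟨p j, Submodule.subset_span ⟨j, rfl⟩, hj, fun ν' hν' => ?_⟩
        exact hs j ν' (support_map_subset _ _ ((hlow j).support_subset hν'))) m'
      ((Set.Finite.mem_toFinset _).1 hm'))
  exact ⟨t, ht, fun ν h1 h2 => h ν ((Set.Finite.mem_toFinset _).2 ⟨h1, h2⟩)⟩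

end Pool.Agent.H89X
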