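import Pool.Agent.Lib.H89X.A7
import Pool.Agent.Lib.H89X.A8

set_option autoImplicit false

/-!
CHUNK A9 (S/M).  Existence of `P`.
-/

open MvPolynomial

namespace Pool.Agent.H89X

open Pool.Agent.H89T Pool.Agent.H67T Pool.Agent.H53U Pool.Agent.H53V Pool.Agent.H44K

/-- PROOF.  `exists_P` (A7) with `L = Σ j : Finset.Icc 2 J, Fin ((j - 1) * r)`, `T (j, l) = N ^ l` (as in `exists_propA`, Lib/H89T/A5.lean), `N (j, l) =` the power `j - 1 - l / r` of
`UI k gen (min j n)`, `κ (j, l) = Nor n d k (min j n) (j - 1 - l / r) A (m + l)` (finite by `bi_finite`), `t` from `exists_tW`.  `N ^ l (monomial ν 1)` has bidegree `(A, m + l)`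
(`bi_NN_iterate`), so `bi_smul_mem` applies.  The sum over `L` is the sum in `CountW` (`Fintype.sum_sigma`, `Finset.sum_coe_sort`, `Finset.sum_range`). -/
theorem exW_of_count {n d r J k A m μ : ℕ} (hd : 1 ≤ d) (hk : n ≤ k + 1)
    (h : CountW n d r J k A m μ) : ExW n d r J k A m μ := by
  classical
  have ht : ∀ x : (Σ j : Finset.Icc 2 J, Fin (((j : ℕ) - 1) * r)), ∃ t : RR n d, t ≠ 0 ∧
      ∀ ν : JV n k →₀ ℕ, xd ν ≤ A → H53V.jw ν = m + (x.2 : ℕ) →
        t • monomial ν (1 : RR n d) ∈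
          JW n d k (min (x.1 : ℕ) n) ((x.1 : ℕ) - 1 - (x.2 : ℕ) / r) A (m + (x.2 : ℕ)) :=
    fun x => exists_tW hd hk _ _ _ _
  choose t ht0 ht using ht
  obtain ⟨P, hP0, hPs, hPT⟩ := exists_P (n := n) (d := d) (k := k) (A := A) (m := m) (μ := μ)
    (L := Σ j : Finset.Icc 2 J, Fin (((j : ℕ) - 1) * r))
    (fun x => (NN n k (RR n d)).toLinearMap ^ (x.2 : ℕ))
    (fun x => (UI k (gen n d) (min (x.1 : ℕ) n) ^ ((x.1 : ℕ) - 1 - (x.2 : ℕ) / r)).restrictScalars (RR n d))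
    (fun x => Nor n d k (min (x.1 : ℕ) n) ((x.1 : ℕ) - 1 - (x.2 : ℕ) / r) A (m + (x.2 : ℕ)))
    (fun x => (bi_finite n k A (m + (x.2 : ℕ))).subset fun ν hν => ⟨hν.1, hν.2.1⟩)
    t ht0
    (by
      intro x ν hν
      have h1 : BiK A (m + (x.2 : ℕ)) ((NN n k (RR n d))^[(x.2 : ℕ)] (monomial ν (1 : RR n d))) := by
        refine bi_NN_iterate ?_ _
        have h2 := bi_mono (bi_monomial ν (1 : RR n d)) hν.1
        rwa [hν.2.1] at h2
      have h3 := bi_smul_mem (ht x) h1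
      have e : ((NN n k (RR n d)).toLinearMap ^ (x.2 : ℕ)) (monomial ν (1 : RR n d)) =
          (NN n k (RR n d))^[(x.2 : ℕ)] (monomial ν 1) := by
        rw [Module.End.pow_apply]
        rfl
      rw [e]
      exact h3)
    (by
      unfold CountW at h
      rw [Fintype.sum_sigma]
      refine lt_of_eq_of_lt ?_ h
      rw [← Finset.sum_coe_sort (Finset.Icc 2 J)]
      refine Finset.sum_congr rfl fun j _ => ?_
      rw [Finset.sum_range])
  refine ⟨P, hP0, hPs, ?_⟩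
  intro j hj hjJ l hl
  have h1 := hPT ⟨⟨j, Finset.mem_Icc.2 ⟨hj, hjJ⟩⟩, ⟨l, hl⟩⟩
  have e : ((NN n k (RR n d)).toLinearMap ^ l) P = (NN n k (RR n d))^[l] P := by
    rw [Module.End.pow_apply]
    rfl
  have h2 : ((NN n k (RR n d)).toLinearMap ^ l) P ∈
    (UI k (gen n d) (min j n) ^ (j - 1 - l / r)).restrictScalars (RR n d) := h1
  rw [e, Submodule.restrictScalars_mem] at h2
  exact h2

end Pool.Agent.H89X
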