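import Pool.Agent.Lib.H89X.B2A

set_option autoImplicit false

/-!
CHUNK B4 (S/M) of H89X, module B.  The number of the bad monomials.
-/

open MvPolynomial

namespace Pool.Agent.H89X

open Pool.Agent.H89T Pool.Agent.H67T Pool.Agent.H53U Pool.Agent.H53V Pool.Agent.H44K

/-- PROOF.  The functions `f : Fin n → ℕ` with `∑ f ≤ a` are in bijection with the functions on `Option (Fin n)` (or `Fin (n + 1)`) with sum `a`; these are counted by `Finset.Nat.card_piAntidiag` or
`Sym.card_sym_fin_eq_multichoose`, `Finset.card_piAntidiag` (stars and bars), or: induction on `n` (split off the value at `0`) with `∑_(i ≤ a) (i + n).choose n = (a + n + 1).choose (n + 1)`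
(`Nat.sum_range_add_choose`, hockey stick). -/
theorem card_simplex (n a : ℕ) : Nat.card {f : Fin n → ℕ // ∑ b, f b ≤ a} = (a + n).choose n := by
  have e : {f : Fin n → ℕ // ∑ b, f b ≤ a} ≃ ((Finset.univ : Finset (Fin (n + 1))).finsuppAntidiag a) :=
    { toFun := fun f => ⟨Finsupp.equivFunOnFinite.symm (Fin.cons (a - ∑ b, f.1 b) f.1), by
        rw [Finset.mem_finsuppAntidiag]
        refine ⟨?_, Finset.subset_univ _⟩
        have h1 : ∑ x, (Finsupp.equivFunOnFinite.symm (Fin.cons (a - ∑ b, f.1 b) f.1 : Fin (n + 1) → ℕ)) x =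
            (a - ∑ b, f.1 b) + ∑ b, f.1 b := by
          rw [Fin.sum_univ_succ]
          rfl
        rw [h1]
        exact Nat.sub_add_cancel f.2⟩
      invFun := fun g => ⟨fun i => g.1 i.succ, by
        have h1 := (Finset.mem_finsuppAntidiag.1 g.2).1
        rw [Fin.sum_univ_succ] at h1
        show ∑ b : Fin n, g.1 b.succ ≤ a
        omega⟩
      left_inv := by
        intro f
        apply Subtype.ext
        funext i
        rfl
      right_inv := by
        intro g
        apply Subtype.ext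
        apply Finsupp.ext
        intro i
        have h1 := (Finset.mem_finsuppAntidiag.1 g.2).1
        rw [Fin.sum_univ_succ] at h1
        refine Fin.cases ?_ (fun j => ?_) i
        · show a - ∑ b : Fin n, g.1 b.succ = g.1 0
          omega
        · rfl }
  rw [Nat.card_congr e, Nat.card_eq_fintype_card, Fintype.card_coe, Finset.card_finsuppAntidiag_nat_eq_choose,
    Finset.card_univ, Fintype.card_fin]
  rw [show n + 1 + a - 1 = a + n from by omega]
  exact Nat.choose_symm_of_eq_add rfl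

theorem b4_jw {n K : ℕ} (ν : JV n K →₀ ℕ) :
    H53V.jw ν = ∑ p : Fin n × Fin K, ((p.2 : ℕ) + 1) * ν (p.1, p.2.succ) := by
  unfold H53V.jw
  rw [Fintype.sum_prod_type, Fintype.sum_prod_type]
  apply Finset.sum_congr rfl
  intro b _
  rw [Fin.sum_univ_succ]
  have h0 : (((b, (0 : Fin (K + 1))) : JV n K).2 : ℕ) * ν (b, 0) = 0 := by
    show ((0 : Fin (K + 1)) : ℕ) * ν (b, 0) = 0
    rw [Fin.val_zero, zero_mul]
  rw [h0, zero_add]
  apply Finset.sum_congr rfl
  intro l _
  show ((l.succ : Fin (K + 1)) : ℕ) * ν (b, l.succ) = _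
  rw [Fin.val_succ]

theorem b4_fin (n K m : ℕ) :
    Finite {μ : Fin n × Fin K → ℕ // ∑ p, ((p.2 : ℕ) + 1) * μ p = m ∧ ¬ Good 1 μ} := by
  have hb : ∀ μ : {μ : Fin n × Fin K → ℕ // ∑ p, ((p.2 : ℕ) + 1) * μ p = m ∧ ¬ Good 1 μ}, ∀ p, μ.1 p < m + 1 := by
    intro μ p
    have h1 := μ.2.1
    have h2 : ((p.2 : ℕ) + 1) * μ.1 p ≤ ∑ p, ((p.2 : ℕ) + 1) * μ.1 p :=
      Finset.single_le_sum (f := fun p : Fin n × Fin K => ((p.2 : ℕ) + 1) * μ.1 p) (fun _ _ => Nat.zero_le _)
        (Finset.mem_univ p)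
    have h3 : μ.1 p ≤ ((p.2 : ℕ) + 1) * μ.1 p := Nat.le_mul_of_pos_left _ (Nat.succ_pos _)
    omega
  refine Finite.of_injective
    (fun μ : {μ : Fin n × Fin K → ℕ // ∑ p, ((p.2 : ℕ) + 1) * μ p = m ∧ ¬ Good 1 μ} =>
      fun p => (⟨μ.1 p, hb μ p⟩ : Fin (m + 1))) ?_
  intro μ μ' h
  apply Subtype.ext
  funext p
  have := congrFun h p
  exact congrArg Fin.val this

/-- PROOF.  `ν ↦ (fun b => ν (b, 0), fun p => ν (p.1, p.2.succ))` is injective from `Bad n K A0 m` into the product of the two finite sets (`xd ν = ∑ ν (b, 0)`,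
`jw ν = ∑_(b, l) (l + 1) * ν (b, l.succ)`: `Fintype.sum_prod_type`, `Fin.sum_univ_succ`); `Nat.card_le_card_of_injective`, `Nat.card_prod`, `card_simplex`; the second set is that of `nbad n K m 1`
(finite: `μ p ≤ m`). -/
theorem ncard_Bad (n K A0 m : ℕ) :
    (Bad n K A0 m).ncard ≤ (A0 + n).choose n * nbad n K m 1 := by
  have hf1 : Finite {f : Fin n → ℕ // ∑ b, f b ≤ A0} := by
    apply Nat.finite_of_card_ne_zero
    rw [card_simplex]
    exact (Nat.choose_pos (Nat.le_add_left n A0)).ne'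
  have hf2 := b4_fin n K m
  rw [← Nat.card_coe_set_eq]
  have h1 : Nat.card (Bad n K A0 m) ≤
      Nat.card ({f : Fin n → ℕ // ∑ b, f b ≤ A0} ×
        {μ : Fin n × Fin K → ℕ // ∑ p, ((p.2 : ℕ) + 1) * μ p = m ∧ ¬ Good 1 μ}) := by
    refine Nat.card_le_card_of_injective
      (fun ν : Bad n K A0 m => (⟨fun b => ν.1 (b, 0), ν.2.1⟩,
        ⟨fun p => ν.1 (p.1, p.2.succ), by rw [← b4_jw]; exact ν.2.2.1, ν.2.2.2⟩)) ?_
    intro ν ν' h
    apply Subtype.ext
    apply Finsupp.ext
    rintro ⟨b, l⟩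
    have e1 := congrArg Subtype.val (congrArg Prod.fst h)
    have e2 := congrArg Subtype.val (congrArg Prod.snd h)
    refine Fin.cases ?_ (fun j => ?_) l
    · exact congrFun e1 b
    · exact congrFun e2 (b, j)
  refine le_trans h1 (le_of_eq ?_)
  rw [Nat.card_prod, card_simplex]
  rfl

/-- PROOF.  A subset of `Bi` (`Bi_finite`). -/
theorem Bad_finite (n K A0 m : ℕ) : (Bad n K A0 m).Finite := by
  refine (Bi_finite n K A0 m).subset ?_
  intro ν hν
  exact ⟨hν.1, hν.2.1⟩

end Pool.Agent.H89X
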