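import Mathlib

set_option autoImplicit false

/-!
CHUNK B5 (S, only Mathlib) of H89X, module B.  More unknowns than equations.
-/

namespace Pool.Agent.H89X

/-- PROOF.  Copy of the proof of `exists_coeffs` in Lib/H89T/A4.lean with a finite type `L` in the place of `Fin q`. -/
theorem exists_coeffsB {R V ι L : Type} [CommRing R] [Nontrivial R] [AddCommGroup V] [Module R V]
    [Fintype ι] [Fintype L] (f : ι → V) (T : L → V →ₗ[R] V) (N : L → Submodule R V)
    (κ : L → Type) [∀ l, Fintype (κ l)] (ν : ∀ l, κ l → V) (t : L → R)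
    (h : ∀ l i, t l • T l (f i) ∈ N l ⊔ Submodule.span R (Set.range (ν l)))
    (hc : ∑ l, Fintype.card (κ l) < Fintype.card ι) :
    ∃ p : ι → R, p ≠ 0 ∧ ∀ l, t l • T l (∑ i, p i • f i) ∈ N l := by
  classical
  have h1 : ∀ l i, ∃ c : κ l → R, t l • T l (f i) - ∑ x, c x • ν l x ∈ N l := by
    intro l i
    obtain ⟨y, hy, z, hz, hyz⟩ := Submodule.mem_sup.1 (h l i)
    obtain ⟨c, hc⟩ := (Submodule.mem_span_range_iff_exists_fun R).1 hz
    refine ⟨c, ?_⟩
    rw [hc, ← hyz]
    simpa using hy
  choose c hcm using h1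
  let Φ : (ι → R) →ₗ[R] ((Σ l, κ l) → R) :=
    { toFun := fun p s => ∑ i, p i * c s.1 i s.2
      map_add' := by
        intro p p'
        funext s
        simp only [Pi.add_apply, add_mul, Finset.sum_add_distrib]
      map_smul' := by
        intro a p
        funext s
        simp only [Pi.smul_apply, smul_eq_mul, RingHom.id_apply, mul_assoc, Finset.mul_sum] }
  have hni : ¬ Function.Injective Φ := by
    intro hinj
    have h2 := card_le_of_injective R Φ hinj
    rw [Fintype.card_sigma] at h2
    omega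
  have hex : ∃ p : ι → R, p ≠ 0 ∧ Φ p = 0 := by
    by_contra hno
    push Not at hno
    apply hni
    rw [← LinearMap.ker_eq_bot, LinearMap.ker_eq_bot']
    intro p hp
    by_contra hp0
    exact hno p hp0 hp
  obtain ⟨p, hp0, hp⟩ := hex
  refine ⟨p, hp0, fun l => ?_⟩
  have h3 : t l • T l (∑ i, p i • f i) =
      ∑ i, p i • (t l • T l (f i) - ∑ x, c l i x • ν l x) := by
    have h4 : ∑ i, p i • ∑ x, c l i x • ν l x = 0 := by
      have h5 : ∑ i, p i • ∑ x, c l i x • ν l x = ∑ x, (∑ i, p i * c l i x) • ν l x := by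
        simp only [Finset.smul_sum, Finset.sum_smul, smul_smul]
        exact Finset.sum_comm
      rw [h5]
      apply Finset.sum_eq_zero
      intro x _
      have h6 : Φ p ⟨l, x⟩ = 0 := by rw [hp]; rfl
      have h7 : (∑ i, p i * c l i x) = 0 := h6
      rw [h7, zero_smul]
    simp only [smul_sub, Finset.sum_sub_distrib]
    rw [h4, sub_zero, map_sum, Finset.smul_sum]
    apply Finset.sum_congr rfl
    intro i _
    rw [map_smul, smul_comm]
  rw [h3]
  exact Submodule.sum_mem _ (fun i _ => Submodule.smul_mem _ _ (hcm l i))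

end Pool.Agent.H89X
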