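import Pool.Agent.Lib.H89X.B3
import Pool.Agent.Lib.H89X.B4
import Pool.Agent.Lib.H89X.B5

set_option autoImplicit false

/-!
H89X, module B: existence of `B`.
-/

open MvPolynomial

namespace Pool.Agent.H89X

open Pool.Agent.H89T Pool.Agent.H67T Pool.Agent.H53U Pool.Agent.H53V Pool.Agent.H44K

variable {n d K A m μ s : ℕ}

/-- Multiplication of a monomial by a power of a coordinate. -/
theorem bmain_mul {d : ℕ} (o : Option (Fin n)) {ν : JV n K →₀ ℕ} (hν : xd ν ≤ A)
    (hm : H53V.jw ν = m) : ∃ ν' ∈ Bi n K (A + s) m,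
      (xo o : MvPolynomial (JV n K) (RR n d)) ^ s * monomial ν 1 = monomial ν' 1 := by
  rcases o with _ | b
  · refine ⟨ν, ⟨by omega, hm⟩, ?_⟩
    simp [xo]
  · refine ⟨Finsupp.single (b, 0) s + ν, ⟨?_, ?_⟩, ?_⟩
    · rw [xd_add]
      have h1 : xd (Finsupp.single ((b, 0) : JV n K) s) = s := by
        unfold xd
        rw [Finset.sum_eq_single b]
        · simp
        · intro c _ hc
          rw [Finsupp.single_eq_of_ne]
          intro h
          exact hc (Prod.ext_iff.1 h).1
        · intro h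
          exact absurd (Finset.mem_univ _) h
      omega
    · rw [er2_jw_add]
      have h1 : H53V.jw (Finsupp.single ((b, 0) : JV n K) s) = 0 := by
        unfold H53V.jw
        refine Finset.sum_eq_zero fun p _ => ?_
        by_cases hp : p = (b, 0)
        · rw [hp]
          simp
        · rw [Finsupp.single_eq_of_ne hp, mul_zero]
      omega
    · change (X (b, 0)) ^ s * monomial ν 1 = _
      rw [X_pow_eq_monomial, monomial_mul, one_mul]

/-- MODULE B.  PROOF.  `A0 = A + s`, `t` of `exists_tB`.  Unknowns: `Unk n K A m μ` (finite, a subset of `Bi n K A m`), `f ν = monomial ν 1`.  Blocks `o : Option (Fin n)`, `T o` = multiplication by `xo o ^ s` (`LinearMap.mulLeft`), `N o = NB n d K A0 m`,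
`κ o = Bad n K A0 m` (`Bad_finite`).  `T o (f ν)` is a monomial in `Bi n K A0 m` (`o = none`: `ν`; `o = some b`: `ν + single (b, 0) s`), so `h` is `exists_tB`.  Count: `∑ o, card κ = (n + 1) * (Bad ..).ncard ≤ (n + 1) * ((A + s + n).choose n * nbad n K m 1) < card Unk`
(`ncard_Bad`, `CountS`).  `exists_coeffsB` gives `p ≠ 0`; `B = t • ∑ p ν • f ν`: nonzero (its coefficient at `ν` is `t * p ν`; `RR` is a domain), support in `Unk`, and `xo o ^ s * B = T o B ∈ NB`, so `PropS` by `NB_coeffs` (`A0 + m = A + m + s`). -/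
theorem exS_of_count {d : ℕ} (hn : 1 ≤ n) (hd : 2 ≤ d) (hA : (n + 1) * d ≤ A + s) (h : CountS n K A m μ s) :
    ExS n d K A m μ s := by
  classical
  obtain ⟨t, ht, hB⟩ := exists_tB (K := K) (m := m) hn hd hA
  have hU : (Unk n K A m μ).Finite := (Bi_finite n K A m).subset fun ν hν => ⟨hν.1, hν.2.1⟩
  have hBad := Bad_finite n K (A + s) m
  have : Fintype (Unk n K A m μ) := hU.fintype
  have : Fintype (Bad n K (A + s) m) := hBad.fintype
  have hcard : ∑ _o : Option (Fin n), Fintype.card (Bad n K (A + s) m) <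
      Fintype.card (Unk n K A m μ) := by
    rw [Finset.sum_const, Finset.card_univ, Fintype.card_option, Fintype.card_fin, smul_eq_mul]
    have h1 : Fintype.card (Bad n K (A + s) m) = (Bad n K (A + s) m).ncard := by
      rw [← Nat.card_eq_fintype_card, Nat.card_coe_set_eq]
    have h2 : Fintype.card (Unk n K A m μ) = (Unk n K A m μ).ncard := by
      rw [← Nat.card_eq_fintype_card, Nat.card_coe_set_eq]
    rw [h1, h2]
    exact lt_of_le_of_lt (Nat.mul_le_mul_left _ (ncard_Bad n K (A + s) m)) h
  obtain ⟨p, hp0, hp⟩ := exists_coeffsB (R := RR n d) (V := MvPolynomial (JV n K) (RR n d))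
    (fun ν : Unk n K A m μ => monomial ν.1 (1 : RR n d))
    (fun o : Option (Fin n) => LinearMap.mulLeft (RR n d) ((xo o : MvPolynomial (JV n K) (RR n d)) ^ s))
    (fun _ => NB n d K (A + s) m) (fun _ => Bad n K (A + s) m)
    (fun _ ν => monomial ν.1 (1 : RR n d)) (fun _ => t) (fun o ν => by
      obtain ⟨ν', hν', he⟩ := bmain_mul (s := s) (d := d) o ν.2.1 ν.2.2.1
      rw [LinearMap.mulLeft_apply, he]
      exact hB ν' hν') hcard
  set P : MvPolynomial (JV n K) (RR n d) := ∑ i : Unk n K A m μ, p i • monomial i.1 (1 : RR n d) with hP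
  have hcoeff : ∀ ν : JV n K →₀ ℕ, coeff ν P = ∑ i : Unk n K A m μ, if i.1 = ν then p i else 0 := by
    intro ν
    rw [hP, coeff_sum]
    refine Finset.sum_congr rfl fun i _ => ?_
    rw [coeff_smul, coeff_monomial, smul_eq_mul]
    split_ifs <;> simp
  refine ⟨t • P, ?_, ?_, ?_⟩
  · intro h0
    obtain ⟨i, hi⟩ := Function.ne_iff.1 hp0
    have h1 : coeff i.1 (t • P) = 0 := by rw [h0, coeff_zero]
    rw [coeff_smul, hcoeff, Finset.sum_eq_single i, if_pos rfl, smul_eq_mul] at h1
    · rcases mul_eq_zero.1 h1 with h2 | h2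
      · exact ht h2
      · exact hi h2
    · intro j _ hj
      rw [if_neg]
      intro h2
      exact hj (Subtype.ext h2)
    · intro h2
      exact absurd (Finset.mem_univ _) h2
  · intro ν hν
    have h1 : coeff ν P ≠ 0 := by
      intro h2
      rw [mem_support_iff, coeff_smul, h2, smul_zero] at hν
      exact hν rfl
    rw [hcoeff] at h1
    obtain ⟨i, -, hi⟩ := Finset.exists_ne_zero_of_sum_ne_zero h1
    by_cases h2 : i.1 = ν
    · rw [← h2]
      exact i.2
    · rw [if_neg h2] at hi
      exact absurd rfl hi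
  · intro o
    have h1 := hp o
    rw [LinearMap.mulLeft_apply] at h1
    have h2 : (xo o : MvPolynomial (JV n K) (RR n d)) ^ s * (t • P) ∈ NB n d K (A + s) m := by
      rw [mul_smul_comm]
      exact h1
    have hd' : d ≤ A + s := by
      have : d ≤ (n + 1) * d := Nat.le_mul_of_pos_left _ (Nat.succ_pos n)
      omega
    obtain ⟨c, hc1, hc2⟩ := NB_coeffs hd' h2
    refine ⟨c, hc1, fun i => ?_⟩
    have := hc2 i
    omega

end Pool.Agent.H89X
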