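import Pool.Agent.Lib.H89X.MD

set_option autoImplicit false

/-!
CHUNK M2 of H89X, module M (moves, PROOF.md section M).  From the flat ring to given coefficients.
-/

open MvPolynomial

namespace Pool.Agent.H89X

open Pool.Agent.H89T Pool.Agent.H67T Pool.Agent.H53U Pool.Agent.H53V Pool.Agent.H44K

variable {n d k : ℕ}

/-- As `flat_UI`, with `(spec a).toRingHom` and `spec_uA` (H89T/C10; compare `spec_PropBA`). -/
theorem spec_UA (a : Idx n d → ℂ) {i e : ℕ} {P : AA n d k} (h : P ∈ UA n d k i ^ e) :
    spec a P ∈ UI k a i ^ e := by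
  have h1 := Ideal.mem_map_of_mem (spec (n := n) (k := d) (r := k) a).toRingHom h
  rw [Ideal.map_pow] at h1
  have h2 : Ideal.map (spec (n := n) (k := d) (r := k) a).toRingHom (UA n d k i) ≤ UI k a i := by
    unfold UI UA
    rw [Ideal.map_span, ← Set.range_comp]
    have h3 : ((spec (n := n) (k := d) (r := k) a).toRingHom ∘ fun s : Fin i => uA (s : ℕ)) =
        fun s : Fin i => (uR a (s : ℕ) : MvPolynomial (JV n k) ℂ) := by
      funext s
      exact spec_uA a _
    rw [h3]
  exact Ideal.pow_right_mono h2 e h1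

/-- `C10_spec_iterate`, `spec_UA`. -/
theorem spec_PropW (a : Idx n d → ℂ) {r J : ℕ} {P : AA n d k} (h : PropWA r J P) :
    PropW a r J (spec a P) := by
  intro j h2 hJ l hl
  rw [← C10_spec_iterate]
  exact spec_UA a (h j h2 hJ l hl)

/-- As `spec_WtA` (H89T/C10, `C10_spec_monomial`). -/
theorem spec_JT (a : Idx n d → ℂ) {E : ℕ} {P : AA n d k} (h : JT E P) : (spec a P).totalDegree ≤ E := by
  classical
  unfold totalDegree
  refine Finset.sup_le fun m hm => ?_
  have h1 : spec a P = ∑ m' ∈ P.support, spec a (monomial m' (P.coeff m')) := by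
    rw [← map_sum, ← P.as_sum]
  rw [h1] at hm
  obtain ⟨m', hm', h3⟩ := Finset.mem_biUnion.1 (support_sum hm)
  rw [C10_spec_monomial] at h3
  have h4 := Finset.mem_singleton.mp (support_monomial_subset h3)
  subst h4
  rw [Finsupp.sum_fintype _ _ (fun _ => rfl)]
  exact h m' hm'

theorem m2_xo (a : Idx n d → ℂ) (o : Option (Fin n)) : spec a (xoA n d k o) = xo (k := k) o := by
  unfold xo xoA
  cases o with
  | none => exact map_one _
  | some b => exact C10_spec_xA a _

/-- Apply `spec a` to the relations (`spec_uA`, `C10_spec_xA`), `spec_JT`. -/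
theorem spec_PropS (a : Idx n d → ℂ) {D s : ℕ} {P : AA n d k} (h : PropSA D s P) :
    PropS a D s (spec a P) := by
  obtain ⟨E, hE, h⟩ := h
  intro o
  obtain ⟨c, hc, hdeg⟩ := h o
  refine ⟨fun i => spec a (c i), ?_, fun i => ?_⟩
  · have h1 := congrArg (spec (n := n) (k := d) (r := k) a) hc
    rw [map_mul, map_pow, map_sum] at h1
    simp only [map_mul, spec_uA, m2_xo] at h1
    exact h1
  · have h2 := spec_JT a (hdeg i)
    beta_reduce
    omega

end Pool.Agent.H89X
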