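import Pool.Agent.Lib.H89X.MD
import Pool.Agent.Lib.H89T.C2

set_option autoImplicit false

/-!
CHUNK M4 of H89X, module M (moves, PROOF.md section M).  Derivations and powers of ideals.
-/

open MvPolynomial

namespace Pool.Agent.H89X

open Pool.Agent.H89T Pool.Agent.H67T Pool.Agent.H53U Pool.Agent.H53V Pool.Agent.H44K

variable {n d k : ℕ}

/-- As `Slant.deriv_mem_pow` (H89T/Slant.lean), for any ideal: induction on `e`, `pow_succ`, `Submodule.mul_induction_on`, `Derivation.leibniz`. -/
theorem deriv_pow_sub {A : Type*} [CommRing A] [Algebra ℂ A] (D : Derivation ℂ A A) (I : Ideal A) (e : ℕ)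
    {x : A} (hx : x ∈ I ^ (e + 1)) : D x ∈ I ^ e := by
  induction e generalizing x with
  | zero => simp
  | succ e ih =>
    rw [pow_succ] at hx
    refine Submodule.mul_induction_on hx ?_ ?_
    · intro a ha b hb
      rw [Derivation.leibniz, smul_eq_mul, smul_eq_mul]
      refine Ideal.add_mem _ ?_ ?_
      · exact Ideal.mul_mem_right _ _ ha
      · rw [pow_succ', mul_comm]
        rw [mul_comm]
        exact Ideal.mul_mem_mul hb (ih ha)
    · intro a b ha hb
      rw [map_add]
      exact Ideal.add_mem _ ha hb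

/-- The same if `D` preserves `I`. -/
theorem deriv_pow_le {A : Type*} [CommRing A] [Algebra ℂ A] (D : Derivation ℂ A A) (I : Ideal A)
    (hD : ∀ x ∈ I, D x ∈ I) (e : ℕ) {x : A} (hx : x ∈ I ^ e) : D x ∈ I ^ e := by
  induction e generalizing x with
  | zero => simp
  | succ e ih =>
    rw [pow_succ] at hx ⊢
    refine Submodule.mul_induction_on hx ?_ ?_
    · intro a ha b hb
      rw [Derivation.leibniz, smul_eq_mul, smul_eq_mul]
      refine Ideal.add_mem _ ?_ ?_
      · exact Ideal.mul_mem_mul ha (hD b hb)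
      · rw [mul_comm b]
        exact Ideal.mul_mem_mul (ih ha) hb
    · intro a b ha hb
      rw [map_add]
      exact Ideal.add_mem _ ha hb

/-- `Adm.VV_uA_eq` (H89T/C2.lean) for the generators `uA j`, `j < i ≤ s`; `Submodule.span_induction` and `Derivation.leibniz` for the elements of the ideal. -/
theorem VV_UA {s i : ℕ} {g : Idx n d → AA n d k} {lam : Fin n → Polynomial (AA n d k)} (h : Adm s g lam)
    (hi : i ≤ s) {P : AA n d k} (hP : P ∈ UA n d k i) : VV g lam P ∈ UA n d k i := by
  unfold UA at hP ⊢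
  have hu : ∀ j < i, (uA j : AA n d k) ∈
      Ideal.span (Set.range fun s : Fin i => (uA (s : ℕ) : AA n d k)) := fun j hj =>
    Ideal.subset_span ⟨⟨j, hj⟩, rfl⟩
  refine Submodule.span_induction (p := fun P _ => VV g lam P ∈
    Ideal.span (Set.range fun s : Fin i => (uA (s : ℕ) : AA n d k))) ?_ ?_ ?_ ?_ hP
  · rintro _ ⟨t, rfl⟩
    exact h.VV_uA_eq _ t (by have := t.2; omega) (fun j hj => hu j (by have := t.2; omega))
  · rw [map_zero]; exact Ideal.zero_mem _
  · intro a b _ _ ha hb
    rw [map_add]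
    exact Ideal.add_mem _ ha hb
  · intro c a ha' ha
    rw [smul_eq_mul, Derivation.leibniz, smul_eq_mul, smul_eq_mul]
    exact Ideal.add_mem _ (Ideal.mul_mem_left _ _ ha) (Ideal.mul_mem_right _ _ ha')

end Pool.Agent.H89X
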