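import Pool.Agent.Lib.H89X.M3
import Pool.Agent.Lib.H89X.M4

set_option autoImplicit false

/-!
CHUNK M5 of H89X, module M (moves, PROOF.md section M).  The moves preserve property (W).
-/

open MvPolynomial

namespace Pool.Agent.H89X

open Pool.Agent.H89T Pool.Agent.H67T Pool.Agent.H53U Pool.Agent.H53V Pool.Agent.H44K

variable {n d k : ℕ}

/-- `iter_comm`; every term: `Ideal.mul_mem_left`, `t = x.1`, `l = x.1 + x.2`, `I = UA n d k (min j n)`, `(NA)^[x.2] P ∈ I ^ (j - 1 - x.2 / r)` (`x.2 ≤ l < (j - 1) r`).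
If `t < r`: `V_t` preserves `I` (`VV_UA`, `Adm_I`: `min j n ≤ n ≤ k + 1 - t` as `r + n ≤ k`), so (`deriv_pow_le`) the term is in `I ^ (j - 1 - x.2 / r) ≤ I ^ (j - 1 - l / r)` (`Ideal.pow_le_pow_right`,
`Nat.div_le_div_right`).  If `r ≤ t`: `x.2 / r + 1 ≤ l / r` (`Nat.div_add_div_same`-like: `(x.2 + r) / r = x.2 / r + 1`, `Nat.add_div_right`), and `l / r < j - 1` (`Nat.div_lt_iff_lt_mul`), so `j - 1 - x.2 / r = e + 1` with
`j - 1 - l / r ≤ e`: `deriv_pow_sub`. -/
theorem PropWA_VV {r J : ℕ} (hr : 1 ≤ r) (hk : r + n ≤ k) {g : Idx n d → AA n d k}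
    {lam : Fin n → Polynomial (AA n d k)} (h : Adm (k + 1) g lam) {P : AA n d k} (hP : PropWA r J P) :
    PropWA r J (VV g lam P) := by
  intro j hj2 hjJ l hl
  rw [iter_comm h.deg l P]
  refine Ideal.sum_mem _ fun x hx => Ideal.mul_mem_left _ _ ?_
  have hx' : x.1 + x.2 = l := Finset.HasAntidiagonal.mem_antidiagonal.1 hx
  have hx2 : x.2 < (j - 1) * r := by omega
  have hmem := hP j hj2 hjJ x.2 hx2
  have hlr : l / r < j - 1 := (Nat.div_lt_iff_lt_mul (by omega)).2 hl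
  rcases lt_or_ge x.1 r with h1 | h1
  · have h2 : x.2 / r ≤ l / r := Nat.div_le_div_right (by omega)
    refine Ideal.pow_le_pow_right (show j - 1 - l / r ≤ j - 1 - x.2 / r by omega) ?_
    refine deriv_pow_le _ _ (fun Q hQ => ?_) _ hmem
    exact VV_UA (Adm_I h (t := x.1) (by omega)) (by omega) hQ
  · have h2 : x.2 / r + 1 ≤ l / r := by
      rw [← Nat.add_div_right x.2 (by omega)]
      exact Nat.div_le_div_right (by omega)
    obtain ⟨e, he⟩ : ∃ e, j - 1 - x.2 / r = e + 1 := ⟨j - 2 - x.2 / r, by omega⟩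
    rw [he] at hmem
    refine Ideal.pow_le_pow_right (show j - 1 - l / r ≤ e by omega) ?_
    exact deriv_pow_sub _ _ e hmem

theorem PropWA_iter {r J : ℕ} (hr : 1 ≤ r) (hk : r + n ≤ k) {g : Idx n d → AA n d k}
    {lam : Fin n → Polynomial (AA n d k)} (h : Adm (k + 1) g lam) {P : AA n d k} (hP : PropWA r J P)
    (e : ℕ) : PropWA r J ((VV g lam)^[e] P) := by
  induction e with
  | zero => exact hP
  | succ e ih =>
    rw [Function.iterate_succ_apply']
    exact PropWA_VV hr hk h ih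

end Pool.Agent.H89X
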