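import Pool.Agent.Lib.H89X.M6

set_option autoImplicit false

/-!
CHUNK M7 of H89X, module M (moves, PROOF.md section M).  The moves and property (S).
-/

open MvPolynomial

namespace Pool.Agent.H89X

open Pool.Agent.H89T Pool.Agent.H67T Pool.Agent.H53U Pool.Agent.H53V Pool.Agent.H44K

open Pool.Agent.H53L (MoveL lamB hA rhA vA X0D trk)

variable {n d k : ℕ} {a : Idx n d → ℂ} {x : Fin n → ℂ} {b0 : Fin n} {h : Fin n → Polynomial ℂ}
  {ρ : MvPolynomial (Fin n) ℂ} {g : Idx n d → AA n d k}

theorem JT_mono {E E' : ℕ} {P : AA n d k} (hP : JT E P) (hE : E ≤ E') : JT E' P :=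
  fun ν hν => (hP ν hν).trans hE

/-- Sums, products (`support_add`, `support_mul`). -/
theorem JT_add {E : ℕ} {P Q : AA n d k} (hP : JT E P) (hQ : JT E Q) : JT E (P + Q) := by
  classical
  intro m hm
  rcases Finset.mem_union.1 (support_add hm) with h | h
  · exact hP m h
  · exact hQ m h

theorem m7_zero (E : ℕ) : JT E (0 : AA n d k) := by
  intro m hm
  simp at hm

theorem JT_sum {ι : Type*} (s : Finset ι) {E : ℕ} {P : ι → AA n d k} (hP : ∀ i ∈ s, JT E (P i)) :
    JT E (∑ i ∈ s, P i) := by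
  classical
  revert hP
  refine Finset.induction_on s ?_ ?_
  · intro _
    rw [Finset.sum_empty]
    exact m7_zero E
  · intro i s hi ih hP
    rw [Finset.sum_insert hi]
    exact JT_add (hP i (Finset.mem_insert_self _ _))
      (ih fun j hj => hP j (Finset.mem_insert_of_mem hj))

/-- The degree of a monomial in the jet variables. -/
def m7_w (m : JV n k ⊕ Idx n d →₀ ℕ) : ℕ := ∑ p : JV n k, m (Sum.inl p)

theorem m7_w_add (m m' : JV n k ⊕ Idx n d →₀ ℕ) : m7_w (m + m') = m7_w m + m7_w m' := by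
  unfold m7_w
  rw [← Finset.sum_add_distrib]
  refine Finset.sum_congr rfl fun p _ => ?_
  rw [Finsupp.add_apply]

theorem JT_mul {E E' : ℕ} {P Q : AA n d k} (hP : JT E P) (hQ : JT E' Q) : JT (E + E') (P * Q) := by
  classical
  intro m hm
  obtain ⟨m1, h1, m2, h2, rfl⟩ := Finset.mem_add.1 (support_mul P Q hm)
  have e := m7_w_add m1 m2
  have a := hP m1 h1
  have b := hQ m2 h2
  change m7_w (m1 + m2) ≤ E + E'
  change m7_w m1 ≤ E at a
  change m7_w m2 ≤ E' at b
  omega

theorem m7_monomial_le {E : ℕ} (m : JV n k ⊕ Idx n d →₀ ℕ) (c : ℂ) (hm : m7_w m ≤ E) :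
    JT E (MvPolynomial.monomial m c) := by
  classical
  intro m' hm'
  have h := support_monomial_subset hm'
  rw [Finset.mem_singleton] at h
  rw [h]
  exact hm

/-- `1 ≤ p.2 + 1`. -/
theorem JT_of_WtA {E : ℕ} {P : AA n d k} (hP : WtA E P) : JT E P := by
  intro m hm
  refine (Finset.sum_le_sum fun p _ => ?_).trans (hP m hm)
  exact Nat.le_mul_of_pos_left _ (Nat.succ_pos _)

theorem m7_VV_aA (g : Idx n d → AA n d k) (lam : Fin n → Polynomial (AA n d k)) (α : Idx n d) :
    VV g lam (aA α) = g α := by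
  unfold VV aA
  rw [mkDerivation_X, Sum.elim_inr]

theorem m7_VV_xA (g : Idx n d → AA n d k) (lam : Fin n → Polynomial (AA n d k)) (p : JV n k) :
    VV g lam (xA p) = (lam p.1).coeff (p.2 : ℕ) := by
  unfold VV xA
  rw [mkDerivation_X, Sum.elim_inl]

/-- The value of a derivation on a monomial. -/
theorem m7_deriv_mem (V : Derivation ℂ (AA n d k) (AA n d k)) {c : ℕ}
    (hV : ∀ s, JT c (V (MvPolynomial.X s))) (m : JV n k ⊕ Idx n d →₀ ℕ) (a : ℂ) :
    JT (m7_w m + c) (V (MvPolynomial.monomial m a)) := by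
  classical
  induction m using Finsupp.induction_linear generalizing a with
  | zero =>
    have : V (MvPolynomial.monomial 0 a) = 0 := by
      have h := Derivation.map_algebraMap V a
      exact h
    rw [this]
    exact m7_zero _
  | add m1 m2 h1 h2 =>
    have h3 : (MvPolynomial.monomial (m1 + m2) a : AA n d k)
        = MvPolynomial.monomial m1 a * MvPolynomial.monomial m2 1 := by
      rw [MvPolynomial.monomial_mul, mul_one]
    rw [h3, Derivation.leibniz, smul_eq_mul, smul_eq_mul, m7_w_add]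
    refine JT_add ?_ ?_
    · have h4 := JT_mul (m7_monomial_le m1 a le_rfl) (h2 1)
      exact JT_mono h4 (by omega)
    · have h4 := JT_mul (m7_monomial_le m2 1 le_rfl) (h1 a)
      exact JT_mono h4 (by omega)
  | single s e =>
    induction e generalizing a with
    | zero =>
      rw [Finsupp.single_zero]
      have : V (MvPolynomial.monomial 0 a) = 0 := by
        have h := Derivation.map_algebraMap V a
        exact h
      rw [this]
      exact m7_zero _
    | succ e ih =>
      have h3 : (MvPolynomial.monomial (Finsupp.single s (e + 1)) a : AA n d k)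
          = MvPolynomial.monomial (Finsupp.single s e) a * MvPolynomial.X s := by
        rw [MvPolynomial.X, MvPolynomial.monomial_mul, mul_one, ← Finsupp.single_add]
      have h5 : m7_w (Finsupp.single s (e + 1)) = m7_w (Finsupp.single s e)
          + m7_w (Finsupp.single s 1) := by
        rw [Finsupp.single_add, m7_w_add]
      rw [h3, Derivation.leibniz, smul_eq_mul, smul_eq_mul, h5]
      refine JT_add ?_ ?_
      · have h4 := JT_mul (m7_monomial_le (Finsupp.single s e) a le_rfl) (hV s)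
        exact JT_mono h4 (by omega)
      · have h4 := JT_mul (m7_monomial_le (Finsupp.single s 1) 1 le_rfl) (ih a)
        exact JT_mono h4 (by omega)

/-- Sum of monomials; `mkDerivation_monomial` (`VV` is `mkDerivation`): the value at `monomial ν t` is `t` times the sum over the variables `i` of `monomial (ν - single i 1) (ν i) * V (X i)`;
`V (X (inl p)) = (lam p.1).coeff p.2` is `JT (2 k)` (`WtP_lamB`, `JT_of_WtA`), `V (X (inr α)) = g α` is `JT (2 k)` (`WtA_X0D`). Compare `c3_deriv_mem` in H89T/C3.lean. -/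
theorem JT_VV (hM : MoveL a x b0 h ρ g) {E : ℕ} {P : AA n d k} (hP : JT E P) :
    JT (E + 2 * k) (VV g (lamB b0 h) P) := by
  have hV : ∀ s, JT (2 * k) (VV g (lamB b0 h) (MvPolynomial.X s)) := by
    rintro (p | α)
    · have h1 := m7_VV_xA g (lamB b0 h) p
      unfold xA at h1
      rw [h1]
      exact JT_of_WtA (WtP_lamB b0 h p.1 _)
    · have h1 := m7_VV_aA g (lamB b0 h) α
      unfold aA at h1
      rw [h1]
      exact JT_of_WtA (WtA_X0D (hM.g1 α))
  rw [P.as_sum, map_sum]
  refine JT_sum _ fun m hm => ?_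
  have h1 := hP m hm
  change m7_w m ≤ E at h1
  exact JT_mono (m7_deriv_mem _ hV m _) (by omega)

/-- `VV (xA (b, 0)) = (lamB b0 h b).coeff 0 = (hA b0 (h b)).coeff 0 = C ((h b).coeff 0) = 0` (`MoveL.h0`; `vA` has no constant coefficient). -/
theorem VV_xoA (hM : MoveL a x b0 h ρ g) (o : Option (Fin n)) : VV g (lamB b0 h) (xoA n d k o) = 0 := by
  cases o with
  | none =>
    change VV g (lamB b0 h) 1 = 0
    exact Derivation.map_one_eq_zero _
  | some b =>
    change VV g (lamB b0 h) (xA (b, 0)) = 0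
    rw [m7_VV_xA]
    change (lamB b0 h b : Polynomial (AA n d k)).coeff 0 = 0
    have h1 : (lamB b0 h b : Polynomial (AA n d k)).coeff 0 = (hA b0 (h b)).coeff 0 := by
      unfold lamB trk
      rw [Polynomial.finsetSum_coeff, Finset.sum_eq_single 0]
      · rw [Fin.val_zero, pow_zero, mul_one, Polynomial.coeff_C_zero]
      · intro i _ hi
        rw [Polynomial.coeff_C_mul, Polynomial.coeff_X_pow, if_neg, mul_zero]
        intro h1
        exact hi (Fin.ext h1).symm
      · intro h
        exact absurd (Finset.mem_univ _) h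
    rw [h1]
    have h2 : (Polynomial.X : Polynomial ℂ) ∣ h b := Polynomial.X_dvd_iff.2 (hM.h0 b)
    have h3 : (Polynomial.X : Polynomial (AA n d k)) ∣ hA b0 (h b) := by
      obtain ⟨q, hq⟩ := h2
      unfold hA
      rw [hq, map_mul, Polynomial.aeval_X]
      refine Dvd.dvd.mul_right ?_ _
      rw [Polynomial.X_dvd_iff]
      unfold vA
      rw [Polynomial.coeff_sub, coeff_arc, dif_pos (by omega : 0 < k + 1), Polynomial.coeff_C_zero]
      exact sub_self _
    exact Polynomial.X_dvd_iff.1 h3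

/-- The exchange of the sums. -/
theorem m7_exch (c : Fin (k + 1) → AA n d k) (r : ℕ → AA n d k) :
    ∑ i : Fin (k + 1), c i * ∑ j ∈ Finset.range ((i : ℕ) + 1), r j * uA ((i : ℕ) - j) =
      ∑ j : Fin (k + 1), (∑ i : Fin (k + 1), if (j : ℕ) ≤ (i : ℕ) then c i * r ((i : ℕ) - (j : ℕ)) else 0) *
        uA (j : ℕ) := by
  have h1 : ∀ i : Fin (k + 1), ∑ j ∈ Finset.range ((i : ℕ) + 1), r j * (uA ((i : ℕ) - j) : AA n d k) =
      ∑ j : Fin (k + 1), if (j : ℕ) ≤ (i : ℕ) then r ((i : ℕ) - (j : ℕ)) * uA (j : ℕ) else 0 := by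
    intro i
    rw [Fin.sum_univ_eq_sum_range
      (fun j => if j ≤ (i : ℕ) then r ((i : ℕ) - j) * (uA j : AA n d k) else 0) (k + 1)]
    rw [← Finset.sum_filter]
    have h2 : (Finset.range (k + 1)).filter (fun j => j ≤ (i : ℕ)) = Finset.range ((i : ℕ) + 1) := by
      ext j
      rw [Finset.mem_filter, Finset.mem_range, Finset.mem_range]
      have := i.2
      omega
    rw [h2, ← Finset.sum_range_reflect]
    refine Finset.sum_congr rfl fun j hj => ?_
    rw [Finset.mem_range] at hj
    have e1 : (i : ℕ) + 1 - 1 - j = (i : ℕ) - j := by omega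
    have e2 : (i : ℕ) - ((i : ℕ) - j) = j := by omega
    rw [e1, e2]
  calc ∑ i : Fin (k + 1), c i * ∑ j ∈ Finset.range ((i : ℕ) + 1), r j * (uA ((i : ℕ) - j) : AA n d k)
      = ∑ i : Fin (k + 1), ∑ j : Fin (k + 1),
          (if (j : ℕ) ≤ (i : ℕ) then c i * r ((i : ℕ) - (j : ℕ)) else 0) * uA (j : ℕ) := by
        refine Finset.sum_congr rfl fun i _ => ?_
        rw [h1, Finset.mul_sum]
        refine Finset.sum_congr rfl fun j _ => ?_
        split_ifs
        · rw [mul_assoc]
        · rw [mul_zero, zero_mul]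
    _ = _ := by
        rw [Finset.sum_comm]
        refine Finset.sum_congr rfl fun j _ => ?_
        rw [Finset.sum_mul]

/-- `E' = E + 2 k`.  Apply `V = VV g (lamB b0 h)` to `xo ^ s * P = ∑ c i * uA i`: the left side is `xo ^ s * V P` (`VV_xoA`, `Derivation.leibniz`, `Derivation.leibniz_pow`), the right side is
`∑ i, (V (c i) * uA i + c i * ∑ j ≤ i, ρ_j uA (i - j))` (`VV_uA_move`), i.e. `∑ i, c' i * uA i` with `c' i = V (c i) + ∑ i' ≥ i, c i' * ρ_(i' - i)` (exchange the sums; `JT_VV`, `JT_mul`, `WtA_rhA`, `2 j ≤ 2 k`). -/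
theorem PropSA_VV (hM : MoveL a x b0 h ρ g) {D s : ℕ} {P : AA n d k} (hP : PropSA D s P) :
    PropSA (D + 2 * k) s (VV g (lamB b0 h) P) := by
  obtain ⟨E, hE, hc⟩ := hP
  refine ⟨E + 2 * k, by omega, fun o => ?_⟩
  obtain ⟨c, h1, h2⟩ := hc o
  refine ⟨fun j => VV g (lamB b0 h) (c j) +
    ∑ i : Fin (k + 1), (if (j : ℕ) ≤ (i : ℕ) then
      c i * (rhA ρ : Polynomial (AA n d k)).coeff ((i : ℕ) - (j : ℕ)) else 0), ?_, fun j => ?_⟩
  · have h3 : xoA n d k o ^ s * VV g (lamB b0 h) P = VV g (lamB b0 h) (xoA n d k o ^ s * P) := by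
      rw [Derivation.leibniz, smul_eq_mul, smul_eq_mul, Derivation.leibniz_pow, VV_xoA hM, smul_zero,
        smul_zero, mul_zero, add_zero]
    rw [h3, h1, map_sum]
    have h4 : ∀ i : Fin (k + 1), VV g (lamB b0 h) (c i * uA (i : ℕ)) =
        VV g (lamB b0 h) (c i) * uA (i : ℕ) +
          c i * ∑ j ∈ Finset.range ((i : ℕ) + 1), (rhA ρ : Polynomial (AA n d k)).coeff j * uA ((i : ℕ) - j) := by
      intro i
      rw [Derivation.leibniz, smul_eq_mul, smul_eq_mul, VV_uA_move hM (Nat.lt_succ_iff.1 i.2)]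
      ring
    rw [Finset.sum_congr rfl fun i _ => h4 i, Finset.sum_add_distrib,
      m7_exch c fun j => (rhA ρ : Polynomial (AA n d k)).coeff j, ← Finset.sum_add_distrib]
    refine Finset.sum_congr rfl fun j _ => ?_
    rw [add_mul]
  · refine JT_add (JT_VV hM (h2 j)) (JT_sum _ fun i _ => ?_)
    split_ifs with hji
    · refine JT_mono (JT_mul (h2 i) (JT_of_WtA (WtA_rhA ρ _))) ?_
      have := i.2
      omega
    · exact m7_zero _

theorem PropSA_iter (hM : MoveL a x b0 h ρ g) {D s : ℕ} {P : AA n d k} (hP : PropSA D s P) (e : ℕ) :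
    PropSA (D + 2 * k * e) s ((VV g (lamB b0 h))^[e] P) := by
  induction e with
  | zero => exact hP
  | succ e ih =>
    rw [Function.iterate_succ_apply']
    have h1 : D + 2 * k * (e + 1) = (D + 2 * k * e) + 2 * k := by ring
    rw [h1]
    exact PropSA_VV hM ih

/-- Monotone in `D`. -/
theorem PropSA_mono {D D' s : ℕ} (hD : D ≤ D') {P : AA n d k} (hP : PropSA D s P) : PropSA D' s P := by
  obtain ⟨E, h1, h2⟩ := hP
  exact ⟨E, by omega, h2⟩

end Pool.Agent.H89X
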