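import Pool.Agent.Lib.H89X.M8
import Pool.Agent.Lib.H53L.B07
import Pool.Agent.Lib.H53L.B08
import Pool.Agent.Lib.H53L.B09

set_option autoImplicit false

/-!
CHUNK M9 of H89X, module M (moves, PROOF.md section M).  The moved polynomial does not vanish at the given jet.
-/

open MvPolynomial

namespace Pool.Agent.H89X

open Pool.Agent.H89T Pool.Agent.H67T Pool.Agent.H53U Pool.Agent.H53V Pool.Agent.H44K

open Pool.Agent.H53L (MoveL lamB hA rhA vA X0D trk piA vF VF exists_hb exists_moveL eval_spec piA_iter iter_value)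

variable {n d k : ℕ}

/-- As in `algLog_of_propLog'` (H53L/B11): `x b = ξ (b, 0)`, `y p = ξ (p.1, p.2.succ)`, `i0 = ⟨0, _⟩ : Fin k` (`1 ≤ k`), `y (b0, i0) = ξ (b0, 1) ≠ 0`.  `exists_order` for `q = piA a x P` gives `r`, `τ`;
`exists_hb` gives `h` with `eval y (VF b0 h (X p)) = τ p`; `exists_moveL` gives `ρ`, `g`.  `eval ξ (spec a (V^[r] P)) = eval y (piA a x (V^[r] P)) = eval y ((VF b0 h)^[r] (piA a x P))` (`eval_spec`, `piA_iter`)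
`= r! * coefficient ≠ 0` (`iter_value`). -/
theorem exists_move (hk : 1 ≤ k) (hkd : k ≤ d) {P : AA n d k} {μ : ℕ} (a : Idx n d → ℂ) (ξ : JV n k → ℂ)
    (hne : piA a (fun b => ξ (b, 0)) P ≠ 0) (hdeg : (piA a (fun b => ξ (b, 0)) P).totalDegree < μ)
    (hF : ev a (fun b => ξ (b, 0)) ≠ 0) (himm : ∃ b, ∃ i : Fin (k + 1), (i : ℕ) = 1 ∧ ξ (b, i) ≠ 0) :
    ∃ (b0 : Fin n) (h : Fin n → Polynomial ℂ) (ρ : MvPolynomial (Fin n) ℂ) (g : Idx n d → AA n d k) (r : ℕ),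
      MoveL a (fun b => ξ (b, 0)) b0 h ρ g ∧ r < μ ∧
        eval ξ (spec a ((VV g (lamB b0 h))^[r] P)) ≠ 0 := by
  obtain ⟨b0, i, hi1, hξ⟩ := himm
  have hy0 : (fun p : Fin n × Fin k => ξ (p.1, p.2.succ)) (b0, ⟨0, hk⟩) ≠ 0 := by
    have h1 : i = (⟨0, hk⟩ : Fin k).succ := Fin.ext (by rw [hi1]; rfl)
    show ξ (b0, (⟨0, hk⟩ : Fin k).succ) ≠ 0
    rw [← h1]
    exact hξ
  obtain ⟨r, τ, hrμ, hlow, hr1⟩ := exists_order hne hdeg (fun p : Fin n × Fin k => ξ (p.1, p.2.succ))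
  obtain ⟨h, h0, hh⟩ := exists_hb b0 (fun p => ξ (p.1, p.2.succ)) τ ⟨0, hk⟩ rfl hy0
  obtain ⟨ρ, g, hM⟩ := exists_moveL hk hkd a (fun b => ξ (b, 0)) hF b0 h h0
  refine ⟨b0, h, ρ, g, r, hM, hrμ, ?_⟩
  rw [eval_spec, piA_iter hM, iter_value (VF b0 h) hh hlow]
  exact mul_ne_zero (Nat.cast_ne_zero.2 (Nat.factorial_ne_zero r)) hr1

end Pool.Agent.H89X
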