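import Pool.Agent.Lib.H89X.M1
import Pool.Agent.Lib.H89X.M2
import Pool.Agent.Lib.H89X.M5
import Pool.Agent.Lib.H89X.M7
import Pool.Agent.Lib.H89X.M9

set_option autoImplicit false

/-!
CHUNK MMain of H89X, module M (moves, PROOF.md section M).  Assembly.
-/

open MvPolynomial

namespace Pool.Agent.H89X

open Pool.Agent.H89T Pool.Agent.H67T Pool.Agent.H53U Pool.Agent.H53V Pool.Agent.H44K

open Pool.Agent.H53L (MoveL lamB piA)

variable {n d k : ℕ}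

/-- `Q = flat P`: `flat_ne`, `flat_PropW`, `flat_wt`, `flat_jd`; `W` of `exists_W1`; for a jet `ξ`: `degree_piA`, `exists_move` gives `V` and `r < μ`; `P' = spec a (V^[r] Q)`: `WtA_iter` and `WtA.mono`
(`A + m + μ + 2 k r ≤ A + m + μ + 2 k μ`), `spec_WtA` (H89T/C10), `PropWA_iter` with `MoveL_adm`, `spec_PropW`. -/
theorem algW_of_exW {r J A m μ : ℕ} (hr : 1 ≤ r) (hrk : r + n ≤ k) (hkd : k ≤ d)
    (h : ExW n d r J k A m μ) : AlgW n d r J k (A + m + μ + 2 * k * μ) := by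
  obtain ⟨P, hP, hsup, hW⟩ := h
  obtain ⟨W, hW0, hWW⟩ := exists_W1 (flat_ne hP)
  refine ⟨W, hW0, fun a ξ h1 h2 h3 => ?_⟩
  have h4 := hWW a (fun b => ξ (b, 0)) h1
  obtain ⟨b0, h, ρ, g, e, hM, he, hev⟩ := exists_move (by omega) hkd a ξ h4
    (degree_piA (flat_jd hsup) a _ h4) h2 h3
  refine ⟨spec a ((VV g (lamB b0 h))^[e] (flat P)), ?_, ?_, hev⟩
  · refine spec_WtA a ((WtA_iter hM (flat_wt hsup) e).mono ?_)
    have h5 : 2 * k * e ≤ 2 * k * μ := Nat.mul_le_mul_left _ he.le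
    omega
  · exact spec_PropW a (PropWA_iter hr hrk (MoveL_adm hM) (flat_PropW hW) e)

/-- The same with `flat_PropS`, `PropSA_iter`, `PropSA_mono` (`A + m + 2 K r ≤ A + m + μ + 2 K μ`), `spec_PropS`. -/
theorem algS_of_exS {K A m μ s : ℕ} (hK : 1 ≤ K) (hKd : K ≤ d) (h : ExS n d K A m μ s) :
    AlgS n d K (A + m + μ + 2 * K * μ) := by
  obtain ⟨P, hP, hsup, hS⟩ := h
  obtain ⟨W, hW0, hWW⟩ := exists_W1 (flat_ne hP)
  refine ⟨W, hW0, fun a ξ h1 h2 h3 => ?_⟩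
  have h4 := hWW a (fun b => ξ (b, 0)) h1
  obtain ⟨b0, h, ρ, g, e, hM, he, hev⟩ := exists_move hK hKd a ξ h4
    (degree_piA (flat_jd hsup) a _ h4) h2 h3
  have h5 : 2 * K * e ≤ 2 * K * μ := Nat.mul_le_mul_left _ he.le
  refine ⟨s, spec a ((VV g (lamB b0 h))^[e] (flat P)), ?_, ?_, hev⟩
  · exact spec_WtA a ((WtA_iter hM (flat_wt hsup) e).mono (by omega))
  · exact spec_PropS a (PropSA_mono (by omega) (PropSA_iter hM (flat_PropS hS) e))

end Pool.Agent.H89X
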