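import Pool.Agent.Lib.H89X.N6

set_option autoImplicit false

/-!
H89X, chunk N7: the second main theorem for one curve.
-/

open MvPolynomial Real MeasureTheory

namespace Pool.Agent.H89X

open Pool.Agent.H89T Pool.Agent.H67T Pool.Agent.H53L

/-- Chunk N7 (S/M).  PROOF.  `coreL` (Lib/H53L/C10.lean) with `a = r`, `b = d * r`, `c = M + r * M'`, `L = max k K`, `Z = Zx D M M' r P B` (`Zx_diff`, `Zx_ne`, `Zx_order`, `Zx_bound`)
gives `d r χ ≤ r N1 + (M + r M') χ + C err`; `absorb` (Lib/H89T/DH.lean) with `a := d r - (M + r M')`, `b := (1 - ε) d r`, `N x := r * N1 x`; divide by `r`. -/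
theorem smt_curveX {n d k K J M M' s r : ℕ} (hn : 1 ≤ n) (hr : 1 ≤ r) (hk : r + n ≤ k + 2)
    (hJ : 2 ≤ J) (hKJ : K ≤ J) (hd : d ≤ M' + s) {ε : ℝ} (hε : (M : ℝ) + r * M' < ε * r * d)
    (D : CurveData n d) {P : MvPolynomial (JV n k) ℂ}
    {B : MvPolynomial (JV n K) ℂ} (hPw : HasWt M P) (hBw : HasWt M' B) (hP : PropP (D.a 0) r J P)
    (hB : PropBX (D.a 0) M' s B) (hch : ∀ z, D.Fy z = 0 → D.y z 0 ≠ 0) {z₁ : ℂ}
    (hz : D.y z₁ 0 ≠ 0) (h1 : eval (jetf k (ch 0 D.y) z₁) P ≠ 0)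
    (h2 : eval (jetf K (ch 0 D.y) z₁) B ≠ 0) :
    ∃ (C : ℝ) (E : Set ℝ), volume E < ⊤ ∧ ∀ x : ℝ, 2 ≤ x → x ∉ E →
      (1 - ε) * d * chi D.y x ≤ N1 D.Fy x + C * log x := by
  obtain ⟨C₀, e, hC₀, hbd⟩ := Zx_bound (r := r) D hPw hBw hB (le_max_left k K) (le_max_right k K) hd
  obtain ⟨C, hC, hcore⟩ := coreL D (a := r) (b := d * r) (c := M + r * M') (L := max k K) (e := e)
    hr (Zx_diff D M M' r P B) ⟨z₁, Zx_ne D hPw hBw hz h1 h2⟩
    (fun z ν hν => Zx_order hn hr hk hJ hKJ D hPw hBw hP hB hch z ν hν) hC₀ hbd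
  have hr' : (1 : ℝ) ≤ r := by exact_mod_cast hr
  have hr0 : (0 : ℝ) < r := by linarith
  have hlt : (1 - ε) * d * r < (d : ℝ) * r - (M + r * M') := by nlinarith
  obtain ⟨C', E, hE, hmain⟩ := absorb (a := (d : ℝ) * r - (M + r * M')) (b := (1 - ε) * d * r)
    (N := fun x => (r : ℝ) * N1 D.Fy x) D.hy hlt hC
    (fun x R hx hxR => by
      have := hcore x R hx hxR
      push_cast at this
      linarith)
  refine ⟨C' / r, E, hE, fun x hx hxE => ?_⟩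
  have h3 := hmain x hx hxE
  have h4 : (r : ℝ) * ((1 - ε) * d * chi D.y x) ≤ r * (N1 D.Fy x + C' / r * log x) := by
    have e2 : (r : ℝ) * (N1 D.Fy x + C' / r * log x) = r * N1 D.Fy x + C' * log x := by
      field_simp
    rw [e2]
    calc (r : ℝ) * ((1 - ε) * d * chi D.y x) = (1 - ε) * d * r * chi D.y x := by ring
      _ ≤ _ := h3
  exact le_of_mul_le_mul_left h4 hr0

end Pool.Agent.H89X
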