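import Pool.Agent.Lib.H89X.N8

set_option autoImplicit false

/-!
H89X, chunk N9: a chart without zeros of `F (y)` at infinity.
-/

open MvPolynomial Filter Topology

namespace Pool.Agent.H89X

open Pool.Agent.H89T Pool.Agent.H67T

/-- Chunk N9a (M).  The zeros of an entire function which is not identically zero are countable.  PROOF.  `AnalyticOnNhd.eqOn_zero_or_eventually_ne_zero_of_preconnected` (or
`eventually_ne_of_entire`, Lib/H89T/DC.lean, translated): every point has a punctured neighbourhood without zeros; so the set `S` of the zeros is discrete in the subspace topology (`discreteTopology_subtype_iff`,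
`𝓝[≠] z ⊓ 𝓟 S = ⊥`), and a discrete subspace of `ℂ` is countable (second countable: `countable_of_Lindelof_of_discrete`, or
`IsLindelof.countable`, `HereditarilyLindelofSpace.isLindelof`). -/
theorem countable_zeros {g : ℂ → ℂ} (hg : Differentiable ℂ g) (h : ∃ z, g z ≠ 0) :
    {z | g z = 0}.Countable := by
  obtain ⟨x, hx⟩ := h
  have h1 : AnalyticOnNhd ℂ g Set.univ := fun w _ => hg.analyticAt w
  have h2 := h1.preimage_zero_mem_codiscrete (x := x) hx
  have h3 := (mem_codiscrete'.1 h2).2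
  have h4 : (g ⁻¹' {0}ᶜ)ᶜ = {z | g z = 0} := by
    ext z
    simp
  rw [h4] at h3
  exact (HereditarilyLindelofSpace.isLindelof _).countable_of_isDiscrete h3

theorem n9_lt_cont {n : ℕ} (y : Fin (n + 1) → ℂ) : Continuous fun t => lt t y := by
  unfold lt
  exact continuous_finsetSum _ fun b _ => (continuous_pow (b : ℕ)).mul continuous_const

theorem n9_lt_at {n : ℕ} (y : Fin (n + 1) → ℂ) : lt 0 y = y 0 := by
  have h := congrFun (At_at_zero n y) 0
  rwa [At_zero] at h

theorem n9_ch {n : ℕ} (t : ℂ) (y : ℂ → Fin (n + 1) → ℂ) (w : ℂ) (b : Fin n) :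
    ch 0 (fun w => At n t (y w)) w b = y w b.succ / lt t (y w) := by
  unfold ch
  rw [Fin.zero_succAbove]
  show At n t (y w) b.succ / At n t (y w) 0 = _
  rw [At_succ, At_zero]

theorem n9_deriv {n : ℕ} (t : ℂ) {y : ℂ → Fin (n + 1) → ℂ}
    (hy : ∀ j, Differentiable ℂ fun z => y z j) (z : ℂ) (b : Fin n) (h0 : lt t (y z) ≠ 0) :
    deriv (fun w => ch 0 (fun w => At n t (y w)) w b) z =
      (deriv (fun w => y w b.succ) z * lt t (y z) -
        y z b.succ * lt t (fun j => deriv (fun w => y w j) z)) / (lt t (y z)) ^ 2 := by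
  have h1 : (fun w => ch 0 (fun w => At n t (y w)) w b) = fun w => y w b.succ / lt t (y w) :=
    funext fun w => n9_ch t y w b
  have h2 : HasDerivAt (fun w => y w b.succ) (deriv (fun w => y w b.succ) z) z :=
    (hy b.succ z).hasDerivAt
  have h3 : HasDerivAt (fun w => lt t (y w)) (lt t (fun j => deriv (fun w => y w j) z)) z := by
    unfold lt
    exact HasDerivAt.fun_sum fun j _ => ((hy j z).hasDerivAt).const_mul (t ^ (j : ℕ))
  rw [h1]
  exact (h2.fun_div h3 h0).deriv

theorem n9_sub {n : ℕ} (F : MvPolynomial (Fin (n + 1)) ℂ) :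
    sub ((At n 0).symm : (Fin (n + 1) → ℂ) →ₗ[ℂ] (Fin (n + 1) → ℂ)) F = F := by
  refine MvPolynomial.funext fun y => ?_
  rw [eval_sub]
  have h : ((At n 0).symm : (Fin (n + 1) → ℂ) →ₗ[ℂ] (Fin (n + 1) → ℂ)) y = y :=
    (LinearEquiv.symm_apply_eq (At n 0)).2 (At_at_zero n y).symm
  rw [h]

/-- Chunk N9b (M).  PROOF.  All conditions except the first one hold for `t` near `0`: they hold for `t = 0` (`At_at_zero`, `sub` of the identity) and are given by continuous functions of `t`: `At n t (y z₁) c` (`continuous_At`),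
`eval (Sum.elim (ch 0 ..) (cfF ..)) W` is a polynomial in `At n t (y z₁) b.succ / At n t (y z₁) 0` (continuous near `0`) and in the coefficients (`continuous_coeff_sub`, `cfF` is a coefficient): use
`ContinuousAt`, `MvPolynomial.continuous_eval` or `MvPolynomial.eval_eq'`; the derivative of `ch 0 (fun w => At n t (y w)) b` at `z₁` is
`(y' b.succ * lt t (y z₁) - y b.succ * lt t y') / (lt t (y z₁)) ^ 2` (`deriv_div`, `deriv_fun_sum`), continuous in `t` at `0` (`b` fixed, the index of `hb`).  The first condition excludes only countably many `t`: the union over the countable set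
`{z | eval (y z) F = 0}` (`countable_zeros`) of the finite sets `finite_lt` (`Set.Countable.biUnion`; `hy.ne_zero`).  A neighbourhood of `0` in `ℂ` meets the complement of a countable set
(`Set.Countable.dense_compl ℂ`, `Dense.inter_nhds_nonempty`). -/
theorem exists_chart {n d : ℕ} {F : MvPolynomial (Fin (n + 1)) ℂ} (hF : F.IsHomogeneous d)
    {W : MvPolynomial (Fin n ⊕ Idx n d) ℂ} {y : ℂ → Fin (n + 1) → ℂ} (hy : IsHol y) {z₁ : ℂ}
    (hF1 : eval (y z₁) F ≠ 0) (hy1 : ∀ c, y z₁ c ≠ 0)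
    (hW : eval (Sum.elim (ch 0 y z₁) (cfF d 0 F)) W ≠ 0)
    (hb : ∃ b, deriv (fun w => ch 0 y w b) z₁ ≠ 0) :
    ∃ A : (Fin (n + 1) → ℂ) ≃ₗ[ℂ] (Fin (n + 1) → ℂ),
      (∀ z, eval (y z) F = 0 → A (y z) 0 ≠ 0) ∧ (∀ c, A (y z₁) c ≠ 0) ∧
      eval (Sum.elim (ch 0 (fun w => A (y w)) z₁)
        (cfF d 0 (sub (A.symm : (Fin (n + 1) → ℂ) →ₗ[ℂ] (Fin (n + 1) → ℂ)) F))) W ≠ 0 ∧
      ∃ b, deriv (fun w => ch 0 (fun w => A (y w)) w b) z₁ ≠ 0 := by
  obtain ⟨b, hb⟩ := hb
  have hZ : {z | eval (y z) F = 0}.Countable :=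
    countable_zeros (differentiable_eval hy.diff F) ⟨z₁, hF1⟩
  have hS : (⋃ z ∈ {z | eval (y z) F = 0}, {t : ℂ | lt t (y z) = 0}).Countable :=
    hZ.biUnion fun z _ => (finite_lt (hy.ne_zero z)).countable
  have h0 : lt 0 (y z₁) ≠ 0 := by
    rw [n9_lt_at]
    exact hy1 0
  have h2 : ∀ᶠ t in 𝓝 (0 : ℂ), ∀ c, At n t (y z₁) c ≠ 0 := by
    refine eventually_all.2 fun c => ?_
    refine ContinuousAt.eventually_ne (continuous_At n (y z₁) c).continuousAt ?_
    rw [At_at_zero]
    exact hy1 c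
  have h3 : ∀ᶠ t in 𝓝 (0 : ℂ), eval (Sum.elim (ch 0 (fun w => At n t (y w)) z₁)
      (cfF d 0 (sub ((At n t).symm : (Fin (n + 1) → ℂ) →ₗ[ℂ] (Fin (n + 1) → ℂ)) F))) W ≠ 0 := by
    have hc : ContinuousAt (fun t => (Sum.elim (ch 0 (fun w => At n t (y w)) z₁)
        (cfF d 0 (sub ((At n t).symm : (Fin (n + 1) → ℂ) →ₗ[ℂ] (Fin (n + 1) → ℂ)) F)) :
          Fin n ⊕ Idx n d → ℂ)) 0 := by
      refine continuousAt_pi.2 ?_
      rintro (b | α)
      · have e : (fun t => (Sum.elim (ch 0 (fun w => At n t (y w)) z₁)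
            (cfF d 0 (sub ((At n t).symm : (Fin (n + 1) → ℂ) →ₗ[ℂ] (Fin (n + 1) → ℂ)) F)) :
              Fin n ⊕ Idx n d → ℂ) (Sum.inl b)) = fun t => y z₁ b.succ / lt t (y z₁) :=
          funext fun t => n9_ch t y z₁ b
        rw [e]
        exact ContinuousAt.div continuousAt_const (n9_lt_cont _).continuousAt h0
      · exact (continuous_coeff_sub n F (ext 0 α)).continuousAt
    have hc2 : ContinuousAt (fun t => eval (Sum.elim (ch 0 (fun w => At n t (y w)) z₁)
        (cfF d 0 (sub ((At n t).symm : (Fin (n + 1) → ℂ) →ₗ[ℂ] (Fin (n + 1) → ℂ)) F))) W) 0 :=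
      ContinuousAt.comp (f := fun t => (Sum.elim (ch 0 (fun w => At n t (y w)) z₁)
        (cfF d 0 (sub ((At n t).symm : (Fin (n + 1) → ℂ) →ₗ[ℂ] (Fin (n + 1) → ℂ)) F)) :
          Fin n ⊕ Idx n d → ℂ)) (g := fun v : Fin n ⊕ Idx n d → ℂ => eval v W)
        (MvPolynomial.continuous_eval W).continuousAt hc
    refine hc2.eventually_ne ?_
    have e1 : (fun w => At n 0 (y w)) = y := funext fun w => At_at_zero n (y w)
    rw [e1, n9_sub]
    exact hW
  have h4 : ∀ᶠ t in 𝓝 (0 : ℂ), deriv (fun w => ch 0 (fun w => At n t (y w)) w b) z₁ ≠ 0 := by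
    have hG : ContinuousAt (fun t => (deriv (fun w => y w b.succ) z₁ * lt t (y z₁) -
        y z₁ b.succ * lt t (fun j => deriv (fun w => y w j) z₁)) / (lt t (y z₁)) ^ 2) 0 := by
      refine ContinuousAt.div ?_ ?_ (pow_ne_zero 2 h0)
      · exact ((continuous_const.mul (n9_lt_cont _)).sub
          (continuous_const.mul (n9_lt_cont _))).continuousAt
      · exact ((n9_lt_cont _).pow 2).continuousAt
    have e1 : (fun w => At n 0 (y w)) = y := funext fun w => At_at_zero n (y w)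
    have e2 := n9_deriv 0 hy.diff z₁ b h0
    rw [e1] at e2
    have h5 : ∀ᶠ t in 𝓝 (0 : ℂ), (deriv (fun w => y w b.succ) z₁ * lt t (y z₁) -
        y z₁ b.succ * lt t (fun j => deriv (fun w => y w j) z₁)) / (lt t (y z₁)) ^ 2 ≠ 0 := by
      refine hG.eventually_ne ?_
      rw [← e2]
      exact hb
    have h6 : ∀ᶠ t in 𝓝 (0 : ℂ), lt t (y z₁) ≠ 0 :=
      (n9_lt_cont (y z₁)).continuousAt.eventually_ne h0
    filter_upwards [h5, h6] with t h7 h8
    rw [n9_deriv t hy.diff z₁ b h8]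
    exact h7
  obtain ⟨U, hU1, hU2, hU3⟩ := mem_nhds_iff.1 (h2.and (h3.and h4))
  obtain ⟨t, ht, htU⟩ := (hS.dense_compl ℂ).exists_mem_open hU2 ⟨0, hU3⟩
  obtain ⟨k2, k3, k4⟩ := hU1 htU
  refine ⟨At n t, fun z hz h => ht ?_, k2, k3, b, k4⟩
  rw [At_zero] at h
  exact Set.mem_biUnion (show z ∈ {z | eval (y z) F = 0} from hz) h

end Pool.Agent.H89X
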