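import Pool.Agent.Lib.H89X.D0
import Pool.Agent.Lib.H89X.N7
import Pool.Agent.Lib.H89X.N9

set_option autoImplicit false

/-!
H89X, module N: analysis.
-/

open MvPolynomial Real MeasureTheory

namespace Pool.Agent.H89X

open Pool.Agent.H89T Pool.Agent.H67T

/-- A linear change of coordinates of a curve. -/
theorem nmain_hol {n : ℕ} (A : (Fin (n + 1) → ℂ) ≃ₗ[ℂ] (Fin (n + 1) → ℂ))
    {y : ℂ → Fin (n + 1) → ℂ} (hy : IsHol y) : IsHol fun z => A (y z) := by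
  refine ⟨fun j => ?_, fun z h0 => hy.ne_zero z ?_⟩
  · have h1 : Differentiable ℂ y := differentiable_pi.2 hy.diff
    have h2 : Differentiable ℂ fun z =>
        (LinearMap.toContinuousLinearMap
          (A : (Fin (n + 1) → ℂ) →ₗ[ℂ] (Fin (n + 1) → ℂ))) (y z) :=
      (ContinuousLinearMap.differentiable _).comp h1
    exact differentiable_pi.1 h2 j
  · have : A (y z) = A 0 := by
      rw [map_zero]
      exact h0
    exact A.injective this

/-- The inequality for the curve from the inequality in other coordinates. -/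
theorem nmain_chi {n d : ℕ} {ε : ℝ} (A : (Fin (n + 1) → ℂ) ≃ₗ[ℂ] (Fin (n + 1) → ℂ))
    {y : ℂ → Fin (n + 1) → ℂ} (hy : IsHol y) {g : ℂ → ℂ}
    (h : ∃ (C : ℝ) (E : Set ℝ), volume E < ⊤ ∧ ∀ x : ℝ, 2 ≤ x → x ∉ E →
      (1 - ε) * d * chi (fun z => A (y z)) x ≤ N1 g x + C * log x) :
    ∃ (C : ℝ) (E : Set ℝ), volume E < ⊤ ∧ ∀ x : ℝ, 2 ≤ x → x ∉ E →
      (1 - ε) * d * chi y x ≤ N1 g x + C * log x := by
  obtain ⟨C, E, hE, hr⟩ := h
  have hy' := nmain_hol A hy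
  obtain ⟨K₁, hK₁⟩ := chi_linear A hy hy'
  obtain ⟨K₂, hK₂⟩ := chi_linear A.symm hy' (by simpa using hy)
  refine ⟨C + |(1 - ε) * d| * (|K₁| + |K₂|) / log 2, E, hE, fun r h2 hrE => ?_⟩
  have h3 := hr r h2 hrE
  have h4 := hK₁ r (by linarith)
  have h5 := hK₂ r (by linarith)
  simp only [LinearEquiv.symm_apply_apply] at h5
  have h6 : |chi y r - chi (fun z => A (y z)) r| ≤ |K₁| + |K₂| := by
    rw [abs_le]
    constructor
    · have := le_abs_self K₂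
      have := abs_nonneg K₁
      linarith
    · have := le_abs_self K₁
      have := abs_nonneg K₂
      linarith
  have h7 : (1 - ε) * d * chi y r - (1 - ε) * d * chi (fun z => A (y z)) r ≤
      |(1 - ε) * d| * (|K₁| + |K₂|) := by
    rw [← mul_sub]
    refine (le_abs_self _).trans ?_
    rw [abs_mul]
    exact mul_le_mul_of_nonneg_left h6 (abs_nonneg _)
  have h8 : |(1 - ε) * d| * (|K₁| + |K₂|) ≤ |(1 - ε) * d| * (|K₁| + |K₂|) / log 2 * log r := by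
    have h9 : 0 < log 2 := Real.log_pos one_lt_two
    have h10 : log 2 ≤ log r := Real.log_le_log (by norm_num) h2
    rw [div_mul_eq_mul_div, le_div_iff₀ h9]
    exact mul_le_mul_of_nonneg_left h10 (by positivity)
  rw [add_mul]
  linarith

/-- Property (W) of `D0` is property (P) of `ND`. -/
theorem nmain_propP {n d k r J : ℕ} {a : Idx n d → ℂ} {P : MvPolynomial (JV n k) ℂ}
    (h : PropW a r J P) : PropP a r J P := fun j h1 h2 l hl => h j h1 h2 l hl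

/-- Property (S) of `D0` gives property (B) of `ND`. -/
theorem nmain_propBX {n d K D s : ℕ} {a : Idx n d → ℂ} {B : MvPolynomial (JV n K) ℂ}
    (h : PropS a D s B) : PropBX a D s B := by
  intro b
  refine Fin.cases ?_ (fun i => ?_) b
  · obtain ⟨c, h1, h2⟩ := h none
    exact ⟨c, h2, h1⟩
  · obtain ⟨c, h1, h2⟩ := h (some i)
    exact ⟨c, h2, h1⟩

/-- MODULE N. -/
theorem smtX_of_alg {n d k K J M M' r : ℕ} {ε : ℝ} (hA : AlgW n d r J k M) (hB : AlgS n d K M')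
    (hn : 1 ≤ n) (_hd : 1 ≤ d) (hr : 1 ≤ r) (hJ : 2 ≤ J) (hK : 1 ≤ K) (hk : r + n ≤ k)
    (hKJ : K ≤ J) (hε : (M : ℝ) + r * M' + r + 1 ≤ ε * r * d) : SmtX n d ε := by
  obtain ⟨W, hW0, hW⟩ := hA
  obtain ⟨W', hW'0, hW'⟩ := hB
  obtain ⟨q₀, Θ, hq₀, hΘ, hΘ'⟩ := exists_point (k := d) (mul_ne_zero hW0 hW'0)
  refine all_points hq₀ hΘ (fun F hF hF0 => ?_) (q := Pi.single 0 1) (by
    intro h0
    have := congrFun h0 0
    simp at this)
  obtain ⟨G, hqG, hG⟩ := hΘ' F hF hF0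
  refine ⟨G, hqG, ?_⟩
  rintro y hy hnc ⟨z₀, hz₀⟩
  refine ⟨⟨z₀, (hG _ hz₀).1⟩, ?_⟩
  have hGc : Continuous fun z => eval (y z) G := (differentiable_eval hy.diff G).continuous
  obtain ⟨z₁, hz₁, hb⟩ := dp3_point hy hnc 0 hGc (fun z hz => ((hG _ hz).2 0).1) hz₀
  have hWW : eval (Sum.elim (ch 0 y z₁) (cfF d 0 F)) (W * W') ≠ 0 := ((hG _ hz₁).2 0).2
  obtain ⟨A, hA1, hA2, hA3, b, hA4⟩ := exists_chart hF hy (hG _ hz₁).1
    (fun c => ((hG _ hz₁).2 c).1) hWW hb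
  refine nmain_chi (d := d) A hy ?_
  set F' := sub (A.symm : (Fin (n + 1) → ℂ) →ₗ[ℂ] (Fin (n + 1) → ℂ)) F with hF'
  have hF'h : F'.IsHomogeneous d := sub_homogeneous _ hF
  have hy' := nmain_hol A hy
  set y' : ℂ → Fin (n + 1) → ℂ := fun z => A (y z) with hy'def
  have hev : ∀ z, eval (y' z) F' = eval (y z) F := by
    intro z
    rw [hF', eval_sub]
    simp [hy'def]
  have hF1 : eval (y' z₁) F' ≠ 0 := by
    rw [hev]
    exact (hG _ hz₁).1
  set D := mkData hF'h hy' ⟨z₁, hF1⟩ (fun c => ⟨z₁, hA2 c⟩) with hD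
  have hjet0 : ∀ κ : ℕ, (fun b => jetf κ (ch 0 y') z₁ (b, 0)) = ch 0 y' z₁ := by
    intro κ
    funext b
    simp [jetf]
  rw [map_mul] at hA3
  have hevF : ∀ κ : ℕ, ev (cfF d 0 F') (fun b => jetf κ (ch 0 y') z₁ (b, 0)) ≠ 0 := by
    intro κ
    rw [hjet0]
    have h1 := ev_cf 0 hF'h (hA2 0)
    change ev (cfF d 0 F') (fun b => y' z₁ ((0 : Fin (n + 1)).succAbove b) / y' z₁ 0) ≠ 0
    rw [h1]
    exact div_ne_zero hF1 (pow_ne_zero _ (hA2 0))
  have hj1 : ∀ κ : ℕ, 1 ≤ κ → ∃ b, ∃ i : Fin (κ + 1), (i : ℕ) = 1 ∧ jetf κ (ch 0 y') z₁ (b, i) ≠ 0 := by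
    intro κ hκ
    refine ⟨b, ⟨1, by omega⟩, rfl, ?_⟩
    simp only [jetf, iteratedDeriv_one, Nat.factorial_one, Nat.cast_one, div_one]
    exact hA4
  obtain ⟨P, hPw, hPP, hP0⟩ := hW (cfF d 0 F') (jetf k (ch 0 y') z₁)
    (by rw [hjet0]; exact left_ne_zero_of_mul hA3) (hevF k) (hj1 k (by omega))
  obtain ⟨s, B, hBw, hBB, hB0⟩ := hW' (cfF d 0 F') (jetf K (ch 0 y') z₁)
    (by rw [hjet0]; exact right_ne_zero_of_mul hA3) (hevF K) (hj1 K (by omega))
  have hch : ∀ z, D.Fy z = 0 → D.y z 0 ≠ 0 := by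
    intro z hz
    exact hA1 z ((hev z).symm.trans hz)
  have hd' : d ≤ M' + s := by
    obtain ⟨c, -, h2⟩ := hBB none
    have := h2 0
    omega
  have hε' : (M : ℝ) + r * M' < ε * r * d := by
    have : (0 : ℝ) ≤ r := Nat.cast_nonneg r
    linarith
  have hfin := smt_curveX hn hr (by omega) hJ hKJ hd' hε' D hPw hBw (nmain_propP hPP) (nmain_propBX hBB) hch
    (hA2 0) hP0 hB0
  have hFy : D.Fy = fun z => eval (y z) F := by
    funext z
    exact hev z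
  rw [hFy] at hfin
  exact hfin

end Pool.Agent.H89X
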