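import Pool.Agent.Lib.H89X.K20
import Pool.Agent.Lib.H89X.NMain
import Pool.Agent.Lib.H89X.MMain
import Pool.Agent.Lib.H89X.A9
import Pool.Agent.Lib.H89X.BMain
import Pool.Agent.Lib.H89T.DP9

set_option autoImplicit false

/-!
H89X: the explicit second main theorem with the coefficient `(1 - ε) d`.
-/

open MvPolynomial Real MeasureTheory

namespace Pool.Agent.H89X

open Pool.Agent.H89T Pool.Agent.H67T

/-- The pointed version. -/
theorem smtX {n d : ℕ} {ε : ℝ} (hn : 2 ≤ n) (hε : 0 < ε) (hε1 : ε ≤ 1)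
    (h : (45 * (n : ℝ) * (1 + log d)) ^ 3 ≤ ε ^ 3 * d) : SmtX n d ε := by
  obtain ⟨r, J, k, A, m, μ, K, A', m', μ', s, hr, hrk, hkd, hJ, hK, hKJ, hKd, hW, hA', hS, hc⟩ :=
    countX2 hn hε hε1 h
  have hA := algW_of_exW hr hrk hkd (exW_of_count (by omega) (by omega) hW)
  have hB := algS_of_exS hK hKd (exS_of_count (by omega) (by omega) hA' hS)
  refine smtX_of_alg hA hB (by omega) (by omega) hr hJ hK hrk hKJ (le_trans (le_of_eq ?_) hc)
  push_cast
  ring

/-- **Theorem X**: the explicit second main theorem with truncation level one for one generic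
hypersurface. -/
theorem theoremX {n d : ℕ} {ε : ℝ} (hn : 1 ≤ n) (hε : 0 < ε) (hε1 : ε ≤ 1)
    (h : (90 * (n : ℝ) * (1 + log d)) ^ 3 ≤ ε ^ 3 * d) :
    ∃ Θ : MvPolynomial (Fin (n + 1) →₀ ℕ) ℂ,
      (∃ F : MvPolynomial (Fin (n + 1)) ℂ, F.IsHomogeneous d ∧ cval Θ F ≠ 0) ∧
      ∀ F : MvPolynomial (Fin (n + 1)) ℂ, F.IsHomogeneous d → cval Θ F ≠ 0 →
        ∀ y : ℂ → Fin (n + 1) → ℂ, IsHol y → (∃ z w, ∀ c : ℂ, y w ≠ c • y z) →
          (∃ z, eval (y z) F ≠ 0) → Smt ε d F y := by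
  have hd : 1 ≤ d := by
    rcases Nat.eq_zero_or_pos d with rfl | hd
    · have h1 : (1 : ℝ) ≤ n := by exact_mod_cast hn
      simp only [Nat.cast_zero, log_zero, add_zero, mul_one, mul_zero] at h
      have h2 : (0 : ℝ) < (90 * n) ^ 3 := by positivity
      linarith
    · exact hd
  have h2 : SmtX (n + n) d ε := by
    refine smtX (by omega) hε hε1 (le_trans (le_of_eq ?_) h)
    push_cast
    ring
  obtain ⟨Θ, hΘ, h3⟩ := h2
  exact smt_all_of_pointed hd hε1 hΘ h3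

end Pool.Agent.H89X
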