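import Pool.Agent.Lib.H89X.AD
import Pool.Agent.Lib.H89T.N2

set_option autoImplicit false

/-!
CHUNK A2 (S/M).  Lowest parts: rules.  `jd (ν + ν') = jd ν + jd ν'` is `jd_add` of H89T.
-/

open MvPolynomial

namespace Pool.Agent.H89X

open Pool.Agent.H89T Pool.Agent.H67T Pool.Agent.H53U Pool.Agent.H53V Pool.Agent.H44K

variable {n k : ℕ}

theorem a2_mul {f g : MvPolynomial (JV n k) ℂ} {ν : JV n k →₀ ℕ} (h : ν ∈ (f * g).support) :
    ∃ ν1 ∈ f.support, ∃ ν2 ∈ g.support, ν1 + ν2 = ν := by
  classical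
  have h1 := MvPolynomial.support_mul f g h
  rw [Finset.mem_add] at h1
  exact h1

theorem a2_add {f g : MvPolynomial (JV n k) ℂ} {ν : JV n k →₀ ℕ} (h : ν ∈ (f + g).support) :
    ν ∈ f.support ∨ ν ∈ g.support := by
  classical
  exact Finset.mem_union.1 (MvPolynomial.support_add h)

theorem a2_jd_zero : jd (0 : JV n k →₀ ℕ) = 0 := by
  unfold jd
  refine Finset.sum_eq_zero fun p _ => ?_
  simp

/-- PROOF.  `f f' - p p' = (f - p) (f' - p') + (f - p) p' + p (f' - p')`; `MvPolynomial.support_mul`, `support_add`, `jd_add`. -/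
theorem Low.mul {e e' : ℕ} {f p f' p' : MvPolynomial (JV n k) ℂ} (h : Low e f p) (h' : Low e' f' p') :
    Low (e + e') (f * f') (p * p') := by
  constructor
  · intro ν hν
    obtain ⟨ν1, h1, ν2, h2, rfl⟩ := a2_mul hν
    rw [jd_add, h.hom ν1 h1, h'.hom ν2 h2]
  · intro ν hν
    have e1 : f * f' - p * p' = (f - p) * (f' - p') + ((f - p) * p' + p * (f' - p')) := by ring
    rw [e1] at hν
    rcases a2_add hν with h0 | h0
    · obtain ⟨ν1, h1, ν2, h2, rfl⟩ := a2_mul h0
      have h3 := h.rest ν1 h1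
      have h4 := h'.rest ν2 h2
      rw [jd_add]
      omega
    · rcases a2_add h0 with h0 | h0
      · obtain ⟨ν1, h1, ν2, h2, rfl⟩ := a2_mul h0
        have h3 := h.rest ν1 h1
        have h4 := h'.hom ν2 h2
        rw [jd_add]
        omega
      · obtain ⟨ν1, h1, ν2, h2, rfl⟩ := a2_mul h0
        have h3 := h.hom ν1 h1
        have h4 := h'.rest ν2 h2
        rw [jd_add]
        omega

theorem Low.add {e : ℕ} {f p f' p' : MvPolynomial (JV n k) ℂ} (h : Low e f p) (h' : Low e f' p') :
    Low e (f + f') (p + p') := by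
  constructor
  · intro ν hν
    rcases a2_add hν with h0 | h0
    · exact h.hom ν h0
    · exact h'.hom ν h0
  · intro ν hν
    have e1 : f + f' - (p + p') = (f - p) + (f' - p') := by ring
    rw [e1] at hν
    rcases a2_add hν with h0 | h0
    · exact h.rest ν h0
    · exact h'.rest ν h0

theorem Low.zero (e : ℕ) : Low e (0 : MvPolynomial (JV n k) ℂ) 0 := by
  constructor
  · intro ν hν
    rw [MvPolynomial.support_zero] at hν
    exact absurd hν (Finset.notMem_empty ν)
  · intro ν hν
    rw [sub_zero, MvPolynomial.support_zero] at hν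
    exact absurd hν (Finset.notMem_empty ν)

theorem Low.sum {ι : Type*} (s : Finset ι) {e : ℕ} {f p : ι → MvPolynomial (JV n k) ℂ}
    (h : ∀ i ∈ s, Low e (f i) (p i)) : Low e (∑ i ∈ s, f i) (∑ i ∈ s, p i) := by
  classical
  induction s using Finset.induction_on with
  | empty =>
    rw [Finset.sum_empty, Finset.sum_empty]
    exact Low.zero e
  | insert a s ha ih =>
    rw [Finset.sum_insert ha, Finset.sum_insert ha]
    exact (h a (Finset.mem_insert_self a s)).add (ih fun i hi => h i (Finset.mem_insert_of_mem hi))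

/-- PROOF.  `f - f = 0`. -/
theorem Low.self {e : ℕ} {f : MvPolynomial (JV n k) ℂ} (h : ∀ ν ∈ f.support, jd ν = e) : Low e f f := by
  constructor
  · exact h
  · intro ν hν
    rw [sub_self, MvPolynomial.support_zero] at hν
    exact absurd hν (Finset.notMem_empty ν)

theorem Low.monomial (ν : JV n k →₀ ℕ) (c : ℂ) :
    Low (jd ν) (MvPolynomial.monomial ν c) (MvPolynomial.monomial ν c) := by
  refine Low.self fun ν' hν' => ?_
  have h1 := MvPolynomial.support_monomial_subset hν'
  rw [Finset.mem_singleton] at h1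
  rw [h1]

theorem Low.one : Low 0 (1 : MvPolynomial (JV n k) ℂ) 1 := by
  have h := Low.monomial (n := n) (k := k) 0 1
  rw [a2_jd_zero] at h
  exact h

theorem Low.C_mul {e : ℕ} (c : ℂ) {f p : MvPolynomial (JV n k) ℂ} (h : Low e f p) :
    Low e (C c * f) (C c * p) := by
  have h1 := Low.monomial (n := n) (k := k) 0 c
  rw [a2_jd_zero] at h1
  have h2 := Low.mul h1 h
  rw [Nat.zero_add] at h2
  exact h2

theorem Low.pow {e : ℕ} {f p : MvPolynomial (JV n k) ℂ} (h : Low e f p) (q : ℕ) :
    Low (q * e) (f ^ q) (p ^ q) := by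
  induction q with
  | zero =>
    rw [pow_zero, pow_zero, Nat.zero_mul]
    exact Low.one
  | succ q ih =>
    rw [pow_succ, pow_succ, Nat.succ_mul]
    exact ih.mul h

theorem Low.prod {ι : Type*} (s : Finset ι) {e : ι → ℕ} {f p : ι → MvPolynomial (JV n k) ℂ}
    (h : ∀ i ∈ s, Low (e i) (f i) (p i)) : Low (∑ i ∈ s, e i) (∏ i ∈ s, f i) (∏ i ∈ s, p i) := by
  classical
  induction s using Finset.induction_on with
  | empty =>
    rw [Finset.prod_empty, Finset.prod_empty, Finset.sum_empty]
    exact Low.one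
  | insert a s ha ih =>
    rw [Finset.prod_insert ha, Finset.prod_insert ha, Finset.sum_insert ha]
    exact (h a (Finset.mem_insert_self a s)).mul (ih fun i hi => h i (Finset.mem_insert_of_mem hi))

end Pool.Agent.H89X
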