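import Pool.Agent.Lib.H89X.A6

set_option autoImplicit false

/-!
CHUNK A7 (M).  More unknowns than conditions: existence of a polynomial with several families of conditions.
`exists_coeffs'` is `exists_coeffs` of Lib/H89T/A4.lean for an arbitrary finite index type.
-/

open MvPolynomial

namespace Pool.Agent.H89X

open Pool.Agent.H89T Pool.Agent.H67T Pool.Agent.H53U Pool.Agent.H53V Pool.Agent.H44K

theorem exists_coeffs' {R V ι L : Type} [CommRing R] [Nontrivial R] [AddCommGroup V] [Module R V]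
    [Fintype ι] [Fintype L] (f : ι → V) (T : L → V →ₗ[R] V) (N : L → Submodule R V)
    (κ : L → Type) [∀ l, Fintype (κ l)] (ν : ∀ l, κ l → V) (t : L → R)
    (h : ∀ l i, t l • T l (f i) ∈ N l ⊔ Submodule.span R (Set.range (ν l)))
    (hc : ∑ l, Fintype.card (κ l) < Fintype.card ι) :
    ∃ p : ι → R, p ≠ 0 ∧ ∀ l, t l • T l (∑ i, p i • f i) ∈ N l := by
  classical
  have h1 : ∀ l i, ∃ c : κ l → R, t l • T l (f i) - ∑ x, c x • ν l x ∈ N l := by
    intro l i
    obtain ⟨y, hy, z, hz, hyz⟩ := Submodule.mem_sup.1 (h l i)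
    obtain ⟨c, hc⟩ := (Submodule.mem_span_range_iff_exists_fun R).1 hz
    refine ⟨c, ?_⟩
    rw [hc, ← hyz]
    simpa using hy
  choose c hcm using h1
  let Φ : (ι → R) →ₗ[R] ((Σ l, κ l) → R) :=
    { toFun := fun p s => ∑ i, p i * c s.1 i s.2
      map_add' := by
        intro p p'
        funext s
        simp only [Pi.add_apply, add_mul, Finset.sum_add_distrib]
      map_smul' := by
        intro a p
        funext s
        simp only [Pi.smul_apply, smul_eq_mul, RingHom.id_apply, mul_assoc, Finset.mul_sum] }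
  have hni : ¬ Function.Injective Φ := by
    intro hinj
    have h2 := card_le_of_injective R Φ hinj
    rw [Fintype.card_sigma] at h2
    omega
  have hex : ∃ p : ι → R, p ≠ 0 ∧ Φ p = 0 := by
    by_contra hno
    push Not at hno
    apply hni
    rw [← LinearMap.ker_eq_bot, LinearMap.ker_eq_bot']
    intro p hp
    by_contra hp0
    exact hno p hp0 hp
  obtain ⟨p, hp0, hp⟩ := hex
  refine ⟨p, hp0, fun l => ?_⟩
  have h3 : t l • T l (∑ i, p i • f i) =
      ∑ i, p i • (t l • T l (f i) - ∑ x, c l i x • ν l x) := by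
    have h4 : ∑ i, p i • ∑ x, c l i x • ν l x = 0 := by
      have h5 : ∑ i, p i • ∑ x, c l i x • ν l x = ∑ x, (∑ i, p i * c l i x) • ν l x := by
        simp only [Finset.smul_sum, Finset.sum_smul, smul_smul]
        exact Finset.sum_comm
      rw [h5]
      apply Finset.sum_eq_zero
      intro x _
      have h6 : Φ p ⟨l, x⟩ = 0 := by rw [hp]; rfl
      have h7 : (∑ i, p i * c l i x) = 0 := h6
      rw [h7, zero_smul]
    simp only [smul_sub, Finset.sum_sub_distrib]
    rw [h4, sub_zero, map_sum, Finset.smul_sum]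
    apply Finset.sum_congr rfl
    intro i _
    rw [map_smul, smul_comm]
  rw [h3]
  exact Submodule.sum_mem _ (fun i _ => Submodule.smul_mem _ _ (hcm l i))

variable {n d k : ℕ}

theorem a7_coeff {R : Type} [CommRing R] {s : Set (JV n k →₀ ℕ)} [Fintype s] (p : s → R) (m : s) :
    coeff m.1 (∑ i : s, p i • monomial i.1 (1 : R)) = p m := by
  classical
  rw [coeff_sum, Finset.sum_eq_single m]
  · simp
  · intro b _ hb
    rw [coeff_smul, coeff_monomial, if_neg (fun h => hb (Subtype.ext h)), smul_zero]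
  · intro h
    exact absurd (Finset.mem_univ m) h

/-- PROOF.  As `exists_propA` (Lib/H89T/A5.lean).  `Unk n k A m μ` is finite (`bi_finite`), `ι` = its subtype, `f ν = monomial ν 1`; `exists_coeffs'` gives `p ≠ 0`;
`P = (∏ t l) • ∑ p ν • monomial ν 1`, not `0` because `RR n d` is a domain (`A5_coeff`), `T l P = (∏_(l' ≠ l) t l') • (t l • T l (∑ ...)) ∈ N l`. -/
theorem exists_P {A m μ : ℕ} {L : Type} [Fintype L]
    (T : L → MvPolynomial (JV n k) (RR n d) →ₗ[RR n d] MvPolynomial (JV n k) (RR n d))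
    (N : L → Submodule (RR n d) (MvPolynomial (JV n k) (RR n d))) (κ : L → Set (JV n k →₀ ℕ))
    (hκ : ∀ l, (κ l).Finite) (t : L → RR n d) (ht : ∀ l, t l ≠ 0)
    (h : ∀ l, ∀ ν ∈ Unk n k A m μ, t l • T l (monomial ν 1) ∈
      N l ⊔ Submodule.span (RR n d) ((fun ν' : JV n k →₀ ℕ => monomial ν' (1 : RR n d)) '' κ l))
    (hc : ∑ l, (κ l).ncard < (Unk n k A m μ).ncard) :
    ∃ P : MvPolynomial (JV n k) (RR n d), P ≠ 0 ∧
      (∀ ν ∈ P.support, xd ν ≤ A ∧ H53V.jw ν = m ∧ jd ν < μ) ∧ ∀ l, T l P ∈ N l := by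
  classical
  have hU : (Unk n k A m μ).Finite := (bi_finite n k A m).subset fun ν hν => ⟨hν.1, hν.2.1⟩
  haveI : Fintype (Unk n k A m μ) := hU.fintype
  haveI : ∀ l, Fintype (κ l) := fun l => (hκ l).fintype
  obtain ⟨p, hp0, hp⟩ := exists_coeffs' (R := RR n d) (V := MvPolynomial (JV n k) (RR n d))
    (ι := Unk n k A m μ) (L := L) (fun ν => monomial ν.1 (1 : RR n d)) T N (fun l => κ l)
    (fun l ν' => monomial ν'.1 (1 : RR n d)) t
    (by
      intro l ν
      have h1 := h l ν.1 ν.2
      rw [Set.image_eq_range] at h1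
      exact h1)
    (by
      have e1 : ∀ l, Fintype.card (κ l) = (κ l).ncard := fun l => by
        rw [← Nat.card_coe_set_eq, Nat.card_eq_fintype_card]
      have e2 : Fintype.card (Unk n k A m μ) = (Unk n k A m μ).ncard := by
        rw [← Nat.card_coe_set_eq, Nat.card_eq_fintype_card]
      rw [e2]
      simp only [e1]
      exact hc)
  obtain ⟨ν, hν⟩ := Function.ne_iff.mp hp0
  refine ⟨(∏ l, t l) • ∑ i : Unk n k A m μ, p i • monomial i.1 (1 : RR n d), ?_, ?_, ?_⟩
  · intro h0
    have h1 := congrArg (coeff ν.1) h0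
    rw [coeff_smul, a7_coeff, coeff_zero, smul_eq_mul, mul_eq_zero] at h1
    rcases h1 with h1 | h1
    · exact Finset.prod_ne_zero_iff.mpr (fun l _ => ht l) h1
    · exact hν h1
  · intro ν' hν'
    rw [mem_support_iff, coeff_smul, coeff_sum, smul_eq_mul] at hν'
    obtain ⟨i, -, hi⟩ := Finset.exists_ne_zero_of_sum_ne_zero (right_ne_zero_of_mul hν')
    rw [coeff_smul, coeff_monomial] at hi
    have h2 : i.1 = ν' := by
      by_contra h3
      rw [if_neg h3, smul_zero] at hi
      exact hi rfl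
    rw [← h2]
    exact i.2
  · intro l
    have e : T l ((∏ l, t l) • ∑ i : Unk n k A m μ, p i • monomial i.1 (1 : RR n d)) =
        (∏ l' ∈ Finset.univ.erase l, t l') •
          (t l • T l (∑ i : Unk n k A m μ, p i • monomial i.1 (1 : RR n d))) := by
      rw [smul_smul, mul_comm, Finset.mul_prod_erase _ _ (Finset.mem_univ _), map_smul]
    rw [e]
    exact Submodule.smul_mem _ _ (hp l)

end Pool.Agent.H89X
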