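import Pool.Agent.Lib.H89X.D0
import Pool.Agent.Lib.H53U.M1
import Pool.Agent.Lib.H53V.ER2

set_option autoImplicit false

/-!
H89X, modules A and B (existence): definitions.
-/

open MvPolynomial

namespace Pool.Agent.H89X

open Pool.Agent.H89T Pool.Agent.H67T Pool.Agent.H53U Pool.Agent.H53V Pool.Agent.H44K

section General

variable {σ : Type}

/-- `m` is the leading monomial of `f` for the weight `om`. -/
def Lead (om : σ → ℕ) (f : MvPolynomial σ ℂ) (m : σ →₀ ℕ) : Prop :=
  coeff m f ≠ 0 ∧ ∀ m' ∈ f.support, m' = m ∨ Finsupp.weight om m' < Finsupp.weight om m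

end General

section Jets

variable {n d k : ℕ}

/-- `p` is the part of degree `e` in the jets of positive order of `f`, all other terms of `f` have a larger degree. -/
structure Low (e : ℕ) (f p : MvPolynomial (JV n k) ℂ) : Prop where
  hom : ∀ ν ∈ p.support, jd ν = e
  rest : ∀ ν ∈ (f - p).support, e < jd ν

/-- The point `1 + ∑ x_b ^ d`. -/
noncomputable def a1 (n d : ℕ) : Idx n d → ℂ := cofs d (1 + ∑ b : Fin n, X b ^ d)

/-- The lowest parts of the `u i` at this point: `1 + ∑ x_b ^ d` and `d ∑ x_b ^ (d - 1) x_(b,i)`. -/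
noncomputable def fs (n d k : ℕ) (i : Fin (k + 1)) : MvPolynomial (JV n k) ℂ :=
  if i = 0 then 1 + ∑ b, X (b, 0) ^ d else ∑ b, C (d : ℂ) * (X (b, 0) ^ (d - 1) * X (b, i))

/-- The index of `u s`, `s < n`, in `Fin (k + 1)`. -/
def fk (k : ℕ) (s : Fin n) : Fin (k + 1) := if h : (s : ℕ) < k + 1 then ⟨(s : ℕ), h⟩ else 0

/-- The leading monomial of `u s`. -/
noncomputable def lm (n d k : ℕ) (s : Fin n) : JV n k →₀ ℕ := Finsupp.equivFunOnFinite.symm (ldf n d k s)

/-- The weights of module A. -/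
def omA (n d k : ℕ) (p : JV n k) : ℕ :=
  if p.2 = 0 then (if (p.1 : ℕ) = 0 then 1 else 0) else if (p.2 : ℕ) = (p.1 : ℕ) then d + 1 else 0

/-- The weights of module B. -/
def omB (n k : ℕ) (p : JV n k) : ℕ := (p.1 : ℕ) * (p.2 : ℕ)

/-- The exponents `ν` allowed for the coefficients of the `u i` in bidegree `(A0, m)`. -/
def NBg (n d K A0 m : ℕ) : Set (MvPolynomial (JV n K) (RR n d)) :=
  {g | ∃ (ν : JV n K →₀ ℕ) (i : Fin (K + 1)), xd ν + d ≤ A0 + (if i = 0 then 0 else 1) ∧
    H53V.jw ν + (i : ℕ) = m ∧ g = monomial ν 1 * uR (gen n d) (i : ℕ)}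

/-- The elements `∑ c_i u_i` of bidegree `(A0, m)`. -/
noncomputable def NB (n d K A0 m : ℕ) : Submodule (RR n d) (MvPolynomial (JV n K) (RR n d)) :=
  Submodule.span (RR n d) (NBg n d K A0 m)

/-- The monomials of bidegree `(A0, m)` whose jet part contains no chain. -/
def Bad (n K A0 m : ℕ) : Set (JV n K →₀ ℕ) :=
  {ν | xd ν ≤ A0 ∧ H53V.jw ν = m ∧ ¬ Good 1 fun p : Fin n × Fin K => ν (p.1, p.2.succ)}

/-- The matrix `(x_(b, J (r) + 1))`. -/
noncomputable def mJ {R : Type*} [CommRing R] {K : ℕ} (J : Fin n → Fin K) : Matrix (Fin n) (Fin n) (MvPolynomial (JV n K) R) :=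
  Matrix.of fun b r => X (b, (J r).succ)

/-- The exponents of the diagonal term. -/
noncomputable def dJ {K : ℕ} (J : Fin n → Fin K) : JV n K →₀ ℕ := ∑ r, Finsupp.single (r, (J r).succ) 1

end Jets

end Pool.Agent.H89X
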