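import Pool.Agent.Lib.H89X.A4

set_option autoImplicit false

/-!
CHUNK B1 (M) of H89X, module B.  The leading monomial of the determinant of a chain.
-/

open MvPolynomial

namespace Pool.Agent.H89X

open Pool.Agent.H89T Pool.Agent.H67T Pool.Agent.H53U Pool.Agent.H53V Pool.Agent.H44K

variable {n K : ℕ}

/-- PROOF.  `f r = (J r : ℕ) + 1` and `r ↦ (r : ℕ)` are strictly increasing.  Rearrangement inequality with strictness: `Monovary.sum_comp_perm_mul_lt_sum_mul_iff` (or
`Monovary.sum_mul_comp_perm_lt_sum_mul_iff`, in ℕ or, after a cast, in ℤ): the inequality is strict unless the permuted sequence monovaries with `J`, i.e. `i ≤ j` whenever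
`σ i < σ j`; a permutation of `Fin n` with this property is strictly increasing, so it is `1` (`StrictMono` + `Fin`: `OrderEmbedding`/`Fin.strictMono_unique`,
or `Subsingleton` of `Fin n ≃o Fin n`). -/
theorem rearr {J : Fin n → Fin K} (hJ : StrictMono J) {σ : Equiv.Perm (Fin n)} (hσ : σ ≠ 1) :
    ∑ r, (σ r : ℕ) * ((J r : ℕ) + 1) < ∑ r : Fin n, (r : ℕ) * ((J r : ℕ) + 1) := by
  have hf : Monovary (fun r : Fin n => (r : ℕ)) (fun r : Fin n => (J r : ℕ) + 1) := by
    intro i j hij
    have h1 : (J i : ℕ) + 1 < (J j : ℕ) + 1 := hij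
    have h2 : J i < J j := Fin.lt_def.2 (by omega)
    exact (Fin.le_def.1 (hJ.lt_iff_lt.1 h2).le)
  refine (Monovary.sum_comp_perm_mul_lt_sum_mul_iff (σ := σ) hf).2 fun hmon => hσ ?_
  have hs : StrictMono σ := by
    intro i j hij
    have h1 : (J i : ℕ) + 1 < (J j : ℕ) + 1 := by
      have h2 := Fin.lt_def.1 (hJ hij)
      omega
    have h3 : ((σ i : Fin n) : ℕ) ≤ (σ j : ℕ) := hmon h1
    exact lt_of_le_of_ne (Fin.le_def.2 h3) fun h => hij.ne (σ.injective h)
  have h1 : (σ : Fin n → Fin n) = id := hs.eq_id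
  ext r
  rw [h1]
  rfl

/-- The exponent of the term of a permutation. -/
noncomputable def b1_D (J : Fin n → Fin K) (σ : Equiv.Perm (Fin n)) : JV n K →₀ ℕ :=
  ∑ r, Finsupp.single (σ r, (J r).succ) 1

theorem b1_weight (J : Fin n → Fin K) (σ : Equiv.Perm (Fin n)) :
    Finsupp.weight (omB n K) (b1_D J σ) = ∑ r : Fin n, (σ r : ℕ) * ((J r : ℕ) + 1) := by
  unfold b1_D
  rw [map_sum]
  refine Finset.sum_congr rfl fun r _ => ?_
  rw [Finsupp.weight_single, one_smul]
  rfl

/-- PROOF.  `Matrix.det_apply`: `det = ∑ σ, sign σ • ∏ r, X (σ r, (J r).succ)` (`mJ J (σ r) r`), and the product is `monomial (∑ r, single (σ r, (J r).succ) 1) 1`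
(`MvPolynomial.monomial_sum_one` or induction; `X = monomial (single ..) 1`).  The weight of this exponent is `∑ r, σ r * (J r + 1)` (`Finsupp.weight_apply`/`map_sum`, `Finsupp.weight_single`, `omB`).
For `σ ≠ 1` it is smaller than for `σ = 1` (`rearr`), so the exponents are different: the coefficient at `dJ J` is `1` (`coeff_sum`), and all other exponents in the support belong to some `σ ≠ 1`. -/
theorem lead_det {J : Fin n → Fin K} (hJ : StrictMono J) :
    Lead (omB n K) (Matrix.det (mJ (R := ℂ) J)) (dJ J) := by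
  classical
  have hterm : ∀ σ : Equiv.Perm (Fin n), (∏ r, mJ (R := ℂ) J (σ r) r) =
      monomial (b1_D J σ) 1 := by
    intro σ
    unfold b1_D
    rw [MvPolynomial.monomial_sum_one]
    rfl
  have hdet : Matrix.det (mJ (R := ℂ) J) =
      ∑ σ : Equiv.Perm (Fin n), monomial (b1_D J σ) (((Equiv.Perm.sign σ : ℤˣ) : ℤ) : ℂ) := by
    rw [Matrix.det_apply']
    refine Finset.sum_congr rfl fun σ _ => ?_
    rw [hterm σ, ← map_intCast (C : ℂ →+* MvPolynomial (JV n K) ℂ), C_mul_monomial, mul_one]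
  have hcoeff : ∀ m, coeff m (Matrix.det (mJ (R := ℂ) J)) =
      ∑ σ : Equiv.Perm (Fin n), if b1_D J σ = m then (((Equiv.Perm.sign σ : ℤˣ) : ℤ) : ℂ) else 0 := by
    intro m
    rw [hdet, coeff_sum]
    exact Finset.sum_congr rfl fun σ _ => coeff_monomial _ _ _
  have hD1 : b1_D J 1 = dJ J := rfl
  have hlt : ∀ σ : Equiv.Perm (Fin n), σ ≠ 1 →
      Finsupp.weight (omB n K) (b1_D J σ) < Finsupp.weight (omB n K) (dJ J) := by
    intro σ hσ
    rw [← hD1, b1_weight, b1_weight]
    exact rearr hJ hσ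
  constructor
  · rw [hcoeff, Finset.sum_eq_single 1]
    · rw [if_pos hD1]
      simp
    · intro σ _ hσ
      refine if_neg fun h => ?_
      have h1 := hlt σ hσ
      rw [h] at h1
      exact lt_irrefl _ h1
    · intro h
      exact absurd (Finset.mem_univ _) h
  · intro m hm
    rw [mem_support_iff, hcoeff] at hm
    obtain ⟨σ, _, hσ⟩ := Finset.exists_ne_zero_of_sum_ne_zero hm
    have h1 : b1_D J σ = m := by
      by_contra h
      exact hσ (if_neg h)
    by_cases h2 : σ = 1
    · left
      rw [← h1, h2, hD1]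
    · right
      rw [← h1]
      exact hlt σ h2

end Pool.Agent.H89X
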