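import Pool.Agent.Lib.H89X.BD
import Pool.Agent.Lib.H89T.N2

set_option autoImplicit false

/-!
CHUNK B2A (S/M) of H89X, module B.  Rules for `Tri`; `jd ≤ jw`; finiteness.
-/

open MvPolynomial

namespace Pool.Agent.H89X

open Pool.Agent.H89T Pool.Agent.H67T Pool.Agent.H53U Pool.Agent.H53V Pool.Agent.H44K

variable {n K : ℕ} {R : Type*} [CommRing R]

theorem Tri.zero (α β γ : ℕ) : Tri α β γ (0 : MvPolynomial (JV n K) R) := by
  intro ν hν
  rw [MvPolynomial.support_zero] at hν
  exact absurd hν (Finset.notMem_empty _)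

theorem Tri.one : Tri 0 0 0 (1 : MvPolynomial (JV n K) R) := by
  classical
  intro ν hν
  rw [mem_support_iff, coeff_one] at hν
  have h1 : 0 = ν := by
    by_contra h
    exact hν (if_neg h)
  rw [← h1]
  refine ⟨?_, ?_, ?_⟩
  · simp [xd]
  · simp [H53V.jw]
  · simp [jd]

/-- `support_add`. -/
theorem Tri.add {α β γ : ℕ} {P Q : MvPolynomial (JV n K) R} (hP : Tri α β γ P) (hQ : Tri α β γ Q) :
    Tri α β γ (P + Q) := by
  classical
  intro ν hν
  rcases Finset.mem_union.1 (MvPolynomial.support_add hν) with h | h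
  · exact hP ν h
  · exact hQ ν h

theorem Tri.neg {α β γ : ℕ} {P : MvPolynomial (JV n K) R} (hP : Tri α β γ P) : Tri α β γ (-P) := by
  intro ν hν
  rw [MvPolynomial.support_neg] at hν
  exact hP ν hν

theorem Tri.sum {ι : Type*} (s : Finset ι) {α β γ : ℕ} {P : ι → MvPolynomial (JV n K) R}
    (hP : ∀ i ∈ s, Tri α β γ (P i)) : Tri α β γ (∑ i ∈ s, P i) := by
  classical
  induction s using Finset.induction_on with
  | empty =>
    rw [Finset.sum_empty]
    exact Tri.zero α β γ
  | insert i s hi ih =>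
    rw [Finset.sum_insert hi]
    exact (hP i (Finset.mem_insert_self i s)).add (ih fun k hk => hP k (Finset.mem_insert_of_mem hk))

/-- `support_mul`, `xd_add`, `jd_add` (Lib/H89T/N2.lean), `er2_jw_add` (Lib/H53V/ER2.lean). -/
theorem Tri.mul {α β γ α' β' γ' : ℕ} {P Q : MvPolynomial (JV n K) R} (hP : Tri α β γ P)
    (hQ : Tri α' β' γ' Q) : Tri (α + α') (β + β') (γ + γ') (P * Q) := by
  classical
  intro ν hν
  obtain ⟨a, ha, b, hb, rfl⟩ := Finset.mem_add.1 (MvPolynomial.support_mul P Q hν)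
  obtain ⟨h1, h2, h3⟩ := hP a ha
  obtain ⟨h4, h5, h6⟩ := hQ b hb
  refine ⟨?_, ?_, ?_⟩
  · rw [xd_add, h1, h4]
  · rw [er2_jw_add, h2, h5]
  · rw [jd_add, h3, h6]

theorem Tri.prod {ι : Type*} (s : Finset ι) {α β γ : ι → ℕ} {P : ι → MvPolynomial (JV n K) R}
    (hP : ∀ i ∈ s, Tri (α i) (β i) (γ i) (P i)) :
    Tri (∑ i ∈ s, α i) (∑ i ∈ s, β i) (∑ i ∈ s, γ i) (∏ i ∈ s, P i) := by
  classical
  induction s using Finset.induction_on with
  | empty =>
    simp only [Finset.prod_empty, Finset.sum_empty]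
    exact Tri.one
  | insert i s hi ih =>
    rw [Finset.sum_insert hi, Finset.sum_insert hi, Finset.sum_insert hi, Finset.prod_insert hi]
    exact (hP i (Finset.mem_insert_self i s)).mul (ih fun k hk => hP k (Finset.mem_insert_of_mem hk))

theorem Tri.X (b : Fin n) (l : Fin K) :
    Tri 0 ((l : ℕ) + 1) 1 (MvPolynomial.X (b, l.succ) : MvPolynomial (JV n K) R) := by
  classical
  intro ν hν
  rw [mem_support_iff, coeff_X] at hν
  have h1 : Finsupp.single (b, l.succ) 1 = ν := by
    by_contra h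
    exact hν (if_neg h)
  rw [← h1]
  have hl : l.succ ≠ 0 := Fin.succ_ne_zero l
  refine ⟨?_, ?_, ?_⟩
  · unfold xd
    refine Finset.sum_eq_zero fun b' _ => ?_
    rw [Finsupp.single_apply, if_neg]
    intro h
    exact hl (congrArg Prod.snd h)
  · unfold H53V.jw
    rw [Finset.sum_eq_single (b, l.succ)]
    · simp
    · intro p _ hp
      rw [Finsupp.single_apply, if_neg hp.symm, mul_zero]
    · intro h
      exact absurd (Finset.mem_univ _) h
  · unfold jd
    rw [Finset.sum_eq_single (b, l.succ)]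
    · simp
    · intro p _ hp
      rw [Finsupp.single_apply, if_neg hp.symm]
      simp
    · intro h
      exact absurd (Finset.mem_univ _) h

/-- `x (b, l)`, `l ≥ 1`, has weight `l ≥ 1`: termwise. -/
theorem jd_le_jw (ν : JV n K →₀ ℕ) : jd ν ≤ H53V.jw ν := by
  unfold jd H53V.jw
  refine Finset.sum_le_sum fun p _ => ?_
  split_ifs with h
  · exact Nat.zero_le _
  · exact Nat.le_mul_of_pos_left _ (Nat.pos_of_ne_zero fun h0 => h (Fin.ext h0))

/-- A subset of `Mon n K A0 m` (`Mon_finite` in Lib/H89T/N2.lean), by `jd_le_jw`. -/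
theorem Bi_finite (n K A0 m : ℕ) : (Bi n K A0 m).Finite := by
  exact (Mon_finite n K A0 m).subset fun ν h => ⟨h.1, (jd_le_jw ν).trans h.2.le⟩

end Pool.Agent.H89X
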