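import Pool.Agent.Lib.H89X.B2A

set_option autoImplicit false

/-!
CHUNK B2B (M) of H89X, module B.  The degrees of the minors and the expansion along a row.
-/

open MvPolynomial

namespace Pool.Agent.H89X

open Pool.Agent.H89T Pool.Agent.H67T Pool.Agent.H53U Pool.Agent.H53V Pool.Agent.H44K

variable {n K : ℕ} {R : Type*} [CommRing R]

theorem b2b_sgn {α β γ : ℕ} (σ : Equiv.Perm (Fin n)) {P : MvPolynomial (JV n K) R} (h : Tri α β γ P) :
    Tri α β γ (Equiv.Perm.sign σ • P) := by
  rcases Int.units_eq_one_or (Equiv.Perm.sign σ) with h1 | h1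
  · rw [h1, one_smul]
    exact h
  · rw [h1, Units.neg_smul, one_smul]
    exact Tri.neg h

theorem b2b_map {d : ℕ} (φ : RR n d →+* ℂ) (J : Fin n → Fin K) :
    (map φ).mapMatrix (mJ (R := RR n d) J) = mJ (R := ℂ) J := by
  ext1 b r
  show map φ (X (b, (J r).succ)) = X (b, (J r).succ)
  rw [map_X]

/-- PROOF.  `Matrix.det_apply`, `Tri.sum`, `Tri.prod`, `Tri.X` (`mJ J (σ r) r = X (σ r, (J r).succ)`); the sign: `Tri.neg` (`Int.units_eq_one_or`). -/
theorem tri_det (J : Fin n → Fin K) : Tri 0 (wJ J) n (Matrix.det (mJ (R := R) J)) := by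
  classical
  rw [Matrix.det_apply]
  refine Tri.sum _ fun σ _ => b2b_sgn σ ?_
  have h := Tri.prod (R := R) (Finset.univ : Finset (Fin n)) (α := fun _ => 0) (β := fun r => (J r : ℕ) + 1)
    (γ := fun _ => 1) (P := fun r => MvPolynomial.X (σ r, (J r).succ)) (fun r _ => Tri.X (σ r) (J r))
  rw [Finset.sum_const_zero, Finset.sum_const, Finset.card_univ, Fintype.card_fin, smul_eq_mul, mul_one] at h
  exact h

/-- PROOF.  `Matrix.adjugate_apply`: the determinant of the matrix whose row `b` is replaced by `Pi.single r 1`; `Matrix.det_apply`.  If `σ r = b` the product over the columns is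
`∏_(r' ≠ r) X (σ r', (J r').succ)` (`Finset.mul_prod_erase`; column `r` gives `1`, and `σ r' ≠ b` for `r' ≠ r`), of degree `(0, wJ J - (J r + 1), n - 1)`.  If `σ r ≠ b` then the column `σ⁻¹ b ≠ r` gives `0`
and the product is `0` (`Finset.prod_eq_zero`, `Tri.zero`).  (`1 ≤ n` since there is `r`; stated without subtraction.) -/
theorem tri_adj (J : Fin n → Fin K) (r b : Fin n) :
    ∀ ν ∈ (Matrix.adjugate (mJ (R := R) J) r b).support,
      xd ν = 0 ∧ H53V.jw ν + ((J r : ℕ) + 1) = wJ J ∧ jd ν + 1 = n := by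
  classical
  have key : Tri 0 (∑ r' ∈ Finset.univ.erase r, ((J r' : ℕ) + 1)) (∑ r' ∈ Finset.univ.erase r, 1)
      (Matrix.adjugate (mJ (R := R) J) r b) := by
    rw [Matrix.adjugate_apply, Matrix.det_apply]
    refine Tri.sum _ fun σ _ => b2b_sgn σ ?_
    by_cases hσ : σ r = b
    · have h1 : ∏ i, (mJ (R := R) J).updateRow b (Pi.single r 1) (σ i) i =
          ∏ i ∈ Finset.univ.erase r, (MvPolynomial.X (σ i, (J i).succ) : MvPolynomial (JV n K) R) := by
        rw [← Finset.mul_prod_erase Finset.univ _ (Finset.mem_univ r), hσ, Matrix.updateRow_self,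
          Pi.single_eq_same, one_mul]
        refine Finset.prod_congr rfl fun i hi => ?_
        have h2 : σ i ≠ b := by
          intro h3
          rw [← hσ] at h3
          exact (Finset.mem_erase.1 hi).1 (σ.injective h3)
        rw [Matrix.updateRow_ne h2]
        rfl
      rw [h1]
      have h := Tri.prod (R := R) (Finset.univ.erase r) (α := fun _ => 0) (β := fun r' => (J r' : ℕ) + 1)
        (γ := fun _ => 1) (P := fun i => MvPolynomial.X (σ i, (J i).succ)) (fun i _ => Tri.X (σ i) (J i))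
      rw [Finset.sum_const_zero] at h
      exact h
    · have h1 : ∏ i, (mJ (R := R) J).updateRow b (Pi.single r 1) (σ i) i = 0 := by
        refine Finset.prod_eq_zero (Finset.mem_univ (σ.symm b)) ?_
        have h2 : σ.symm b ≠ r := by
          intro h3
          exact hσ (by rw [← h3, Equiv.apply_symm_apply])
        rw [Equiv.apply_symm_apply, Matrix.updateRow_self, Pi.single_eq_of_ne h2]
      rw [h1]
      exact Tri.zero _ _ _
  intro ν hν
  obtain ⟨h1, h2, h3⟩ := key ν hν
  refine ⟨h1, ?_, ?_⟩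
  · rw [h2]
    exact Finset.sum_erase_add Finset.univ _ (Finset.mem_univ r)
  · rw [h3]
    have h4 := Finset.sum_erase_add Finset.univ (fun _ : Fin n => 1) (Finset.mem_univ r)
    rw [h4, Finset.sum_const, Finset.card_univ, Fintype.card_fin, smul_eq_mul, mul_one]

/-- PROOF.  `fs n d K i.succ = ∑ c, C d * (X (c, 0) ^ (d - 1) * X (c, i.succ))` (`AD`, `Fin.succ_ne_zero`), so the left side is
`∑ c, C d * X (c, 0) ^ (d - 1) * ∑ r, mJ J c r * adj r b = ∑ c, C d * X (c, 0) ^ (d - 1) * (mJ J * adj) c b` (`Finset.sum_comm`, `Matrix.mul_apply`), and `mJ J * adj = det • 1` (`Matrix.mul_adjugate`). -/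
theorem adj_fs {d : ℕ} (J : Fin n → Fin K) (b : Fin n) :
    ∑ r, Matrix.adjugate (mJ (R := ℂ) J) r b * fs n d K (J r).succ =
      C (d : ℂ) * X (b, 0) ^ (d - 1) * Matrix.det (mJ (R := ℂ) J) := by
  classical
  have h1 : ∀ r, fs n d K (J r).succ = ∑ c, C (d : ℂ) * (X (c, 0) ^ (d - 1) * mJ (R := ℂ) J c r) := by
    intro r
    unfold fs
    rw [if_neg (Fin.succ_ne_zero _)]
    rfl
  calc ∑ r, Matrix.adjugate (mJ (R := ℂ) J) r b * fs n d K (J r).succ
      = ∑ r, ∑ c, C (d : ℂ) * X (c, 0) ^ (d - 1) * (mJ (R := ℂ) J c r * Matrix.adjugate (mJ (R := ℂ) J) r b) := by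
        refine Finset.sum_congr rfl fun r _ => ?_
        rw [h1, Finset.mul_sum]
        refine Finset.sum_congr rfl fun c _ => ?_
        ring
    _ = ∑ c, C (d : ℂ) * X (c, 0) ^ (d - 1) * (mJ (R := ℂ) J * Matrix.adjugate (mJ (R := ℂ) J)) c b := by
        rw [Finset.sum_comm]
        refine Finset.sum_congr rfl fun c _ => ?_
        rw [Matrix.mul_apply, Finset.mul_sum]
    _ = C (d : ℂ) * X (b, 0) ^ (d - 1) * Matrix.det (mJ (R := ℂ) J) := by
        rw [Matrix.mul_adjugate, Finset.sum_eq_single b]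
        · rw [Matrix.smul_apply, Matrix.one_apply_eq, smul_eq_mul, mul_one]
        · intro c _ hc
          rw [Matrix.smul_apply, Matrix.one_apply_ne hc, smul_zero, mul_zero]
        · intro h
          exact absurd (Finset.mem_univ b) h

/-- PROOF.  `map` commutes with determinants and adjugates (`RingHom.map_det`, `RingHom.map_adjugate`), `map X = X`; `Matrix.map` of `mJ` is `mJ`. -/
theorem map_det_mJ {d : ℕ} (φ : RR n d →+* ℂ) (J : Fin n → Fin K) :
    map φ (Matrix.det (mJ (R := RR n d) J)) = Matrix.det (mJ (R := ℂ) J) := by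
  rw [RingHom.map_det, b2b_map]

theorem map_adj_mJ {d : ℕ} (φ : RR n d →+* ℂ) (J : Fin n → Fin K) (r b : Fin n) :
    map φ (Matrix.adjugate (mJ (R := RR n d) J) r b) = Matrix.adjugate (mJ (R := ℂ) J) r b := by
  have h1 := RingHom.map_adjugate (map φ : MvPolynomial (JV n K) (RR n d) →+* MvPolynomial (JV n K) ℂ)
    (mJ (R := RR n d) J)
  rw [b2b_map] at h1
  exact congrFun (congrFun h1 r) b

end Pool.Agent.H89X
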