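import Pool.Agent.Lib.H89X.B2A

set_option autoImplicit false

/-!
CHUNK B2C (S/M) of H89X, module B.  The module `NB`.
-/

open MvPolynomial

namespace Pool.Agent.H89X

open Pool.Agent.H89T Pool.Agent.H67T Pool.Agent.H53U Pool.Agent.H53V Pool.Agent.H44K

variable {n d K A0 m : ℕ}

/-- PROOF.  `Q = ∑ ν ∈ support, coeff ν Q • monomial ν 1` (`MvPolynomial.support_sum_monomial_coeff`, `smul_monomial`), so `Q * u_i` is a combination of the generators `NBg`. -/
theorem mem_NB {Q : MvPolynomial (JV n K) (RR n d)} (i : Fin (K + 1))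
    (hQ : ∀ ν ∈ Q.support, xd ν + d ≤ A0 + (if i = 0 then 0 else 1) ∧ H53V.jw ν + (i : ℕ) = m) :
    Q * uR (gen n d) (i : ℕ) ∈ NB n d K A0 m := by
  have h1 : Q * uR (gen n d) (i : ℕ) =
      ∑ ν ∈ Q.support, coeff ν Q • (monomial ν (1 : RR n d) * uR (gen n d) (i : ℕ)) := by
    conv_lhs => rw [Q.as_sum]
    rw [Finset.sum_mul]
    refine Finset.sum_congr rfl fun ν _ => ?_
    rw [← smul_mul_assoc, smul_monomial, smul_eq_mul, mul_one]
  rw [h1]
  refine Submodule.sum_mem _ fun ν hν => Submodule.smul_mem _ _ (Submodule.subset_span ?_)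
  exact ⟨ν, i, (hQ ν hν).1, (hQ ν hν).2, rfl⟩

theorem b2c_uR (i : ℕ) : ∀ ν ∈ (uR (gen n d) i : MvPolynomial (JV n K) (RR n d)).support,
    H53V.jw ν = i ∧ xd ν + jd ν ≤ d :=
  er2_G_Fx (N := n) (k := K) (gen n d) i

theorem b2c_sum (ν : JV n K →₀ ℕ) : (ν.sum fun _ e => e) = xd ν + jd ν := by
  rw [Finsupp.sum_fintype _ _ (fun _ => rfl), ← er1_sum0, jd, ← Finset.sum_add_distrib]
  refine Finset.sum_congr rfl fun p _ => ?_
  split_ifs <;> simp

/-- PROOF.  `Submodule.span_induction`; for a generator: the monomials of `u_i` have `jw = i`, `xd + jd ≤ d` (`er2_G_Fx` in Lib/H53V/ER2.lean, `uR` unfolds to a coefficient of `Fx`), and `xd ≤ d - 1` if `i ≥ 1`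
(`er2_jd_pos`), so those of `monomial ν 1 * u_i` have `xd ≤ A0`, `jw = m`. -/
theorem NB_support (hd : 1 ≤ d) {f : MvPolynomial (JV n K) (RR n d)} (hf : f ∈ NB n d K A0 m) :
    ∀ ν ∈ f.support, ν ∈ Bi n K A0 m := by
  classical
  unfold NB at hf
  induction hf using Submodule.span_induction with
  | mem x hx =>
    obtain ⟨ν, i, h1, h2, rfl⟩ := hx
    intro ν' hν'
    obtain ⟨ν1, h3, ν2, h4, h34⟩ := Finset.mem_add.1 (support_mul _ _ hν')
    have h5 := support_monomial_subset h3
    rw [Finset.mem_singleton] at h5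
    subst h5
    obtain ⟨h6, h7⟩ := b2c_uR (i : ℕ) ν2 h4
    rw [← h34]
    have h9 : xd (ν1 + ν2) ≤ A0 ∧ H53V.jw (ν1 + ν2) = m := by
      rw [er1_xd_add, er2_jw_add]
      by_cases hi : i = 0
      · subst hi
        rw [if_pos rfl] at h1
        refine ⟨by omega, by omega⟩
      · rw [if_neg hi] at h1
        have h8 : 1 ≤ jd ν2 := by
          refine er2_jd_pos ?_
          rw [h6]
          exact Nat.one_le_iff_ne_zero.2 fun h0 => hi (Fin.ext h0)
        refine ⟨by omega, by omega⟩
    exact h9
  | zero =>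
    intro ν hν
    rw [MvPolynomial.support_zero] at hν
    exact absurd hν (Finset.notMem_empty ν)
  | add x y _ _ hx hy =>
    intro ν hν
    rcases Finset.mem_union.1 (support_add hν) with h | h
    · exact hx ν h
    · exact hy ν h
  | smul a x _ hx =>
    intro ν hν
    refine hx ν ?_
    rw [mem_support_iff] at hν ⊢
    intro h0
    apply hν
    rw [coeff_smul, h0, smul_zero]

/-- PROOF.  `Submodule.span_induction`; for a generator `monomial ν 1 * u_i` take `c = monomial ν 1` at `i` and `0` elsewhere: the total degree is at most `xd ν + jd ν` (`totalDegree_monomial_le` or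
`MvPolynomial.totalDegree_monomial`; the sum over all variables is `xd + jd`), `jd ν ≤ jw ν = m - i` (`jd_le_jw`); `i = 0`: `xd ν + d ≤ A0`; `i ≥ 1`: `xd ν + d ≤ A0 + 1` and `jw ν ≤ m - 1`.  Zero: `totalDegree = 0`, `d ≤ A0`.
Sums: `totalDegree_add`; scalars: `totalDegree_smul_le`. -/
theorem NB_coeffs (hd : d ≤ A0) {f : MvPolynomial (JV n K) (RR n d)} (hf : f ∈ NB n d K A0 m) :
    ∃ c : Fin (K + 1) → MvPolynomial (JV n K) (RR n d),
      f = ∑ i, c i * uR (gen n d) (i : ℕ) ∧ ∀ i, (c i).totalDegree + d ≤ A0 + m := by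
  classical
  unfold NB at hf
  induction hf using Submodule.span_induction with
  | mem x hx =>
    obtain ⟨ν, i, h1, h2, rfl⟩ := hx
    refine ⟨Function.update (fun _ => 0) i (monomial ν 1), ?_, fun i' => ?_⟩
    · rw [Finset.sum_eq_single i]
      · rw [Function.update_self]
      · intro i' _ hi'
        rw [Function.update_of_ne hi', zero_mul]
      · intro h
        exact absurd (Finset.mem_univ i) h
    · by_cases hi' : i' = i
      · rw [hi', Function.update_self]
        have h3 : (monomial ν (1 : RR n d)).totalDegree ≤ xd ν + jd ν := by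
          rw [← b2c_sum]
          exact totalDegree_monomial_le ν 1
        have h4 := jd_le_jw ν
        by_cases hi : i = 0
        · subst hi
          rw [if_pos rfl] at h1
          omega
        · rw [if_neg hi] at h1
          have h5 : 1 ≤ (i : ℕ) := Nat.one_le_iff_ne_zero.2 fun h0 => hi (Fin.ext h0)
          omega
      · rw [Function.update_of_ne hi', totalDegree_zero]
        omega
  | zero =>
    refine ⟨fun _ => 0, ?_, fun i => ?_⟩
    · simp
    · rw [totalDegree_zero]
      omega
  | add x y _ _ hx hy =>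
    obtain ⟨c, hc1, hc2⟩ := hx
    obtain ⟨c', hc1', hc2'⟩ := hy
    refine ⟨fun i => c i + c' i, ?_, fun i => ?_⟩
    · rw [hc1, hc1', ← Finset.sum_add_distrib]
      exact Finset.sum_congr rfl fun i _ => (add_mul _ _ _).symm
    · have h1 := totalDegree_add (c i) (c' i)
      have h2 := hc2 i
      have h3 := hc2' i
      have h4 : max (c i).totalDegree (c' i).totalDegree + d ≤ A0 + m := by
        rcases le_total (c i).totalDegree (c' i).totalDegree with h | h
        · rw [max_eq_right h]
          exact h3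
        · rw [max_eq_left h]
          exact h2
      simp only
      omega
  | smul a x _ hx =>
    obtain ⟨c, hc1, hc2⟩ := hx
    refine ⟨fun i => a • c i, ?_, fun i => ?_⟩
    · rw [hc1, Finset.smul_sum]
      exact Finset.sum_congr rfl fun i _ => (smul_mul_assoc _ _ _).symm
    · have h1 := totalDegree_smul_le a (c i)
      have h2 := hc2 i
      simp only
      omega

end Pool.Agent.H89X
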