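import Pool.Agent.Lib.H89X.A1
import Pool.Agent.Lib.H89X.A2
import Pool.Agent.Lib.H89X.B2B
import Pool.Agent.Lib.H89X.B2C

set_option autoImplicit false

/-!
CHUNK B2D (M) of H89X, module B.  The elements of `NB` belonging to a chain.
-/

open MvPolynomial

namespace Pool.Agent.H89X

open Pool.Agent.H89T Pool.Agent.H67T Pool.Agent.H53U Pool.Agent.H53V Pool.Agent.H44K

variable {n d K A0 m : ℕ}

theorem b2d_xd_single (b : Fin n) (e : ℕ) : xd (Finsupp.single ((b, 0) : JV n K) e) = e := by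
  rw [← er1_sum0, Finset.sum_eq_single ((b, 0) : JV n K)]
  · rw [if_pos rfl, Finsupp.single_eq_same]
  · intro p _ hp
    rw [Finsupp.single_eq_of_ne hp, ite_self]
  · intro h
    exact absurd (Finset.mem_univ _) h

theorem b2d_jw_single (b : Fin n) (e : ℕ) : H53V.jw (Finsupp.single ((b, 0) : JV n K) e) = 0 := by
  unfold H53V.jw
  refine Finset.sum_eq_zero fun p _ => ?_
  by_cases hp : p = (b, 0)
  · rw [hp]
    simp
  · rw [Finsupp.single_eq_of_ne hp, mul_zero]

theorem b2d_jd_single (b : Fin n) (e : ℕ) : jd (Finsupp.single ((b, 0) : JV n K) e) = 0 := by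
  unfold jd
  refine Finset.sum_eq_zero fun p _ => ?_
  by_cases hp : p = (b, 0)
  · rw [hp, if_pos rfl]
  · rw [Finsupp.single_eq_of_ne hp, ite_self]

theorem b2d_supp {R : Type*} [CommRing R] {ν : JV n K →₀ ℕ} {c : R} {P : MvPolynomial (JV n K) R}
    {μ : JV n K →₀ ℕ} (h : μ ∈ (monomial ν c * P).support) : ∃ μ2 ∈ P.support, ν + μ2 = μ := by
  classical
  obtain ⟨ν1, h3, ν2, h4, h34⟩ := Finset.mem_add.1 (support_mul _ _ h)
  have h5 := support_monomial_subset h3
  rw [Finset.mem_singleton] at h5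
  exact ⟨ν2, h4, by rw [← h5, h34]⟩

/-- Case (i).  PROOF.  `ν' = ν - single (b, 0) (d - 1)`, so `xd ν' + (d - 1) = xd ν`, `jw ν' = jw ν`, `jd ν' = jd ν`.
`w = ∑ r, C (C (1 / d)) * monomial ν' 1 * adj r b * u_(J r + 1)` (over `RR n d`).  `w ∈ NB`: `mem_NB` with `i = (J r).succ ≠ 0` (`Submodule.sum_mem`; supports: `support_mul`, `tri_adj`): `xd ν' + 0 + d = xd ν + 1 ≤ A0 + 1`,
`jw ν + (wJ J - (J r + 1)) + (J r + 1) = m`.  `Low`: `Low.sum` of products (`Low.mul`) of `Low.monomial ν' (1 / d)` (degree `jd ν`), `Low.self` for `adj r b` (degree `n - 1`, `tri_adj`, `map_adj_mJ`) and `low_u` (degree `1`); the sum of the lowest parts is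
`monomial ν' (1 / d) * ∑ r, adj r b * fs (J r + 1) = monomial ν' (1 / d) * C d * X (b, 0) ^ (d - 1) * det` (`adj_fs`) `= monomial ν 1 * det`. -/
theorem exists_wB1 (hd : 2 ≤ d) (J : Fin n → Fin K) {ν : JV n K →₀ ℕ} (hν : xd ν ≤ A0)
    (hm : H53V.jw ν + wJ J = m) (b : Fin n) (hb : d - 1 ≤ ν (b, 0)) :
    ∃ w ∈ NB n d K A0 m, Low (jd ν + n) (map (eval (a1 n d)) w)
      (monomial ν 1 * Matrix.det (mJ (R := ℂ) J)) := by
  classical
  obtain ⟨ν', hν'⟩ : ∃ ν', ν = ν' + Finsupp.single (b, 0) (d - 1) :=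
    ⟨ν - Finsupp.single (b, 0) (d - 1), (tsub_add_cancel_of_le (Finsupp.single_le_iff.2 hb)).symm⟩
  have hx : xd ν = xd ν' + (d - 1) := by
    rw [hν', er1_xd_add, b2d_xd_single]
  have hw : H53V.jw ν = H53V.jw ν' := by
    rw [hν', er2_jw_add, b2d_jw_single, add_zero]
  have hj : jd ν = jd ν' := by
    rw [hν', er2_jd_add, b2d_jd_single, add_zero]
  have hd0 : (d : ℂ) ≠ 0 := by
    have : d ≠ 0 := by omega
    exact_mod_cast this
  have hn : 1 ≤ n := by
    have := b.2
    omega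
  refine ⟨∑ r, (monomial ν' (C ((1 : ℂ) / d)) * Matrix.adjugate (mJ (R := RR n d) J) r b) *
    uR (gen n d) (((J r).succ : Fin (K + 1)) : ℕ), ?_, ?_⟩
  · refine Submodule.sum_mem _ fun r _ => mem_NB _ fun μ hμ => ?_
    obtain ⟨μ2, h2, rfl⟩ := b2d_supp hμ
    obtain ⟨h3, h4, h5⟩ := tri_adj J r b μ2 h2
    rw [er1_xd_add, er2_jw_add, if_neg (Fin.succ_ne_zero _), Fin.val_succ]
    exact ⟨by omega, by omega⟩
  · have e1 : map (eval (a1 n d)) (∑ r, (monomial ν' (C ((1 : ℂ) / d)) *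
        Matrix.adjugate (mJ (R := RR n d) J) r b) * uR (gen n d) (((J r).succ : Fin (K + 1)) : ℕ)) =
        ∑ r, (monomial ν' ((1 : ℂ) / d) * Matrix.adjugate (mJ (R := ℂ) J) r b) *
          map (eval (a1 n d)) (uR (gen n d) (((J r).succ : Fin (K + 1)) : ℕ)) := by
      rw [map_sum]
      refine Finset.sum_congr rfl fun r _ => ?_
      rw [map_mul, map_mul, map_monomial, eval_C, map_adj_mJ]
    have e2 : monomial ν (1 : ℂ) * Matrix.det (mJ (R := ℂ) J) =
        ∑ r, (monomial ν' ((1 : ℂ) / d) * Matrix.adjugate (mJ (R := ℂ) J) r b) *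
          fs n d K (J r).succ := by
      have e3 : ∀ r, (monomial ν' ((1 : ℂ) / d) * Matrix.adjugate (mJ (R := ℂ) J) r b) *
          fs n d K (J r).succ = monomial ν' ((1 : ℂ) / d) *
          (Matrix.adjugate (mJ (R := ℂ) J) r b * fs n d K (J r).succ) := fun r => mul_assoc _ _ _
      rw [Finset.sum_congr rfl fun r _ => e3 r, ← Finset.mul_sum, adj_fs, ← mul_assoc, ← mul_assoc]
      congr 1
      rw [mul_comm (monomial ν' ((1 : ℂ) / d)) (C (d : ℂ)), C_mul_monomial,
        mul_one_div_cancel hd0, X_pow_eq_monomial, monomial_mul, mul_one, hν']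
    rw [e1, e2]
    refine Low.sum _ fun r _ => ?_
    have l1 := Low.monomial ν' ((1 : ℂ) / d)
    have l2 : Low (n - 1) (Matrix.adjugate (mJ (R := ℂ) J) r b) (Matrix.adjugate (mJ (R := ℂ) J) r b) := by
      refine Low.self fun μ hμ => ?_
      have h5 := (tri_adj J r b μ hμ).2.2
      omega
    have l3 := low_u (n := n) (k := K) (by omega : 1 ≤ d) (J r).succ
    rw [if_neg (Fin.succ_ne_zero _)] at l3
    have l4 := (l1.mul l2).mul l3
    have e4 : jd ν' + (n - 1) + 1 = jd ν + n := by omega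
    rw [e4] at l4
    exact l4

/-- PROOF.  If some `ν (b, 0) ≥ d - 1`: `exists_wB1`.  Otherwise `xd ν ≤ n (d - 2)`, so `xd ν + d ≤ (n + 1) d ≤ A0`; `w = monomial ν 1 * det * u_0 - ∑ b, w_b`, `w_b` of `exists_wB1` for `ν + single (b, 0) d`
(`mem_NB` with `i = 0`, `tri_det`; `Submodule.sub_mem`).  `Low`: the lowest part of the first term is `monomial ν 1 * det * (1 + ∑ X (b, 0) ^ d)` (`low_u` for `i = 0`, `tri_det`, `map_det_mJ`), those of the `w_b` are
`monomial ν 1 * X (b, 0) ^ d * det` (differences: `Low.add` with `Low.C_mul (-1)`). -/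
theorem exists_wB (hn : 1 ≤ n) (hd : 2 ≤ d) (hA : (n + 1) * d ≤ A0) (J : Fin n → Fin K)
    {ν : JV n K →₀ ℕ} (hν : xd ν ≤ A0) (hm : H53V.jw ν + wJ J = m) :
    ∃ w ∈ NB n d K A0 m, Low (jd ν + n) (map (eval (a1 n d)) w)
      (monomial ν 1 * Matrix.det (mJ (R := ℂ) J)) := by
  classical
  by_cases hex : ∃ b, d - 1 ≤ ν (b, 0)
  · obtain ⟨b, hb⟩ := hex
    exact exists_wB1 hd J hν hm b hb
  · push Not at hex
    have hxd : xd ν ≤ n * d := by
      unfold xd
      calc ∑ b : Fin n, ν (b, 0) ≤ ∑ _b : Fin n, d :=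
            Finset.sum_le_sum fun b _ => by have := hex b; omega
        _ = n * d := by simp
    have hxd' : xd ν + d ≤ A0 := by
      have : (n + 1) * d = n * d + d := by ring
      omega
    have hwb : ∀ b : Fin n, ∃ w ∈ NB n d K A0 m, Low (jd ν + n) (map (eval (a1 n d)) w)
        (monomial (ν + Finsupp.single (b, 0) d) 1 * Matrix.det (mJ (R := ℂ) J)) := by
      intro b
      have h1 := exists_wB1 (A0 := A0) (m := m) hd J (ν := ν + Finsupp.single (b, 0) d)
        (by rw [er1_xd_add, b2d_xd_single]; exact hxd')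
        (by rw [er2_jw_add, b2d_jw_single, add_zero]; exact hm) b
        (by rw [Finsupp.add_apply, Finsupp.single_eq_same]; omega)
      rw [er2_jd_add, b2d_jd_single, add_zero] at h1
      exact h1
    choose w hw1 hw2 using hwb
    refine ⟨(monomial ν 1 * Matrix.det (mJ (R := RR n d) J)) *
      uR (gen n d) (((0 : Fin (K + 1)) : ℕ)) - ∑ b, w b, ?_, ?_⟩
    · refine Submodule.sub_mem _ (mem_NB _ fun μ hμ => ?_) (Submodule.sum_mem _ fun b _ => hw1 b)
      obtain ⟨μ2, h2, rfl⟩ := b2d_supp hμ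
      obtain ⟨h3, h4, h5⟩ := tri_det J μ2 h2
      rw [er1_xd_add, er2_jw_add, if_pos rfl, Fin.val_zero]
      exact ⟨by omega, by omega⟩
    · have e1 : map (eval (a1 n d)) ((monomial ν 1 * Matrix.det (mJ (R := RR n d) J)) *
          uR (gen n d) (((0 : Fin (K + 1)) : ℕ)) - ∑ b, w b) =
          (monomial ν 1 * Matrix.det (mJ (R := ℂ) J)) *
            map (eval (a1 n d)) (uR (gen n d) (((0 : Fin (K + 1)) : ℕ))) +
          C (-1) * ∑ b, map (eval (a1 n d)) (w b) := by
        rw [map_sub, map_mul, map_mul, map_monomial, map_one, map_det_mJ, map_sum, C_neg, C_1]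
        ring
      have e2 : monomial ν (1 : ℂ) * Matrix.det (mJ (R := ℂ) J) =
          (monomial ν 1 * Matrix.det (mJ (R := ℂ) J)) * fs n d K 0 +
          C (-1) * ∑ b : Fin n, (monomial (ν + Finsupp.single (b, 0) d) 1 *
            Matrix.det (mJ (R := ℂ) J)) := by
        have e3 : ∀ b : Fin n, monomial (ν + Finsupp.single ((b, 0) : JV n K) d) (1 : ℂ) =
            monomial ν 1 * X (b, 0) ^ d := by
          intro b
          rw [X_pow_eq_monomial, monomial_mul, mul_one]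
        have e4 : fs n d K 0 = 1 + ∑ b : Fin n, X (b, 0) ^ d := if_pos rfl
        have e6 : ∑ b : Fin n, (monomial (ν + Finsupp.single (b, 0) d) 1 *
            Matrix.det (mJ (R := ℂ) J)) =
            ∑ b : Fin n, monomial ν (1 : ℂ) * X (b, 0) ^ d * Matrix.det (mJ (R := ℂ) J) :=
          Finset.sum_congr rfl fun b _ => by rw [e3 b]
        rw [e4, e6, mul_add, mul_one, C_neg, C_1, Finset.mul_sum]
        have e5 : ∑ b : Fin n, monomial ν (1 : ℂ) * Matrix.det (mJ (R := ℂ) J) * X (b, 0) ^ d =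
            ∑ b : Fin n, monomial ν (1 : ℂ) * X (b, 0) ^ d * Matrix.det (mJ (R := ℂ) J) :=
          Finset.sum_congr rfl fun b _ => by ring
        rw [e5]
        ring
      rw [e1]
      have l1 := Low.monomial ν (1 : ℂ)
      have l2 : Low n (Matrix.det (mJ (R := ℂ) J)) (Matrix.det (mJ (R := ℂ) J)) :=
        Low.self fun μ hμ => (tri_det J μ hμ).2.2
      have l3 := low_u (n := n) (k := K) (by omega : 1 ≤ d) 0
      rw [if_pos rfl] at l3
      have l4 := (l1.mul l2).mul l3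
      rw [add_zero] at l4
      have l5 : Low (jd ν + n) (∑ b, map (eval (a1 n d)) (w b))
          (∑ b : Fin n, (monomial (ν + Finsupp.single (b, 0) d) 1 * Matrix.det (mJ (R := ℂ) J))) :=
        Low.sum Finset.univ fun b _ => hw2 b
      have l7 := Low.add l4 (Low.C_mul (-1) l5)
      rw [← e2] at l7
      exact l7

end Pool.Agent.H89X
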