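import Pool.Agent.Lib.H89X.A3
import Pool.Agent.Lib.H89X.B1
import Pool.Agent.Lib.H89X.B2D

set_option autoImplicit false

/-!
CHUNK B3 (M) of H89X, module B.  Every monomial is in `NB` + bad monomials, up to a factor of the coefficient ring.
-/

open MvPolynomial

namespace Pool.Agent.H89X

open Pool.Agent.H89T Pool.Agent.H67T Pool.Agent.H53U Pool.Agent.H53V Pool.Agent.H44K

variable {n d K A0 m : ℕ}

/-- The pairs (chain, exponent). -/
abbrev JN (n K A0 m : ℕ) : Type :=
  {q : (Fin n → Fin K) × (JV n K →₀ ℕ) // StrictMono q.1 ∧ xd q.2 ≤ A0 ∧ H53V.jw q.2 + wJ q.1 = m}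

theorem b3_dJ (J : Fin n → Fin K) (p : JV n K) :
    dJ J p = if (J p.1).succ = p.2 then 1 else 0 := by
  classical
  unfold dJ
  rw [Finsupp.finsetSum_apply, Finset.sum_eq_single p.1]
  · rw [Finsupp.single_apply]
    by_cases h : (J p.1).succ = p.2
    · have h1 : ((p.1, (J p.1).succ) : JV n K) = p := Prod.ext rfl h
      rw [if_pos h, if_pos h1]
    · rw [if_neg h, if_neg fun h1 => h (Prod.ext_iff.1 h1).2]
  · intro r _ hr
    rw [Finsupp.single_apply, if_neg fun h1 => hr (Prod.ext_iff.1 h1).1]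
  · intro h
    exact absurd (Finset.mem_univ _) h

/-- PROOF.  `span_of_lead` (A4) with `s = Bi n K A0 m`, `om = omB n K`, `V =` this span.  `ν` bad: `f = monomial ν 1`, `Lead.monomial`.  Otherwise unfold `Good 1`: there is a chain `J` with
`1 ≤ ν (b, (J b).succ)` for all `b` (the sum over `Fin 1`, at `p = (b, J b)`), so `dJ J ≤ ν` (at `(b, l.succ)`: the value of `dJ J` is `1` if `J b = l`, otherwise `0`; at `(b, 0)`: `0`), `ν = ν' + dJ J`, `xd ν' = xd ν`, `jw ν' + wJ J = m`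
(`xd (dJ J) = 0`, `jw (dJ J) = wJ J`); `f = monomial ν' 1 * det (mJ J)` has the leading monomial `ν' + dJ J` (`Lead.mul`, `Lead.monomial`, `lead_det`), its monomials are in `s` (`tri_det`, `support_mul`). -/
theorem span_B : ∀ ν ∈ Bi n K A0 m, monomial ν (1 : ℂ) ∈ Submodule.span ℂ
    (Set.range (fun ν : Bad n K A0 m => monomial ν.1 (1 : ℂ)) ∪
      Set.range fun q : JN n K A0 m => monomial q.1.2 (1 : ℂ) * Matrix.det (mJ (R := ℂ) q.1.1)) := by
  classical
  refine span_of_lead (Bi n K A0 m) (omB n K) _ fun ν hν => ?_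
  obtain ⟨hν1, hν2⟩ := hν
  by_cases hbad : ν ∈ Bad n K A0 m
  · refine ⟨monomial ν 1, Submodule.subset_span (Or.inl ⟨⟨ν, hbad⟩, rfl⟩),
      Lead.monomial _ ν one_ne_zero, fun m' hm' => ?_⟩
    have h5 := support_monomial_subset hm'
    rw [Finset.mem_singleton] at h5
    rw [h5]
    exact ⟨hν1, hν2⟩
  · have hgood : Good 1 fun p : Fin n × Fin K => ν (p.1, p.2.succ) := by
      by_contra h
      exact hbad ⟨hν1, hν2, h⟩
    obtain ⟨J', hJ'⟩ := hgood
    set J := (J' 0).1 with hJdef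
    have hJ : StrictMono J := (J' 0).2
    have hle : dJ J ≤ ν := by
      intro p
      rw [b3_dJ]
      split_ifs with h
      · have h1 := hJ' (p.1, J p.1)
        rw [Fin.sum_univ_one, if_pos rfl] at h1
        simp only at h1
        rw [h] at h1
        exact h1
      · exact Nat.zero_le _
    obtain ⟨ν', hν'⟩ : ∃ ν', ν = ν' + dJ J := ⟨ν - dJ J, (tsub_add_cancel_of_le hle).symm⟩
    have hlead := lead_det hJ
    obtain ⟨t1, t2, t3⟩ := tri_det (R := ℂ) J (dJ J) (mem_support_iff.2 hlead.1)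
    have h1 : xd ν' ≤ A0 := by
      rw [hν', er1_xd_add] at hν1
      omega
    have h2 : H53V.jw ν' + wJ J = m := by
      rw [hν', er2_jw_add, t2] at hν2
      exact hν2
    refine ⟨monomial ν' 1 * Matrix.det (mJ (R := ℂ) J),
      Submodule.subset_span (Or.inr ⟨⟨(J, ν'), hJ, h1, h2⟩, rfl⟩), ?_, fun μ hμ => ?_⟩
    · rw [hν']
      exact (Lead.monomial _ ν' one_ne_zero).mul hlead
    · obtain ⟨μ2, h3, rfl⟩ := b2d_supp hμ
      obtain ⟨s1, s2, s3⟩ := tri_det (R := ℂ) J μ2 h3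
      have h4 : xd (ν' + μ2) ≤ A0 ∧ H53V.jw (ν' + μ2) = m := by
        rw [er1_xd_add, er2_jw_add]
        exact ⟨by omega, by omega⟩
      exact h4

/-- PROOF.  `transfer` (A3) with `s = (Bi_finite ..).toFinset`, `N = NB ⊔ span Bad`, `vd = jd`, `I = Bad ⊕ JN`, `w (inl ν) = monomial ν 1`, `p (inl ν) = monomial ν 1`, `g (inl ν) = jd ν` (`Low.monomial`); `w (inr q)` of `exists_wB`, `p (inr q) = monomial * det`,
`g (inr q) = jd ν + n`; supports: `NB_support`, a bad exponent is in `Bi`; `hp`, `hlow`: `Low.hom`, `Low.rest`; `hspan`: `span_B` (`Set.Sum.elim_range`). -/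
theorem exists_tB (hn : 1 ≤ n) (hd : 2 ≤ d) (hA : (n + 1) * d ≤ A0) :
    ∃ t : RR n d, t ≠ 0 ∧ ∀ ν ∈ Bi n K A0 m, t • monomial ν (1 : RR n d) ∈
      NB n d K A0 m ⊔ Submodule.span (RR n d)
        (Set.range fun ν : Bad n K A0 m => monomial ν.1 (1 : RR n d)) := by
  classical
  have hw : ∀ q : JN n K A0 m, ∃ w ∈ NB n d K A0 m, Low (jd q.1.2 + n) (map (eval (a1 n d)) w)
      (monomial q.1.2 1 * Matrix.det (mJ (R := ℂ) q.1.1)) :=
    fun q => exists_wB hn hd hA q.1.1 q.2.2.1 q.2.2.2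
  choose wq hwq1 hwq2 using hw
  have hlow : ∀ i : Bad n K A0 m ⊕ JN n K A0 m, Low
      (Sum.elim (fun ν : Bad n K A0 m => jd ν.1) (fun q : JN n K A0 m => jd q.1.2 + n) i)
      (map (eval (a1 n d)) (Sum.elim (fun ν : Bad n K A0 m => monomial ν.1 (1 : RR n d)) wq i))
      (Sum.elim (fun ν : Bad n K A0 m => monomial ν.1 (1 : ℂ))
        (fun q : JN n K A0 m => monomial q.1.2 (1 : ℂ) * Matrix.det (mJ (R := ℂ) q.1.1)) i) := by
    rintro (ν | q)
    · simp only [Sum.elim_inl]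
      rw [map_monomial, map_one]
      exact Low.monomial ν.1 1
    · simp only [Sum.elim_inr]
      exact hwq2 q
  have hfin := Bi_finite n K A0 m
  obtain ⟨t, ht, h⟩ := transfer (a1 n d) hfin.toFinset
    (NB n d K A0 m ⊔ Submodule.span (RR n d)
        (Set.range fun ν : Bad n K A0 m => monomial ν.1 (1 : RR n d))) jd
    (Sum.elim (fun ν : Bad n K A0 m => monomial ν.1 (1 : RR n d)) wq)
    (Sum.elim (fun ν : Bad n K A0 m => monomial ν.1 (1 : ℂ))
        (fun q : JN n K A0 m => monomial q.1.2 (1 : ℂ) * Matrix.det (mJ (R := ℂ) q.1.1)))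
    (Sum.elim (fun ν : Bad n K A0 m => jd ν.1) (fun q : JN n K A0 m => jd q.1.2 + n))
    (by
      rintro (ν | q)
      · exact Submodule.mem_sup_right (Submodule.subset_span ⟨ν, rfl⟩)
      · exact Submodule.mem_sup_left (hwq1 q))
    (by
      rintro (ν | q) μ hμ
      · simp only [Sum.elim_inl] at hμ
        have h5 := support_monomial_subset hμ
        rw [Finset.mem_singleton] at h5
        rw [h5, Set.Finite.mem_toFinset]
        exact ⟨ν.2.1, ν.2.2.1⟩
      · rw [Set.Finite.mem_toFinset]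
        exact NB_support (by omega) (hwq1 q) μ hμ)
    (fun i => (hlow i).hom) (fun i => (hlow i).rest)
    (fun μ hμ => by
      rw [Set.Finite.mem_toFinset] at hμ
      rw [Set.Sum.elim_range]
      exact span_B μ hμ)
  exact ⟨t, ht, fun ν hν => h ν (by rw [Set.Finite.mem_toFinset]; exact hν)⟩

end Pool.Agent.H89X
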