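import Pool.Agent.Lib.H89X.AD
import Pool.Agent.Lib.H89T.N2

set_option autoImplicit false

/-!
H89X, module B (existence of `B`): definitions.
-/

open MvPolynomial

namespace Pool.Agent.H89X

open Pool.Agent.H89T Pool.Agent.H67T Pool.Agent.H53U Pool.Agent.H53V Pool.Agent.H44K

/-- All the monomials have degree `α` in `x`, weight `β` and `γ` factors of positive order. -/
def Tri {n K : ℕ} {R : Type*} [CommRing R] (α β γ : ℕ) (P : MvPolynomial (JV n K) R) : Prop :=
  ∀ ν ∈ P.support, xd ν = α ∧ H53V.jw ν = β ∧ jd ν = γ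

/-- The monomials of degree at most `A0` in `x` and weight `m`. -/
def Bi (n K A0 m : ℕ) : Set (JV n K →₀ ℕ) := {ν | xd ν ≤ A0 ∧ H53V.jw ν = m}

/-- The weight of a chain. -/
def wJ {n K : ℕ} (J : Fin n → Fin K) : ℕ := ∑ r, ((J r : ℕ) + 1)

end Pool.Agent.H89X
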