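import Pool.Agent.Lib.H89T.CDefs
import Pool.Agent.Lib.H89T.DP3
import Pool.Agent.Lib.H53V.D0
import Pool.Agent.Lib.H44K.D0

set_option autoImplicit false

/-!
H89X (second main theorem with truncation level one for one generic hypersurface, coefficient `1 - ε`, EXPLICIT degree
`d ≥ C (n (1 + log d) / ε) ^ 3`, see PROOF.md): definitions and the statements of the modules.

`n` affine variables `x`, one polynomial `F_a` of degree at most `d`; `JV n k`: jets of order `k`; `uR a i = [t ^ i] F_a (x (t))`,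
`NN n k R` the derivation `x_(b,l) ↦ (l + 1) x_(b,l+1)`, `xd`, `jd`, `wt`, `HasWt` of H89T; `jw` of H53V; `nbad` of H44K.
-/

open MvPolynomial Real MeasureTheory

namespace Pool.Agent.H89X

open Pool.Agent.H89T Pool.Agent.H67T Pool.Agent.H53U Pool.Agent.H53V Pool.Agent.H44K

section Props

variable {n d k : ℕ} {R : Type*} [CommRing R]

/-- The ideal `(u 0, ..., u (i - 1))`. -/
noncomputable def UI (k : ℕ) (a : Idx n d → R) (i : ℕ) : Ideal (MvPolynomial (JV n k) R) :=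
  Ideal.span (Set.range fun s : Fin i => (uR a (s : ℕ) : MvPolynomial (JV n k) R))

/-- Property (W): `N ^ l P ∈ (u 0, ..., u (min j n - 1)) ^ (j - 1 - l / r)` for `2 ≤ j ≤ J`, `l < (j - 1) r`. -/
def PropW (a : Idx n d → R) (r J : ℕ) (P : MvPolynomial (JV n k) R) : Prop :=
  ∀ j, 2 ≤ j → j ≤ J → ∀ l < (j - 1) * r, (NN n k R)^[l] P ∈ UI k a (min j n) ^ (j - 1 - l / r)

/-- The coordinates `1, x_1, ..., x_n`. -/
noncomputable def xo (o : Option (Fin n)) : MvPolynomial (JV n k) R := o.elim 1 fun b => X (b, 0)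

/-- Property (S): `x_o ^ s P ∈ (u 0, ..., u k)` for all the coordinates `x_o`, with control of the degrees. -/
def PropS (a : Idx n d → R) (D s : ℕ) (P : MvPolynomial (JV n k) R) : Prop :=
  ∀ o : Option (Fin n), ∃ c : Fin (k + 1) → MvPolynomial (JV n k) R,
    xo o ^ s * P = ∑ i, c i * uR a (i : ℕ) ∧ ∀ i, (c i).totalDegree + d ≤ D + s

end Props

/-! ### Existence -/

/-- Module A: existence of `P`. -/
def ExW (n d r J k A m μ : ℕ) : Prop :=
  ∃ P : MvPolynomial (JV n k) (RR n d), P ≠ 0 ∧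
    (∀ ν ∈ P.support, xd ν ≤ A ∧ H53V.jw ν = m ∧ jd ν < μ) ∧ PropW (gen n d) r J P

/-- Module B: existence of `B`. -/
def ExS (n d K A m μ s : ℕ) : Prop :=
  ∃ B : MvPolynomial (JV n K) (RR n d), B ≠ 0 ∧
    (∀ ν ∈ B.support, xd ν ≤ A ∧ H53V.jw ν = m ∧ jd ν < μ) ∧ PropS (gen n d) (A + m) s B

/-! ### Counting -/

/-- The exponents of the leading monomial `x_s ^ (d - 1) x_(s, s)` of `u s` (`x_0 ^ d` for `s = 0`). -/
def ldf (n d k : ℕ) (s : Fin n) (p : JV n k) : ℕ :=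
  (if p = (s, 0) then d - 1 else 0) + if p.1 = s ∧ (p.2 : ℕ) = (s : ℕ) then 1 else 0

/-- The monomials of degree at most `A` in `x` and weight `m` which are not divisible by a product of `q` leading monomials
of `u 0, ..., u (i - 1)`. -/
def Nor (n d k i q A m : ℕ) : Set (JV n k →₀ ℕ) :=
  {ν | xd ν ≤ A ∧ H53V.jw ν = m ∧ ¬ ∃ c : Fin n → ℕ, (∀ s : Fin n, i ≤ (s : ℕ) → c s = 0) ∧
    ∑ s, c s = q ∧ ∀ p, ∑ s, c s * ldf n d k s p ≤ ν p}

/-- The monomials of degree at most `A` in `x` and weight `m` with less than `μ` factors `x_(b,l)`, `l ≥ 1`. -/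
def Unk (n k A m μ : ℕ) : Set (JV n k →₀ ℕ) := {ν | xd ν ≤ A ∧ H53V.jw ν = m ∧ jd ν < μ}

/-- The numerical condition for the existence of `P`. -/
def CountW (n d r J k A m μ : ℕ) : Prop :=
  ∑ j ∈ Finset.Icc 2 J, ∑ l ∈ Finset.range ((j - 1) * r),
    (Nor n d k (min j n) (j - 1 - l / r) A (m + l)).ncard < (Unk n k A m μ).ncard

/-- The numerical condition for the existence of `B`. -/
def CountS (n K A m μ s : ℕ) : Prop :=
  (n + 1) * ((A + s + n).choose n * nbad n K m 1) < (Unk n K A m μ).ncard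

/-! ### Moves -/

/-- Result of the moves for `P`. -/
def AlgW (n d r J k M : ℕ) : Prop :=
  ∃ W : MvPolynomial (Fin n ⊕ Idx n d) ℂ, W ≠ 0 ∧ ∀ (a : Idx n d → ℂ) (ξ : JV n k → ℂ),
    eval (Sum.elim (fun b => ξ (b, 0)) a) W ≠ 0 → ev a (fun b => ξ (b, 0)) ≠ 0 →
      (∃ b, ∃ i : Fin (k + 1), (i : ℕ) = 1 ∧ ξ (b, i) ≠ 0) →
      ∃ P : MvPolynomial (JV n k) ℂ, HasWt M P ∧ PropW a r J P ∧ eval ξ P ≠ 0

/-- Result of the moves for `B`. -/
def AlgS (n d K M : ℕ) : Prop :=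
  ∃ W : MvPolynomial (Fin n ⊕ Idx n d) ℂ, W ≠ 0 ∧ ∀ (a : Idx n d → ℂ) (ξ : JV n K → ℂ),
    eval (Sum.elim (fun b => ξ (b, 0)) a) W ≠ 0 → ev a (fun b => ξ (b, 0)) ≠ 0 →
      (∃ b, ∃ i : Fin (K + 1), (i : ℕ) = 1 ∧ ξ (b, i) ≠ 0) →
      ∃ (s : ℕ) (B : MvPolynomial (JV n K) ℂ), HasWt M B ∧ PropS a M s B ∧ eval ξ B ≠ 0

/-! ### Analysis -/

/-- The second main theorem with the coefficient `(1 - ε) d` for the curves not contained in an exceptional set which does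
not contain the point `e_0`. -/
def SmtX (N d : ℕ) (ε : ℝ) : Prop :=
  ∃ Θ : MvPolynomial (Fin (N + 1) →₀ ℕ) ℂ,
    (∃ F : MvPolynomial (Fin (N + 1)) ℂ, F.IsHomogeneous d ∧ cval Θ F ≠ 0) ∧
    ∀ F : MvPolynomial (Fin (N + 1)) ℂ, F.IsHomogeneous d → cval Θ F ≠ 0 →
      ∃ G : MvPolynomial (Fin (N + 1)) ℂ, eval (Pi.single 0 1) G ≠ 0 ∧ Ineq ε d F G

end Pool.Agent.H89X
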