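import Pool.Agent.Lib.H89X.XMain
import Pool.Agent.Lib.H67T.NM2

set_option autoImplicit false

/-!
The second main theorem with truncation level one for one generic hypersurface, with an explicit
error term.
-/

open MvPolynomial Real MeasureTheory

namespace Pool.Agent.Results.MP_2a5ae2_ag.ExplicitSecondMain

/-- `P` holds for all forms of degree `d` in `n + 1` variables outside a proper algebraic subset:
there is a polynomial `Θ` in the coefficients, not vanishing at all forms of degree `d`, such that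
`P` holds for the forms of degree `d` at which `Θ` does not vanish. -/
def ForGenericForm (n d : ℕ) (P : MvPolynomial (Fin (n + 1)) ℂ → Prop) : Prop :=
  ∃ Θ : MvPolynomial (Fin (n + 1) →₀ ℕ) ℂ,
    (∃ F : MvPolynomial (Fin (n + 1)) ℂ, F.IsHomogeneous d ∧
      eval (fun γ => coeff γ F) Θ ≠ 0) ∧
    ∀ F : MvPolynomial (Fin (n + 1)) ℂ, F.IsHomogeneous d →
      eval (fun γ => coeff γ F) Θ ≠ 0 → P F

/-- `y` is a reduced representation of a nonconstant holomorphic map from `ℂ` to projective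
space. -/
structure IsHolomorphicCurve {n : ℕ} (y : ℂ → Fin n → ℂ) : Prop where
  holomorphic : ∀ j, Differentiable ℂ fun z => y z j
  ne_zero : ∀ z, y z ≠ 0
  nonconstant : ∃ z z', ∀ c : ℂ, y z' ≠ c • y z

/-- Cartan's characteristic function `T_y(r)`: the mean value of `log ‖y z‖` on `|z| = r` minus
`log ‖y 0‖`. -/
noncomputable def characteristic {n : ℕ} (y : ℂ → Fin n → ℂ) (r : ℝ) : ℝ :=
  circleAverage (fun z => log ‖y z‖) 0 r - log ‖y 0‖

/-- The counting function `N₁(r, g)` of the zeros of `g`, every zero being counted once.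
(For `a = 0` the summand is `log (r / 0) = 0`.) -/
noncomputable def truncatedCounting (g : ℂ → ℂ) (r : ℝ) : ℝ :=
  (∑ᶠ a ∈ {a : ℂ | ‖a‖ ≤ r ∧ g a = 0}, log (r / ‖a‖)) + if g 0 = 0 then log r else 0

/-- **Explicit second main theorem with truncation level one for one generic hypersurface**: for
`n ≥ 1`, all `d` and the generic form `F` of degree `d` in `n + 1` variables, all nonconstant entire
curves `y` in `ℙⁿ` not contained in `F = 0` (degenerate ones included) satisfy
`(d - 90 n d ^ (2 / 3) (1 + log d)) T_y(r) ≤ N₁(r, F(y)) + C log r` for all `r ≥ 2` outside a set of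
finite measure.  So the coefficient is at least `(1 - ε) d` if `d ≥ (90 n (1 + log d) / ε) ^ 3`. -/
theorem result (n d : ℕ) (hn : 1 ≤ n) :
    ForGenericForm n d fun F =>
      ∀ y : ℂ → Fin (n + 1) → ℂ, IsHolomorphicCurve y → (∃ z, eval (y z) F ≠ 0) →
        ∃ (C : ℝ) (E : Set ℝ), volume E < ⊤ ∧ ∀ r : ℝ, 2 ≤ r → r ∉ E →
          (d - 90 * n * (d : ℝ) ^ (2 / 3 : ℝ) * (1 + log d)) * characteristic y r ≤
            truncatedCounting (fun z => eval (y z) F) r + C * log r := by
  have h9 : 0 < log 2 := Real.log_pos one_lt_two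
  have hN : ∀ (g : ℂ → ℂ) (r : ℝ), 2 ≤ r → 0 ≤ truncatedCounting g r := by
    intro g r hr
    have hlog : 0 ≤ log r := Real.log_nonneg (by linarith)
    refine add_nonneg (finsum_nonneg fun a => finsum_nonneg fun ha => ?_) ?_
    · rcases (norm_nonneg a).eq_or_lt with h0 | h0
      · rw [← h0, div_zero, Real.log_zero]
      · exact Real.log_nonneg ((one_le_div h0).2 ha.1)
    · split_ifs
      · exact hlog
      · exact le_rfl
  have hchar : ∀ (y : ℂ → Fin (n + 1) → ℂ) (r : ℝ), characteristic y r =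
      Pool.Agent.H67T.chi y r - log ‖y 0‖ := fun _ _ => rfl
  set κ : ℝ := d - 90 * n * (d : ℝ) ^ (2 / 3 : ℝ) * (1 + log d) with hκ
  rcases le_or_gt κ 0 with hκ0 | hκ0
  · refine ⟨1, ⟨0, isHomogeneous_zero _ _ _, by simp⟩, fun F hF _ y hy _ =>
      ⟨|κ * (Pool.Agent.H67T.chi y 1 - log ‖y 0‖)| / log 2, ∅, by simp, fun r hr _ => ?_⟩⟩
    have h10 : log 2 ≤ log r := Real.log_le_log (by norm_num) hr
    have h1 := Pool.Agent.H67T.chi_mono (y := y) ⟨hy.holomorphic, hy.ne_zero⟩ one_pos
      (by linarith : (1 : ℝ) ≤ r)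
    have h2 : κ * characteristic y r ≤ κ * (Pool.Agent.H67T.chi y 1 - log ‖y 0‖) := by
      rw [hchar]
      exact mul_le_mul_of_nonpos_left (by linarith) hκ0
    have h3 : |κ * (Pool.Agent.H67T.chi y 1 - log ‖y 0‖)| ≤
        |κ * (Pool.Agent.H67T.chi y 1 - log ‖y 0‖)| / log 2 * log r := by
      rw [div_mul_eq_mul_div, le_div_iff₀ h9]
      exact mul_le_mul_of_nonneg_left h10 (abs_nonneg _)
    have h4 := hN (fun z => eval (y z) F) r hr
    have h5 := le_abs_self (κ * (Pool.Agent.H67T.chi y 1 - log ‖y 0‖))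
    linarith
  · have hd : (0 : ℝ) < d := by
      by_contra hcon
      have hd0 : (d : ℝ) = 0 := le_antisymm (not_lt.1 hcon) (Nat.cast_nonneg d)
      rw [hκ, hd0, Real.zero_rpow (by norm_num)] at hκ0
      simp at hκ0
    have hn1 : (1 : ℝ) ≤ n := by exact_mod_cast hn
    have hlog : 0 ≤ log (d : ℝ) := Real.log_natCast_nonneg d
    set q : ℝ := (d : ℝ) ^ (1 / 3 : ℝ) with hq
    have hq0 : 0 < q := Real.rpow_pos_of_pos hd _
    have hq3 : q ^ 3 = d := by
      rw [hq, ← Real.rpow_natCast, ← Real.rpow_mul hd.le]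
      norm_num
    have hq2 : (d : ℝ) ^ (2 / 3 : ℝ) = q ^ 2 := by
      rw [hq, ← Real.rpow_natCast, ← Real.rpow_mul hd.le]
      norm_num
    set ε : ℝ := 90 * n * (1 + log d) / q with hε
    have hε0 : 0 < ε := by positivity
    have hεd : (1 - ε) * d = κ := by
      rw [hκ, hq2, hε, ← hq3]
      field_simp
    have hε1 : ε ≤ 1 := by
      by_contra hcon
      push Not at hcon
      nlinarith
    have hcond : (90 * (n : ℝ) * (1 + log d)) ^ 3 ≤ ε ^ 3 * d := by
      apply le_of_eq
      have h1 : ε * q = 90 * n * (1 + log d) := by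
        rw [hε]
        field_simp
      rw [← h1, mul_pow, hq3]
    obtain ⟨Θ, hΘ, hΘ'⟩ := Pool.Agent.H89X.theoremX hn hε0 hε1 hcond
    refine ⟨Θ, hΘ, fun F hF hF0 y hy hyF => ?_⟩
    obtain ⟨C, E, hE, h⟩ := hΘ' F hF hF0 y ⟨hy.holomorphic, hy.ne_zero⟩ hy.nonconstant hyF
    refine ⟨C + |κ * log ‖y 0‖| / log 2, E, hE, fun r hr hrE => ?_⟩
    have h1 := h r hr hrE
    have h5 : |κ * log ‖y 0‖| ≤ |κ * log ‖y 0‖| / log 2 * log r := by
      have h10 : log 2 ≤ log r := Real.log_le_log (by norm_num) hr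
      rw [div_mul_eq_mul_div, le_div_iff₀ h9]
      exact mul_le_mul_of_nonneg_left h10 (abs_nonneg _)
    have h6 := neg_abs_le (κ * log ‖y 0‖)
    have h8 : truncatedCounting (fun z => eval (y z) F) r =
        Pool.Agent.H67T.N1 (fun z => eval (y z) F) r := rfl
    rw [hεd] at h1
    rw [hchar, h8, mul_sub, add_mul]
    linarith

end Pool.Agent.Results.MP_2a5ae2_ag.ExplicitSecondMain
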