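import Pool.Agent.Lib.H53V.K2

set_option autoImplicit false

/-!
H89X, module K (counting): definitions.  Monomials in a finite set `α` of variables; the variable `p` has the weight
`w p ≥ 1`; `ν : α → ℕ` is an exponent.
-/

open Finset

namespace Pool.Agent.H89X

open Pool.Agent.H53V

section Mono

variable {α : Type} [Fintype α] [DecidableEq α]

/-- The exponents of weight `m`. -/
def FS (w : α → ℕ) (m : ℕ) : Finset (α → ℕ) :=
  (Fintype.piFinset fun _ : α => range (m + 1)).filter fun ν => ∑ p, w p * ν p = m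

theorem mem_FS {w : α → ℕ} (hw : ∀ p, 1 ≤ w p) {m : ℕ} {ν : α → ℕ} :
    ν ∈ FS w m ↔ ∑ p, w p * ν p = m := by
  unfold FS
  rw [mem_filter, Fintype.mem_piFinset]
  refine ⟨fun h => h.2, fun h => ⟨fun p => ?_, h⟩⟩
  rw [mem_range]
  have h1 : w p * ν p ≤ ∑ p, w p * ν p :=
    single_le_sum (f := fun p => w p * ν p) (fun _ _ => Nat.zero_le _) (mem_univ p)
  have h2 : ν p ≤ w p * ν p := Nat.le_mul_of_pos_left _ (hw p)
  omega

/-- The number of the monomials of weight `m`. -/
def pc (w : α → ℕ) (m : ℕ) : ℕ := (FS w m).card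

/-- The exponents of weight `m` which vanish on `T` (the variables in `T` are removed). -/
def FZs (w : α → ℕ) (T : Finset α) (m : ℕ) : Finset (α → ℕ) :=
  (FS w m).filter fun ν => ∀ p ∈ T, ν p = 0

theorem mem_FZs {w : α → ℕ} (hw : ∀ p, 1 ≤ w p) {T : Finset α} {m : ℕ} {ν : α → ℕ} :
    ν ∈ FZs w T m ↔ ∑ p, w p * ν p = m ∧ ∀ p ∈ T, ν p = 0 := by
  unfold FZs
  rw [mem_filter, mem_FS hw]

/-- Their number. -/
def pz (w : α → ℕ) (T : Finset α) (m : ℕ) : ℕ := (FZs w T m).card

/-- The partial sums. -/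
def sz (w : α → ℕ) (T : Finset α) (m : ℕ) : ℕ := ∑ j ∈ range (m + 1), pz w T j

theorem pz_empty (w : α → ℕ) (m : ℕ) : pz w ∅ m = pc w m := by
  unfold pz pc FZs
  rw [filter_true_of_mem]
  intro ν _ p hp
  exact absurd hp (notMem_empty p)

theorem pc_eq {w : α → ℕ} (hw : ∀ p, 1 ≤ w p) (m : ℕ) : EQc w m = pc w m := by
  unfold EQc pc
  rw [← Fintype.card_coe, ← Nat.card_eq_fintype_card]
  refine Nat.card_congr (Equiv.subtypeEquivRight fun ν => ?_)
  exact (mem_FS hw).symm

end Mono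

section XPart

/-- The exponents in `n` variables of degree at most `A`. -/
def BB (n A : ℕ) : Finset (Fin n → ℕ) :=
  (Fintype.piFinset fun _ : Fin n => range (A + 1)).filter fun β => ∑ b, β b ≤ A

theorem mem_BB {n A : ℕ} {β : Fin n → ℕ} : β ∈ BB n A ↔ ∑ b, β b ≤ A := by
  unfold BB
  rw [mem_filter, Fintype.mem_piFinset]
  refine ⟨fun h => h.2, fun h => ⟨fun b => ?_, h⟩⟩
  rw [mem_range]
  have h1 : β b ≤ ∑ b, β b := single_le_sum (f := fun b => β b) (fun _ _ => Nat.zero_le _) (mem_univ b)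
  omega

variable {α : Type} [Fintype α] [DecidableEq α]

/-- The number of the factors of the leading terms `x_0 ^ d` and `x_b ^ (d - 1) y_(g b)`, `1 ≤ b < i`, in the monomial
with the exponents `β` (of `x`) and `ν` (of `y`). -/
def tl {n : ℕ} (d i : ℕ) (g : Fin n → α) (β : Fin n → ℕ) (ν : α → ℕ) : ℕ :=
  ∑ b : Fin n, if (b : ℕ) < i then
    (if (b : ℕ) = 0 then β b / d else min (β b / (d - 1)) (ν (g b))) else 0

/-- The normal monomials of degree at most `A` in `x` and weight `m` in `y`: fewer than `e` factors of the leading terms. -/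
def XX {n : ℕ} (d A : ℕ) (w : α → ℕ) (g : Fin n → α) (m i e : ℕ) : Finset ((Fin n → ℕ) × (α → ℕ)) :=
  (BB n A ×ˢ FS w m).filter fun x => tl d i g x.1 x.2 < e

end XPart

end Pool.Agent.H89X
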