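import Pool.Agent.Lib.H89X.K0

set_option autoImplicit false

/-!
CHUNK K1 (M), H89X.  Monomials: shifts and splitting.
-/

open Finset

namespace Pool.Agent.H89X

open Pool.Agent.H53V

variable {α : Type} [Fintype α] [DecidableEq α]

theorem k1_sum_update {w : α → ℕ} (ν : α → ℕ) (p : α) (c : ℕ) :
    ∑ q, w q * Function.update ν p c q + w p * ν p = ∑ q, w q * ν q + w p * c := by
  rw [← Finset.add_sum_erase univ (fun q => w q * Function.update ν p c q) (mem_univ p),
    ← Finset.add_sum_erase univ (fun q => w q * ν q) (mem_univ p)]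
  have h1 : ∑ q ∈ univ.erase p, w q * Function.update ν p c q = ∑ q ∈ univ.erase p, w q * ν q := by
    refine sum_congr rfl fun q hq => ?_
    rw [Function.update_of_ne (ne_of_mem_erase hq)]
  rw [h1, Function.update_self]
  ring

theorem k1_shift {w : α → ℕ} (hw : ∀ p, 1 ≤ w p) {T : Finset α} {p : α} (hp : p ∉ T) {j m : ℕ}
    (h : j * w p ≤ m) :
    ((FZs w T m).filter fun ν => j ≤ ν p).card = pz w T (m - j * w p) := by
  unfold pz
  refine Finset.card_nbij' (fun ν => Function.update ν p (ν p - j))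
    (fun ν => Function.update ν p (ν p + j)) ?_ ?_ ?_ ?_
  · intro ν hν
    rw [mem_coe, mem_filter, mem_FZs hw] at hν
    obtain ⟨⟨h1, h2⟩, h3⟩ := hν
    rw [mem_coe, mem_FZs hw]
    refine ⟨?_, fun q hq => ?_⟩
    · show ∑ q, w q * Function.update ν p (ν p - j) q = m - j * w p
      have h4 := k1_sum_update (w := w) ν p (ν p - j)
      have h5 : w p * (ν p - j) + j * w p = w p * ν p := by
        rw [mul_comm j, ← mul_add]
        congr 1
        omega
      omega
    · show Function.update ν p (ν p - j) q = 0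
      rw [Function.update_of_ne (ne_of_mem_of_not_mem hq hp)]
      exact h2 q hq
  · intro ν hν
    rw [mem_coe, mem_FZs hw] at hν
    obtain ⟨h1, h2⟩ := hν
    rw [mem_coe, mem_filter, mem_FZs hw]
    refine ⟨⟨?_, fun q hq => ?_⟩, ?_⟩
    · show ∑ q, w q * Function.update ν p (ν p + j) q = m
      have h4 := k1_sum_update (w := w) ν p (ν p + j)
      have h5 : w p * (ν p + j) = w p * ν p + j * w p := by ring
      omega
    · show Function.update ν p (ν p + j) q = 0
      rw [Function.update_of_ne (ne_of_mem_of_not_mem hq hp)]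
      exact h2 q hq
    · show j ≤ Function.update ν p (ν p + j) p
      rw [Function.update_self]
      omega
  · intro ν hν
    rw [mem_coe, mem_filter] at hν
    show Function.update (Function.update ν p (ν p - j)) p
      (Function.update ν p (ν p - j) p + j) = ν
    rw [Function.update_self, Function.update_idem, Nat.sub_add_cancel hν.2,
      Function.update_eq_self]
  · intro ν _
    show Function.update (Function.update ν p (ν p + j)) p
      (Function.update ν p (ν p + j) p - j) = ν
    rw [Function.update_self, Function.update_idem, Nat.add_sub_cancel, Function.update_eq_self]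

/-- PROOF.  `monotone_nat_of_le_succ`; the map `ν ↦ ν + e_(p0)` (`Function.update ν p0 (ν p0 + 1)`, or `ν + Pi.single p0 1`) is injective from `FZs w T m` to `FZs w T (m + 1)`
(`mem_FZs`; the sum increases by `w p0 = 1`; `p0 ∉ T`); `card_le_card_of_injOn`. -/
theorem pz_mono {w : α → ℕ} (hw : ∀ p, 1 ≤ w p) {T : Finset α} {p0 : α} (h0 : w p0 = 1) (hT : p0 ∉ T) :
    Monotone (pz w T) := by
  refine monotone_nat_of_le_succ fun m => ?_
  have h1 := k1_shift hw hT (j := 1) (m := m + 1) (by rw [h0]; omega)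
  rw [h0, one_mul, Nat.add_sub_cancel] at h1
  rw [← h1]
  exact card_le_card (filter_subset _ _)

/-- PROOF.  Bijection `ν ↦ ν + j e_p` (subtract `j` at `p`); `mem_FZs`; `p ∉ T`. -/
theorem pz_ge {w : α → ℕ} (hw : ∀ p, 1 ≤ w p) {T : Finset α} {p : α} (hp : p ∉ T) {j m : ℕ} (h : j * w p ≤ m) :
    ((FZs w T m).filter fun ν => j ≤ ν p).card = pz w T (m - j * w p) :=
  k1_shift hw hp h

/-- PROOF.  `w p * ν p ≤ ∑ = m < j * w p`. -/
theorem pz_ge_zero {w : α → ℕ} (hw : ∀ p, 1 ≤ w p) {T : Finset α} {p : α} {j m : ℕ} (h : m < j * w p) :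
    ((FZs w T m).filter fun ν => j ≤ ν p) = ∅ := by
  apply filter_eq_empty_iff.2
  intro ν hν hj
  rw [mem_FZs hw] at hν
  have h1 : w p * ν p ≤ ∑ p, w p * ν p :=
    single_le_sum (f := fun p => w p * ν p) (fun _ _ => Nat.zero_le _) (mem_univ p)
  have h2 : j * w p ≤ ν p * w p := Nat.mul_le_mul_right _ hj
  rw [mul_comm (ν p)] at h2
  omega

/-- PROOF.  Bijection `ν ↦ Function.update ν p j` from `FZs w (insert p T) (m - j * w p)`. -/
theorem pz_eqj {w : α → ℕ} (hw : ∀ p, 1 ≤ w p) {T : Finset α} {p : α} (hp : p ∉ T) {j m : ℕ} (h : j * w p ≤ m) :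
    ((FZs w T m).filter fun ν => ν p = j).card = pz w (insert p T) (m - j * w p) := by
  unfold pz
  refine Finset.card_nbij' (fun ν => Function.update ν p 0)
    (fun ν => Function.update ν p j) ?_ ?_ ?_ ?_
  · intro ν hν
    rw [mem_coe, mem_filter, mem_FZs hw] at hν
    obtain ⟨⟨h1, h2⟩, h3⟩ := hν
    rw [mem_coe, mem_FZs hw]
    refine ⟨?_, fun q hq => ?_⟩
    · show ∑ q, w q * Function.update ν p 0 q = m - j * w p
      have h4 := k1_sum_update (w := w) ν p 0
      rw [h3, mul_zero, add_zero, mul_comm (w p) j] at h4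
      omega
    · show Function.update ν p 0 q = 0
      by_cases hqp : q = p
      · rw [hqp, Function.update_self]
      · rw [Function.update_of_ne hqp]
        exact h2 q ((mem_insert.1 hq).resolve_left hqp)
  · intro ν hν
    rw [mem_coe, mem_FZs hw] at hν
    obtain ⟨h1, h2⟩ := hν
    rw [mem_coe, mem_filter, mem_FZs hw]
    refine ⟨⟨?_, fun q hq => ?_⟩, ?_⟩
    · show ∑ q, w q * Function.update ν p j q = m
      have h4 := k1_sum_update (w := w) ν p j
      rw [h2 p (mem_insert_self p T), mul_zero, add_zero, mul_comm (w p) j] at h4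
      omega
    · show Function.update ν p j q = 0
      rw [Function.update_of_ne (ne_of_mem_of_not_mem hq hp)]
      exact h2 q (mem_insert_of_mem hq)
    · show Function.update ν p j p = j
      rw [Function.update_self]
  · intro ν hν
    rw [mem_coe, mem_filter] at hν
    show Function.update (Function.update ν p 0) p j = ν
    rw [Function.update_idem, ← hν.2, Function.update_eq_self]
  · intro ν hν
    rw [mem_coe, mem_FZs hw] at hν
    show Function.update (Function.update ν p j) p 0 = ν
    rw [Function.update_idem, ← hν.2 p (mem_insert_self p T), Function.update_eq_self]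

/-- PROOF.  `card_eq_sum_card_fiberwise` for `ν ↦ ν p ∈ range (m / w p + 1)` (`w p * ν p ≤ m`), `pz_eqj`
(`j ≤ m / w p → j * w p ≤ m`). -/
theorem pz_split {w : α → ℕ} (hw : ∀ p, 1 ≤ w p) {T : Finset α} {p : α} (hp : p ∉ T) (m : ℕ) :
    pz w T m = ∑ j ∈ range (m / w p + 1), pz w (insert p T) (m - j * w p) := by
  have h1 : ∀ ν ∈ FZs w T m, ν p ∈ range (m / w p + 1) := by
    intro ν hν
    rw [mem_FZs hw] at hν
    have h1 : w p * ν p ≤ ∑ p, w p * ν p :=
      single_le_sum (f := fun p => w p * ν p) (fun _ _ => Nat.zero_le _) (mem_univ p)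
    rw [hν.1, mul_comm] at h1
    rw [mem_range]
    exact Nat.lt_succ_of_le ((Nat.le_div_iff_mul_le (hw p)).2 h1)
  rw [pz, card_eq_sum_card_fiberwise h1]
  refine sum_congr rfl fun j hj => ?_
  rw [mem_range] at hj
  exact pz_eqj hw hp ((Nat.le_div_iff_mul_le (hw p)).1 (Nat.le_of_lt_succ hj))

/-- The exponents with given values on `T`.
PROOF.  If `s = ∑ p ∈ T, w p * t p ≤ m`: `ν ↦ (ν with 0 on T)` is injective into `FZs w T (m - s)`, `pz_mono`.  Otherwise the set is empty. -/
theorem pz_fix_le {w : α → ℕ} (hw : ∀ p, 1 ≤ w p) {T : Finset α} {p0 : α} (h0 : w p0 = 1) (hT : p0 ∉ T)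
    (t : α → ℕ) (m : ℕ) :
    ((FS w m).filter fun ν => ∀ p ∈ T, ν p = t p).card ≤ pz w T m := by
  refine le_trans ?_ (pz_mono hw h0 hT (Nat.sub_le m (∑ p ∈ T, w p * t p)))
  unfold pz
  refine Finset.card_le_card_of_injOn (fun ν p => if p ∈ T then 0 else ν p) ?_ ?_
  · intro ν hν
    rw [mem_coe, mem_filter, mem_FS hw] at hν
    obtain ⟨h1, h2⟩ := hν
    rw [mem_coe, mem_FZs hw]
    refine ⟨?_, fun q hq => if_pos hq⟩
    have h3 : ∑ p, w p * (if p ∈ T then 0 else ν p) + ∑ p ∈ T, w p * t p = ∑ p, w p * ν p := by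
      rw [← Finset.sum_filter_add_sum_filter_not univ (· ∈ T) (fun p => w p * ν p),
        ← Finset.sum_filter_add_sum_filter_not univ (· ∈ T)
          (fun p => w p * (if p ∈ T then 0 else ν p))]
      have h4 : ∑ p with p ∈ T, w p * (if p ∈ T then 0 else ν p) = 0 := by
        refine sum_eq_zero fun p hp => ?_
        rw [if_pos (mem_filter.1 hp).2, mul_zero]
      have h5 : ∑ p with p ∉ T, w p * (if p ∈ T then 0 else ν p) =
          ∑ p with p ∉ T, w p * ν p := by
        refine sum_congr rfl fun p hp => ?_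
        rw [if_neg (mem_filter.1 hp).2]
      have h6 : ∑ p with p ∈ T, w p * ν p = ∑ p ∈ T, w p * t p := by
        rw [Finset.filter_mem_eq_inter, univ_inter]
        exact sum_congr rfl fun p hp => by rw [h2 p hp]
      rw [h4, h5, h6]
      ring
    show ∑ p, w p * (if p ∈ T then 0 else ν p) = m - ∑ p ∈ T, w p * t p
    omega
  · intro ν hν ν' hν' h
    rw [mem_coe, mem_filter] at hν hν'
    funext p
    by_cases hp : p ∈ T
    · rw [hν.2 p hp, hν'.2 p hp]
    · have h1 := congrFun h p
      simp only [if_neg hp] at h1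
      exact h1

end Pool.Agent.H89X
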