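import Pool.Agent.Lib.H89X.K9

set_option autoImplicit false

/-!
CHUNK K10 (S/M), H89X.  The normal monomials.
-/

open Finset

namespace Pool.Agent.H89X

variable {α : Type} [Fintype α] [DecidableEq α]

/-- PROOF.  `tl = ∑ b, tv b` (`rfl`).  If `tl < q` then `t = tv ..` is in `(BB n (q - 1)).filter fun t => ∀ b, i ≤ b → t b = 0` (`mem_BB`), whose number of elements is
`(q - 1 + i).choose i` (`card_BB_lt`); so `XX` is contained in the union over these `t` of the sets of `tv_card` (`card_biUnion_le`, `sum_le_card_nsmul`). -/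
theorem XX_card {n d A m i : ℕ} {w : α → ℕ} (hw : ∀ p, 1 ≤ w p) {p0 : α} (h0 : w p0 = 1) (g : Fin n → α)
    (hg : ∀ b b' : Fin n, 1 ≤ (b : ℕ) → 1 ≤ (b' : ℕ) → g b = g b' → b = b')
    (hg0 : ∀ b : Fin n, 1 ≤ (b : ℕ) → g b ≠ p0) (hd : 2 ≤ d) (hA : 1 ≤ A) (hm : 1 ≤ m) (hi : 1 ≤ i) (hin : i ≤ n)
    {X y : ℝ} (hX : (n : ℝ) * d ≤ X * A) (hX0 : 0 ≤ X) (hy0 : 0 ≤ y)
    (hy : ∀ b : Fin n, 1 ≤ (b : ℕ) → (Fintype.card α : ℝ) * w (g b) ≤ y * m) {q : ℕ} (hq : 1 ≤ q) :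
    ((XX d A w g m i q).card : ℝ) ≤
      (q - 1 + i).choose i * (X * (X + y) ^ (i - 1)) * ((A + n).choose n * pc w m) := by
  have hsub : XX d A w g m i q ⊆ ((BB n (q - 1)).filter fun t => ∀ b : Fin n, i ≤ (b : ℕ) → t b = 0).biUnion
      fun t => (BB n A ×ˢ FS w m).filter fun x => tv d i g x.1 x.2 = t := by
    intro x hx
    unfold XX at hx
    rw [mem_filter] at hx
    rw [mem_biUnion]
    refine ⟨tv d i g x.1 x.2, ?_, mem_filter.2 ⟨hx.1, rfl⟩⟩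
    rw [mem_filter, mem_BB]
    refine ⟨?_, fun b hb => ?_⟩
    · have h1 : ∑ b, tv d i g x.1 x.2 b = tl d i g x.1 x.2 := rfl
      rw [h1]
      omega
    · unfold tv
      rw [if_neg (by omega)]
  have h1 : (XX d A w g m i q).card ≤ ∑ t ∈ (BB n (q - 1)).filter fun t => ∀ b : Fin n, i ≤ (b : ℕ) → t b = 0,
      ((BB n A ×ˢ FS w m).filter fun x => tv d i g x.1 x.2 = t).card := (card_le_card hsub).trans card_biUnion_le
  have h2 : ((XX d A w g m i q).card : ℝ) ≤ ∑ t ∈ (BB n (q - 1)).filter fun t => ∀ b : Fin n, i ≤ (b : ℕ) → t b = 0,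
      (((BB n A ×ˢ FS w m).filter fun x => tv d i g x.1 x.2 = t).card : ℝ) := by
    exact_mod_cast h1
  refine h2.trans ?_
  refine (sum_le_card_nsmul _ _ _ fun t _ => tv_card hw h0 g hg hg0 hd hA hm hi hin hX hX0 hy0 hy t).trans ?_
  rw [card_BB_lt (q - 1) hin, nsmul_eq_mul]
  exact le_of_eq (by ring)

end Pool.Agent.H89X
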