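import Pool.Agent.Lib.H89X.K0
import Pool.Agent.Lib.H89T.K1

set_option autoImplicit false

/-!
CHUNK K8 (M), H89X.  The exponents of `x`.
-/

open Finset

namespace Pool.Agent.H89X

/-- PROOF.  The theorem of H89T/K1 (`Nat.card {f : ι → ℕ // ∑ i, f i ≤ d}`), `mem_BB`, `Fintype.card_coe`. -/
theorem card_BB (n A : ℕ) : (BB n A).card = (A + n).choose n := by
  have h := H89T.card_exp (Fin n) A
  rw [Fintype.card_fin] at h
  rw [← h]
  exact (Nat.subtype_card (BB n A) fun β => mem_BB).symm

/-- PROOF.  Bijection with `{f : {b // b ∉ T} → ℕ // ∑ f ≤ A}` (restriction; extension by `0`: the sum over `univ` is the sum over `T` plus the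
sum over the complement, `Fintype.sum_subtype_add_sum_subtype` or `sum_subtype`), the theorem of H89T/K1, `Fintype.card {b // b ∉ T} = n - T.card`. -/
theorem card_BB_zero {n : ℕ} (A : ℕ) (T : Finset (Fin n)) :
    ((BB n A).filter fun β => ∀ b ∈ T, β b = 0).card = (A + (n - T.card)).choose (n - T.card) := by
  classical
  have h := H89T.card_exp {b : Fin n // b ∉ T} A
  have hc : Fintype.card {b : Fin n // b ∉ T} = n - T.card := by
    rw [Fintype.card_of_subtype Tᶜ (fun x => by rw [mem_compl]), card_compl, Fintype.card_fin]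
  rw [hc] at h
  rw [← h]
  have h1 : Nat.card {β : Fin n → ℕ // ∑ b, β b ≤ A ∧ ∀ b ∈ T, β b = 0} =
      ((BB n A).filter fun β => ∀ b ∈ T, β b = 0).card :=
    Nat.subtype_card _ fun β => by rw [mem_filter, mem_BB]
  rw [← h1]
  have hs : ∀ β : Fin n → ℕ, (∀ b ∈ T, β b = 0) → ∑ b : {b : Fin n // b ∉ T}, β b.1 = ∑ b, β b := by
    intro β hβ
    rw [← sum_subtype Tᶜ (fun x => by rw [mem_compl]) β]
    refine sum_subset (subset_univ _) fun b _ hb => ?_
    rw [mem_compl, not_not] at hb
    exact hβ b hb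
  refine Nat.card_congr
    { toFun := fun β => ⟨fun b => β.1 b.1, by rw [hs β.1 β.2.2]; exact β.2.1⟩
      invFun := fun f => ⟨fun b => if hb : b ∉ T then f.1 ⟨b, hb⟩ else 0, ?_, ?_⟩
      left_inv := ?_
      right_inv := ?_ }
  · rw [← hs]
    · refine le_trans (le_of_eq (sum_congr rfl fun b _ => ?_)) f.2
      rw [dif_pos b.2]
    · intro b hb
      rw [dif_neg (not_not.2 hb)]
  · intro b hb
    show (if hb : b ∉ T then f.1 ⟨b, hb⟩ else 0) = 0
    rw [dif_neg (not_not.2 hb)]
  · intro β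
    refine Subtype.ext (funext fun b => ?_)
    by_cases hb : b ∈ T
    · show (if hb : b ∉ T then β.1 b else 0) = β.1 b
      rw [dif_neg (not_not.2 hb), β.2.2 b hb]
    · show (if hb : b ∉ T then β.1 b else 0) = β.1 b
      rw [dif_pos hb]
  · intro f
    refine Subtype.ext (funext fun b => ?_)
    show (if hb : b.1 ∉ T then f.1 ⟨b.1, hb⟩ else 0) = f.1 b
    rw [dif_pos b.2]

/-- PROOF.  `card_BB_zero` with `T = {b | i ≤ b}`, `T.card = n - i` (`Fin.card_filter_le..` or by the bijection with `Fin i` directly: `β ↦ β ∘ Fin.castLE hi`). -/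
theorem card_BB_lt {n : ℕ} (A : ℕ) {i : ℕ} (hi : i ≤ n) :
    ((BB n A).filter fun β => ∀ b : Fin n, i ≤ (b : ℕ) → β b = 0).card = (A + i).choose i := by
  classical
  have h := card_BB_zero A (univ.filter fun b : Fin n => i ≤ (b : ℕ))
  have hc : (univ.filter fun b : Fin n => i ≤ (b : ℕ)).card = n - i := by
    have h1 : (univ.filter fun b : Fin n => i ≤ (b : ℕ)).map Fin.valEmbedding = Ico i n := by
      ext x
      rw [mem_map, mem_Ico]
      constructor
      · rintro ⟨b, hb, rfl⟩
        exact ⟨(mem_filter.1 hb).2, b.2⟩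
      · rintro ⟨h1, h2⟩
        exact ⟨⟨x, h2⟩, mem_filter.2 ⟨mem_univ _, h1⟩, rfl⟩
    rw [← card_map Fin.valEmbedding, h1, Nat.card_Ico]
  rw [hc, show n - (n - i) = i by omega] at h
  rw [← h]
  congr 1
  refine filter_congr fun β _ => ?_
  constructor
  · intro h2 b hb
    exact h2 b (mem_filter.1 hb).2
  · intro h2 b hb
    exact h2 b (mem_filter.2 ⟨mem_univ _, hb⟩)

/-- PROOF.  Injection `β ↦ (residues β b % δ b, b ∈ T; β with 0 on T)` into `(T.pi fun b => range (δ b)) ×ˢ (the set of card_BB_zero)`, or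
`Fintype.piFinset`: for `b ∈ T` the value `β b = δ b * t b + β b % δ b` (`Nat.div_add_mod`) is determined by the residue. -/
theorem card_BB_fix {n : ℕ} (A : ℕ) (T : Finset (Fin n)) (δ t : Fin n → ℕ) (hδ : ∀ b, 1 ≤ δ b) :
    ((BB n A).filter fun β => ∀ b ∈ T, β b / δ b = t b).card ≤
      (∏ b ∈ T, δ b) * (A + (n - T.card)).choose (n - T.card) := by
  classical
  rw [← card_BB_zero A T]
  have h1 : ∏ b ∈ T, δ b = (T.pi fun b => range (δ b)).card := by
    rw [card_pi]
    exact prod_congr rfl fun b _ => (card_range _).symm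
  rw [h1, ← card_product]
  refine card_le_card_of_injOn
    (fun β => ((fun b _ => β b % δ b : ∀ b ∈ T, ℕ), fun b => if b ∈ T then 0 else β b)) ?_ ?_
  · intro β hβ
    rw [mem_coe, mem_filter, mem_BB] at hβ
    rw [mem_coe, mem_product, mem_pi, mem_filter, mem_BB]
    refine ⟨fun b hb => ?_, ?_, fun b hb => ?_⟩
    · rw [mem_range]
      exact Nat.mod_lt _ (hδ b)
    · refine le_trans (sum_le_sum fun b _ => ?_) hβ.1
      show (if b ∈ T then 0 else β b) ≤ β b
      split_ifs
      · exact Nat.zero_le _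
      · exact le_rfl
    · exact if_pos hb
  · intro β hβ γ hγ hh
    rw [mem_coe, mem_filter] at hβ hγ
    rw [Prod.mk.injEq] at hh
    funext b
    by_cases hb : b ∈ T
    · have h2 := congrFun (congrFun hh.1 b) hb
      have h3 : β b % δ b = γ b % δ b := h2
      rw [← Nat.div_add_mod (β b) (δ b), ← Nat.div_add_mod (γ b) (δ b), hβ.2 b hb, hγ.2 b hb, h3]
    · have h2 := congrFun hh.2 b
      simp only [if_neg hb] at h2
      exact h2

/-- PROOF.  Induction on `a`: `(A + (n - a - 1)).choose (n - a - 1) * A ≤ n * (A + (n - a)).choose (n - a)`: with `N = n - a ≥ 1`: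
`(A + N) * (A + N - 1).choose (N - 1) = N * (A + N).choose N` (`Nat.add_one_mul_choose_eq` / `Nat.succ_mul_choose_eq`), `N ≤ n`, `A ≤ A + N`. -/
theorem choose_ratio (n A : ℕ) : ∀ a : ℕ, a ≤ n → (A + (n - a)).choose (n - a) * A ^ a ≤ n ^ a * (A + n).choose n := by
  intro a
  induction a with
  | zero => intro _; simp
  | succ a ih =>
    intro ha
    have h0 := ih (by omega)
    obtain ⟨N, hN⟩ : ∃ N, n - a = N + 1 := ⟨n - a - 1, by omega⟩
    rw [hN] at h0
    rw [show n - (a + 1) = N by omega]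
    have h1 : (A + N).choose N * A ≤ n * (A + (N + 1)).choose (N + 1) := by
      have h2 := Nat.add_one_mul_choose_eq (A + N) N
      calc (A + N).choose N * A ≤ (A + N).choose N * (A + N).succ :=
            Nat.mul_le_mul_left _ (by omega)
        _ = (A + N).succ.choose N.succ * N.succ := by rw [← h2, mul_comm]
        _ ≤ (A + N).succ.choose N.succ * n := Nat.mul_le_mul_left _ (by omega)
        _ = n * (A + (N + 1)).choose (N + 1) := by rw [mul_comm, ← add_assoc]
    calc (A + N).choose N * A ^ (a + 1) = ((A + N).choose N * A) * A ^ a := by ring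
      _ ≤ (n * (A + (N + 1)).choose (N + 1)) * A ^ a := Nat.mul_le_mul_right _ h1
      _ = n * ((A + (N + 1)).choose (N + 1) * A ^ a) := by ring
      _ ≤ n * (n ^ a * (A + n).choose n) := Nat.mul_le_mul_left _ h0
      _ = n ^ (a + 1) * (A + n).choose n := by ring

/-- PROOF.  `card_BB_fix`, `∏ δ ≤ d ^ card`, `choose_ratio`, `n d ≤ X A`. -/
theorem card_BB_real {n : ℕ} {A d : ℕ} (hA : 1 ≤ A) (T : Finset (Fin n)) (δ t : Fin n → ℕ) (hδ : ∀ b, 1 ≤ δ b)
    (hd : ∀ b, δ b ≤ d) {X : ℝ} (hX : (n : ℝ) * d ≤ X * A) :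
    (((BB n A).filter fun β => ∀ b ∈ T, β b / δ b = t b).card : ℝ) ≤ X ^ T.card * (A + n).choose n := by
  classical
  have hT : T.card ≤ n := by
    have := card_le_univ T
    rwa [Fintype.card_fin] at this
  have h1 := card_BB_fix A T δ t hδ
  have h2 : ∏ b ∈ T, δ b ≤ d ^ T.card := by
    rw [← prod_const]
    exact prod_le_prod' fun b _ => hd b
  have h3 := choose_ratio n A T.card hT
  have h4 : ((BB n A).filter fun β => ∀ b ∈ T, β b / δ b = t b).card * A ^ T.card ≤
      (n * d) ^ T.card * (A + n).choose n := by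
    calc ((BB n A).filter fun β => ∀ b ∈ T, β b / δ b = t b).card * A ^ T.card
        ≤ (d ^ T.card * (A + (n - T.card)).choose (n - T.card)) * A ^ T.card :=
          Nat.mul_le_mul_right _ (h1.trans (Nat.mul_le_mul_right _ h2))
      _ = d ^ T.card * ((A + (n - T.card)).choose (n - T.card) * A ^ T.card) := by ring
      _ ≤ d ^ T.card * (n ^ T.card * (A + n).choose n) := Nat.mul_le_mul_left _ h3
      _ = (n * d) ^ T.card * (A + n).choose n := by ring
  have h5 : (((BB n A).filter fun β => ∀ b ∈ T, β b / δ b = t b).card : ℝ) * (A : ℝ) ^ T.card ≤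
      (X ^ T.card * (A + n).choose n) * (A : ℝ) ^ T.card := by
    have h6 : (((BB n A).filter fun β => ∀ b ∈ T, β b / δ b = t b).card : ℝ) * (A : ℝ) ^ T.card ≤
        ((n : ℝ) * d) ^ T.card * (A + n).choose n := by exact_mod_cast h4
    have h7 : ((n : ℝ) * d) ^ T.card ≤ (X * A) ^ T.card :=
      pow_le_pow_left₀ (by positivity) hX _
    calc _ ≤ ((n : ℝ) * d) ^ T.card * (A + n).choose n := h6
      _ ≤ (X * A) ^ T.card * (A + n).choose n :=
          mul_le_mul_of_nonneg_right h7 (Nat.cast_nonneg _)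
      _ = (X ^ T.card * (A + n).choose n) * (A : ℝ) ^ T.card := by rw [mul_pow]; ring
  have hA' : (0 : ℝ) < (A : ℝ) ^ T.card := by
    have : (0 : ℝ) < A := by exact_mod_cast hA
    positivity
  exact le_of_mul_le_mul_right h5 hA'

end Pool.Agent.H89X
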