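import Pool.Agent.Lib.H89X.D0
import Pool.Agent.Lib.H89X.K8

set_option autoImplicit false

/-!
CHUNK K11 (M/L), H89X.  The sets `Nor` and `Unk` in terms of the two parts of an exponent.
-/

open Finset

namespace Pool.Agent.H89X

open Pool.Agent.H89T Pool.Agent.H67T Pool.Agent.H53U Pool.Agent.H53V Pool.Agent.H44K

/-- The weights of the jet variables of positive order. -/
def wP (n k : ℕ) (p : Fin n × Fin k) : ℕ := (p.2 : ℕ) + 1

/-- The variable `x_(b, b)`, `b ≥ 1`. -/
def gP {n k : ℕ} (hk : n ≤ k) (b : Fin n) : Fin n × Fin k := (b, ⟨(b : ℕ) - 1, by have := b.2; omega⟩)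

/-- The two parts of an exponent. -/
def parts {n k : ℕ} (μ : JV n k →₀ ℕ) : (Fin n → ℕ) × (Fin n × Fin k → ℕ) :=
  (fun b => μ (b, 0), fun p => μ (p.1, p.2.succ))

/-- PROOF.  `Finsupp.ext`, cases `p.2 = 0` or `p.2 = i.succ` (`Fin.cases`). -/
theorem parts_injective {n k : ℕ} : Function.Injective (parts (n := n) (k := k)) := by
  intro μ μ' h
  ext p
  obtain ⟨b, l⟩ := p
  refine Fin.cases ?_ (fun i => ?_) l
  · exact congrFun (congrArg Prod.fst h) b
  · exact congrFun (congrArg Prod.snd h) (b, i)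

/-- PROOF.  `Finsupp.equivFunOnFinite.symm fun p => Fin.cases (β p.1) (fun i => ν (p.1, i)) p.2`. -/
theorem parts_surjective {n k : ℕ} : Function.Surjective (parts (n := n) (k := k)) := by
  rintro ⟨β, ν⟩
  refine ⟨Finsupp.equivFunOnFinite.symm fun p => Fin.cases (motive := fun _ => ℕ) (β p.1) (fun i => ν (p.1, i)) p.2, ?_⟩
  refine Prod.ext ?_ ?_
  · funext b
    rfl
  · funext p
    rfl

/-- PROOF.  Definitions. -/
theorem xd_parts {n k : ℕ} (μ : JV n k →₀ ℕ) : xd μ = ∑ b, (parts μ).1 b := by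
  rfl

/-- PROOF.  `Fintype.sum_prod_type`, `Fin.sum_univ_succ`: the term of order `0` has weight `0`. -/
theorem jw_parts {n k : ℕ} (μ : JV n k →₀ ℕ) : H53V.jw μ = ∑ p, wP n k p * (parts μ).2 p := by
  unfold H53V.jw
  rw [Fintype.sum_prod_type, Fintype.sum_prod_type]
  refine sum_congr rfl fun b _ => ?_
  rw [Fin.sum_univ_succ]
  have h1 : (((0 : Fin (k + 1)) : ℕ)) * μ (b, 0) = 0 := by rw [Fin.val_zero, zero_mul]
  rw [h1, zero_add]
  refine sum_congr rfl fun i _ => ?_
  rw [Fin.val_succ]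
  rfl

/-- PROOF.  `Fintype.sum_prod_type`, `Fin.sum_univ_succ`. -/
theorem jd_parts {n k : ℕ} (μ : JV n k →₀ ℕ) : jd μ = ∑ p, (parts μ).2 p := by
  unfold jd
  rw [Fintype.sum_prod_type, Fintype.sum_prod_type]
  refine sum_congr rfl fun b _ => ?_
  rw [Fin.sum_univ_succ, if_pos rfl, zero_add]
  refine sum_congr rfl fun i _ => ?_
  rw [if_neg (Fin.succ_ne_zero i)]
  rfl

/-- a function with smaller values and a prescribed sum -/
theorem k11_le {n q : ℕ} {t : Fin n → ℕ} (h : q ≤ ∑ b, t b) : ∃ c : Fin n → ℕ, (∀ b, c b ≤ t b) ∧ ∑ b, c b = q := by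
  induction q with
  | zero => exact ⟨fun _ => 0, fun _ => Nat.zero_le _, by simp⟩
  | succ q ih =>
    obtain ⟨c, h1, h2⟩ := ih (by omega)
    obtain ⟨b, hb⟩ : ∃ b, c b < t b := by
      by_contra hcon
      push Not at hcon
      have := sum_le_sum fun b (_ : b ∈ univ) => hcon b
      omega
    refine ⟨fun s => c s + if s = b then 1 else 0, fun s => ?_, ?_⟩
    · show c s + (if s = b then 1 else 0) ≤ t s
      by_cases hs : s = b
      · rw [if_pos hs, hs]
        omega
      · rw [if_neg hs, add_zero]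
        exact h1 s
    · rw [sum_add_distrib, sum_ite_eq', if_pos (mem_univ b), h2]

/-- PROOF.  Let `t b` be the summand of `tl`; if `q ≤ tl = ∑ t` there is `c ≤ t` with `∑ c = q` (induction, or remove units one by one).  `c s = 0` for `i ≤ s`.
`∑ s, c s * ldf n d k s p ≤ ν p`: for `p = (b, 0)`: the sum is `c b * (d - 1)` for `b ≥ 1` (`t b ≤ β b / (d - 1)`, `Nat.div_mul_le_self`), and `c b * d` for `b = 0`
(`(d - 1) + 1 = d`); for `p = (b, l)`, `l ≥ 1`: it is `c b` if `l = b` (`≤ ν (g b)`), `0` otherwise.  So `ν ∈ Nor` implies `parts ν ∈ XX`. -/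
theorem Nor_mem {n d k i q A m : ℕ} (hk : n ≤ k) (hd : 1 ≤ d) {μ : JV n k →₀ ℕ} (h : μ ∈ Nor n d k i q A m) :
    parts μ ∈ XX d A (wP n k) (gP hk) m i q := by
  obtain ⟨h1, h2, h3⟩ := h
  have hw : ∀ p : Fin n × Fin k, 1 ≤ wP n k p := fun p => Nat.succ_le_succ (Nat.zero_le _)
  unfold XX
  rw [mem_filter, mem_product, mem_BB, mem_FS hw]
  refine ⟨⟨?_, ?_⟩, ?_⟩
  · rw [← xd_parts]; exact h1
  · rw [← jw_parts]; exact h2
  by_contra hcon
  rw [not_lt] at hcon
  obtain ⟨c, hc1, hc2⟩ := k11_le hcon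
  apply h3
  refine ⟨c, fun s hs => ?_, hc2, fun p => ?_⟩
  · have h4 := hc1 s
    rw [if_neg (by omega)] at h4
    omega
  obtain ⟨b, l⟩ := p
  rw [sum_eq_single b]
  · have h4 := hc1 b
    by_cases hbi : (b : ℕ) < i
    swap
    · rw [if_neg hbi] at h4
      have h5 : c b = 0 := by omega
      rw [h5, zero_mul]
      exact Nat.zero_le _
    rw [if_pos hbi] at h4
    unfold ldf
    by_cases hl : l = 0
    · subst hl
      rw [if_pos rfl]
      by_cases hb : (b : ℕ) = 0
      · rw [if_pos hb] at h4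
        rw [if_pos ⟨rfl, by rw [Fin.val_zero, hb]⟩, Nat.sub_add_cancel hd]
        exact (Nat.mul_le_mul_right d h4).trans (Nat.div_mul_le_self _ _)
      · rw [if_neg hb] at h4
        have h5 : ¬ (b = b ∧ ((0 : Fin (k + 1)) : ℕ) = (b : ℕ)) := fun h => hb (by rw [← h.2, Fin.val_zero])
        rw [if_neg h5, add_zero]
        exact (Nat.mul_le_mul_right _ (h4.trans (min_le_left _ _))).trans (Nat.div_mul_le_self _ _)
    · have h5 : ¬ ((b, l) = (b, (0 : Fin (k + 1)))) := fun h => hl (congrArg Prod.snd h)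
      rw [if_neg h5, zero_add]
      by_cases hlb : (l : ℕ) = (b : ℕ)
      · rw [if_pos ⟨rfl, hlb⟩, mul_one]
        have hl0 : (l : ℕ) ≠ 0 := fun h => hl (Fin.ext h)
        have hb : ¬ (b : ℕ) = 0 := by omega
        rw [if_neg hb] at h4
        have h6 := h4.trans (min_le_right _ _)
        have h7 : (parts μ).2 (gP hk b) = μ (b, l) := by
          show μ (b, (⟨(b : ℕ) - 1, _⟩ : Fin k).succ) = μ (b, l)
          congr 2
          refine Fin.ext ?_
          rw [Fin.val_succ]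
          show (b : ℕ) - 1 + 1 = (l : ℕ)
          omega
        rw [h7] at h6
        exact h6
      · rw [if_neg (fun h => hlb h.2), mul_zero]
        exact Nat.zero_le _
  · intro s _ hs
    unfold ldf
    have h5 : ¬ ((b, l) = (s, (0 : Fin (k + 1)))) := fun h => hs (congrArg Prod.fst h).symm
    have h6 : ¬ (b = s ∧ (l : ℕ) = (s : ℕ)) := fun h => hs h.1.symm
    rw [if_neg h5, if_neg h6, add_zero, mul_zero]
  · intro h
    exact absurd (mem_univ b) h

/-- PROOF.  `Set.ncard_le_ncard_of_injOn`, `Set.ncard_coe_finset` (`Nor_mem`, `parts_injective`). -/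
theorem Nor_ncard_le {n d k : ℕ} (hk : n ≤ k) (hd : 1 ≤ d) (i q A m : ℕ) :
    (Nor n d k i q A m).ncard ≤ (XX d A (wP n k) (gP hk) m i q).card := by
  rw [← Set.ncard_coe_finset]
  exact Set.ncard_le_ncard_of_injOn parts (fun μ h => Nor_mem hk hd h) (parts_injective.injOn) (Finset.finite_toSet _)

/-- PROOF.  `parts` is a bijection of `Unk` with `BB n A ×ˢ (FS (wP n k) m).filter (∑ < μ)`; `card_BB`, `card_product`. -/
theorem Unk_ncard (n k A m μ : ℕ) : (Unk n k A m μ).ncard =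
    (A + n).choose n * ((FS (wP n k) m).filter fun ν => ∑ p, ν p < μ).card := by
  rw [← card_BB, ← card_product, ← Set.ncard_coe_finset, ← Set.ncard_image_of_injective _ (parts_injective (n := n) (k := k))]
  congr 1
  ext x
  have hw : ∀ p : Fin n × Fin k, 1 ≤ wP n k p := fun p => Nat.succ_le_succ (Nat.zero_le _)
  constructor
  · rintro ⟨ν, ⟨h1, h2, h3⟩, rfl⟩
    rw [mem_coe, mem_product, mem_BB, mem_filter, mem_FS hw]
    exact ⟨h1, by rw [← jw_parts]; exact h2, by rw [← jd_parts]; exact h3⟩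
  · intro hx
    obtain ⟨ν, rfl⟩ := parts_surjective x
    rw [mem_coe, mem_product, mem_BB, mem_filter, mem_FS hw] at hx
    exact ⟨ν, ⟨hx.1, by rw [jw_parts]; exact hx.2.1, by rw [jd_parts]; exact hx.2.2⟩, rfl⟩

end Pool.Agent.H89X
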