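import Pool.Agent.Lib.H89X.K6
import Pool.Agent.Lib.H78N.C18

set_option autoImplicit false

/-!
CHUNK K12 (M), H89X.  The bad exponents.
-/

open Finset

namespace Pool.Agent.H89X

open Pool.Agent.H44K Pool.Agent.H78N

/-- PROOF.  `w p = p.2 + 1`, `p0 = (1, 0)` (`n ≥ 2`).  `badN_eq`.  If `¬ GoodT 1 μ` then `cut_lemma` gives a monotone `β : Fin (k - n + 1) → Fin n` with `∑ d, μ (cellN hk β d) < 1`, so
`μ` vanishes on `T β = univ.image (cellN hk β)`, `(T β).card = k - n + 1` (`cellN_injective`), `p0 ∉ T β` (`cellN_ne`).  So the bad exponents are contained in the union over the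
monotone `β` of `FZs w (T β) m` (`mem_FZs`), at most `k.choose (n - 1)` sets (`card_mono`), each with at most `y ^ (k - n + 1) * pc w m` elements (`pz_remove_real`,
`Fintype.card (Fin n × Fin k) = n k`, `w ≤ k`). -/
theorem nbad_le {n k m : ℕ} (hn : 2 ≤ n) (hk : n ≤ k) (hm : 1 ≤ m) {y : ℝ} (hy : (n : ℝ) * k * k ≤ y * m) :
    (nbad n k m 1 : ℝ) ≤ k.choose (n - 1) * y ^ (k - n + 1) *
      pc (fun p : Fin n × Fin k => (p.2 : ℕ) + 1) m := by
  classical
  obtain ⟨w, hwd⟩ : ∃ w : Fin n × Fin k → ℕ, w = fun p => (p.2 : ℕ) + 1 := ⟨_, rfl⟩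
  rw [← hwd]
  have hwp : ∀ p, w p = (p.2 : ℕ) + 1 := fun p => by rw [hwd]
  have hw : ∀ p, 1 ≤ w p := fun p => by rw [hwp]; omega
  have hm0 : (0 : ℝ) < m := by exact_mod_cast hm
  have hy0 : 0 ≤ y := by
    by_contra hc
    push Not at hc
    have h1 : y * m < 0 := mul_neg_of_neg_of_pos hc hm0
    have h2 : (0 : ℝ) ≤ (n : ℝ) * k * k := by positivity
    linarith
  obtain ⟨B, hB⟩ : ∃ B : Finset (Fin (k - n + 1) → Fin n), B = univ.filter fun β => Monotone β := ⟨_, rfl⟩
  have h1 : nbad n k m 1 ≤ (B.biUnion fun β => FZs w (univ.image (cellN hk β)) m).card := by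
    rw [← badN_eq]
    unfold badN
    rw [← Fintype.card_coe, ← Nat.card_eq_fintype_card]
    refine Nat.card_le_card_of_injective
      (fun μ : {μ : Fin n × Fin k → ℕ // ∑ p, ((p.2 : ℕ) + 1) * μ p = m ∧ ¬ GoodT 1 μ} =>
        (⟨μ.1, ?_⟩ : {x // x ∈ B.biUnion fun β => FZs w (univ.image (cellN hk β)) m})) ?_
    · obtain ⟨μ, hμ, hbad⟩ := μ
      obtain ⟨β, hβ, hs⟩ := cut_lemma (by omega) hk hbad
      rw [mem_biUnion]
      refine ⟨β, by rw [hB, mem_filter]; exact ⟨mem_univ _, hβ⟩, ?_⟩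
      rw [mem_FZs hw]
      refine ⟨?_, fun p hp => ?_⟩
      · rw [hwd]
        exact hμ
      · obtain ⟨d, _, rfl⟩ := mem_image.1 hp
        have h3 : μ (cellN hk β d) ≤ ∑ d, μ (cellN hk β d) :=
          single_le_sum (f := fun d => μ (cellN hk β d)) (fun _ _ => Nat.zero_le _) (mem_univ d)
        show μ (cellN hk β d) = 0
        omega
    · intro a b hab
      exact Subtype.ext (Subtype.mk.inj hab)
  have h2 : (B.biUnion fun β => FZs w (univ.image (cellN hk β)) m).card ≤
      ∑ β ∈ B, pz w (univ.image (cellN hk β)) m := card_biUnion_le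
  have h3 : ((∑ β ∈ B, pz w (univ.image (cellN hk β)) m : ℕ) : ℝ) ≤ ∑ _β ∈ B, y ^ (k - n + 1) * pc w m := by
    push_cast
    refine sum_le_sum fun β hβ => ?_
    rw [hB, mem_filter] at hβ
    have hcard : (univ.image (cellN hk β)).card = k - n + 1 := by
      rw [card_image_of_injective _ (cellN_injective hk hβ.2), card_univ, Fintype.card_fin]
    have h4 := pz_remove_real hw (p0 := (⟨1, by omega⟩, ⟨0, by omega⟩)) (by rw [hwp]) (univ.image (cellN hk β))
      (by
        intro h
        obtain ⟨d, _, hd⟩ := mem_image.1 h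
        exact cellN_ne hk β d hn hd) hm (y := y) (fun p _ => by
        rw [Fintype.card_prod, Fintype.card_fin, Fintype.card_fin]
        refine le_trans ?_ hy
        push_cast
        have h5 : (w p : ℝ) ≤ k := by
          have := p.2.2
          have h6 : w p ≤ k := by rw [hwp]; omega
          exact_mod_cast h6
        exact mul_le_mul_of_nonneg_left h5 (by positivity))
    rw [hcard] at h4
    exact h4
  have h4 : (B.card : ℝ) ≤ k.choose (n - 1) := by
    have h5 : B.card ≤ k.choose (n - 1) := by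
      rw [hB]
      exact H78N.card_mono (by omega) hk
    exact_mod_cast h5
  rw [sum_const, nsmul_eq_mul] at h3
  calc (nbad n k m 1 : ℝ) ≤ ((∑ β ∈ B, pz w (univ.image (cellN hk β)) m : ℕ) : ℝ) := by
        exact_mod_cast h1.trans h2
    _ ≤ B.card * (y ^ (k - n + 1) * pc w m) := h3
    _ ≤ k.choose (n - 1) * (y ^ (k - n + 1) * pc w m) := mul_le_mul_of_nonneg_right h4 (by positivity)
    _ = _ := by ring

end Pool.Agent.H89X
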