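import Mathlib

set_option autoImplicit false

/-!
CHUNK K13 (S/M), H89X.  Two sums of binomial coefficients.  ONLY MATHLIB.
-/

open Finset

namespace Pool.Agent.H89X

/-- PROOF.  Induction on `a`: `range ((a + 1) r) = range (a r) + r` terms with `l / r = a` (`sum_range_add` / `Finset.sum_range_add_sum..`, `Nat.add_mul_div..`). -/
theorem sum_div_range (f : ℕ → ℕ) {r : ℕ} (hr : 1 ≤ r) (a : ℕ) :
    ∑ l ∈ range (a * r), f (l / r) = r * ∑ s ∈ range a, f s := by
  induction a with
  | zero => simp
  | succ a ih =>
    rw [Nat.add_mul, Nat.one_mul, Finset.sum_range_add, ih, Finset.sum_range_succ, Nat.mul_add]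
    congr 1
    have h1 : ∀ x ∈ range r, f ((a * r + x) / r) = f a := by
      intro x hx
      have hx' : x < r := mem_range.1 hx
      have h2 : (a * r + x) / r = a := by
        rw [Nat.mul_comm a r, Nat.mul_add_div (by omega), Nat.div_eq_of_lt hx', Nat.add_zero]
      rw [h2]
    rw [Finset.sum_congr rfl h1, Finset.sum_const, card_range, smul_eq_mul]

theorem k13_hockey (i : ℕ) : ∀ a : ℕ, ∑ s ∈ range a, (s + i).choose i = (a + i).choose (i + 1)
  | 0 => by
    simp
  | a + 1 => by
    rw [Finset.sum_range_succ, k13_hockey i a]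
    have h : a + 1 + i = (a + i) + 1 := by omega
    rw [h, Nat.choose_succ_succ, Nat.add_comm]

/-- PROOF.  `sum_div_range` with `f s = (a - s - 1 + i).choose i`; reflection (`sum_range_reflect`) and the hockey stick identity (`Nat.sum_range_choose..`, `Nat.sum_Icc_choose`,
or induction on `a` with `Nat.succ_add_choose..`: `∑ s ∈ range a, (s + i).choose i = (a + i).choose (i + 1)`). -/
theorem sum_choose_div {r : ℕ} (hr : 1 ≤ r) (a i : ℕ) :
    ∑ l ∈ range (a * r), (a - l / r - 1 + i).choose i = r * (a + i).choose (i + 1) := by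
  have h1 := sum_div_range (fun s => (a - s - 1 + i).choose i) hr a
  rw [h1]
  congr 1
  rw [← k13_hockey i a, ← Finset.sum_range_reflect]
  refine Finset.sum_congr rfl fun s hs => ?_
  have hs' : s < a := mem_range.1 hs
  have h2 : a - (a - 1 - s) - 1 = s := by omega
  rw [h2]

end Pool.Agent.H89X
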