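import Pool.Agent.Lib.H89X.K5
import Pool.Agent.Lib.H89X.K10
import Pool.Agent.Lib.H89X.K11
import Pool.Agent.Lib.H89X.K13

set_option autoImplicit false

/-!
CHUNK K14 (M/L), H89X.  The left side of `CountW`.
-/

open Finset

namespace Pool.Agent.H89X

open Pool.Agent.H89T Pool.Agent.H67T Pool.Agent.H53U Pool.Agent.H53V Pool.Agent.H44K

/-- The bound of the term `j`. -/
noncomputable def trm (n r lam : ℕ) (X : ℝ) (j : ℕ) : ℝ :=
  r * (j - 1 + min j n).choose (min j n + 1) * (X * (2 * X) ^ (min j n - 1)) *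
    (5 / 4 * Real.exp (((j - 1 : ℕ) : ℝ) / lam))

/-- PROOF.  `∑ p, wP n k p = n k (k + 1) / 2` (`Fintype.sum_prod_type`, `Finset.sum_range_id_mul_two` or `Gauss`), so `(∑ wP) / m = (k + 1) / (2 lam k) ≤ 1 / 4`;
`Fintype.card = n k`, `n k l / m ≤ (j - 1) / lam` (`l < (j - 1) r`, `r ≤ k`).  `pc_growth` with `p0 = (0, 0)`. -/
theorem grow_le {n k r lam m j l : ℕ} (hn : 2 ≤ n) (hr : 1 ≤ r) (hk : r + n ≤ k) (hlam : 4 ≤ lam)
    (hm : m = lam * n * k ^ 2) (hl : l < (j - 1) * r) :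
    (pc (wP n k) (m + l) : ℝ) ≤ 5 / 4 * Real.exp (((j - 1 : ℕ) : ℝ) / lam) * pc (wP n k) m := by
  have hk0 : 0 < k := by omega
  have hkr : (0 : ℝ) < k := by exact_mod_cast hk0
  have hnr : (0 : ℝ) < n := by exact_mod_cast (by omega : 0 < n)
  have hlr : (4 : ℝ) ≤ lam := by exact_mod_cast hlam
  have hl0 : (0 : ℝ) < lam := by linarith
  have hmr : (m : ℝ) = lam * n * k ^ 2 := by rw [hm]; push_cast; ring
  have hmr0 : (0 : ℝ) < m := by rw [hmr]; positivity
  have hm1 : 1 ≤ m := by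
    have : 0 < m := by exact_mod_cast hmr0
    omega
  have h1 := pc_growth (w := wP n k) (fun p => Nat.succ_le_succ (Nat.zero_le _))
    (p0 := (⟨0, by omega⟩, ⟨0, hk0⟩)) rfl hm1 l
  have h2 : ∑ p : Fin n × Fin k, (wP n k p : ℝ) ≤ n * k * k := by
    have h3 : ∀ p ∈ (univ : Finset (Fin n × Fin k)), (wP n k p : ℝ) ≤ k := by
      intro p _
      have h4 : wP n k p ≤ k := p.2.2
      exact_mod_cast h4
    refine (sum_le_sum h3).trans (le_of_eq ?_)
    rw [sum_const, card_univ, Fintype.card_prod, Fintype.card_fin, Fintype.card_fin, nsmul_eq_mul]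
    push_cast
    ring
  have h3 : 1 + (∑ p : Fin n × Fin k, (wP n k p : ℝ)) / m ≤ 5 / 4 := by
    have h4 : (∑ p : Fin n × Fin k, (wP n k p : ℝ)) / m ≤ 1 / 4 := by
      rw [div_le_div_iff₀ hmr0 (by norm_num)]
      have h5 : 4 * ((n : ℝ) * k * k) ≤ m := by
        rw [hmr]
        have : (0 : ℝ) ≤ (n : ℝ) * k * k := by positivity
        nlinarith
      linarith
    linarith
  have h4 : (Fintype.card (Fin n × Fin k) : ℝ) * l / m ≤ ((j - 1 : ℕ) : ℝ) / lam := by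
    rw [Fintype.card_prod, Fintype.card_fin, Fintype.card_fin, div_le_div_iff₀ hmr0 hl0, hmr]
    push_cast
    have h5 : (l : ℝ) ≤ ((j - 1 : ℕ) : ℝ) * k := by
      have h6 : l ≤ (j - 1) * k := hl.le.trans (Nat.mul_le_mul_left _ (by omega))
      exact_mod_cast h6
    calc (n : ℝ) * k * l * lam = (lam * n * k) * l := by ring
      _ ≤ (lam * n * k) * (((j - 1 : ℕ) : ℝ) * k) := mul_le_mul_of_nonneg_left h5 (by positivity)
      _ = ((j - 1 : ℕ) : ℝ) * (lam * n * k ^ 2) := by ring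
  have h5 : (0 : ℝ) ≤ pc (wP n k) m := Nat.cast_nonneg _
  refine h1.trans (mul_le_mul_of_nonneg_right ?_ h5)
  exact mul_le_mul h3 (Real.exp_le_exp.2 h4) (Real.exp_pos _).le (by norm_num)

theorem k14_term {n d k r j l A m lam : ℕ} (hn : 2 ≤ n) (hd : 2 ≤ d) (hr : 1 ≤ r) (hk : r + n ≤ k)
    (hlam : 4 ≤ lam) (hm : m = lam * n * k ^ 2) (hA : 1 ≤ A) {X : ℝ} (hX0 : 0 ≤ X)
    (hX : (n : ℝ) * d ≤ X * A) (hy : (n : ℝ) ≤ X * (lam * k)) (hj : 2 ≤ j) (hl : l < (j - 1) * r) :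
    ((Nor n d k (min j n) (j - 1 - l / r) A (m + l)).ncard : ℝ) ≤
      ((j - 1 - l / r - 1 + min j n).choose (min j n) : ℝ) * ((X * (2 * X) ^ (min j n - 1)) *
        ((A + n).choose n * (5 / 4 * Real.exp (((j - 1 : ℕ) : ℝ) / lam) * pc (wP n k) m))) := by
  have hk0 : 0 < k := by omega
  have hnk : n ≤ k := by omega
  have hq : 1 ≤ j - 1 - l / r := by
    have h1 : l / r < j - 1 := (Nat.div_lt_iff_lt_mul (by omega)).2 hl
    omega
  have hkr : (0 : ℝ) < k := by exact_mod_cast hk0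
  have hnr : (0 : ℝ) < n := by exact_mod_cast (by omega : 0 < n)
  have hlr : (4 : ℝ) ≤ lam := by exact_mod_cast hlam
  have hl0 : (0 : ℝ) < lam := by linarith
  have hmr : (m : ℝ) = lam * n * k ^ 2 := by rw [hm]; push_cast; ring
  have hmr0 : (0 : ℝ) < m := by rw [hmr]; positivity
  have hm1 : 1 ≤ m := by
    have : 0 < m := by exact_mod_cast hmr0
    omega
  have h1 : ((Nor n d k (min j n) (j - 1 - l / r) A (m + l)).ncard : ℝ) ≤
      ((XX d A (wP n k) (gP hnk) (m + l) (min j n) (j - 1 - l / r)).card : ℝ) := by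
    exact_mod_cast Nor_ncard_le hnk (by omega) (min j n) (j - 1 - l / r) A (m + l)
  have h2 := XX_card (n := n) (d := d) (A := A) (m := m + l) (i := min j n) (w := wP n k)
    (fun p => Nat.succ_le_succ (Nat.zero_le _)) (p0 := (⟨0, by omega⟩, ⟨0, hk0⟩)) rfl (gP hnk)
    (fun b b' _ _ h => (Prod.mk.inj h).1)
    (fun b hb h => by
      have h3 : (b : ℕ) = 0 := congrArg Fin.val (Prod.mk.inj h).1
      omega) hd hA (by omega) (by omega) (by omega) hX hX0 hX0
    (fun b hb => by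
      rw [Fintype.card_prod, Fintype.card_fin, Fintype.card_fin]
      have h3 : (wP n k (gP hnk b) : ℝ) ≤ n := by
        have h4 : wP n k (gP hnk b) ≤ n := by
          have h5 : wP n k (gP hnk b) = (b : ℕ) - 1 + 1 := rfl
          have := b.2
          omega
        exact_mod_cast h4
      push_cast
      calc (n : ℝ) * k * (wP n k (gP hnk b) : ℝ) ≤ n * k * n := mul_le_mul_of_nonneg_left h3 (by positivity)
        _ ≤ n * k * (X * (lam * k)) := mul_le_mul_of_nonneg_left hy (by positivity)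
        _ = X * m := by rw [hmr]; ring
        _ ≤ X * (m + l) := mul_le_mul_of_nonneg_left (by linarith [(Nat.cast_nonneg l : (0 : ℝ) ≤ l)]) hX0)
    hq
  have h3 := grow_le hn hr hk hlam hm hl
  have hXX : X + X = 2 * X := by ring
  rw [hXX] at h2
  refine h1.trans (h2.trans ?_)
  rw [mul_assoc]
  apply mul_le_mul_of_nonneg_left _ (Nat.cast_nonneg _)
  apply mul_le_mul_of_nonneg_left _ (by positivity)
  exact mul_le_mul_of_nonneg_left h3 (Nat.cast_nonneg _)

/-- PROOF.  For `2 ≤ j`, `l < (j - 1) r`: `q = j - 1 - l / r ≥ 1` (`Nat.div_lt_iff_lt_mul`), `i = min j n`, `1 ≤ i ≤ n`.  `Nor_ncard_le`, `XX_card` with the weight `m + l`, `g = gP`, `p0 = (0, 0)`,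
`y = X`: `n k * b ≤ X * (m + l)` because `n k * n ≤ X lam n k ^ 2` (`hy`); `grow_le`; `X + X = 2 X`.  Sum over `l`: `sum_choose_div` with `a = j - 1`
(`q - 1 + i = (a - l / r - 1) + i`). -/
theorem nor_sum {n d k r J A m lam : ℕ} (hn : 2 ≤ n) (hd : 2 ≤ d) (hr : 1 ≤ r) (hk : r + n ≤ k)
    (hlam : 4 ≤ lam) (hm : m = lam * n * k ^ 2) (hA : 1 ≤ A) {X : ℝ} (hX0 : 0 ≤ X)
    (hX : (n : ℝ) * d ≤ X * A) (hy : (n : ℝ) ≤ X * (lam * k)) :
    ((∑ j ∈ Icc 2 J, ∑ l ∈ range ((j - 1) * r),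
      (Nor n d k (min j n) (j - 1 - l / r) A (m + l)).ncard : ℕ) : ℝ) ≤
      (∑ j ∈ Icc 2 J, trm n r lam X j) * ((A + n).choose n * pc (wP n k) m) := by
  rw [Nat.cast_sum, sum_mul]
  refine sum_le_sum fun j hj => ?_
  rw [mem_Icc] at hj
  rw [Nat.cast_sum]
  refine (sum_le_sum fun l hl => k14_term hn hd hr hk hlam hm hA hX0 hX hy hj.1 (mem_range.1 hl)).trans
    (le_of_eq ?_)
  rw [← sum_mul]
  have h1 := sum_choose_div hr (j - 1) (min j n)
  have h2 : ∑ l ∈ range ((j - 1) * r), ((j - 1 - l / r - 1 + min j n).choose (min j n) : ℝ) =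
      r * ((j - 1 + min j n).choose (min j n + 1) : ℝ) := by exact_mod_cast h1
  rw [h2]
  unfold trm
  ring

end Pool.Agent.H89X
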