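import Pool.Agent.Lib.H89X.K14

set_option autoImplicit false

/-!
CHUNK K15 (M), H89X.  Numerical bound of the sum of the terms `trm`.
-/

open Finset

namespace Pool.Agent.H89X

theorem k15_exp : Real.exp (1 / 4) ≤ 4 / 3 := by
  have h1 : Real.exp (1 / 4) ^ 4 = Real.exp 1 := by
    rw [← Real.exp_nat_mul]
    norm_num
  by_contra h
  rw [not_le] at h
  have h2 := pow_lt_pow_left₀ h (by norm_num) (n := 4) (by norm_num)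
  rw [h1] at h2
  have h3 := Real.exp_one_lt_d9
  norm_num at h2
  linarith

theorem k15_geo (M : ℕ) : ∑ i ∈ range M, ((1 : ℝ) / 2) ^ i = 2 - 2 * (1 / 2) ^ M := by
  induction M with
  | zero => simp
  | succ M ih =>
    rw [sum_range_succ, ih, pow_succ]
    ring

theorem k15_geo2 (M : ℕ) : ∑ i ∈ range M, (2 : ℝ) ^ (i + 1) = 2 ^ (M + 1) - 2 := by
  induction M with
  | zero => simp
  | succ M ih =>
    rw [sum_range_succ, ih, pow_succ (2 : ℝ) (M + 1)]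
    ring

theorem k15_sq {n : ℕ} (hn : 2 ≤ n) : (n : ℝ) ^ 2 * (1 / 4) ^ (n - 2) ≤ 4 := by
  induction n, hn using Nat.le_induction with
  | base => norm_num
  | succ n hn ih =>
    have h1 : n + 1 - 2 = (n - 2) + 1 := by omega
    rw [h1, pow_succ]
    push_cast
    have h2 : (2 : ℝ) ≤ n := by exact_mod_cast hn
    have h3 : ((n : ℝ) + 1) ^ 2 * (1 / 4) ≤ (n : ℝ) ^ 2 := by nlinarith
    have h4 : (0 : ℝ) ≤ (1 / 4) ^ (n - 2) := by positivity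
    calc ((n : ℝ) + 1) ^ 2 * ((1 / 4) ^ (n - 2) * (1 / 4))
        = ((n : ℝ) + 1) ^ 2 * (1 / 4) * (1 / 4) ^ (n - 2) := by ring
      _ ≤ (n : ℝ) ^ 2 * (1 / 4) ^ (n - 2) := mul_le_mul_of_nonneg_right h3 h4
      _ ≤ 4 := ih

/-- PROOF.  `min j n = j`; `(j - 1 + j).choose (j + 1) ≤ 2 ^ (2 j - 1) = 2 * 4 ^ (j - 1)` (`Nat.choose_le_two_pow`); `exp ((j - 1) / lam) = exp (1 / lam) ^ (j - 1)`,
`exp (1 / lam) ≤ exp (1 / 4) ≤ 4 / 3` (`Real.exp_bound'` or `exp 1 ≤ 2.7183 ≤ (4 / 3) ^ 4`); so `trm j ≤ (5 / 2) r X (11 X) ^ (j - 1) ≤ (5 / 2) r X (11 X) (1 / 2) ^ (j - 2)`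
(`11 X ≤ 1 / 2`), `r X ^ 2 = 1 / 40000`. -/
theorem trm_small {n ρ lam : ℕ} (hlam : 4 ≤ lam) (hρ : 1 ≤ ρ) {j : ℕ} (hj : 2 ≤ j)
    (hjn : j ≤ n) : trm n (ρ ^ 2) lam (1 / (200 * ρ)) j ≤ 1 / 1000 * (1 / 2) ^ (j - 2) := by
  have hr : (1 : ℝ) ≤ ρ := by exact_mod_cast hρ
  have hr0 : (0 : ℝ) < ρ := by linarith
  obtain ⟨X, hX⟩ : ∃ X : ℝ, X = 1 / (200 * ρ) := ⟨_, rfl⟩
  have hX0 : 0 < X := by
    rw [hX]
    positivity
  have hXr : ρ * X = 1 / 200 := by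
    rw [hX]
    field_simp
  have hX11 : 11 * X ≤ 1 / 2 := by nlinarith
  obtain ⟨i, rfl⟩ : ∃ i, j = i + 2 := ⟨j - 2, by omega⟩
  unfold trm
  rw [min_eq_left hjn, ← hX]
  have e1 : i + 2 - 1 = i + 1 := by omega
  have e2 : i + 2 - 2 = i := by omega
  rw [e1, e2]
  have h1 : ((i + 1 + (i + 2)).choose (i + 2 + 1) : ℝ) ≤ 2 * 4 ^ (i + 1) := by
    have h2 := Nat.choose_le_two_pow (i + 1 + (i + 2)) (i + 2 + 1)
    have h3 : 2 ^ (i + 1 + (i + 2)) = 2 * 4 ^ (i + 1) := by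
      rw [show (4 : ℕ) = 2 ^ 2 by norm_num, ← pow_mul, ← pow_succ']
      congr 1
      ring
    rw [h3] at h2
    exact_mod_cast h2
  have h2 : Real.exp (((i + 1 : ℕ) : ℝ) / lam) ≤ (4 / 3) ^ (i + 1) := by
    have h3 : Real.exp (((i + 1 : ℕ) : ℝ) / lam) = Real.exp (1 / lam) ^ (i + 1) := by
      rw [← Real.exp_nat_mul]
      congr 1
      ring
    rw [h3]
    refine pow_le_pow_left₀ (Real.exp_pos _).le ?_ _
    refine le_trans (Real.exp_le_exp.2 ?_) k15_exp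
    have h4 : (4 : ℝ) ≤ lam := by exact_mod_cast hlam
    exact one_div_le_one_div_of_le (by norm_num) h4
  have h3 : ((ρ ^ 2 : ℕ) : ℝ) * ((i + 1 + (i + 2)).choose (i + 2 + 1) : ℝ) * (X * (2 * X) ^ (i + 1)) *
      (5 / 4 * Real.exp (((i + 1 : ℕ) : ℝ) / lam)) ≤
      ((ρ ^ 2 : ℕ) : ℝ) * (2 * 4 ^ (i + 1)) * (X * (2 * X) ^ (i + 1)) * (5 / 4 * (4 / 3) ^ (i + 1)) := by
    gcongr
  refine h3.trans ?_
  have h4 : ((ρ ^ 2 : ℕ) : ℝ) * (2 * 4 ^ (i + 1)) * (X * (2 * X) ^ (i + 1)) * (5 / 4 * (4 / 3) ^ (i + 1)) =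
      5 / 2 * (ρ * X) ^ 2 * (32 / 3) * (32 / 3 * X) ^ i := by
    push_cast
    have h5 : (4 : ℝ) ^ (i + 1) * (2 * X) ^ (i + 1) * (4 / 3) ^ (i + 1) = (32 / 3 * X) ^ i * (32 / 3 * X) := by
      rw [← mul_pow, ← mul_pow, ← pow_succ]
      congr 1
      ring
    calc (ρ : ℝ) ^ 2 * (2 * 4 ^ (i + 1)) * (X * (2 * X) ^ (i + 1)) * (5 / 4 * (4 / 3) ^ (i + 1))
        = (ρ : ℝ) ^ 2 * (5 / 2) * X * ((4 : ℝ) ^ (i + 1) * (2 * X) ^ (i + 1) * (4 / 3) ^ (i + 1)) := by ring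
      _ = 5 / 2 * (ρ * X) ^ 2 * (32 / 3) * (32 / 3 * X) ^ i := by
        rw [h5]
        ring
  rw [h4, hXr]
  have h6 : (32 / 3 * X) ^ i ≤ (1 / 2) ^ i := pow_le_pow_left₀ (by positivity) (by linarith) _
  have h7 : (0 : ℝ) ≤ (1 / 2) ^ i := by positivity
  calc 5 / 2 * (1 / 200 : ℝ) ^ 2 * (32 / 3) * (32 / 3 * X) ^ i
      ≤ 5 / 2 * (1 / 200 : ℝ) ^ 2 * (32 / 3) * (1 / 2) ^ i := by gcongr
    _ ≤ 1 / 1000 * (1 / 2) ^ i := by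
        refine mul_le_mul_of_nonneg_right ?_ h7
        norm_num

/-- PROOF.  `min j n = n`; `(j - 1 + n).choose (n + 1) ≤ 2 ^ (j - 1 + n)`; `exp ((j - 1) / lam) ≤ exp n` (`j ≤ lam n`). -/
theorem trm_large {n ρ lam : ℕ} (hn : 2 ≤ n) (hlam : 4 ≤ lam) (hρ : 1 ≤ ρ) {j : ℕ} (hnj : n < j)
    (hj : j ≤ lam * n) : trm n (ρ ^ 2) lam (1 / (200 * ρ)) j ≤
      2 ^ (j - 1) * (5 / 8 * (ρ : ℝ) ^ 2 * (4 * Real.exp 1 * (1 / (200 * ρ))) ^ n) := by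
  have hr : (1 : ℝ) ≤ ρ := by exact_mod_cast hρ
  have hr0 : (0 : ℝ) < ρ := by linarith
  obtain ⟨X, hX⟩ : ∃ X : ℝ, X = 1 / (200 * ρ) := ⟨_, rfl⟩
  have hX0 : 0 < X := by
    rw [hX]
    positivity
  unfold trm
  rw [min_eq_right hnj.le, ← hX]
  obtain ⟨i, rfl⟩ : ∃ i, n = i + 1 := ⟨n - 1, by omega⟩
  have e1 : i + 1 - 1 = i := by omega
  rw [e1]
  have h1 : ((j - 1 + (i + 1)).choose (i + 1 + 1) : ℝ) ≤ 2 ^ (j - 1) * 2 ^ (i + 1) := by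
    have h2 := Nat.choose_le_two_pow (j - 1 + (i + 1)) (i + 1 + 1)
    rw [pow_add] at h2
    exact_mod_cast h2
  have h2 : Real.exp (((j - 1 : ℕ) : ℝ) / lam) ≤ Real.exp 1 ^ (i + 1) := by
    rw [← Real.exp_nat_mul, mul_one]
    refine Real.exp_le_exp.2 ?_
    have h4 : (0 : ℝ) < lam := by
      have : (4 : ℝ) ≤ lam := by exact_mod_cast hlam
      linarith
    rw [div_le_iff₀ h4]
    have h5 : j - 1 ≤ (i + 1) * lam := by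
      rw [mul_comm]
      omega
    exact_mod_cast h5
  have h3 : ((ρ ^ 2 : ℕ) : ℝ) * ((j - 1 + (i + 1)).choose (i + 1 + 1) : ℝ) * (X * (2 * X) ^ i) *
      (5 / 4 * Real.exp (((j - 1 : ℕ) : ℝ) / lam)) ≤
      ((ρ ^ 2 : ℕ) : ℝ) * (2 ^ (j - 1) * 2 ^ (i + 1)) * (X * (2 * X) ^ i) * (5 / 4 * Real.exp 1 ^ (i + 1)) := by
    gcongr
  refine h3.trans (le_of_eq ?_)
  push_cast
  rw [mul_pow (2 : ℝ) X i, mul_pow (4 * Real.exp 1) X (i + 1), mul_pow (4 : ℝ) (Real.exp 1) (i + 1),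
    show (4 : ℝ) = 2 * 2 by norm_num, mul_pow (2 : ℝ) 2 (i + 1), pow_succ X i, pow_succ (2 : ℝ) i]
  ring

/-- PROOF.  `2 ^ lam ≤ 8 n`.  `2 ^ (lam n) (4 e X) ^ n ≤ (32 e n X) ^ n ≤ (87 n X) ^ n`, `X = 1 / (200 ρ)`, `87 n X ≤ 1 / 4` (`400 n ≤ ρ`), `(87 n X) ^ n = (87 n X) ^ 2 (87 n X) ^ (n - 2)`,
`ρ ^ 2 (87 n X) ^ 2 = 7569 n ^ 2 / 40000`, `n ^ 2 (1 / 4) ^ (n - 2) ≤ 4` (induction).  Result `5 / 8 * 7569 * 4 / 40000 = 0.4731`. -/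
theorem large_num {n ρ lam : ℕ} (hn : 2 ≤ n) (hlam : 2 ^ lam ≤ 8 * n) (hρ : 400 * n ≤ ρ) :
    2 ^ (lam * n) * (5 / 8 * (ρ : ℝ) ^ 2 * (4 * Real.exp 1 * (1 / (200 * ρ))) ^ n) ≤ 48 / 100 := by
  have hn0 : (0 : ℝ) < n := by exact_mod_cast (by omega : 0 < n)
  have hρn : (400 : ℝ) * n ≤ ρ := by exact_mod_cast hρ
  have hr0 : (0 : ℝ) < ρ := by linarith
  have h1 : (2 : ℝ) ^ (lam * n) ≤ (8 * n) ^ n := by
    rw [pow_mul]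
    refine pow_le_pow_left₀ (by positivity) ?_ _
    exact_mod_cast hlam
  have h2 : 0 ≤ 5 / 8 * (ρ : ℝ) ^ 2 * (4 * Real.exp 1 * (1 / (200 * ρ))) ^ n := by
    have := Real.exp_pos 1
    positivity
  refine (mul_le_mul_of_nonneg_right h1 h2).trans ?_
  have h3 : (8 * (n : ℝ)) ^ n * (5 / 8 * (ρ : ℝ) ^ 2 * (4 * Real.exp 1 * (1 / (200 * ρ))) ^ n) =
      5 / 8 * (ρ : ℝ) ^ 2 * (32 * Real.exp 1 * n * (1 / (200 * ρ))) ^ n := by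
    have h4 : (32 * Real.exp 1 * n * (1 / (200 * (ρ : ℝ)))) = (8 * n) * (4 * Real.exp 1 * (1 / (200 * ρ))) := by
      ring
    rw [h4, mul_pow (8 * (n : ℝ))]
    ring
  rw [h3]
  obtain ⟨i, rfl⟩ : ∃ i, n = i + 2 := ⟨n - 2, by omega⟩
  have hsq := k15_sq hn
  rw [show i + 2 - 2 = i by omega] at hsq
  obtain ⟨m, hm⟩ : ∃ m : ℝ, m = ((i + 2 : ℕ) : ℝ) := ⟨_, rfl⟩
  rw [← hm] at hsq hn0 hρn ⊢
  have hE : 32 * Real.exp 1 ≤ 87 := by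
    have := Real.exp_one_lt_d9
    linarith
  have h5 : 32 * Real.exp 1 * m * (1 / (200 * (ρ : ℝ))) ≤ 87 * m * (1 / (200 * ρ)) := by
    gcongr
  have h50 : 0 ≤ 32 * Real.exp 1 * m * (1 / (200 * (ρ : ℝ))) := by
    have := Real.exp_pos 1
    positivity
  have h6 : 87 * m * (1 / (200 * (ρ : ℝ))) ≤ 1 / 4 := by
    rw [mul_one_div, div_le_iff₀ (by positivity)]
    linarith
  have h60 : 0 ≤ 87 * m * (1 / (200 * (ρ : ℝ))) := by positivity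
  calc 5 / 8 * (ρ : ℝ) ^ 2 * (32 * Real.exp 1 * m * (1 / (200 * ρ))) ^ (i + 2)
      ≤ 5 / 8 * (ρ : ℝ) ^ 2 * (87 * m * (1 / (200 * ρ))) ^ (i + 2) := by
        gcongr
    _ = 5 / 8 * (ρ : ℝ) ^ 2 * (87 * m * (1 / (200 * ρ))) ^ 2 * (87 * m * (1 / (200 * ρ))) ^ i := by
        rw [pow_add]
        ring
    _ = 5 / 8 * (7569 / 40000) * m ^ 2 * (87 * m * (1 / (200 * ρ))) ^ i := by
        congr 1
        field_simp
        ring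
    _ ≤ 5 / 8 * (7569 / 40000) * m ^ 2 * (1 / 4) ^ i := by
        gcongr
    _ = 5 / 8 * (7569 / 40000) * (m ^ 2 * (1 / 4) ^ i) := by ring
    _ ≤ 5 / 8 * (7569 / 40000) * 4 := by
        gcongr
    _ ≤ 48 / 100 := by norm_num

/-- PROOF.  `Icc 2 (lam n) ⊆ Icc 2 n ∪ Ioc n (lam n)`; `trm_small`: geometric series, at most `2 / 1000`; `trm_large`: `∑_{j ≤ lam n} 2 ^ (j - 1) ≤ 2 ^ (lam n)`, `large_num`.
Total at most `0.482 < 1 / 2`.  (`trm ≥ 0`.) -/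
theorem trm_sum {n ρ lam : ℕ} (hn : 2 ≤ n) (hlam4 : 4 ≤ lam) (hlam : 2 ^ lam ≤ 8 * n) (hρ : 400 * n ≤ ρ) :
    ∑ j ∈ Icc 2 (lam * n), trm n (ρ ^ 2) lam (1 / (200 * ρ)) j < 1 / 2 := by
  have hρ1 : 1 ≤ ρ := by omega
  obtain ⟨B, hB⟩ : ∃ B : ℝ, B = 5 / 8 * (ρ : ℝ) ^ 2 * (4 * Real.exp 1 * (1 / (200 * ρ))) ^ n := ⟨_, rfl⟩
  have hB0 : 0 ≤ B := by
    rw [hB]
    have := Real.exp_pos 1
    positivity
  have h1 : ∀ j ∈ Icc 2 (lam * n), trm n (ρ ^ 2) lam (1 / (200 * ρ)) j ≤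
      1 / 1000 * (1 / 2) ^ (j - 2) + 2 ^ (j - 1) * B := by
    intro j hj
    rw [mem_Icc] at hj
    rcases le_or_gt j n with h2 | h2
    · have h3 := trm_small hlam4 hρ1 hj.1 h2
      have h4 : 0 ≤ 2 ^ (j - 1) * B := by positivity
      linarith
    · have h3 := trm_large hn hlam4 hρ1 h2 hj.2
      rw [← hB] at h3
      have h4 : (0 : ℝ) ≤ 1 / 1000 * (1 / 2) ^ (j - 2) := by positivity
      linarith
  refine lt_of_le_of_lt (sum_le_sum h1) ?_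
  rw [sum_add_distrib, ← mul_sum, ← sum_mul]
  have hIcc : Icc 2 (lam * n) = Ico 2 (lam * n + 1) := by
    ext x
    rw [mem_Icc, mem_Ico]
    omega
  have hM : 1 ≤ lam * n := Nat.mul_pos (by omega) (by omega)
  obtain ⟨M, hM'⟩ : ∃ M, lam * n = M + 1 := ⟨lam * n - 1, by omega⟩
  have e0 : lam * n + 1 - 2 = M := by omega
  have h2 : ∑ j ∈ Icc 2 (lam * n), ((1 : ℝ) / 2) ^ (j - 2) ≤ 2 := by
    rw [hIcc, sum_Ico_eq_sum_range, e0]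
    have h3 : ∑ i ∈ range M, ((1 : ℝ) / 2) ^ (2 + i - 2) = ∑ i ∈ range M, ((1 : ℝ) / 2) ^ i := by
      refine sum_congr rfl fun i _ => ?_
      rw [show 2 + i - 2 = i by omega]
    rw [h3, k15_geo]
    have h4 : (0 : ℝ) ≤ 2 * (1 / 2) ^ M := by positivity
    linarith
  have h3 : ∑ j ∈ Icc 2 (lam * n), (2 : ℝ) ^ (j - 1) ≤ 2 ^ (lam * n) := by
    rw [hIcc, sum_Ico_eq_sum_range, e0]
    have h3 : ∑ i ∈ range M, (2 : ℝ) ^ (2 + i - 1) = ∑ i ∈ range M, (2 : ℝ) ^ (i + 1) := by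
      refine sum_congr rfl fun i _ => ?_
      rw [show 2 + i - 1 = i + 1 by omega]
    rw [h3, k15_geo2, hM']
    linarith
  have h4 := large_num hn hlam hρ
  rw [← hB] at h4
  have h5 := mul_le_mul_of_nonneg_right h3 hB0
  linarith

end Pool.Agent.H89X
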