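import Pool.Agent.Lib.H89X.K7
import Pool.Agent.Lib.H89X.K11
import Mathlib.NumberTheory.Harmonic.Bounds

set_option autoImplicit false

/-!
CHUNK K16 (M), H89X.  The number of the unknowns.
-/

open Finset

namespace Pool.Agent.H89X

open Pool.Agent.H89T Pool.Agent.H67T Pool.Agent.H53U Pool.Agent.H53V Pool.Agent.H44K

/-- The harmonic sum. -/
noncomputable def HS (k : ℕ) : ℝ := ∑ i : Fin k, 1 / (((i : ℕ) : ℝ) + 1)

/-- PROOF.  `HS k = harmonic k` (`Fin.sum_univ_eq_sum_range`), `harmonic_le_one_add_log`. -/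
theorem HS_le {k : ℕ} (hk : 1 ≤ k) : HS k ≤ 1 + Real.log k := by
  have h1 : HS k = ((harmonic k : ℚ) : ℝ) := by
    unfold HS harmonic
    rw [Fin.sum_univ_eq_sum_range (fun i => 1 / ((i : ℝ) + 1)) k]
    push_cast
    refine sum_congr rfl fun i _ => ?_
    rw [one_div]
  rw [h1]
  exact harmonic_le_one_add_log k

/-- PROOF.  The term `i = 0`. -/
theorem HS_ge {k : ℕ} (hk : 1 ≤ k) : 1 ≤ HS k := by
  unfold HS
  have h1 : 1 / ((((⟨0, hk⟩ : Fin k) : ℕ) : ℝ) + 1) ≤ ∑ i : Fin k, 1 / (((i : ℕ) : ℝ) + 1) :=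
    single_le_sum (f := fun i : Fin k => 1 / (((i : ℕ) : ℝ) + 1)) (fun i _ => by positivity)
      (mem_univ _)
  simpa using h1

/-- PROOF.  `Fintype.sum_prod_type`, `sum_const`. -/
theorem sum_inv_wP (n k : ℕ) : ∑ p : Fin n × Fin k, 1 / (wP n k p : ℝ) = n * HS k := by
  rw [Fintype.sum_prod_type]
  have h1 : ∀ x : Fin n, ∑ y : Fin k, 1 / (wP n k (x, y) : ℝ) = HS k := by
    intro x
    unfold HS wP
    refine sum_congr rfl fun i _ => ?_
    push_cast
    rfl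
  rw [sum_congr rfl fun x _ => h1 x, sum_const, card_univ, Fintype.card_fin, nsmul_eq_mul]

/-- PROOF.  `Fintype.sum_prod_type`, induction on `k` (`Fin.sum_univ_castSucc`). -/
theorem sum_wP (n k : ℕ) : ∑ p : Fin n × Fin k, (wP n k p : ℝ) = n * (k * (k + 1) / 2) := by
  rw [Fintype.sum_prod_type]
  have h1 : ∀ x : Fin n, ∑ y : Fin k, (wP n k (x, y) : ℝ) = k * (k + 1) / 2 := by
    intro x
    have h2 : ∑ y : Fin k, (wP n k (x, y) : ℝ) = ∑ y : Fin k, (((y : ℕ) : ℝ) + 1) := by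
      unfold wP
      refine sum_congr rfl fun i _ => ?_
      push_cast
      rfl
    rw [h2, Fin.sum_univ_eq_sum_range (fun i => (i : ℝ) + 1) k]
    clear h2
    induction k with
    | zero => simp
    | succ k ih =>
      rw [sum_range_succ, ih]
      push_cast
      ring
  rw [sum_congr rfl fun x _ => h1 x, sum_const, card_univ, Fintype.card_fin, nsmul_eq_mul]

/-- At most half of the monomials has at least `μ` factors, if `μ` is at least twice the mean.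
PROOF.  As `few_factors`, `many_small` (Markov, `sum_factors`) with `2` instead of `4`. -/
theorem half_small {α : Type} [Fintype α] [DecidableEq α] {w : α → ℕ} (hw : ∀ p, 1 ≤ w p) {p0 : α}
    (h0 : w p0 = 1) {m μ : ℕ}
    (hμ : 2 * ((∑ p, 1 / (w p : ℝ)) * (((m : ℝ) + ∑ p, (w p : ℝ)) / Fintype.card α)) ≤ μ) :
    pc w m ≤ 2 * ((FS w m).filter fun ν => ∑ p, ν p < μ).card := by
  have h1 := sum_factors hw h0 m
  obtain ⟨M, hM⟩ : ∃ M : ℝ, M = (∑ p, 1 / (w p : ℝ)) * (((m : ℝ) + ∑ p, (w p : ℝ)) / Fintype.card α) :=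
    ⟨_, rfl⟩
  rw [← hM] at h1 hμ
  have hM0 : 0 < M := by
    rw [hM]
    have hN : (0 : ℝ) < Fintype.card α := by
      exact_mod_cast Fintype.card_pos_iff.2 ⟨p0⟩
    have h2 : (0 : ℝ) < ∑ p, 1 / (w p : ℝ) := by
      refine sum_pos (fun p _ => ?_) ⟨p0, mem_univ _⟩
      have : (0 : ℝ) < w p := by exact_mod_cast (hw p)
      positivity
    have h3 : (0 : ℝ) < ∑ p, (w p : ℝ) := by
      refine sum_pos (fun p _ => ?_) ⟨p0, mem_univ _⟩
      exact_mod_cast (hw p)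
    have h4 : (0 : ℝ) < (m : ℝ) + ∑ p, (w p : ℝ) := add_pos_of_nonneg_of_pos (Nat.cast_nonneg _) h3
    exact mul_pos h2 (div_pos h4 hN)
  have h2 : μ * ((FS w m).filter fun ν => μ ≤ ∑ p, ν p).card ≤ ∑ ν ∈ FS w m, ∑ p, ν p := by
    calc μ * ((FS w m).filter fun ν => μ ≤ ∑ p, ν p).card
        = ∑ _ν ∈ (FS w m).filter (fun ν => μ ≤ ∑ p, ν p), μ := by
          rw [sum_const, smul_eq_mul, mul_comm]
      _ ≤ ∑ ν ∈ (FS w m).filter (fun ν => μ ≤ ∑ p, ν p), ∑ p, ν p :=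
          sum_le_sum fun ν hν => (mem_filter.1 hν).2
      _ ≤ ∑ ν ∈ FS w m, ∑ p, ν p := sum_le_sum_of_subset (filter_subset _ _)
  have h3 : (μ : ℝ) * (((FS w m).filter fun ν => μ ≤ ∑ p, ν p).card : ℝ) ≤ M * pc w m := by
    refine le_trans ?_ h1
    exact_mod_cast h2
  have h4 : 2 * M * (((FS w m).filter fun ν => μ ≤ ∑ p, ν p).card : ℝ) ≤ M * pc w m :=
    le_trans (mul_le_mul_of_nonneg_right hμ (Nat.cast_nonneg _)) h3
  have h5 : M * (2 * (((FS w m).filter fun ν => μ ≤ ∑ p, ν p).card : ℝ)) ≤ M * pc w m := by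
    calc _ = 2 * M * (((FS w m).filter fun ν => μ ≤ ∑ p, ν p).card : ℝ) := by ring
      _ ≤ _ := h4
  have h6 := le_of_mul_le_mul_left h5 hM0
  have h7 : 2 * ((FS w m).filter fun ν => μ ≤ ∑ p, ν p).card ≤ pc w m := by exact_mod_cast h6
  have h8 : ((FS w m).filter fun ν => ∑ p, ν p < μ).card +
      ((FS w m).filter fun ν => μ ≤ ∑ p, ν p).card = pc w m := by
    have h9 := card_filter_add_card_filter_not (s := FS w m) (fun ν => ∑ p, ν p < μ)
    simp only [not_lt] at h9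
    exact h9
  omega

/-- PROOF.  `Unk_ncard`, `half_small` with `p0 = (0, 0)`: `2 (n HS) (lam n k ^ 2 + n k (k + 1) / 2) / (n k) = 2 n HS (lam k + (k + 1) / 2) ≤ (5 / 2) n lam k HS`, because
`2 (k + 1) ≤ 4 k ≤ lam k`. -/
theorem unk_ge {n k m μ lam : ℕ} (A : ℕ) (hn : 1 ≤ n) (hk : 1 ≤ k) (hlam : 4 ≤ lam) (hm : m = lam * n * k ^ 2)
    (hμ : 5 / 2 * (n : ℝ) * lam * k * HS k ≤ μ) :
    (A + n).choose n * pc (wP n k) m ≤ 2 * (Unk n k A m μ).ncard := by
  have hw : ∀ p : Fin n × Fin k, 1 ≤ wP n k p := fun p => Nat.succ_le_succ (Nat.zero_le _)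
  have h0 : wP n k (⟨0, hn⟩, ⟨0, hk⟩) = 1 := rfl
  have hn' : (1 : ℝ) ≤ n := by exact_mod_cast hn
  have hk' : (1 : ℝ) ≤ k := by exact_mod_cast hk
  have hlam' : (4 : ℝ) ≤ lam := by exact_mod_cast hlam
  have hHS := HS_ge hk
  have h1 : 2 * ((∑ p, 1 / (wP n k p : ℝ)) * (((m : ℝ) + ∑ p, (wP n k p : ℝ)) /
      Fintype.card (Fin n × Fin k))) ≤ μ := by
    rw [sum_inv_wP, sum_wP, Fintype.card_prod, Fintype.card_fin, Fintype.card_fin, hm]
    refine le_trans ?_ hμ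
    push_cast
    have h2 : ((lam : ℝ) * n * k ^ 2 + n * (k * (k + 1) / 2)) / (n * k) = lam * k + (k + 1) / 2 := by
      field_simp
    rw [h2]
    have h3 : 2 * ((lam : ℝ) * k + (k + 1) / 2) ≤ 5 / 2 * (lam * k) := by nlinarith
    calc 2 * ((n : ℝ) * HS k * (lam * k + (k + 1) / 2))
        = (n * HS k) * (2 * ((lam : ℝ) * k + (k + 1) / 2)) := by ring
      _ ≤ (n * HS k) * (5 / 2 * (lam * k)) := by
          apply mul_le_mul_of_nonneg_left h3
          positivity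
      _ = _ := by ring
  have h2 := half_small hw h0 h1
  rw [Unk_ncard]
  calc (A + n).choose n * pc (wP n k) m
      ≤ (A + n).choose n * (2 * ((FS (wP n k) m).filter fun ν => ∑ p, ν p < μ).card) :=
        Nat.mul_le_mul_left _ h2
    _ = _ := by ring

end Pool.Agent.H89X
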