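import Pool.Agent.Lib.H89X.K15
import Pool.Agent.Lib.H89X.K16

set_option autoImplicit false

/-!
CHUNK K17 (S/M), H89X.  `CountW`.
-/

open Finset

namespace Pool.Agent.H89X

open Pool.Agent.H89T Pool.Agent.H67T Pool.Agent.H53U Pool.Agent.H53V Pool.Agent.H44K

/-- PROOF.  `nor_sum` with `r = ρ ^ 2`, `k = ρ ^ 2 + n`, `X = 1 / (200 ρ)`, `A = 200 n ρ d` (`X A = n d`; `n ≤ X lam k`: `200 ρ n ≤ ρ ^ 2 ≤ lam k`), `trm_sum`: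
the left side is `< (1 / 2) (A + n).choose n * pc`, `pc ≥ 1` (`pc_pos`), and `unk_ge`. -/
theorem countW_main {n d ρ lam μ : ℕ} (hn : 2 ≤ n) (hd : 2 ≤ d) (hlam4 : 4 ≤ lam) (hlam : 2 ^ lam ≤ 8 * n)
    (hρ : 400 * n ≤ ρ) (hμ : 5 / 2 * (n : ℝ) * lam * (ρ ^ 2 + n : ℕ) * HS (ρ ^ 2 + n) ≤ μ) :
    CountW n d (ρ ^ 2) (lam * n) (ρ ^ 2 + n) (200 * n * ρ * d) (lam * n * (ρ ^ 2 + n) ^ 2) μ := by
  have hρ1 : 1 ≤ ρ := by omega
  have hρR : (0 : ℝ) < ρ := by exact_mod_cast hρ1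
  have hr : 1 ≤ ρ ^ 2 := Nat.one_le_pow _ _ hρ1
  have hA : 1 ≤ 200 * n * ρ * d := by
    have : 0 < 200 * n * ρ * d := by positivity
    exact this
  have hX0 : (0 : ℝ) ≤ 1 / (200 * ρ) := by positivity
  have hX : (n : ℝ) * d ≤ 1 / (200 * ρ) * ((200 * n * ρ * d : ℕ) : ℝ) := by
    apply le_of_eq
    push_cast
    field_simp
  have hy : (n : ℝ) ≤ 1 / (200 * ρ) * (lam * ((ρ ^ 2 + n : ℕ) : ℝ)) := by
    rw [one_div, inv_mul_eq_div, le_div_iff₀ (by positivity)]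
    have h1 : (400 * n : ℝ) ≤ ρ := by exact_mod_cast hρ
    have h2 : (4 : ℝ) ≤ lam := by exact_mod_cast hlam4
    have h3 : (0 : ℝ) ≤ n := Nat.cast_nonneg n
    push_cast
    have h4 : (ρ : ℝ) ^ 2 + n ≤ lam * (ρ ^ 2 + n) := by nlinarith [sq_nonneg (ρ : ℝ)]
    nlinarith
  have h1 := nor_sum (n := n) (d := d) (k := ρ ^ 2 + n) (r := ρ ^ 2) (J := lam * n) (A := 200 * n * ρ * d)
    (m := lam * n * (ρ ^ 2 + n) ^ 2) (lam := lam) hn hd hr le_rfl hlam4 rfl hA hX0 hX hy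
  have h2 := trm_sum hn hlam4 hlam hρ
  have h3 := unk_ge (n := n) (k := ρ ^ 2 + n) (m := lam * n * (ρ ^ 2 + n) ^ 2) (μ := μ) (lam := lam)
    (200 * n * ρ * d) (by omega) (by omega) hlam4 rfl hμ
  have hpc : 1 ≤ pc (wP n (ρ ^ 2 + n)) (lam * n * (ρ ^ 2 + n) ^ 2) :=
    pc_pos (w := wP n (ρ ^ 2 + n)) (fun p => by unfold wP; omega)
      (p0 := (⟨0, by omega⟩, ⟨0, by omega⟩)) (by unfold wP; rfl) _
  have hch : 1 ≤ (200 * n * ρ * d + n).choose n := Nat.choose_pos (by omega)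
  have hpos : (0 : ℝ) < ((200 * n * ρ * d + n).choose n : ℝ) * pc (wP n (ρ ^ 2 + n)) (lam * n * (ρ ^ 2 + n) ^ 2) := by
    have := Nat.mul_pos hch hpc
    exact_mod_cast this
  have h3' : ((200 * n * ρ * d + n).choose n : ℝ) * pc (wP n (ρ ^ 2 + n)) (lam * n * (ρ ^ 2 + n) ^ 2) ≤
      2 * ((Unk n (ρ ^ 2 + n) (200 * n * ρ * d) (lam * n * (ρ ^ 2 + n) ^ 2) μ).ncard : ℝ) := by
    exact_mod_cast h3
  have h4 := mul_lt_mul_of_pos_right h2 hpos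
  unfold CountW
  have h5 : ((∑ j ∈ Icc 2 (lam * n), ∑ l ∈ range ((j - 1) * ρ ^ 2),
      (Nor n d (ρ ^ 2 + n) (min j n) (j - 1 - l / ρ ^ 2) (200 * n * ρ * d) (lam * n * (ρ ^ 2 + n) ^ 2 + l)).ncard : ℕ) : ℝ) <
      ((Unk n (ρ ^ 2 + n) (200 * n * ρ * d) (lam * n * (ρ ^ 2 + n) ^ 2) μ).ncard : ℝ) := by
    refine lt_of_le_of_lt h1 ?_
    linarith
  exact_mod_cast h5

end Pool.Agent.H89X
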