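import Pool.Agent.Lib.H89X.K12
import Pool.Agent.Lib.H89X.K16

set_option autoImplicit false

/-!
CHUNK K18 (M), H89X.  `CountS`.
-/

open Finset

namespace Pool.Agent.H89X

open Pool.Agent.H89T Pool.Agent.H67T Pool.Agent.H53U Pool.Agent.H53V Pool.Agent.H44K

/-- PROOF.  Induction on `n`: `(n + 1) (B + n + 1).choose (n + 1) = (B + n + 1) (B + n).choose n` (`Nat.add_one_mul_choose_eq`), and
`(B + n + 1) (A + 1) ≤ (B + 1) (A + n + 1)` (`A ≤ B`). -/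
theorem choose_up {A B : ℕ} (hAB : A ≤ B) (n : ℕ) :
    ((B + n).choose n : ℝ) ≤ (((B : ℝ) + 1) / ((A : ℝ) + 1)) ^ n * (A + n).choose n := by
  have hA0 : (0 : ℝ) < (A : ℝ) + 1 := by positivity
  have hABR : (A : ℝ) ≤ B := by exact_mod_cast hAB
  obtain ⟨x, hx⟩ : ∃ x, x = ((B : ℝ) + 1) / ((A : ℝ) + 1) := ⟨_, rfl⟩
  have hx0 : 0 ≤ x := by
    rw [hx]
    positivity
  rw [← hx]
  induction n with
  | zero => simp
  | succ n ih =>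
    have h1 : ((B + n : ℕ) + 1) * (B + n).choose n = (B + n + 1).choose (n + 1) * (n + 1) :=
      Nat.add_one_mul_choose_eq (B + n) n
    have h2 : ((A + n : ℕ) + 1) * (A + n).choose n = (A + n + 1).choose (n + 1) * (n + 1) :=
      Nat.add_one_mul_choose_eq (A + n) n
    have h1' : ((B : ℝ) + n + 1) * ((B + n).choose n : ℝ) = ((B + n + 1).choose (n + 1) : ℝ) * ((n : ℝ) + 1) := by
      exact_mod_cast h1
    have h2' : ((A : ℝ) + n + 1) * ((A + n).choose n : ℝ) = ((A + n + 1).choose (n + 1) : ℝ) * ((n : ℝ) + 1) := by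
      exact_mod_cast h2
    have h3 : (B : ℝ) + n + 1 ≤ x * ((A : ℝ) + n + 1) := by
      have h4 : x * ((A : ℝ) + 1) = (B : ℝ) + 1 := by
        rw [hx]
        exact div_mul_cancel₀ _ hA0.ne'
      have h5 : 1 ≤ x := by
        rw [hx, le_div_iff₀ hA0]
        linarith
      have h6 : 1 * (n : ℝ) ≤ x * n := mul_le_mul_of_nonneg_right h5 (Nat.cast_nonneg n)
      linarith [(by ring : x * ((A : ℝ) + n + 1) = x * ((A : ℝ) + 1) + x * n)]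
    have hn0 : (0 : ℝ) < (n : ℝ) + 1 := by positivity
    have h4 : ((B + n + 1).choose (n + 1) : ℝ) * ((n : ℝ) + 1) ≤
        (x ^ (n + 1) * ((A + n + 1).choose (n + 1) : ℝ)) * ((n : ℝ) + 1) := by
      calc ((B + n + 1).choose (n + 1) : ℝ) * ((n : ℝ) + 1)
          = ((B : ℝ) + n + 1) * ((B + n).choose n : ℝ) := h1'.symm
        _ ≤ (x * ((A : ℝ) + n + 1)) * (x ^ n * (A + n).choose n) :=
            mul_le_mul h3 ih (Nat.cast_nonneg _) (mul_nonneg hx0 (by positivity))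
        _ = x ^ (n + 1) * (((A : ℝ) + n + 1) * ((A + n).choose n : ℝ)) := by ring
        _ = x ^ (n + 1) * (((A + n + 1).choose (n + 1) : ℝ) * ((n : ℝ) + 1)) := by rw [h2']
        _ = _ := by ring
    exact le_of_mul_le_mul_right h4 hn0

/-- PROOF.  `1 / (16 s0) ≤ ε / 16` and `≤ 1 / 16`, `(lam - 1) n + 1 = n + ((lam - 2) n + 1)`: the left side is at most
`2 (n + 1) (16 (n + 1) / ε) ^ n (ε / 16) ^ n 2 ^ (lam n) (1 / 16) ^ ((lam - 2) n + 1) = (1 / 8) (n + 1) ((n + 1) 2 ^ lam 16 / 16 ^ (lam - 1)) ^ n`, and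
`(n + 1) 2 ^ lam 16 / 16 ^ (lam - 1) = 32 (n + 1) / (2 ^ (lam - 1)) ^ 3 ≤ 32 (n + 1) / (2 n + 2) ^ 3 = 4 / (n + 1) ^ 2 ≤ 4 / 9`; `(n + 1) (4 / 9) ^ n / 8 < 1`
(`(9 / 4) ^ n ≥ 1 + n`: `one_add_mul_le_pow`). -/
theorem countS_num {n lam s0 : ℕ} {ε : ℝ} (hn : 2 ≤ n) (hε : 0 < ε) (hε1 : ε ≤ 1) (hlam4 : 4 ≤ lam)
    (hlam : 2 * n + 2 ≤ 2 ^ (lam - 1)) (hs0 : 1 ≤ ε * s0) :
    2 * ((n : ℝ) + 1) * (16 * ((n : ℝ) + 1) / ε) ^ n * 2 ^ (lam * n) *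
      (1 / (16 * (s0 : ℝ))) ^ ((lam - 1) * n + 1) < 1 := by
  obtain ⟨l, rfl⟩ : ∃ l, lam = l + 2 := ⟨lam - 2, by omega⟩
  have hl1 : l + 2 - 1 = l + 1 := by omega
  rw [hl1] at hlam ⊢
  have hn' : (2 : ℝ) ≤ n := by exact_mod_cast hn
  have hs1 : (1 : ℝ) ≤ s0 := by
    have h1 : ε * s0 ≤ 1 * s0 := mul_le_mul_of_nonneg_right hε1 (Nat.cast_nonneg _)
    linarith
  have hs0' : (0 : ℝ) < s0 := by linarith
  obtain ⟨y, hy⟩ : ∃ y, y = 1 / (16 * (s0 : ℝ)) := ⟨_, rfl⟩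
  have hy0 : 0 < y := by
    rw [hy]
    positivity
  have hy1 : y ≤ ε / 16 := by
    rw [hy, div_le_div_iff₀ (by positivity) (by norm_num)]
    linarith
  have hy2 : y ≤ 1 / 16 := by linarith
  rw [← hy]
  have he : (l + 1) * n + 1 = n + (l * n + 1) := by ring
  rw [he, pow_add]
  obtain ⟨N, hN⟩ : ∃ N : ℝ, N = (n : ℝ) + 1 := ⟨_, rfl⟩
  rw [← hN]
  have hN3 : 3 ≤ N := by linarith
  have hN0 : 0 < N := by linarith
  obtain ⟨M, hMd⟩ : ∃ M : ℝ, M = 2 ^ (l + 1) := ⟨_, rfl⟩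
  have hM : 2 * N ≤ M := by
    have h1 : ((2 * n + 2 : ℕ) : ℝ) ≤ ((2 ^ (l + 1) : ℕ) : ℝ) := by exact_mod_cast hlam
    push_cast at h1
    rw [hMd, hN]
    linarith
  have hM0 : 0 < M := by linarith
  have h1 : y ^ n ≤ (ε / 16) ^ n := pow_le_pow_left₀ hy0.le hy1 n
  have h2 : y ^ (l * n + 1) ≤ (1 / 16) ^ (l * n + 1) := pow_le_pow_left₀ hy0.le hy2 _
  have h3 : y ^ n * y ^ (l * n + 1) ≤ (ε / 16) ^ n * (1 / 16) ^ (l * n + 1) :=
    mul_le_mul h1 h2 (by positivity) (by positivity)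
  have h4 : 2 * N * (16 * N / ε) ^ n * 2 ^ ((l + 2) * n) * (y ^ n * y ^ (l * n + 1)) ≤
      2 * N * (16 * N / ε) ^ n * 2 ^ ((l + 2) * n) * ((ε / 16) ^ n * (1 / 16) ^ (l * n + 1)) :=
    mul_le_mul_of_nonneg_left h3 (by positivity)
  have a1 : (16 * N / ε) ^ n * (ε / 16) ^ n = N ^ n := by
    rw [← mul_pow]
    congr 1
    field_simp
  have a2 : ((1 : ℝ) / 16) ^ (l * n + 1) = ((1 / 16) ^ l) ^ n * (1 / 16) := by
    rw [← pow_mul]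
    exact pow_succ _ _
  have a3 : (2 : ℝ) ^ ((l + 2) * n) = (2 * M) ^ n := by
    rw [pow_mul]
    congr 1
    rw [hMd]
    ring
  obtain ⟨u, hu⟩ : ∃ u : ℝ, u = (1 / 16) ^ l := ⟨_, rfl⟩
  have hu0 : 0 < u := by
    rw [hu]
    positivity
  have h5 : 2 * N * (16 * N / ε) ^ n * 2 ^ ((l + 2) * n) * ((ε / 16) ^ n * (1 / 16) ^ (l * n + 1)) =
      N / 8 * (N * (2 * M) * u) ^ n := by
    rw [a2, a3, ← hu, mul_pow (N * (2 * M)) u n, mul_pow N (2 * M) n, ← a1]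
    ring
  have a4 : u * M ^ 4 = 16 := by
    have b1 : ((2 : ℝ) ^ (l + 1)) ^ 4 = 16 * 16 ^ l := by
      rw [← pow_mul, mul_comm (l + 1) 4, pow_mul]
      have b2 : (2 : ℝ) ^ 4 = 16 := by norm_num
      rw [b2, pow_succ]
      ring
    have b3 : ((1 : ℝ) / 16) ^ l * 16 ^ l = 1 := by
      rw [← mul_pow]
      norm_num
    rw [hu, hMd, b1]
    linarith [(by ring : ((1 : ℝ) / 16) ^ l * (16 * 16 ^ l) = 16 * (((1 : ℝ) / 16) ^ l * 16 ^ l))]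
  have h6 : N * (2 * M) * u ≤ 4 / 9 := by
    have hM3 : 0 < M ^ 3 := by positivity
    refine le_of_mul_le_mul_right ?_ hM3
    have b1 : N * (2 * M) * u * M ^ 3 = 2 * N * (u * M ^ 4) := by ring
    rw [b1, a4]
    have b2 : (2 * N) ^ 3 ≤ M ^ 3 := pow_le_pow_left₀ (by positivity) hM 3
    have b3 : 9 * N ≤ N ^ 3 := by nlinarith [mul_nonneg hN0.le (by nlinarith : (0 : ℝ) ≤ N ^ 2 - 9)]
    linarith [(by ring : (2 * N) ^ 3 = 8 * N ^ 3)]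
  have h7 : (4 / 9 : ℝ) ^ n * N ≤ 1 := by
    have b1 : 1 + (n : ℝ) * (5 / 4) ≤ (1 + 5 / 4) ^ n := one_add_mul_le_pow (by norm_num) n
    have b2 : (1 + 5 / 4 : ℝ) = 9 / 4 := by norm_num
    rw [b2] at b1
    have b3 : (4 / 9 : ℝ) ^ n * (9 / 4) ^ n = 1 := by
      rw [← mul_pow]
      norm_num
    have b4 : N ≤ (9 / 4 : ℝ) ^ n := by linarith
    have b5 : (4 / 9 : ℝ) ^ n * N ≤ (4 / 9 : ℝ) ^ n * (9 / 4) ^ n :=
      mul_le_mul_of_nonneg_left b4 (by positivity)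
    linarith
  have h8 : (N * (2 * M) * u) ^ n ≤ (4 / 9 : ℝ) ^ n := pow_le_pow_left₀ (by positivity) h6 n
  have h9 : N / 8 * (N * (2 * M) * u) ^ n ≤ N / 8 * (4 / 9 : ℝ) ^ n :=
    mul_le_mul_of_nonneg_left h8 (by positivity)
  have h10 : N / 8 * (4 / 9 : ℝ) ^ n = ((4 / 9 : ℝ) ^ n * N) / 8 := by ring
  rw [h5] at h4
  rw [h10] at h9
  linarith

/-- PROOF.  `K = lam n`, `K - n + 1 = (lam - 1) n + 1`, `K.choose (n - 1) ≤ 2 ^ K`, `nbad_le` with `y = 1 / (16 s0)` (`n K K = y m'`), `choose_up` with `B = A' + s = (n + 1) d`: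
`(B + 1) / (A' + 1) ≤ 2 (n + 1) d / (ε d / 8) = 16 (n + 1) / ε`; `countS_num`; `unk_ge` with `lam := 16 s0` (`s0 ≥ 1`); `pc_pos`. -/
theorem countS_main {n d lam s0 A' s μ' : ℕ} {ε : ℝ} (hn : 2 ≤ n) (hd : 1 ≤ d) (hε : 0 < ε) (hε1 : ε ≤ 1)
    (hlam4 : 4 ≤ lam) (hlam : 2 * n + 2 ≤ 2 ^ (lam - 1)) (hs0 : 1 ≤ ε * s0)
    (hA : ε * d ≤ 8 * ((A' : ℝ) + 1)) (hs : A' + s = (n + 1) * d)
    (hμ : 5 / 2 * (n : ℝ) * (16 * s0 : ℕ) * (lam * n : ℕ) * HS (lam * n) ≤ μ') :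
    CountS n (lam * n) A' (16 * s0 * n * (lam * n) ^ 2) μ' s := by
  have hn' : (2 : ℝ) ≤ n := by exact_mod_cast hn
  have hd' : (1 : ℝ) ≤ d := by exact_mod_cast hd
  have hs1R : (1 : ℝ) ≤ s0 := by
    have h1 : ε * s0 ≤ 1 * s0 := mul_le_mul_of_nonneg_right hε1 (Nat.cast_nonneg _)
    linarith
  have hs1 : 1 ≤ s0 := by exact_mod_cast hs1R
  have hs0' : (0 : ℝ) < s0 := by linarith
  have hnum := countS_num hn hε hε1 hlam4 hlam hs0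
  have hKn : n ≤ lam * n := Nat.le_mul_of_pos_left n (by omega)
  have hKe : lam * n - n + 1 = (lam - 1) * n + 1 := by
    rw [Nat.sub_one_mul]
  obtain ⟨K, hK⟩ : ∃ K, K = lam * n := ⟨_, rfl⟩
  rw [← hK] at hμ hnum hKn hKe ⊢
  have hK1 : 1 ≤ K := by omega
  obtain ⟨m, hm⟩ : ∃ m, m = 16 * s0 * n * K ^ 2 := ⟨_, rfl⟩
  rw [← hm]
  have hm1 : 1 ≤ m := by
    rw [hm]
    have : 0 < 16 * s0 * n * K ^ 2 := by positivity
    exact this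
  obtain ⟨y, hy⟩ : ∃ y, y = 1 / (16 * (s0 : ℝ)) := ⟨_, rfl⟩
  have hy0 : 0 < y := by
    rw [hy]
    positivity
  have hym : (n : ℝ) * K * K ≤ y * m := by
    apply le_of_eq
    rw [hy, hm]
    push_cast
    field_simp
  have h1 : (nbad n K m 1 : ℝ) ≤ K.choose (n - 1) * y ^ (K - n + 1) * pc (wP n K) m :=
    nbad_le hn hKn hm1 hym
  rw [← hy] at hnum
  rw [hKe] at h1
  have h2 := unk_ge (n := n) (k := K) (m := m) (μ := μ') (lam := 16 * s0) A' (by omega) hK1 (by omega) hm hμ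
  have hpc : 1 ≤ pc (wP n K) m :=
    pc_pos (w := wP n K) (fun p => by unfold wP; omega)
      (p0 := (⟨0, by omega⟩, ⟨0, by omega⟩)) (by unfold wP; rfl) _
  have h3 : ((A' + s + n).choose n : ℝ) ≤
      ((((A' + s : ℕ) : ℝ) + 1) / ((A' : ℝ) + 1)) ^ n * (A' + n).choose n :=
    choose_up (A := A') (B := A' + s) (by omega) n
  have hA0 : (0 : ℝ) < (A' : ℝ) + 1 := by positivity
  have h4 : (((A' + s : ℕ) : ℝ) + 1) / ((A' : ℝ) + 1) ≤ 16 * ((n : ℝ) + 1) / ε := by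
    rw [hs, div_le_div_iff₀ hA0 hε]
    push_cast
    have b1 : ((n : ℝ) + 1) * d + 1 ≤ 2 * (((n : ℝ) + 1) * d) := by nlinarith
    have b2 : (((n : ℝ) + 1) * d + 1) * ε ≤ 2 * (((n : ℝ) + 1) * d) * ε := mul_le_mul_of_nonneg_right b1 hε.le
    have b3 : ((n : ℝ) + 1) * (ε * d) ≤ ((n : ℝ) + 1) * (8 * ((A' : ℝ) + 1)) :=
      mul_le_mul_of_nonneg_left hA (by positivity)
    linarith [(by ring : 2 * (((n : ℝ) + 1) * d) * ε = 2 * (((n : ℝ) + 1) * (ε * d))),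
      (by ring : 16 * ((n : ℝ) + 1) * ((A' : ℝ) + 1) = 2 * (((n : ℝ) + 1) * (8 * ((A' : ℝ) + 1))))]
  obtain ⟨C, hC⟩ : ∃ C : ℝ, C = ((A' + n).choose n : ℝ) := ⟨_, rfl⟩
  obtain ⟨P, hP⟩ : ∃ P : ℝ, P = (pc (wP n K) m : ℝ) := ⟨_, rfl⟩
  obtain ⟨U, hU⟩ : ∃ U : ℝ, U = ((Unk n K A' m μ').ncard : ℝ) := ⟨_, rfl⟩
  have hC1 : 1 ≤ C := by
    rw [hC]
    have : 1 ≤ (A' + n).choose n := Nat.choose_pos (by omega)
    exact_mod_cast this
  have hP1 : 1 ≤ P := by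
    rw [hP]
    exact_mod_cast hpc
  have h2' : C * P ≤ 2 * U := by
    rw [hC, hP, hU]
    exact_mod_cast h2
  have h5 : ((A' + s + n).choose n : ℝ) ≤ (16 * ((n : ℝ) + 1) / ε) ^ n * C := by
    rw [hC]
    refine h3.trans (mul_le_mul_of_nonneg_right (pow_le_pow_left₀ (by positivity) h4 n) (Nat.cast_nonneg _))
  have h6 : (nbad n K m 1 : ℝ) ≤ 2 ^ K * y ^ ((lam - 1) * n + 1) * P := by
    rw [hP]
    refine h1.trans (mul_le_mul_of_nonneg_right (mul_le_mul_of_nonneg_right ?_ (by positivity)) (Nat.cast_nonneg _))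
    exact_mod_cast Nat.choose_le_two_pow K (n - 1)
  have h7 : ((n : ℝ) + 1) * (((A' + s + n).choose n : ℝ) * (nbad n K m 1 : ℝ)) ≤
      ((n : ℝ) + 1) * (((16 * ((n : ℝ) + 1) / ε) ^ n * C) * (2 ^ K * y ^ ((lam - 1) * n + 1) * P)) :=
    mul_le_mul_of_nonneg_left (mul_le_mul h5 h6 (Nat.cast_nonneg _) (by positivity)) (by positivity)
  have h8 : ((n : ℝ) + 1) * (((16 * ((n : ℝ) + 1) / ε) ^ n * C) * (2 ^ K * y ^ ((lam - 1) * n + 1) * P)) =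
      (2 * ((n : ℝ) + 1) * (16 * ((n : ℝ) + 1) / ε) ^ n * 2 ^ K * y ^ ((lam - 1) * n + 1)) * (C * P) / 2 := by ring
  have hCP : 0 < C * P := by positivity
  have h9 := mul_lt_mul_of_pos_right hnum hCP
  unfold CountS
  have h10 : (((n + 1) * ((A' + s + n).choose n * nbad n K m 1) : ℕ) : ℝ) < ((Unk n K A' m μ').ncard : ℝ) := by
    rw [← hU]
    push_cast
    linarith
  exact_mod_cast h10

end Pool.Agent.H89X
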