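import Pool.Agent.Lib.H89X.K16

set_option autoImplicit false

/-!
CHUNK K19 (M), H89X.  Numerical bounds.
-/

open Finset

namespace Pool.Agent.H89X

theorem k19_log {a b : ℕ} {x : ℝ} (h : (2 : ℝ) ^ a ≤ x ^ b) : (a : ℝ) * 0.6931 ≤ b * Real.log x := by
  have h1 : Real.log ((2 : ℝ) ^ a) ≤ Real.log (x ^ b) := Real.log_le_log (by positivity) h
  rw [Real.log_pow, Real.log_pow] at h1
  have h2 := Real.log_two_gt_d9
  have h3 : (a : ℝ) * 0.6931 ≤ a * Real.log 2 :=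
    mul_le_mul_of_nonneg_left (by linarith) (Nat.cast_nonneg a)
  linarith

theorem k19_base {n d : ℕ} {ε : ℝ} (hn : 2 ≤ n) (hε : 0 < ε) (hε1 : ε ≤ 1)
    (h : (45 * (n : ℝ) * (1 + Real.log d)) ^ 3 ≤ ε ^ 3 * d) :
    1 ≤ d ∧ 1 ≤ 1 + Real.log d ∧
      3 * (Real.log 45 + Real.log n + Real.log (1 + Real.log d)) ≤ Real.log d := by
  have hn' : (2 : ℝ) ≤ n := by exact_mod_cast hn
  have hd0 : 1 ≤ d := by
    rcases Nat.eq_zero_or_pos d with h0 | h0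
    · exfalso
      rw [h0, Nat.cast_zero, Real.log_zero, add_zero, mul_one, mul_zero] at h
      have h1 : 0 < (45 * (n : ℝ)) ^ 3 := by positivity
      linarith
    · exact h0
  have hdR : (1 : ℝ) ≤ d := by exact_mod_cast hd0
  have hlog : 0 ≤ Real.log d := Real.log_nonneg hdR
  refine ⟨hd0, by linarith, ?_⟩
  have hT : (0 : ℝ) < 1 + Real.log d := by linarith
  have h1 : ε ^ 3 * d ≤ d := by
    have h2 : ε ^ 3 ≤ 1 := pow_le_one₀ hε.le hε1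
    have h3 : ε ^ 3 * d ≤ 1 * d := mul_le_mul_of_nonneg_right h2 (by linarith)
    linarith
  have h2 := Real.log_le_log (by positivity) (h.trans h1)
  rw [Real.log_pow, Real.log_mul (by positivity) hT.ne', Real.log_mul (by norm_num) (by positivity)] at h2
  push_cast at h2
  exact h2

theorem k19_45 : (3.74 : ℝ) ≤ Real.log 45 := by
  have h := k19_log (a := 27) (b := 5) (x := 45) (by norm_num)
  push_cast at h
  linarith

theorem k19_costW {N r D L H μ T e : ℝ} (hN : 2 ≤ N) (he : 0 < e) (he1 : e ≤ 1) (hT : 22 ≤ T)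
    (hD : (45 * N * T) ^ 3 ≤ e ^ 3 * D) (hL4 : 4 ≤ L) (hL : L ≤ T / 2) (hr0 : 0 ≤ r) (h1 : 400 * N ≤ e * r)
    (h2 : e * r ≤ 400 * N + e) (hH1 : 1 ≤ H) (hH : H ≤ T) (hμ : μ ≤ 5 / 2 * N * L * (r ^ 2 + N) * H + 1) :
    200 * N * r * D + L * N * (r ^ 2 + N) ^ 2 + μ + 2 * (r ^ 2 + N) * μ ≤ 3 / 4 * (e * r ^ 2 * D) := by
  have hN0 : 0 < N := by linarith
  have hL0 : 0 < L := by linarith
  have hH0 : 0 < H := by linarith
  have hT0 : 0 < T := by linarith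
  have e3 : 0 < e ^ 3 := by positivity
  have hNT : 0 < (45 * N * T) ^ 3 := by positivity
  have hD0 : 0 ≤ D := by
    by_contra hc
    push Not at hc
    have : e ^ 3 * D < 0 := mul_neg_of_pos_of_neg e3 hc
    linarith
  have her : e * r ≤ r := by
    have : e * r ≤ 1 * r := mul_le_mul_of_nonneg_right he1 hr0
    linarith
  have hrN : 400 * N ≤ r := by linarith
  have hr2 : 160000 * N ^ 2 ≤ r ^ 2 := by
    have h3 : (400 * N) ^ 2 ≤ r ^ 2 := pow_le_pow_left₀ (by positivity) hrN 2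
    linarith [h3, (by ring : (400 * N) ^ 2 = 160000 * N ^ 2)]
  have hr3 : 320000 * N ≤ r ^ 2 := by nlinarith
  have hr4 : 640000 ≤ r ^ 2 := by linarith
  obtain ⟨R, hR⟩ : ∃ R, R = r ^ 2 := ⟨_, rfl⟩
  obtain ⟨k, hk⟩ : ∃ k, k = r ^ 2 + N := ⟨_, rfl⟩
  obtain ⟨P, hP⟩ : ∃ P, P = N * L * H := ⟨_, rfl⟩
  have hk4 : 640000 ≤ k := by linarith
  have hP8 : 8 ≤ P := by
    have h3 : 8 ≤ N * L := by nlinarith
    have h4 : N * L * 1 ≤ N * L * H := mul_le_mul_of_nonneg_left hH1 (by positivity)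
    rw [hP]
    linarith
  have hPN : P ≤ N * (T ^ 2 / 2) := by
    have h3 : L * H ≤ T / 2 * T := mul_le_mul hL hH hH0.le (by positivity)
    have h4 : N * (L * H) ≤ N * (T / 2 * T) := mul_le_mul_of_nonneg_left h3 hN0.le
    rw [hP]
    linarith [(by ring : N * (L * H) = N * L * H), (by ring : N * (T / 2 * T) = N * (T ^ 2 / 2))]
  -- the sum of the three terms
  have hc1 : L * N * k ^ 2 + μ + 2 * k * μ ≤ 6.01 * (P * k ^ 2) := by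
    have h3 : (1 + 2 * k) * μ ≤ (1 + 2 * k) * (5 / 2 * P * k + 1) := by
      refine mul_le_mul_of_nonneg_left ?_ (by linarith)
      have h4 : 5 / 2 * N * L * (r ^ 2 + N) * H + 1 = 5 / 2 * P * k + 1 := by
        rw [hP, hk]
        ring
      linarith
    have h4 : L * N * k ^ 2 ≤ P * k ^ 2 := by
      refine mul_le_mul_of_nonneg_right ?_ (by positivity)
      rw [hP]
      have h5 : N * L * 1 ≤ N * L * H := mul_le_mul_of_nonneg_left hH1 (by positivity)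
      linarith
    have h5 : 640000 * (P * k) ≤ k * (P * k) :=
      mul_le_mul_of_nonneg_right hk4 (by positivity)
    have h6 : 8 * k ≤ P * k := mul_le_mul_of_nonneg_right hP8 (by linarith)
    have h7 : (1 + 2 * k) * (5 / 2 * P * k + 1) = 5 * (k * (P * k)) + 5 / 2 * (P * k) + 1 + 2 * k := by ring
    have h8 : P * k ^ 2 = k * (P * k) := by ring
    rw [h8] at h4 ⊢
    have h9 : μ + 2 * k * μ = (1 + 2 * k) * μ := by ring
    nlinarith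
  have hc2 : k ^ 2 ≤ 1.0001 * (R * R) := by
    have h3 : k ≤ (1 + 1 / 320000) * R := by
      rw [hk, hR]
      linarith
    have h4 : k ^ 2 ≤ ((1 + 1 / 320000) * R) ^ 2 := pow_le_pow_left₀ (by linarith) h3 2
    have h5 : 0 ≤ R * R := mul_self_nonneg R
    have h6 : ((1 + 1 / 320000) * R) ^ 2 = (1 + 1 / 320000) ^ 2 * (R * R) := by ring
    rw [h6] at h4
    have h7 : ((1 : ℝ) + 1 / 320000) ^ 2 ≤ 1.0001 := by norm_num
    have h8 := mul_le_mul_of_nonneg_right h7 h5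
    linarith
  have hR0 : 0 < R := by
    rw [hR]
    linarith
  have hc3 : e ^ 2 * R ≤ 160801 * N ^ 2 := by
    have h3 : e * r ≤ 401 * N := by linarith
    have h4 : (e * r) ^ 2 ≤ (401 * N) ^ 2 := pow_le_pow_left₀ (by positivity) h3 2
    rw [hR]
    linarith [h4, (by ring : (e * r) ^ 2 = e ^ 2 * r ^ 2), (by ring : (401 * N) ^ 2 = 160801 * N ^ 2)]
  have hP0 : 0 < P := by linarith
  have hc4 : 6.01 * (P * k ^ 2) ≤ 6.011 * (P * (R * R)) := by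
    have h3 : P * k ^ 2 ≤ P * (1.0001 * (R * R)) := mul_le_mul_of_nonneg_left hc2 hP0.le
    have h4 : 0 ≤ P * (R * R) := by positivity
    nlinarith
  have hc5 : 6.011 * (P * (R * R)) ≤ 1 / 4 * (e * R * D) := by
    have h3 : e ^ 2 * (6.011 * (P * (R * R))) ≤ e ^ 2 * (1 / 4 * (e * R * D)) := by
      have h4 : e ^ 2 * (6.011 * (P * (R * R))) = 6.011 * (P * R) * (e ^ 2 * R) := by ring
      have h5 : 6.011 * (P * R) * (e ^ 2 * R) ≤ 6.011 * (P * R) * (160801 * N ^ 2) :=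
        mul_le_mul_of_nonneg_left hc3 (by positivity)
      have h6 : P * R ≤ N * (T ^ 2 / 2) * R := mul_le_mul_of_nonneg_right hPN hR0.le
      have h7 : (P * R) * N ^ 2 ≤ (N * (T ^ 2 / 2) * R) * N ^ 2 := mul_le_mul_of_nonneg_right h6 (by positivity)
      have h8 : e ^ 2 * (1 / 4 * (e * R * D)) = 1 / 4 * R * (e ^ 3 * D) := by ring
      have h9 : 1 / 4 * R * (45 * N * T) ^ 3 ≤ 1 / 4 * R * (e ^ 3 * D) :=
        mul_le_mul_of_nonneg_left hD (by positivity)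
      have h10 : 22 * (N ^ 3 * T ^ 2 * R) ≤ T * (N ^ 3 * T ^ 2 * R) :=
        mul_le_mul_of_nonneg_right hT (by positivity)
      have h11 : 1 / 4 * R * (45 * N * T) ^ 3 = 91125 / 4 * (T * (N ^ 3 * T ^ 2 * R)) := by ring
      have h12 : (N * (T ^ 2 / 2) * R) * N ^ 2 = 1 / 2 * (N ^ 3 * T ^ 2 * R) := by ring
      have h13 : 0 ≤ N ^ 3 * T ^ 2 * R := by positivity
      rw [h4, h8]
      nlinarith
    exact le_of_mul_le_mul_left h3 (by positivity)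
  have hc6 : 200 * N * r * D ≤ 1 / 2 * (e * R * D) := by
    have h3 : 0 ≤ (e * r - 400 * N) * (r * D) := mul_nonneg (by linarith) (by positivity)
    rw [hR]
    nlinarith
  have hc7 : 3 / 4 * (e * r ^ 2 * D) = 1 / 2 * (e * R * D) + 1 / 4 * (e * R * D) := by
    rw [hR]
    ring
  rw [hc7, ← hk]
  linarith

theorem k19_costS {N D L H μ T e s A : ℝ} (hN : 2 ≤ N) (he : 0 < e) (he1 : e ≤ 1) (hT : 22 ≤ T)
    (hD : (45 * N * T) ^ 3 ≤ e ^ 3 * D) (hL4 : 4 ≤ L) (hL : L ≤ T / 2) (hs : 1 ≤ e * s) (hs2 : e * s ≤ 2)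
    (hA : A ≤ e * D / 8) (hH1 : 1 ≤ H) (hH : H ≤ T)
    (hμ : μ ≤ 5 / 2 * N * (16 * s) * (L * N) * H + 1) :
    A + 16 * s * N * (L * N) ^ 2 + μ + 2 * (L * N) * μ ≤ 3 / 16 * (e * D) := by
  have hN0 : 0 < N := by linarith
  have hL0 : 0 < L := by linarith
  have hH0 : 0 < H := by linarith
  have hT0 : 0 < T := by linarith
  have hs1 : 1 ≤ s := by
    by_contra hc
    push Not at hc
    have hs0 : 0 < s := by
      by_contra hc2
      push Not at hc2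
      have : e * s ≤ 0 := mul_nonpos_of_nonneg_of_nonpos he.le hc2
      linarith
    have : e * s ≤ 1 * s := mul_le_mul_of_nonneg_right he1 hs0.le
    linarith
  obtain ⟨K, hK⟩ : ∃ K, K = L * N := ⟨_, rfl⟩
  have hK8 : 8 ≤ K := by
    rw [hK]
    nlinarith
  rw [← hK] at hμ ⊢
  have hK0 : 0 < K := by linarith
  obtain ⟨Q, hQ⟩ : ∃ Q, Q = s * N * K * H := ⟨_, rfl⟩
  have hQ1 : 1 ≤ Q := by
    have h3 : 1 ≤ s * N := by nlinarith
    have h4 : 1 ≤ s * N * K := by nlinarith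
    rw [hQ]
    nlinarith
  have h1 : (1 + 2 * K) * μ ≤ 3 * K * (40 * Q + 1) := by
    have h2 : μ ≤ 40 * Q + 1 := by
      have h3 : 5 / 2 * N * (16 * s) * K * H + 1 = 40 * Q + 1 := by
        rw [hQ]
        ring
      linarith
    have h4 : (1 + 2 * K) * μ ≤ (1 + 2 * K) * (40 * Q + 1) := mul_le_mul_of_nonneg_left h2 (by linarith)
    have h5 : (1 + 2 * K) * (40 * Q + 1) ≤ 3 * K * (40 * Q + 1) :=
      mul_le_mul_of_nonneg_right (by linarith) (by linarith)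
    linarith
  have h2 : K ≤ K * Q := by
    have := mul_le_mul_of_nonneg_left hQ1 hK0.le
    linarith
  have h3 : 16 * s * N * K ^ 2 ≤ 16 * (K * Q) := by
    have h4 : 16 * s * N * K ^ 2 * 1 ≤ 16 * s * N * K ^ 2 * H :=
      mul_le_mul_of_nonneg_left hH1 (by positivity)
    have h5 : 16 * s * N * K ^ 2 * H = 16 * (K * Q) := by
      rw [hQ]
      ring
    linarith
  have h4 : A + 16 * s * N * K ^ 2 + μ + 2 * K * μ ≤ A + 139 * (K * Q) := by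
    have h5 : μ + 2 * K * μ = (1 + 2 * K) * μ := by ring
    nlinarith
  have h5 : 139 * (K * Q) ≤ e * D / 16 := by
    have h6 : e * (139 * (K * Q)) ≤ e * (e * D / 16) := by
      have h7 : e * (139 * (K * Q)) = 139 * (N * K ^ 2 * H) * (e * s) := by
        rw [hQ]
        ring
      have h8 : 139 * (N * K ^ 2 * H) * (e * s) ≤ 139 * (N * K ^ 2 * H) * 2 :=
        mul_le_mul_of_nonneg_left hs2 (by positivity)
      have h9 : K ^ 2 ≤ (T / 2 * N) ^ 2 := by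
        refine pow_le_pow_left₀ hK0.le ?_ 2
        rw [hK]
        exact mul_le_mul_of_nonneg_right hL hN0.le
      have h10 : K ^ 2 * H ≤ (T / 2 * N) ^ 2 * T := mul_le_mul h9 hH hH0.le (by positivity)
      have h11 : N * (K ^ 2 * H) ≤ N * ((T / 2 * N) ^ 2 * T) := mul_le_mul_of_nonneg_left h10 hN0.le
      have h12 : N * ((T / 2 * N) ^ 2 * T) = 1 / 4 * (N * T) ^ 3 := by ring
      have h13 : (45 * N * T) ^ 3 = 91125 * (N * T) ^ 3 := by ring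
      have h14 : 0 ≤ (N * T) ^ 3 := by positivity
      have h15 : e ^ 3 * D ≤ e ^ 2 * D := by
        have hD0 : 0 ≤ D := by
          by_contra hc
          push Not at hc
          have h16 : e ^ 3 * D < 0 := mul_neg_of_pos_of_neg (by positivity) hc
          linarith
        have h17 : e ^ 3 ≤ e ^ 2 := pow_le_pow_of_le_one he.le he1 (by norm_num)
        exact mul_le_mul_of_nonneg_right h17 hD0
      have h18 : e * (e * D / 16) = e ^ 2 * D / 16 := by ring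
      have h19 : N * (K ^ 2 * H) = N * K ^ 2 * H := by ring
      rw [h7, h18]
      rw [h13] at hD
      linarith
    exact le_of_mul_le_mul_left h6 he
  linarith

/-- PROOF.  `2 ≤ n`: `1 ≤ Nat.log 2 n`; `2 ^ Nat.log 2 n ≤ n < 2 ^ (Nat.log 2 n + 1)` (`Nat.pow_log_le_self`, `Nat.lt_pow_succ_log_self`). -/
theorem lam_facts {n : ℕ} (hn : 2 ≤ n) : 4 ≤ Nat.log 2 n + 3 ∧ 2 ^ (Nat.log 2 n + 3) ≤ 8 * n ∧
    2 * n + 2 ≤ 2 ^ (Nat.log 2 n + 3 - 1) := by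
  have h1 : 1 ≤ Nat.log 2 n := Nat.log_pos one_lt_two hn
  have h2 : 2 ^ Nat.log 2 n ≤ n := Nat.pow_log_le_self 2 (by omega)
  have h3 : n < 2 ^ (Nat.log 2 n + 1) := Nat.lt_pow_succ_log_self one_lt_two n
  refine ⟨by omega, ?_, ?_⟩
  · rw [pow_add]
    omega
  · have h4 : Nat.log 2 n + 3 - 1 = (Nat.log 2 n + 1) + 1 := by omega
    rw [h4, pow_succ]
    omega

/-- PROOF.  `T = 1 + log d`; `d ≥ 1` (otherwise `log 0 = 0` and `(45 n) ^ 3 ≤ 0`), so `T ≥ 1`.  `(45 n T) ^ 3 ≤ d` (`ε ≤ 1`), so `3 log (45 n T) ≤ log d = T - 1`;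
`n ≥ 2`: `T ≥ 1 + 3 log 90 + 3 log T`, `log 90 ≥ 4.49` (`Real.log_two_gt_d9`: `90 = 2 ^ 6 * 1.40625`, or `exp 4.49 ≤ 90`), so `T ≥ 14.4`, then `log T ≥ log 14.4 ≥ 2.6`, `T ≥ 22`. -/
theorem T_ge {n d : ℕ} {ε : ℝ} (hn : 2 ≤ n) (hε : 0 < ε) (hε1 : ε ≤ 1)
    (h : (45 * (n : ℝ) * (1 + Real.log d)) ^ 3 ≤ ε ^ 3 * d) : 22 ≤ 1 + Real.log d := by
  obtain ⟨hd, hT1, hb⟩ := k19_base hn hε hε1 h
  have h45 := k19_45
  have hn' : (2 : ℝ) ≤ n := by exact_mod_cast hn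
  have hlogn : (0.693 : ℝ) ≤ Real.log n := by
    have h1 := k19_log (a := 1) (b := 1) (x := (n : ℝ)) (by rw [pow_one, pow_one]; exact hn')
    push_cast at h1
    linarith
  obtain ⟨T, hT⟩ : ∃ T, T = 1 + Real.log d := ⟨_, rfl⟩
  rw [← hT] at hT1 hb ⊢
  have hlogT : 0 ≤ Real.log T := Real.log_nonneg hT1
  have h2 : (14.29 : ℝ) ≤ T := by linarith
  have h3 := k19_log (a := 19) (b := 5) (x := T) (by
    have h4 : (14.29 : ℝ) ^ 5 ≤ T ^ 5 := pow_le_pow_left₀ (by norm_num) h2 5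
    refine le_trans ?_ h4
    norm_num)
  push_cast at h3
  linarith

/-- PROOF.  `Nat.log 2 n ≤ log n / log 2 ≤ (3 / 2) log n` (`2 ^ Nat.log 2 n ≤ n`, `log 2 ≥ 2 / 3`); `T ≥ 1 + 3 log n + 3 log 45 ≥ 12 + 3 log n` (`log 45 ≥ 11 / 3`),
and `T ≥ 22`; so `lam ≤ 3 + (3 / 2) log n ≤ T / 2`. -/
theorem lam_le {n d : ℕ} {ε : ℝ} (hn : 2 ≤ n) (hε : 0 < ε) (hε1 : ε ≤ 1)
    (h : (45 * (n : ℝ) * (1 + Real.log d)) ^ 3 ≤ ε ^ 3 * d) :
    ((Nat.log 2 n + 3 : ℕ) : ℝ) ≤ (1 + Real.log d) / 2 := by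
  obtain ⟨hd, hT1, hb⟩ := k19_base hn hε hε1 h
  have h45 := k19_45
  have hlogT : 0 ≤ Real.log (1 + Real.log d) := Real.log_nonneg hT1
  have hlogn : 0 ≤ Real.log n := Real.log_natCast_nonneg n
  have h1 := k19_log (a := Nat.log 2 n) (b := 1) (x := (n : ℝ)) (by
    rw [pow_one]
    have h2 : 2 ^ Nat.log 2 n ≤ n := Nat.pow_log_le_self 2 (by omega)
    exact_mod_cast h2)
  rw [Nat.cast_one, one_mul] at h1
  push_cast
  have h2 : (Nat.log 2 n : ℝ) ≤ 3 / 2 * Real.log n := by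
    have h3 : (0 : ℝ) ≤ (Nat.log 2 n : ℝ) := Nat.cast_nonneg _
    linarith
  linarith

/-- PROOF.  `ρ ≤ 401 n / ε` (`n ≥ 1 ≥ ε`), `ρ ^ 2 ≤ 160801 n ^ 2 / ε ^ 2`, `T ≥ 22`: `d ≥ (990 n / ε) ^ 3 ≥ 970299000 n ^ 3 / ε ^ 3`. -/
theorem k_le {n d ρ : ℕ} {ε : ℝ} (hn : 2 ≤ n) (hε : 0 < ε) (hε1 : ε ≤ 1)
    (h : (45 * (n : ℝ) * (1 + Real.log d)) ^ 3 ≤ ε ^ 3 * d) (hρ : ε * ρ ≤ 400 * n + ε) :
    ρ ^ 2 + n ≤ d := by
  have hT := T_ge hn hε hε1 h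
  have hn' : (2 : ℝ) ≤ n := by exact_mod_cast hn
  have h1 : ε * ρ ≤ 401 * n := by linarith
  have h2 : (ε * ρ) ^ 2 ≤ (401 * (n : ℝ)) ^ 2 := pow_le_pow_left₀ (by positivity) h1 2
  have h3 : (45 * (n : ℝ) * 22) ^ 3 ≤ ε ^ 3 * d := by
    refine le_trans (pow_le_pow_left₀ (by positivity) ?_ 3) h
    exact mul_le_mul_of_nonneg_left hT (by positivity)
  have h4 : ε ^ 3 * ((ρ : ℝ) ^ 2 + n) ≤ ε ^ 3 * d := by
    have h5 : ε ^ 3 * (ρ : ℝ) ^ 2 ≤ (ε * ρ) ^ 2 := by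
      have h6 : ε * (ε * ρ) ^ 2 ≤ 1 * (ε * ρ) ^ 2 := mul_le_mul_of_nonneg_right hε1 (by positivity)
      linarith [(by ring : ε * (ε * (ρ : ℝ)) ^ 2 = ε ^ 3 * (ρ : ℝ) ^ 2)]
    have h7 : ε ^ 3 * (n : ℝ) ≤ n := by
      have h8 : ε ^ 3 ≤ 1 := pow_le_one₀ hε.le hε1
      have h9 : ε ^ 3 * (n : ℝ) ≤ 1 * n := mul_le_mul_of_nonneg_right h8 (by positivity)
      linarith
    have h10 : (401 * (n : ℝ)) ^ 2 + n ≤ (45 * (n : ℝ) * 22) ^ 3 := by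
      have h11 : (n : ℝ) ≤ (n : ℝ) ^ 2 := by nlinarith
      have h12 : (n : ℝ) ^ 2 ≤ (n : ℝ) ^ 3 := by
        have : (n : ℝ) ^ 2 * 1 ≤ (n : ℝ) ^ 2 * n := mul_le_mul_of_nonneg_left (by linarith) (by positivity)
        linarith [(by ring : (n : ℝ) ^ 2 * n = (n : ℝ) ^ 3)]
      have h13 : (0 : ℝ) ≤ (n : ℝ) ^ 3 := by positivity
      nlinarith
    linarith [(by ring : ε ^ 3 * ((ρ : ℝ) ^ 2 + n) = ε ^ 3 * (ρ : ℝ) ^ 2 + ε ^ 3 * n)]
  have h5 : (ρ : ℝ) ^ 2 + n ≤ d := le_of_mul_le_mul_left h4 (by positivity)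
  exact_mod_cast h5

/-- PROOF.  `A = 200 n ρ d ≤ (1 / 2) ε ρ ^ 2 d` (`400 n ≤ ε ρ`).  `k = ρ ^ 2 + n`, `H = HS k ≥ 1`, `H ≤ 1 + log k ≤ T` (`HS_le`, `k ≤ d`: `k_le`).  `k ≥ 640000`, `n ≤ ρ ^ 2 / 320000`:
`m + μ + 2 k μ ≤ lam n k ^ 2 + (2 k + 1) ((5 / 2) n lam k H + 1) ≤ (6 + 1 / 100) lam n k ^ 2 H` and `k ^ 2 ≤ (1 + 1 / 10000) ρ ^ 4`.  It remains
`24.05 lam n ρ ^ 2 H ≤ ε d`: `ρ ^ 2 ≤ 160801 n ^ 2 / ε ^ 2` (`ρ ≤ 401 n / ε`), `lam H ≤ T ^ 2 / 2`: `24.05 * 160801 / 2 * T ^ 2 n ^ 3 / ε ^ 3 ≤ 1934000 T ^ 2 n ^ 3 / ε ^ 3 ≤ 91125 T ^ 3 n ^ 3 / ε ^ 3`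
(`T ≥ 22`). -/
theorem costW {n d ρ lam μ : ℕ} {ε : ℝ} (hn : 2 ≤ n) (hε : 0 < ε) (hε1 : ε ≤ 1)
    (h : (45 * (n : ℝ) * (1 + Real.log d)) ^ 3 ≤ ε ^ 3 * d) (hlam4 : 4 ≤ lam)
    (hlam : (lam : ℝ) ≤ (1 + Real.log d) / 2) (hρ : 400 * (n : ℝ) ≤ ε * ρ) (hρ' : ε * ρ ≤ 400 * n + ε)
    (hμ : (μ : ℝ) ≤ 5 / 2 * (n : ℝ) * lam * (ρ ^ 2 + n : ℕ) * HS (ρ ^ 2 + n) + 1) :
    ((200 * n * ρ * d + lam * n * (ρ ^ 2 + n) ^ 2 + μ + 2 * (ρ ^ 2 + n) * μ : ℕ) : ℝ) ≤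
      3 / 4 * (ε * (ρ : ℝ) ^ 2 * d) := by
  have hT := T_ge hn hε hε1 h
  have hk := k_le hn hε hε1 h hρ'
  have hn' : (2 : ℝ) ≤ n := by exact_mod_cast hn
  have hk1 : 1 ≤ ρ ^ 2 + n := by omega
  have hH : HS (ρ ^ 2 + n) ≤ 1 + Real.log d := by
    refine (HS_le hk1).trans ?_
    have h1 : Real.log ((ρ ^ 2 + n : ℕ) : ℝ) ≤ Real.log d :=
      Real.log_le_log (by exact_mod_cast hk1) (by exact_mod_cast hk)
    linarith
  have h1 := k19_costW (N := (n : ℝ)) (r := (ρ : ℝ)) (D := (d : ℝ)) (L := (lam : ℝ)) (H := HS (ρ ^ 2 + n))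
    (μ := (μ : ℝ)) (T := 1 + Real.log d) (e := ε) hn' hε hε1 hT h (by exact_mod_cast hlam4) hlam
    (Nat.cast_nonneg ρ) hρ hρ' (HS_ge hk1) hH (by
      push_cast at hμ
      exact hμ)
  push_cast
  exact h1

/-- PROOF.  `K = lam n ≥ 8`, `H = HS K ≥ 1`, `H ≤ 1 + log K ≤ T` (`K ≤ T n / 2 ≤ d`).  `16 s0 n K ^ 2 + (2 K + 1) μ' ≤ 16 s0 n K ^ 2 + 3 K (40 s0 n K H + 1) ≤ 139 s0 n K ^ 2 H`;
`s0 ≤ 2 / ε`; `139 * 2 / ε * n ^ 3 lam ^ 2 H ≤ 278 / ε * n ^ 3 T ^ 3 / 4 ≤ ε d / 16` (`d ≥ 91125 n ^ 3 T ^ 3 / ε ^ 3`). -/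
theorem costS {n d lam s0 A' μ' : ℕ} {ε : ℝ} (hn : 2 ≤ n) (hε : 0 < ε) (hε1 : ε ≤ 1)
    (h : (45 * (n : ℝ) * (1 + Real.log d)) ^ 3 ≤ ε ^ 3 * d) (hlam4 : 4 ≤ lam)
    (hlam : (lam : ℝ) ≤ (1 + Real.log d) / 2) (hs0 : 1 ≤ ε * s0) (hs0' : ε * s0 ≤ 2)
    (hA : (A' : ℝ) ≤ ε * d / 8)
    (hμ : (μ' : ℝ) ≤ 5 / 2 * (n : ℝ) * (16 * s0 : ℕ) * (lam * n : ℕ) * HS (lam * n) + 1) :
    ((A' + 16 * s0 * n * (lam * n) ^ 2 + μ' + 2 * (lam * n) * μ' : ℕ) : ℝ) ≤ 3 / 16 * (ε * d) := by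
  have hT := T_ge hn hε hε1 h
  have hn' : (2 : ℝ) ≤ n := by exact_mod_cast hn
  have hK1 : 1 ≤ lam * n := Nat.mul_pos (by omega) (by omega)
  have hKd : ((lam * n : ℕ) : ℝ) ≤ d := by
    obtain ⟨T, hTT⟩ : ∃ T, T = 1 + Real.log d := ⟨_, rfl⟩
    rw [← hTT] at h hlam hT
    have h1 : (lam : ℝ) * n ≤ T / 2 * n := mul_le_mul_of_nonneg_right hlam (by positivity)
    have h2 : ε ^ 3 * d ≤ d := by
      have h3 : ε ^ 3 ≤ 1 := pow_le_one₀ hε.le hε1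
      have h4 : ε ^ 3 * (d : ℝ) ≤ 1 * d := mul_le_mul_of_nonneg_right h3 (Nat.cast_nonneg d)
      linarith
    have h3 : (45 * (n : ℝ) * T) ^ 1 ≤ (45 * (n : ℝ) * T) ^ 3 := by
      refine pow_le_pow_right₀ ?_ (by norm_num)
      nlinarith
    rw [pow_one] at h3
    push_cast
    nlinarith
  have hH : HS (lam * n) ≤ 1 + Real.log d := by
    refine (HS_le hK1).trans ?_
    have h1 : Real.log ((lam * n : ℕ) : ℝ) ≤ Real.log d :=
      Real.log_le_log (by exact_mod_cast hK1) hKd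
    linarith
  have h1 := k19_costS (N := (n : ℝ)) (D := (d : ℝ)) (L := (lam : ℝ)) (H := HS (lam * n))
    (μ := (μ' : ℝ)) (T := 1 + Real.log d) (e := ε) (s := (s0 : ℝ)) (A := (A' : ℝ)) hn' hε hε1 hT h
    (by exact_mod_cast hlam4) hlam hs0 hs0' hA (HS_ge hK1) hH (by
      push_cast at hμ
      exact hμ)
  push_cast
  exact h1

end Pool.Agent.H89X
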