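import Pool.Agent.Lib.H89X.K1

set_option autoImplicit false

/-!
CHUNK K2 (M), H89X.  Monomials: the identity `m p (m) = ∑ w_p ∑_{j ≥ 1} p (m - j w_p)`.
-/

open Finset

namespace Pool.Agent.H89X

open Pool.Agent.H53V

variable {α : Type} [Fintype α] [DecidableEq α]

/-- PROOF.  `ν p = ∑ j ∈ Icc 1 (m / w p), if j ≤ ν p then 1 else 0` (as `ν p ≤ m / w p`, `Nat.le_div_iff_mul_le`); exchange the sums (`sum_comm`), `card_filter`, `pz_ge`. -/
theorem pz_sum {w : α → ℕ} (hw : ∀ p, 1 ≤ w p) {T : Finset α} {p : α} (hp : p ∉ T) (m : ℕ) :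
    ∑ ν ∈ FZs w T m, ν p = ∑ j ∈ Icc 1 (m / w p), pz w T (m - j * w p) := by
  have h1 : ∀ ν ∈ FZs w T m, ν p = ∑ j ∈ Icc 1 (m / w p), if j ≤ ν p then 1 else 0 := by
    intro ν hν
    rw [mem_FZs hw] at hν
    have h2 : w p * ν p ≤ ∑ p, w p * ν p :=
      single_le_sum (f := fun p => w p * ν p) (fun _ _ => Nat.zero_le _) (mem_univ p)
    rw [hν.1, mul_comm] at h2
    have h3 : ν p ≤ m / w p := (Nat.le_div_iff_mul_le (hw p)).2 h2
    rw [← card_filter]
    have h4 : (Icc 1 (m / w p)).filter (fun j => j ≤ ν p) = Icc 1 (ν p) := by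
      ext j
      rw [mem_filter, mem_Icc, mem_Icc]
      omega
    rw [h4, Nat.card_Icc, Nat.add_sub_cancel]
  rw [sum_congr rfl h1, sum_comm]
  refine sum_congr rfl fun j hj => ?_
  rw [← card_filter]
  exact pz_ge hw hp ((Nat.le_div_iff_mul_le (hw p)).1 (mem_Icc.1 hj).2)

/-- PROOF.  `m * pz w T m = ∑ ν ∈ FZs w T m, ∑ p, w p * ν p` (`sum_const`), the terms `p ∈ T` vanish; `sum_comm`, `pz_sum`. -/
theorem pz_id {w : α → ℕ} (hw : ∀ p, 1 ≤ w p) (T : Finset α) (m : ℕ) :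
    m * pz w T m = ∑ p ∈ univ \ T, w p * ∑ j ∈ Icc 1 (m / w p), pz w T (m - j * w p) := by
  have h1 : m * pz w T m = ∑ ν ∈ FZs w T m, ∑ p ∈ univ \ T, w p * ν p := by
    have h2 : ∀ ν ∈ FZs w T m, ∑ p ∈ univ \ T, w p * ν p = m := by
      intro ν hν
      rw [mem_FZs hw] at hν
      rw [← hν.1]
      refine sum_subset (subset_univ _) fun p _ hp => ?_
      have hp' : p ∈ T := by
        by_contra h
        exact hp (mem_sdiff.2 ⟨mem_univ p, h⟩)
      rw [hν.2 p hp', mul_zero]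
    rw [sum_congr rfl h2, sum_const, smul_eq_mul, mul_comm, pz]
  rw [h1, sum_comm]
  refine sum_congr rfl fun p hp => ?_
  rw [← mul_sum, pz_sum hw (mem_sdiff.1 hp).2]

end Pool.Agent.H89X
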