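import Pool.Agent.Lib.H89X.K17
import Pool.Agent.Lib.H89X.K18
import Pool.Agent.Lib.H89X.K19

set_option autoImplicit false

/-!
CHUNK K20 (S/M), H89X.  Module K: the choice of the parameters.
-/

open MvPolynomial Real MeasureTheory

namespace Pool.Agent.H89X

open Pool.Agent.H89T Pool.Agent.H67T Pool.Agent.H53U Pool.Agent.H53V Pool.Agent.H44K

/-- MODULE K, with better constants.
PROOF.  `ρ = ⌈400 n / ε⌉₊` (`400 n ≤ ε ρ ≤ 400 n + ε`: `Nat.le_ceil`, `Nat.ceil_lt_add_one`; `400 n ≤ ρ` as `ε ≤ 1`), `r = ρ ^ 2`, `k = ρ ^ 2 + n`, `lam = Nat.log 2 n + 3`, `J = K = lam n`, `m = lam n k ^ 2`,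
`A = 200 n ρ d`, `μ = ⌈(5 / 2) n lam k HS k⌉₊`, `s0 = ⌈1 / ε⌉₊` (`1 ≤ ε s0 ≤ 1 + ε ≤ 2`), `m' = 16 s0 n K ^ 2`, `μ' = ⌈(5 / 2) n (16 s0) K HS K⌉₊`, `A' = ⌊ε d / 8⌋₊` (`≤ d`), `s = (n + 1) d - A'`.
`countW_main`, `countS_main`, `costW`, `costS`, `k_le`, `lam_facts`, `lam_le`, `T_ge`; `K = lam n ≤ T n ≤ d`.  The last inequality: `(3 / 4) ε r d + r (3 / 16) ε d + r + 1 ≤ ε r d`, because `2 ≤ ε d / 16`. -/
theorem countX2 {n d : ℕ} {ε : ℝ} (hn : 2 ≤ n) (hε : 0 < ε) (hε1 : ε ≤ 1)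
    (h : (45 * (n : ℝ) * (1 + log d)) ^ 3 ≤ ε ^ 3 * d) :
    ∃ r J k A m μ K A' m' μ' s : ℕ, 1 ≤ r ∧ r + n ≤ k ∧ k ≤ d ∧ 2 ≤ J ∧ 1 ≤ K ∧ K ≤ J ∧ K ≤ d ∧
      CountW n d r J k A m μ ∧ (n + 1) * d ≤ A' + s ∧ CountS n K A' m' μ' s ∧
      ((A + m + μ + 2 * k * μ + r * (A' + m' + μ' + 2 * K * μ') + r + 1 : ℕ) : ℝ) ≤ ε * r * d := by
  have hn' : (2 : ℝ) ≤ n := by exact_mod_cast hn
  have hT := T_ge hn hε hε1 h
  obtain ⟨hlam4, hlam8, hlam2⟩ := lam_facts hn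
  have hlamT := lam_le hn hε hε1 h
  obtain ⟨lam, hlam⟩ : ∃ lam, lam = Nat.log 2 n + 3 := ⟨_, rfl⟩
  rw [← hlam] at hlam4 hlam8 hlam2 hlamT
  obtain ⟨ρ, hρd⟩ : ∃ ρ, ρ = ⌈400 * (n : ℝ) / ε⌉₊ := ⟨_, rfl⟩
  have hρ1 : 400 * (n : ℝ) ≤ ε * ρ := by
    have h1 : 400 * (n : ℝ) / ε ≤ ρ := by
      rw [hρd]
      exact Nat.le_ceil _
    rw [div_le_iff₀ hε] at h1
    linarith
  have hρ2 : ε * ρ ≤ 400 * n + ε := by
    have h1 : (ρ : ℝ) < 400 * (n : ℝ) / ε + 1 := by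
      rw [hρd]
      exact Nat.ceil_lt_add_one (by positivity)
    have h2 : ε * ρ ≤ ε * (400 * (n : ℝ) / ε + 1) := mul_le_mul_of_nonneg_left h1.le hε.le
    have h3 : ε * (400 * (n : ℝ) / ε + 1) = 400 * n + ε := by
      field_simp
    linarith
  have hρ3 : 400 * n ≤ ρ := by
    have h1 : ε * ρ ≤ 1 * ρ := mul_le_mul_of_nonneg_right hε1 (Nat.cast_nonneg _)
    have h2 : (400 * n : ℝ) ≤ ρ := by linarith
    exact_mod_cast h2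
  obtain ⟨s0, hs0d⟩ : ∃ s0, s0 = ⌈1 / ε⌉₊ := ⟨_, rfl⟩
  have hs1 : 1 ≤ ε * s0 := by
    have h1 : 1 / ε ≤ s0 := by
      rw [hs0d]
      exact Nat.le_ceil _
    rw [div_le_iff₀ hε] at h1
    linarith
  have hs2 : ε * s0 ≤ 2 := by
    have h1 : (s0 : ℝ) < 1 / ε + 1 := by
      rw [hs0d]
      exact Nat.ceil_lt_add_one (by positivity)
    have h2 : ε * s0 ≤ ε * (1 / ε + 1) := mul_le_mul_of_nonneg_left h1.le hε.le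
    have h3 : ε * (1 / ε + 1) = 1 + ε := by
      field_simp
    linarith
  have hkd := k_le hn hε hε1 h hρ2
  have hd2 : 2 ≤ d := by omega
  have hεd : 32 ≤ ε * d := by
    have h1 : (45 * (2 : ℝ) * 22) ^ 3 ≤ (45 * (n : ℝ) * (1 + log d)) ^ 3 := by
      refine pow_le_pow_left₀ (by norm_num) ?_ 3
      exact mul_le_mul (mul_le_mul_of_nonneg_left hn' (by norm_num)) hT (by norm_num) (by positivity)
    have h2 : ε ^ 3 * d ≤ ε * d :=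
      mul_le_mul_of_nonneg_right (pow_le_of_le_one hε.le hε1 (by norm_num)) (Nat.cast_nonneg _)
    have h3 : (32 : ℝ) ≤ (45 * (2 : ℝ) * 22) ^ 3 := by norm_num
    linarith
  obtain ⟨A', hA'd⟩ : ∃ A', A' = ⌊ε * d / 8⌋₊ := ⟨_, rfl⟩
  have hA1 : (A' : ℝ) ≤ ε * d / 8 := by
    rw [hA'd]
    exact Nat.floor_le (by positivity)
  have hA2 : ε * d ≤ 8 * ((A' : ℝ) + 1) := by
    have h1 : ε * d / 8 < (A' : ℝ) + 1 := by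
      rw [hA'd]
      exact Nat.lt_floor_add_one _
    linarith
  have hA3 : A' ≤ (n + 1) * d := by
    have h1 : (A' : ℝ) ≤ d := by
      have h2 : ε * d ≤ 1 * d := mul_le_mul_of_nonneg_right hε1 (Nat.cast_nonneg _)
      have h3 : (0 : ℝ) ≤ d := Nat.cast_nonneg _
      linarith
    have h2 : A' ≤ d := by exact_mod_cast h1
    have h3 : d ≤ (n + 1) * d := Nat.le_mul_of_pos_left d (by omega)
    omega
  have hHk : 1 ≤ HS (ρ ^ 2 + n) := HS_ge (by omega)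
  have hK1 : 1 ≤ lam * n := Nat.mul_pos (by omega) (by omega)
  have hHK : 1 ≤ HS (lam * n) := HS_ge hK1
  obtain ⟨μ, hμd⟩ : ∃ μ, μ = ⌈5 / 2 * (n : ℝ) * lam * (ρ ^ 2 + n : ℕ) * HS (ρ ^ 2 + n)⌉₊ := ⟨_, rfl⟩
  have hμ1 : 5 / 2 * (n : ℝ) * lam * (ρ ^ 2 + n : ℕ) * HS (ρ ^ 2 + n) ≤ μ := by
    rw [hμd]
    exact Nat.le_ceil _
  have hμ2 : (μ : ℝ) ≤ 5 / 2 * (n : ℝ) * lam * (ρ ^ 2 + n : ℕ) * HS (ρ ^ 2 + n) + 1 := by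
    rw [hμd]
    exact (Nat.ceil_lt_add_one (mul_nonneg (by positivity) (by linarith))).le
  obtain ⟨μ', hμ'd⟩ : ∃ μ', μ' = ⌈5 / 2 * (n : ℝ) * (16 * s0 : ℕ) * (lam * n : ℕ) * HS (lam * n)⌉₊ := ⟨_, rfl⟩
  have hμ'1 : 5 / 2 * (n : ℝ) * (16 * s0 : ℕ) * (lam * n : ℕ) * HS (lam * n) ≤ μ' := by
    rw [hμ'd]
    exact Nat.le_ceil _
  have hμ'2 : (μ' : ℝ) ≤ 5 / 2 * (n : ℝ) * (16 * s0 : ℕ) * (lam * n : ℕ) * HS (lam * n) + 1 := by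
    rw [hμ'd]
    exact (Nat.ceil_lt_add_one (mul_nonneg (by positivity) (by linarith))).le
  have hρ4 : 1 ≤ ρ ^ 2 := Nat.one_le_pow _ _ (by omega)
  have hK2 : 2 ≤ lam * n := le_trans hn (Nat.le_mul_of_pos_left n (by omega))
  have hKd : lam * n ≤ d := by
    have h1 : lam < 2 ^ lam := Nat.lt_two_pow_self
    have h2 : lam ≤ 8 * n := by omega
    have h3 : lam * n ≤ 8 * n * n := Nat.mul_le_mul_right n h2
    have h4 : (400 * n) ^ 2 ≤ ρ ^ 2 := Nat.pow_le_pow_left hρ3 2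
    have h5 : (400 * n) ^ 2 = 160000 * (n * n) := by ring
    have h6 : 8 * n * n = 8 * (n * n) := by ring
    omega
  have hW := costW hn hε hε1 h hlam4 hlamT hρ1 hρ2 hμ2
  have hS := costS hn hε hε1 h hlam4 hlamT hs1 hs2 hA1 hμ'2
  refine ⟨ρ ^ 2, lam * n, ρ ^ 2 + n, 200 * n * ρ * d, lam * n * (ρ ^ 2 + n) ^ 2, μ, lam * n, A',
    16 * s0 * n * (lam * n) ^ 2, μ', (n + 1) * d - A', hρ4, le_rfl, hkd, hK2, hK1, le_rfl, hKd,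
    countW_main hn hd2 hlam4 hlam8 hρ3 hμ1, by omega,
    countS_main hn (by omega) hε hε1 hlam4 hlam2 hs1 hA2 (by omega) hμ'1, ?_⟩
  obtain ⟨W, hWd⟩ : ∃ W : ℕ, W = 200 * n * ρ * d + lam * n * (ρ ^ 2 + n) ^ 2 + μ + 2 * (ρ ^ 2 + n) * μ := ⟨_, rfl⟩
  obtain ⟨S, hSd⟩ : ∃ S : ℕ, S = A' + 16 * s0 * n * (lam * n) ^ 2 + μ' + 2 * (lam * n) * μ' := ⟨_, rfl⟩
  rw [← hWd] at hW ⊢
  rw [← hSd] at hS ⊢
  have hR : (1 : ℝ) ≤ (ρ : ℝ) ^ 2 := by exact_mod_cast hρ4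
  have h1 : (ρ : ℝ) ^ 2 * S ≤ (ρ : ℝ) ^ 2 * (3 / 16 * (ε * d)) := mul_le_mul_of_nonneg_left hS (by positivity)
  have h2 : (ρ : ℝ) ^ 2 * 32 ≤ (ρ : ℝ) ^ 2 * (ε * d) := mul_le_mul_of_nonneg_left hεd (by positivity)
  push_cast
  linarith [(by ring : ε * (ρ : ℝ) ^ 2 * d = (ρ : ℝ) ^ 2 * (ε * d)),
    (by ring : (ρ : ℝ) ^ 2 * (3 / 16 * (ε * d)) = 3 / 16 * ((ρ : ℝ) ^ 2 * (ε * d)))]

end Pool.Agent.H89X
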