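import Mathlib

set_option autoImplicit false

/-!
CHUNK K3 (S/M), H89X.  Sums over arithmetic progressions of a monotone function.  ONLY MATHLIB.
-/

open Finset

namespace Pool.Agent.H89X

/-- PROOF.  Strong induction on `m`.  `m < i`: `Icc 1 0` is empty.  `i ≤ m`: `m / i = (m - i) / i + 1`; the sum over `Icc 1 (m / i)` is `f (m - i)` (for `j = 1`)
plus `∑ j ∈ Icc 1 ((m - i) / i), f ((m - i) - j * i)` (shift `j ↦ j + 1`); `i * f (m - i) ≤ ∑ j ∈ Ico (m - i) m, f j`
(`card_nsmul_le_sum`), `range m = range (m - i) ∪ Ico (m - i) m` (`sum_range_add_sum_Ico` or `Finset.sum_range_add_sum_Ico`). -/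
theorem block_le {f : ℕ → ℕ} (hf : Monotone f) {i : ℕ} (hi : 1 ≤ i) (m : ℕ) :
    i * ∑ j ∈ Icc 1 (m / i), f (m - j * i) ≤ ∑ j ∈ range m, f j := by
  have hIcc : ∀ (n : ℕ) (g : ℕ → ℕ), ∑ j ∈ Icc 1 n, g j = ∑ j ∈ range n, g (j + 1) := by
    intro n g
    induction n with
    | zero => simp
    | succ n ih => rw [Finset.sum_Icc_succ_top (by omega), ih, Finset.sum_range_succ]
  rw [hIcc]
  induction m using Nat.strong_induction_on with
  | _ m ih =>
    rcases lt_or_ge m i with h | h
    · rw [Nat.div_eq_of_lt h]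
      simp
    · obtain ⟨k, rfl⟩ := Nat.exists_eq_add_of_le' h
      have h1 : (k + i) / i = k / i + 1 := Nat.add_div_right k hi
      have h2 := ih k (by omega)
      have h3 : ∀ j, k + i - (j + 1 + 1) * i = k - (j + 1) * i := by
        intro j
        rw [add_mul (j + 1) 1 i, one_mul, Nat.add_sub_add_right]
      have h4 : i * f k ≤ ∑ x ∈ range i, f (k + x) := by
        have h5 : ∑ _x ∈ range i, f k ≤ ∑ x ∈ range i, f (k + x) :=
          Finset.sum_le_sum fun x _ => hf (Nat.le_add_right k x)
        simpa using h5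
      rw [h1, Finset.sum_range_succ', Finset.sum_range_add, mul_add]
      simp only [h3]
      rw [zero_add, one_mul, Nat.add_sub_cancel]
      exact add_le_add h2 h4

/-- PROOF.  Strong induction on `m`.  `m < i`: `range 1`, `∑_{j ≤ m} f j ≤ (m + 1) f m ≤ i f m`.  `i ≤ m`: the sum over `range (m / i + 1)` is `f m` plus the sum over
`range ((m - i) / i + 1)` of `f ((m - i) - j * i)`; `∑ j ∈ Ico (m - i + 1) (m + 1), f j ≤ i * f m`. -/
theorem block_ge {f : ℕ → ℕ} (hf : Monotone f) {i : ℕ} (hi : 1 ≤ i) (m : ℕ) :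
    ∑ j ∈ range (m + 1), f j ≤ i * ∑ j ∈ range (m / i + 1), f (m - j * i) := by
  induction m using Nat.strong_induction_on with
  | _ m ih =>
    rcases lt_or_ge m i with h | h
    · rw [Nat.div_eq_of_lt h]
      have h1 : ∑ j ∈ range (m + 1), f j ≤ ∑ _j ∈ range (m + 1), f m :=
        Finset.sum_le_sum fun x hx => hf (Nat.lt_succ_iff.1 (Finset.mem_range.1 hx))
      refine h1.trans ?_
      simp only [sum_const, card_range, smul_eq_mul, zero_add, range_one, sum_singleton, zero_mul,
        Nat.sub_zero]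
      exact Nat.mul_le_mul_right _ h
    · obtain ⟨k, rfl⟩ := Nat.exists_eq_add_of_le' h
      have h1 : (k + i) / i = k / i + 1 := Nat.add_div_right k hi
      have h2 := ih k (by omega)
      have h3 : ∀ j, k + i - (j + 1) * i = k - j * i := by
        intro j
        rw [add_mul j 1 i, one_mul, Nat.add_sub_add_right]
      have h4 : ∑ x ∈ range i, f (k + 1 + x) ≤ i * f (k + i) := by
        have h5 : ∑ x ∈ range i, f (k + 1 + x) ≤ ∑ _x ∈ range i, f (k + i) := by
          refine Finset.sum_le_sum fun x hx => hf ?_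
          have := Finset.mem_range.1 hx
          omega
        simpa using h5
      have h6 : k + i + 1 = k + 1 + i := by omega
      rw [h1, Finset.sum_range_succ' _ (k / i + 1), h6, Finset.sum_range_add, mul_add]
      simp only [h3]
      rw [zero_mul, Nat.sub_zero]
      exact add_le_add h2 h4

end Pool.Agent.H89X
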