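import Pool.Agent.Lib.H89X.K2
import Pool.Agent.Lib.H89X.K3

set_option autoImplicit false

/-!
CHUNK K4 (M), H89X.  Monomials: comparison of `p (m)` with its partial sums.
-/

open Finset

namespace Pool.Agent.H89X

open Pool.Agent.H53V

variable {α : Type} [Fintype α] [DecidableEq α]

/-- PROOF.  `pz_id`, `block_le` (`pz_mono`) for every `p`, at most `card α` terms. -/
theorem pz_le_sum {w : α → ℕ} (hw : ∀ p, 1 ≤ w p) {T : Finset α} {p0 : α} (h0 : w p0 = 1) (hT : p0 ∉ T)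
    (m : ℕ) : m * pz w T m ≤ Fintype.card α * ∑ j ∈ range m, pz w T j := by
  rw [pz_id hw T m]
  have h1 : ∀ p ∈ univ \ T, w p * ∑ j ∈ Icc 1 (m / w p), pz w T (m - j * w p) ≤ ∑ j ∈ range m, pz w T j :=
    fun p _ => block_le (pz_mono hw h0 hT) (hw p) m
  refine (Finset.sum_le_card_nsmul _ _ _ h1).trans ?_
  rw [smul_eq_mul]
  exact Nat.mul_le_mul_right _ (card_le_univ _)

/-- PROOF.  `pz_le_sum`, `sum_range_succ`. -/
theorem pz_le_sz {w : α → ℕ} (hw : ∀ p, 1 ≤ w p) {T : Finset α} {p0 : α} (h0 : w p0 = 1) (hT : p0 ∉ T)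
    (m : ℕ) : (m + Fintype.card α) * pz w T m ≤ Fintype.card α * sz w T m := by
  unfold sz
  rw [sum_range_succ, add_mul, mul_add]
  exact Nat.add_le_add_right (pz_le_sum hw h0 hT m) _

theorem k4_range (g : ℕ → ℕ) (n : ℕ) : ∑ j ∈ range (n + 1), g j = ∑ j ∈ Icc 1 n, g j + g 0 := by
  induction n with
  | zero => simp
  | succ n ih =>
    rw [sum_range_succ, ih, Finset.sum_Icc_succ_top (by omega)]
    ring

/-- PROOF.  `pz_id` for `T = ∅`; for every `p`: `w p * ∑ j ∈ Icc 1 (m / w p), .. + w p * pc w m = w p * ∑ j ∈ range (m / w p + 1), .. ≥ sz w ∅ m` (`block_ge`). -/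
theorem sz_le_pc {w : α → ℕ} (hw : ∀ p, 1 ≤ w p) {p0 : α} (h0 : w p0 = 1) (m : ℕ) :
    Fintype.card α * sz w ∅ m ≤ (m + ∑ p, w p) * pc w m := by
  have hmono := pz_mono hw h0 (notMem_empty p0)
  have h1 : ∀ p : α, sz w ∅ m ≤ w p * ∑ j ∈ Icc 1 (m / w p), pz w ∅ (m - j * w p) + w p * pc w m := by
    intro p
    have h2 := block_ge hmono (hw p) m
    rw [k4_range (fun j => pz w ∅ (m - j * w p)), Nat.zero_mul, Nat.sub_zero, mul_add, pz_empty w m] at h2
    exact h2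
  have h3 : Fintype.card α * sz w ∅ m ≤
      ∑ p, (w p * ∑ j ∈ Icc 1 (m / w p), pz w ∅ (m - j * w p) + w p * pc w m) := by
    have h4 := Finset.card_nsmul_le_sum univ _ (sz w ∅ m) fun p _ => h1 p
    rwa [smul_eq_mul, card_univ] at h4
  refine h3.trans ?_
  have h5 := pz_id hw ∅ m
  rw [sdiff_empty, pz_empty w m] at h5
  rw [sum_add_distrib, ← h5, ← sum_mul, add_mul]

/-- PROOF.  The exponent `m e_(p0)`. -/
theorem pc_pos {w : α → ℕ} (hw : ∀ p, 1 ≤ w p) {p0 : α} (h0 : w p0 = 1) (m : ℕ) : 1 ≤ pc w m := by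
  unfold pc
  rw [Nat.one_le_iff_ne_zero, Ne, card_eq_zero, ← Ne, ← nonempty_iff_ne_empty]
  refine ⟨Pi.single p0 m, ?_⟩
  rw [mem_FS hw, sum_eq_single p0]
  · rw [Pi.single_eq_same, h0, one_mul]
  · intro p _ hp
    rw [Pi.single_eq_of_ne hp, mul_zero]
  · intro h
    exact absurd (mem_univ _) h

end Pool.Agent.H89X
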