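import Pool.Agent.Lib.H89X.K4

set_option autoImplicit false

/-!
CHUNK K5 (M), H89X.  Monomials: growth.
-/

open Finset

namespace Pool.Agent.H89X

open Pool.Agent.H53V

variable {α : Type} [Fintype α] [DecidableEq α]

/-- PROOF.  Induction on `l`: `sz (m + l + 1) = sz (m + l) + pz (m + l + 1)` and `(m + l + 1) * pz (m + l + 1) ≤ card α * sz (m + l)` (`pz_le_sum`), so
`sz (m + l + 1) ≤ (1 + card α / (m + l + 1)) sz (m + l) ≤ exp (card α / m) sz (m + l)` (`Real.add_one_le_exp`, monotone), `Real.exp_add`. -/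
theorem sz_growth {w : α → ℕ} (hw : ∀ p, 1 ≤ w p) {p0 : α} (h0 : w p0 = 1) {m : ℕ} (hm : 1 ≤ m) (l : ℕ) :
    (sz w ∅ (m + l) : ℝ) ≤ Real.exp ((Fintype.card α : ℝ) * l / m) * sz w ∅ m := by
  have hm0 : (0 : ℝ) < m := by exact_mod_cast hm
  induction l with
  | zero =>
    rw [Nat.cast_zero, mul_zero, zero_div, Real.exp_zero, one_mul, Nat.add_zero]
  | succ l ih =>
    have e1 : sz w ∅ (m + (l + 1)) = sz w ∅ (m + l) + pz w ∅ (m + l + 1) := by
      unfold sz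
      rw [show m + (l + 1) + 1 = (m + l + 1) + 1 from by ring, sum_range_succ]
    have e2 : (m + l + 1) * pz w ∅ (m + l + 1) ≤ Fintype.card α * sz w ∅ (m + l) :=
      pz_le_sum hw h0 (notMem_empty p0) (m + l + 1)
    have e3 : (m : ℝ) * pz w ∅ (m + l + 1) ≤ (Fintype.card α : ℝ) * sz w ∅ (m + l) := by
      have h1 : m * pz w ∅ (m + l + 1) ≤ Fintype.card α * sz w ∅ (m + l) :=
        le_trans (Nat.mul_le_mul_right _ (by omega)) e2
      exact_mod_cast h1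
    have e4 : (pz w ∅ (m + l + 1) : ℝ) ≤ (Fintype.card α : ℝ) / m * sz w ∅ (m + l) := by
      rw [div_mul_eq_mul_div, le_div_iff₀ hm0, mul_comm]
      exact e3
    have e5 : 1 + (Fintype.card α : ℝ) / m ≤ Real.exp ((Fintype.card α : ℝ) / m) := by
      have := Real.add_one_le_exp ((Fintype.card α : ℝ) / m)
      linarith
    have hs0 : (0 : ℝ) ≤ sz w ∅ (m + l) := Nat.cast_nonneg _
    have e6 : (sz w ∅ (m + (l + 1)) : ℝ) = sz w ∅ (m + l) + pz w ∅ (m + l + 1) := by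
      rw [e1, Nat.cast_add]
    have e7 : (Fintype.card α : ℝ) * ((l + 1 : ℕ) : ℝ) / m = (Fintype.card α : ℝ) / m + (Fintype.card α : ℝ) * l / m := by
      rw [Nat.cast_add, Nat.cast_one]
      ring
    rw [e6, e7, Real.exp_add]
    calc (sz w ∅ (m + l) : ℝ) + pz w ∅ (m + l + 1)
        ≤ (1 + (Fintype.card α : ℝ) / m) * sz w ∅ (m + l) := by linarith
      _ ≤ Real.exp ((Fintype.card α : ℝ) / m) * sz w ∅ (m + l) := mul_le_mul_of_nonneg_right e5 hs0
      _ ≤ Real.exp ((Fintype.card α : ℝ) / m) * (Real.exp ((Fintype.card α : ℝ) * l / m) * sz w ∅ m) :=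
          mul_le_mul_of_nonneg_left ih (Real.exp_pos _).le
      _ = Real.exp ((Fintype.card α : ℝ) / m) * Real.exp ((Fintype.card α : ℝ) * l / m) * sz w ∅ m := by ring

/-- PROOF.  `N = card α ≥ 1`.  `(m + l + N) p (m + l) ≤ N sz (m + l) ≤ E N sz m ≤ E (m + W) p (m)` (`pz_le_sz`, `sz_growth`, `sz_le_pc`), and `m ≤ m + l + N`; divide by `m`. -/
theorem pc_growth {w : α → ℕ} (hw : ∀ p, 1 ≤ w p) {p0 : α} (h0 : w p0 = 1) {m : ℕ} (hm : 1 ≤ m) (l : ℕ) :
    (pc w (m + l) : ℝ) ≤ (1 + (∑ p, (w p : ℝ)) / m) * Real.exp ((Fintype.card α : ℝ) * l / m) * pc w m := by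
  have hm0 : (0 : ℝ) < m := by exact_mod_cast hm
  have e1 : (m + l + Fintype.card α) * pz w ∅ (m + l) ≤ Fintype.card α * sz w ∅ (m + l) :=
    pz_le_sz hw h0 (notMem_empty p0) (m + l)
  have e2 := sz_growth hw h0 hm l
  have e3 : Fintype.card α * sz w ∅ m ≤ (m + ∑ p, w p) * pc w m := sz_le_pc hw h0 m
  have e1' : (m : ℝ) * pc w (m + l) ≤ (Fintype.card α : ℝ) * sz w ∅ (m + l) := by
    rw [← pz_empty w (m + l)]
    have h1 : m * pz w ∅ (m + l) ≤ Fintype.card α * sz w ∅ (m + l) :=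
      le_trans (Nat.mul_le_mul_right _ (by omega)) e1
    exact_mod_cast h1
  have e3' : (Fintype.card α : ℝ) * sz w ∅ m ≤ ((m : ℝ) + ∑ p, (w p : ℝ)) * pc w m := by exact_mod_cast e3
  have hE : 0 < Real.exp ((Fintype.card α : ℝ) * l / m) := Real.exp_pos _
  have e4 : (m : ℝ) * pc w (m + l) ≤
      Real.exp ((Fintype.card α : ℝ) * l / m) * (((m : ℝ) + ∑ p, (w p : ℝ)) * pc w m) := by
    calc (m : ℝ) * pc w (m + l) ≤ (Fintype.card α : ℝ) * sz w ∅ (m + l) := e1'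
      _ ≤ (Fintype.card α : ℝ) * (Real.exp ((Fintype.card α : ℝ) * l / m) * sz w ∅ m) :=
          mul_le_mul_of_nonneg_left e2 (Nat.cast_nonneg _)
      _ = Real.exp ((Fintype.card α : ℝ) * l / m) * ((Fintype.card α : ℝ) * sz w ∅ m) := by ring
      _ ≤ _ := mul_le_mul_of_nonneg_left e3' hE.le
  have e5 : (pc w (m + l) : ℝ) ≤
      (Real.exp ((Fintype.card α : ℝ) * l / m) * (((m : ℝ) + ∑ p, (w p : ℝ)) * pc w m)) / m := by
    rw [le_div_iff₀ hm0, mul_comm]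
    exact e4
  refine le_trans e5 (le_of_eq ?_)
  field_simp

end Pool.Agent.H89X
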