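import Pool.Agent.Lib.H89X.K4

set_option autoImplicit false

/-!
CHUNK K6 (M), H89X.  Monomials: removal of variables.
-/

open Finset

namespace Pool.Agent.H89X

open Pool.Agent.H53V

variable {α : Type} [Fintype α] [DecidableEq α]

/-- PROOF.  `T' = insert p1 T`; `p0 ∉ T'`.  `m * pz w T' m ≤ (m + N) * pz w T' m ≤ N * sz w T' m` (`pz_le_sz`) and
`sz w T' m ≤ w p1 * ∑ j ∈ range (m / w p1 + 1), pz w T' (m - j * w p1) = w p1 * pz w T m` (`block_ge`, `pz_mono`, `pz_split`). -/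
theorem pz_insert {w : α → ℕ} (hw : ∀ p, 1 ≤ w p) {T : Finset α} {p0 p1 : α} (h0 : w p0 = 1) (hT : p0 ∉ T)
    (h1 : p1 ∉ T) (h01 : p1 ≠ p0) (m : ℕ) :
    m * pz w (insert p1 T) m ≤ Fintype.card α * w p1 * pz w T m := by
  have hT' : p0 ∉ insert p1 T := by
    rw [mem_insert, not_or]
    exact ⟨fun h => h01 h.symm, hT⟩
  have h2 := pz_le_sz hw h0 hT' m
  have h3 := block_ge (pz_mono hw h0 hT') (hw p1) m
  rw [← pz_split hw h1 m] at h3
  calc m * pz w (insert p1 T) m ≤ (m + Fintype.card α) * pz w (insert p1 T) m :=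
        Nat.mul_le_mul_right _ (Nat.le_add_right _ _)
    _ ≤ Fintype.card α * sz w (insert p1 T) m := h2
    _ ≤ Fintype.card α * (w p1 * pz w T m) := Nat.mul_le_mul_left _ h3
    _ = Fintype.card α * w p1 * pz w T m := by ring

/-- PROOF.  `Finset.induction_on` for `T`, `pz_insert`, `pz_empty`, `prod_insert`, `card_insert_of_notMem`. -/
theorem pz_remove {w : α → ℕ} (hw : ∀ p, 1 ≤ w p) {p0 : α} (h0 : w p0 = 1) (T : Finset α) (hT : p0 ∉ T)
    (m : ℕ) : m ^ T.card * pz w T m ≤ (∏ p ∈ T, Fintype.card α * w p) * pc w m := by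
  induction T using Finset.induction_on with
  | empty => rw [card_empty, pow_zero, one_mul, prod_empty, one_mul, pz_empty]
  | insert p1 T h1 ih =>
    rw [mem_insert, not_or] at hT
    rw [card_insert_of_notMem h1, prod_insert h1]
    calc m ^ (T.card + 1) * pz w (insert p1 T) m = m ^ T.card * (m * pz w (insert p1 T) m) := by ring
      _ ≤ m ^ T.card * (Fintype.card α * w p1 * pz w T m) :=
        Nat.mul_le_mul_left _ (pz_insert hw h0 hT.2 h1 (fun h => hT.1 h.symm) m)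
      _ = Fintype.card α * w p1 * (m ^ T.card * pz w T m) := by ring
      _ ≤ Fintype.card α * w p1 * ((∏ p ∈ T, Fintype.card α * w p) * pc w m) :=
        Nat.mul_le_mul_left _ (ih hT.2)
      _ = _ := by ring

/-- PROOF.  `pz_remove`, cast to the reals: `N w p ≤ y m` for `p ∈ T`, so `∏ ≤ (y m) ^ card`; divide by `m ^ card > 0`. -/
theorem pz_remove_real {w : α → ℕ} (hw : ∀ p, 1 ≤ w p) {p0 : α} (h0 : w p0 = 1) (T : Finset α) (hT : p0 ∉ T)
    {m : ℕ} (hm : 1 ≤ m) {y : ℝ} (hy : ∀ p ∈ T, (Fintype.card α : ℝ) * w p ≤ y * m) :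
    (pz w T m : ℝ) ≤ y ^ T.card * pc w m := by
  have h1 : ((m : ℝ) ^ T.card) * pz w T m ≤ (∏ p ∈ T, (Fintype.card α : ℝ) * w p) * pc w m := by
    have := pz_remove hw h0 T hT m
    exact_mod_cast this
  have h2 : ∏ p ∈ T, (Fintype.card α : ℝ) * w p ≤ (y * m) ^ T.card := by
    rw [← prod_const]
    exact prod_le_prod (fun p _ => by positivity) hy
  have hm' : (0 : ℝ) < (m : ℝ) ^ T.card := by
    have : (0 : ℝ) < m := by exact_mod_cast hm
    positivity
  have h3 : ((m : ℝ) ^ T.card) * pz w T m ≤ (m : ℝ) ^ T.card * (y ^ T.card * pc w m) := by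
    refine h1.trans ((mul_le_mul_of_nonneg_right h2 (Nat.cast_nonneg _)).trans (le_of_eq ?_))
    rw [mul_pow]
    ring
  exact le_of_mul_le_mul_left h3 hm'

end Pool.Agent.H89X
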