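import Pool.Agent.Lib.H89X.K4

set_option autoImplicit false

/-!
CHUNK K7 (M), H89X.  Monomials: the number of the factors.
-/

open Finset

namespace Pool.Agent.H89X

open Pool.Agent.H53V

variable {α : Type} [Fintype α] [DecidableEq α]

/-- PROOF.  `∑ ν ∈ FS w m, ∑ p, ν p = ∑ p, ∑ j ∈ Icc 1 (m / w p), pc w (m - j * w p)` (`sum_comm`, `pz_sum` with `T = ∅`, `pz_empty`), and for every `p`
(`block_le`, `pz_mono`) `∑ j .. ≤ (1 / w p) sz w ∅ m` (`range m ⊆ range (m + 1)`); `sz w ∅ m ≤ (m + W) / N * pc w m` (`sz_le_pc`, `N = card α ≥ 1`). -/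
theorem sum_factors {w : α → ℕ} (hw : ∀ p, 1 ≤ w p) {p0 : α} (h0 : w p0 = 1) (m : ℕ) :
    ((∑ ν ∈ FS w m, ∑ p, ν p : ℕ) : ℝ) ≤
      (∑ p, 1 / (w p : ℝ)) * (((m : ℝ) + ∑ p, (w p : ℝ)) / Fintype.card α) * pc w m := by
  have hFS : FS w m = FZs w ∅ m := by
    unfold FZs
    rw [filter_true_of_mem]
    intro ν _ p hp
    exact absurd hp (notMem_empty p)
  have h1 : (∑ ν ∈ FS w m, ∑ p, ν p) = ∑ p, ∑ j ∈ Icc 1 (m / w p), pz w ∅ (m - j * w p) := by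
    rw [sum_comm]
    refine sum_congr rfl fun p _ => ?_
    rw [hFS]
    exact pz_sum hw (notMem_empty p) m
  have hmono : Monotone (pz w ∅) := pz_mono hw h0 (notMem_empty p0)
  have h2 : ∀ p, ((∑ j ∈ Icc 1 (m / w p), pz w ∅ (m - j * w p) : ℕ) : ℝ) ≤
      1 / (w p : ℝ) * (sz w ∅ m : ℝ) := by
    intro p
    have h3 := block_le hmono (hw p) m
    have h4 : ∑ j ∈ range m, pz w ∅ j ≤ sz w ∅ m := by
      unfold sz
      exact sum_le_sum_of_subset (range_mono (Nat.le_succ m))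
    have hp : (0 : ℝ) < w p := by exact_mod_cast (hw p)
    rw [one_div, ← div_eq_inv_mul, le_div_iff₀ hp, mul_comm]
    exact_mod_cast h3.trans h4
  have hN : (0 : ℝ) < Fintype.card α := by
    exact_mod_cast Fintype.card_pos_iff.2 ⟨p0⟩
  have h5 : (sz w ∅ m : ℝ) ≤ ((m : ℝ) + ∑ p, (w p : ℝ)) / Fintype.card α * pc w m := by
    rw [div_mul_eq_mul_div, le_div_iff₀ hN, mul_comm]
    have h6 := sz_le_pc hw h0 m
    exact_mod_cast h6
  rw [h1, Nat.cast_sum]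
  calc ∑ p, ((∑ j ∈ Icc 1 (m / w p), pz w ∅ (m - j * w p) : ℕ) : ℝ)
      ≤ ∑ p, 1 / (w p : ℝ) * (sz w ∅ m : ℝ) := sum_le_sum fun p _ => h2 p
    _ = (∑ p, 1 / (w p : ℝ)) * (sz w ∅ m : ℝ) := by rw [sum_mul]
    _ ≤ (∑ p, 1 / (w p : ℝ)) * (((m : ℝ) + ∑ p, (w p : ℝ)) / Fintype.card α * pc w m) :=
        mul_le_mul_of_nonneg_left h5 (sum_nonneg fun p _ => by positivity)
    _ = _ := by ring

/-- At most a quarter of the monomials has at least `μ` factors.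
PROOF.  Markov: `μ * card ≤ ∑ ν ∈ FS w m, ∑ p, ν p` (`sum_le_sum_of_subset`, `card_nsmul_le_sum`), `sum_factors`; `4 * mean ≤ μ`; if `μ = 0` then `4 * mean ≤ 0`, but
`mean > 0` (`w p0 = 1`: `∑ 1 / w ≥ 1`, `∑ w ≥ 1`). -/
theorem few_factors {w : α → ℕ} (hw : ∀ p, 1 ≤ w p) {p0 : α} (h0 : w p0 = 1) {m μ : ℕ}
    (hμ : 4 * ((∑ p, 1 / (w p : ℝ)) * (((m : ℝ) + ∑ p, (w p : ℝ)) / Fintype.card α)) ≤ μ) :
    4 * ((FS w m).filter fun ν => μ ≤ ∑ p, ν p).card ≤ pc w m := by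
  have h1 := sum_factors hw h0 m
  obtain ⟨M, hM⟩ : ∃ M : ℝ, M = (∑ p, 1 / (w p : ℝ)) * (((m : ℝ) + ∑ p, (w p : ℝ)) / Fintype.card α) :=
    ⟨_, rfl⟩
  rw [← hM] at h1 hμ
  have hM0 : 0 < M := by
    rw [hM]
    have hN : (0 : ℝ) < Fintype.card α := by
      exact_mod_cast Fintype.card_pos_iff.2 ⟨p0⟩
    have h2 : (0 : ℝ) < ∑ p, 1 / (w p : ℝ) := by
      refine sum_pos (fun p _ => ?_) ⟨p0, mem_univ _⟩
      have : (0 : ℝ) < w p := by exact_mod_cast (hw p)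
      positivity
    have h3 : (0 : ℝ) < ∑ p, (w p : ℝ) := by
      refine sum_pos (fun p _ => ?_) ⟨p0, mem_univ _⟩
      exact_mod_cast (hw p)
    have h4 : (0 : ℝ) < (m : ℝ) + ∑ p, (w p : ℝ) := add_pos_of_nonneg_of_pos (Nat.cast_nonneg _) h3
    exact mul_pos h2 (div_pos h4 hN)
  have h2 : μ * ((FS w m).filter fun ν => μ ≤ ∑ p, ν p).card ≤ ∑ ν ∈ FS w m, ∑ p, ν p := by
    calc μ * ((FS w m).filter fun ν => μ ≤ ∑ p, ν p).card
        = ∑ _ν ∈ (FS w m).filter (fun ν => μ ≤ ∑ p, ν p), μ := by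
          rw [sum_const, smul_eq_mul, mul_comm]
      _ ≤ ∑ ν ∈ (FS w m).filter (fun ν => μ ≤ ∑ p, ν p), ∑ p, ν p :=
          sum_le_sum fun ν hν => (mem_filter.1 hν).2
      _ ≤ ∑ ν ∈ FS w m, ∑ p, ν p := sum_le_sum_of_subset (filter_subset _ _)
  have h3 : (μ : ℝ) * (((FS w m).filter fun ν => μ ≤ ∑ p, ν p).card : ℝ) ≤ M * pc w m := by
    refine le_trans ?_ h1
    exact_mod_cast h2
  have h4 : 4 * M * (((FS w m).filter fun ν => μ ≤ ∑ p, ν p).card : ℝ) ≤ M * pc w m :=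
    le_trans (mul_le_mul_of_nonneg_right hμ (Nat.cast_nonneg _)) h3
  have h5 : M * (4 * (((FS w m).filter fun ν => μ ≤ ∑ p, ν p).card : ℝ)) ≤ M * pc w m := by
    calc _ = 4 * M * (((FS w m).filter fun ν => μ ≤ ∑ p, ν p).card : ℝ) := by ring
      _ ≤ _ := h4
  have h6 := le_of_mul_le_mul_left h5 hM0
  exact_mod_cast h6

/-- PROOF.  `few_factors` and `card_filter_add_card_filter_not` (`filter_card_add_filter_neg_card_eq_card`). -/
theorem many_small {w : α → ℕ} (hw : ∀ p, 1 ≤ w p) {p0 : α} (h0 : w p0 = 1) {m μ : ℕ}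
    (hμ : 4 * ((∑ p, 1 / (w p : ℝ)) * (((m : ℝ) + ∑ p, (w p : ℝ)) / Fintype.card α)) ≤ μ) :
    3 * pc w m ≤ 4 * ((FS w m).filter fun ν => ∑ p, ν p < μ).card := by
  have h1 := few_factors hw h0 hμ
  have h2 : ((FS w m).filter fun ν => ∑ p, ν p < μ).card +
      ((FS w m).filter fun ν => μ ≤ ∑ p, ν p).card = pc w m := by
    have h3 := card_filter_add_card_filter_not (s := FS w m) (fun ν => ∑ p, ν p < μ)
    simp only [not_lt] at h3
    exact h3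
  omega

end Pool.Agent.H89X
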