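import Pool.Agent.Lib.H89X.K6
import Pool.Agent.Lib.H89X.K8

set_option autoImplicit false

/-!
CHUNK K9 (M/L), H89X.  The monomials with given multiplicities of the leading terms.
-/

open Finset

namespace Pool.Agent.H89X

variable {α : Type} [Fintype α] [DecidableEq α]

/-- The multiplicities of the leading terms. -/
def tv {n : ℕ} (d i : ℕ) (g : Fin n → α) (β : Fin n → ℕ) (ν : α → ℕ) (b : Fin n) : ℕ :=
  if (b : ℕ) < i then (if (b : ℕ) = 0 then β b / d else min (β b / (d - 1)) (ν (g b))) else 0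

theorem k9_cardB {n i : ℕ} (hin : i ≤ n) :
    (univ.filter fun b : Fin n => 1 ≤ (b : ℕ) ∧ (b : ℕ) < i).card = i - 1 := by
  have h1 : (univ.filter fun b : Fin n => 1 ≤ (b : ℕ) ∧ (b : ℕ) < i).map Fin.valEmbedding = Ico 1 i := by
    ext x
    rw [mem_map, mem_Ico]
    constructor
    · rintro ⟨b, hb, rfl⟩
      exact (mem_filter.1 hb).2
    · rintro ⟨h1, h2⟩
      exact ⟨⟨x, by omega⟩, mem_filter.2 ⟨mem_univ _, h1, h2⟩, rfl⟩
  rw [← card_map Fin.valEmbedding, h1, Nat.card_Ico]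

theorem k9_V {n m : ℕ} {w : α → ℕ} (hw : ∀ p, 1 ≤ w p) {p0 : α} (h0 : w p0 = 1) (g : Fin n → α)
    (hg : ∀ b b' : Fin n, 1 ≤ (b : ℕ) → 1 ≤ (b' : ℕ) → g b = g b' → b = b')
    (hg0 : ∀ b : Fin n, 1 ≤ (b : ℕ) → g b ≠ p0) (hm : 1 ≤ m) {y : ℝ} (hy0 : 0 ≤ y)
    (hy : ∀ b : Fin n, 1 ≤ (b : ℕ) → (Fintype.card α : ℝ) * w (g b) ≤ y * m) (t : Fin n → ℕ)
    (C : Finset (Fin n)) (hC : ∀ b ∈ C, 1 ≤ (b : ℕ)) :
    (((FS w m).filter fun ν => ∀ b ∈ C, ν (g b) = t b).card : ℝ) ≤ y ^ C.card * pc w m := by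
  rcases ((FS w m).filter fun ν => ∀ b ∈ C, ν (g b) = t b).eq_empty_or_nonempty with he | ⟨ν₀, hν₀⟩
  · rw [he, card_empty, Nat.cast_zero]
    positivity
  · rw [mem_filter] at hν₀
    have hsub : ((FS w m).filter fun ν => ∀ b ∈ C, ν (g b) = t b) ⊆
        (FS w m).filter fun ν => ∀ p ∈ C.image g, ν p = ν₀ p := by
      intro ν hν
      rw [mem_filter] at hν ⊢
      refine ⟨hν.1, fun p hp => ?_⟩
      obtain ⟨b, hb, rfl⟩ := mem_image.1 hp
      rw [hν.2 b hb, hν₀.2 b hb]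
    have hT : p0 ∉ C.image g := by
      intro h
      obtain ⟨b, hb, h2⟩ := mem_image.1 h
      exact hg0 b (hC b hb) h2
    have hcard : (C.image g).card = C.card := by
      refine card_image_of_injOn fun b hb b' hb' h => ?_
      exact hg b b' (hC b hb) (hC b' hb') h
    have h1 : ((FS w m).filter fun ν => ∀ b ∈ C, ν (g b) = t b).card ≤ pz w (C.image g) m :=
      (card_le_card hsub).trans (pz_fix_le hw h0 hT ν₀ m)
    have h2 := pz_remove_real hw h0 (C.image g) hT hm (y := y) (fun p hp => by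
      obtain ⟨b, hb, rfl⟩ := mem_image.1 hp
      exact hy b (hC b hb))
    rw [hcard] at h2
    exact le_trans (by exact_mod_cast h1) h2

/-- PROOF.  `B = univ.filter fun b => 1 ≤ b ∧ b < i`, `B.card = i - 1`, `z = ⟨0, _⟩ : Fin n`, `δ b = if b = z then d else d - 1` (between `1` and `d`).  For `x` in the set let
`S = B.filter fun b => x.1 b / (d - 1) = t b`; for `b ∈ B \ S` the minimum is `ν (g b) = t b`.  So the set is contained in the union over `S ∈ B.powerset` of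
`U S ×ˢ V (B \ S)`, `U S = {β ∈ BB n A | ∀ b ∈ insert z S, β b / δ b = t b}`, `V C = {ν ∈ FS w m | ∀ b ∈ C, ν (g b) = t b}`.
`(U S).card ≤ X ^ (S.card + 1) * (A + n).choose n` (`card_BB_real`; `z ∉ S`).  `(V C).card ≤ pz w (C.image g) m ≤ y ^ C.card * pc w m`: if `V C` is not empty take `ν₀ ∈ V C`
and apply `pz_fix_le` with `t = ν₀`; `p0 ∉ C.image g` (`hg0`), `(C.image g).card = C.card` (`hg`), `pz_remove_real`.
`card_biUnion_le`, `card_product`; `∑ S ∈ B.powerset, X ^ S.card * y ^ (B.card - S.card) = (X + y) ^ B.card` (`Finset.sum_pow_mul_eq_add_pow`), `(B \ S).card = B.card - S.card`. -/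
theorem tv_card {n d A m i : ℕ} {w : α → ℕ} (hw : ∀ p, 1 ≤ w p) {p0 : α} (h0 : w p0 = 1) (g : Fin n → α)
    (hg : ∀ b b' : Fin n, 1 ≤ (b : ℕ) → 1 ≤ (b' : ℕ) → g b = g b' → b = b')
    (hg0 : ∀ b : Fin n, 1 ≤ (b : ℕ) → g b ≠ p0) (hd : 2 ≤ d) (hA : 1 ≤ A) (hm : 1 ≤ m) (hi : 1 ≤ i) (hin : i ≤ n)
    {X y : ℝ} (hX : (n : ℝ) * d ≤ X * A) (hX0 : 0 ≤ X) (hy0 : 0 ≤ y)
    (hy : ∀ b : Fin n, 1 ≤ (b : ℕ) → (Fintype.card α : ℝ) * w (g b) ≤ y * m) (t : Fin n → ℕ) :
    (((BB n A ×ˢ FS w m).filter fun x => tv d i g x.1 x.2 = t).card : ℝ) ≤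
      X * (X + y) ^ (i - 1) * ((A + n).choose n * pc w m) := by
  classical
  have hn : 0 < n := by omega
  set z : Fin n := ⟨0, hn⟩ with hz
  set δ : Fin n → ℕ := fun b => if b = z then d else d - 1 with hδdef
  have hδ1 : ∀ b, 1 ≤ δ b := by
    intro b
    show 1 ≤ (if b = z then d else d - 1)
    split_ifs <;> omega
  have hδ2 : ∀ b, δ b ≤ d := by
    intro b
    show (if b = z then d else d - 1) ≤ d
    split_ifs <;> omega
  have hδz : δ z = d := if_pos rfl
  have hδb : ∀ b : Fin n, 1 ≤ (b : ℕ) → δ b = d - 1 := by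
    intro b hb
    refine if_neg fun h => ?_
    rw [h] at hb
    exact absurd hb (by norm_num [hz])
  set B : Finset (Fin n) := univ.filter fun b : Fin n => 1 ≤ (b : ℕ) ∧ (b : ℕ) < i with hB
  have hBc : B.card = i - 1 := k9_cardB hin
  have hB1 : ∀ b ∈ B, 1 ≤ (b : ℕ) ∧ (b : ℕ) < i := fun b hb => (mem_filter.1 hb).2
  have hzB : z ∉ B := fun h => absurd (hB1 z h).1 (by norm_num [hz])
  set U : Finset (Fin n) → Finset (Fin n → ℕ) := fun S =>
    (BB n A).filter fun β => ∀ b ∈ insert z S, β b / δ b = t b with hU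
  set V : Finset (Fin n) → Finset (α → ℕ) := fun C =>
    (FS w m).filter fun ν => ∀ b ∈ C, ν (g b) = t b with hV
  have hsub : ((BB n A ×ˢ FS w m).filter fun x => tv d i g x.1 x.2 = t) ⊆
      B.powerset.biUnion fun S => U S ×ˢ V (B \ S) := by
    intro x hx
    rw [mem_filter, mem_product] at hx
    obtain ⟨⟨hx1, hx2⟩, hx3⟩ := hx
    rw [mem_biUnion]
    refine ⟨B.filter fun b => x.1 b / (d - 1) = t b, mem_powerset.2 (filter_subset _ _), ?_⟩
    rw [mem_product]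
    refine ⟨mem_filter.2 ⟨hx1, ?_⟩, mem_filter.2 ⟨hx2, ?_⟩⟩
    · intro b hb
      rw [mem_insert] at hb
      rcases hb with rfl | hb
      · rw [hδz, ← hx3]
        show x.1 z / d = if ((z : Fin n) : ℕ) < i then (if ((z : Fin n) : ℕ) = 0 then x.1 z / d else min (x.1 z / (d - 1)) (x.2 (g z))) else 0
        rw [if_pos (show ((z : Fin n) : ℕ) < i by show 0 < i; omega), if_pos (show ((z : Fin n) : ℕ) = 0 from rfl)]
      · rw [mem_filter] at hb
        rw [hδb b (hB1 b hb.1).1]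
        exact hb.2
    · intro b hb
      obtain ⟨hb1, hb2⟩ := mem_sdiff.1 hb
      have h1 : ¬ x.1 b / (d - 1) = t b := fun h => hb2 (mem_filter.2 ⟨hb1, h⟩)
      have h2 : t b = min (x.1 b / (d - 1)) (x.2 (g b)) := by
        rw [← hx3]
        show (if (b : ℕ) < i then (if (b : ℕ) = 0 then x.1 b / d else min (x.1 b / (d - 1)) (x.2 (g b))) else 0) = _
        rw [if_pos (hB1 b hb1).2, if_neg (show ¬ (b : ℕ) = 0 by have := (hB1 b hb1).1; omega)]
      rcases min_choice (x.1 b / (d - 1)) (x.2 (g b)) with h3 | h3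
      · exact absurd (h2.trans h3).symm h1
      · exact (h2.trans h3).symm
  have hUc : ∀ S ∈ B.powerset, ((U S).card : ℝ) ≤ X ^ (S.card + 1) * (A + n).choose n := by
    intro S hS
    have h1 := card_BB_real hA (insert z S) δ t hδ1 hδ2 hX
    rw [card_insert_of_notMem (fun h => hzB (mem_powerset.1 hS h))] at h1
    exact h1
  have hVc : ∀ S ∈ B.powerset, ((V (B \ S)).card : ℝ) ≤ y ^ (B.card - S.card) * pc w m := by
    intro S hS
    have h1 := k9_V hw h0 g hg hg0 hm hy0 hy t (B \ S) (fun b hb => (hB1 b (mem_sdiff.1 hb).1).1)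
    rw [card_sdiff_of_subset (mem_powerset.1 hS)] at h1
    exact h1
  calc (((BB n A ×ˢ FS w m).filter fun x => tv d i g x.1 x.2 = t).card : ℝ)
      ≤ ((B.powerset.biUnion fun S => U S ×ˢ V (B \ S)).card : ℝ) := by exact_mod_cast card_le_card hsub
    _ ≤ ((∑ S ∈ B.powerset, (U S ×ˢ V (B \ S)).card : ℕ) : ℝ) := by exact_mod_cast card_biUnion_le
    _ = ∑ S ∈ B.powerset, ((U S).card : ℝ) * (V (B \ S)).card := by
        rw [Nat.cast_sum]
        refine sum_congr rfl fun S _ => ?_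
        rw [card_product, Nat.cast_mul]
    _ ≤ ∑ S ∈ B.powerset, (X ^ (S.card + 1) * (A + n).choose n) * (y ^ (B.card - S.card) * pc w m) := by
        refine sum_le_sum fun S hS => mul_le_mul (hUc S hS) (hVc S hS) (Nat.cast_nonneg _) ?_
        positivity
    _ = X * (∑ S ∈ B.powerset, X ^ S.card * y ^ (B.card - S.card)) * ((A + n).choose n * pc w m) := by
        rw [mul_sum, sum_mul]
        refine sum_congr rfl fun S _ => ?_
        rw [pow_succ]
        ring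
    _ = X * (X + y) ^ (i - 1) * ((A + n).choose n * pc w m) := by
        rw [Finset.sum_pow_mul_eq_add_pow, hBc]

end Pool.Agent.H89X
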