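import Pool.Agent.Lib.H89X.K20

set_option autoImplicit false

/-!
H89X, module K: the choice of the parameters (first form, not used any more; see K20).
-/

open MvPolynomial Real MeasureTheory

namespace Pool.Agent.H89X

open Pool.Agent.H89T Pool.Agent.H67T Pool.Agent.H53U Pool.Agent.H53V Pool.Agent.H44K

/-- MODULE K. -/
theorem countX {n d : ℕ} {ε : ℝ} (hn : 2 ≤ n) (hε : 0 < ε) (hε1 : ε ≤ 1)
    (h : (250 * (n : ℝ) * (1 + log d)) ^ 3 ≤ ε ^ 3 * d) :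
    ∃ r J k A m μ K A' m' μ' s : ℕ, 1 ≤ r ∧ r + n ≤ k ∧ k ≤ d ∧ 2 ≤ J ∧ 1 ≤ K ∧ K ≤ J ∧ K ≤ d ∧
      CountW n d r J k A m μ ∧ (n + 1) * d ≤ A' + s ∧ CountS n K A' m' μ' s ∧
      ((A + m + μ + 2 * k * μ + r * (A' + m' + μ' + 2 * K * μ') + r + 1 : ℕ) : ℝ) ≤ ε * r * d := by
  refine countX2 hn hε hε1 (le_trans (pow_le_pow_left₀ ?_ ?_ 3) h)
  · have := Real.log_natCast_nonneg d
    positivity
  · have := Real.log_natCast_nonneg d
    have h1 : (0 : ℝ) ≤ (n : ℝ) * (1 + log d) := by positivity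
    nlinarith

end Pool.Agent.H89X
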