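import Pool.Agent.Lib.H89X.MD

set_option autoImplicit false

/-!
CHUNK M1 of H89X, module M (moves, PROOF.md section M).  From the nested ring to the flat ring.
-/

open MvPolynomial

namespace Pool.Agent.H89X

open Pool.Agent.H89T Pool.Agent.H67T Pool.Agent.H53U Pool.Agent.H53V Pool.Agent.H44K

variable {n d k : ℕ}

/-- As `flat_PropB` (H89T/C10): the image of `UI k (gen n d) i` under `C10_fl` is contained in `UA n d k i` (`Ideal.map_span`, `flat_uR`), so the image of the power is
contained in the power (`Ideal.map_pow`, `Ideal.mem_map_of_mem`, `Ideal.pow_right_mono`). -/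
theorem flat_UI {i e : ℕ} {P : MvPolynomial (JV n k) (RR n d)} (h : P ∈ UI k (gen n d) i ^ e) :
    flat P ∈ UA n d k i ^ e := by
  have h1 := Ideal.mem_map_of_mem (C10_fl (n := n) (k := d) (r := k)) h
  rw [Ideal.map_pow] at h1
  have h2 : Ideal.map (C10_fl (n := n) (k := d) (r := k)) (UI k (gen n d) i) ≤ UA n d k i := by
    unfold UI UA
    rw [Ideal.map_span, ← Set.range_comp]
    have h3 : (C10_fl (n := n) (k := d) (r := k) ∘ fun s : Fin i => uR (gen n d) (s : ℕ)) =
        fun s : Fin i => (uA (s : ℕ) : AA n d k) := funext fun s => flat_uR _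
    rw [h3]
  exact Ideal.pow_right_mono h2 e h1

/-- `C10_map_iterate`, `flat_UI`. -/
theorem flat_PropW {r J : ℕ} {P : MvPolynomial (JV n k) (RR n d)} (h : PropW (gen n d) r J P) :
    PropWA r J (flat P) := by
  intro j h2 hJ l hl
  rw [← C10_map_iterate]
  exact flat_UI (h j h2 hJ l hl)

/-- `C10_flat_support`: the jet exponents of the monomials of `flat P` are exponents of monomials of `P`. -/
theorem flat_JT {E : ℕ} {P : MvPolynomial (JV n k) (RR n d)} (h : P.totalDegree ≤ E) : JT E (flat P) := by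
  intro ν hν
  obtain ⟨m', hm', h1⟩ := C10_flat_support P ν hν
  simp only [h1]
  have h2 := le_totalDegree hm'
  rw [Finsupp.sum_fintype _ _ (fun _ => rfl)] at h2
  exact h2.trans h

theorem m1_xo (o : Option (Fin n)) : flat (xo (k := k) (R := RR n d) o) = xoA n d k o := by
  unfold xo xoA
  cases o with
  | none => exact map_one (C10_fl (n := n) (k := d) (r := k))
  | some b => exact C10_flat_X _

/-- `E := D + s - d` (`d ≤ D + s` by the case `o = none`, `i = 0`), `c i := flat` of the given coefficients (`flat_mul`, `C10_fl_apply`, `map_sum`, `flat_uR`, `C10_flat_X`),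
`flat_JT`. -/
theorem flat_PropS {D s : ℕ} {P : MvPolynomial (JV n k) (RR n d)} (h : PropS (gen n d) D s P) :
    PropSA D s (flat P) := by
  have hd : d ≤ D + s := by
    obtain ⟨c, _, hc⟩ := h none
    have := hc 0
    omega
  refine ⟨D + s - d, by omega, fun o => ?_⟩
  obtain ⟨c, hc, hdeg⟩ := h o
  refine ⟨fun i => flat (c i), ?_, fun i => flat_JT ?_⟩
  · have h1 := congrArg (C10_fl (n := n) (k := d) (r := k)) hc
    rw [map_mul, map_pow, map_sum] at h1
    simp only [map_mul, C10_fl_apply, flat_uR, m1_xo] at h1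
    exact h1
  · have := hdeg i
    omega

theorem m1_wt (m : JV n k →₀ ℕ) : wt m = xd m + H53V.jw m + jd m := by
  have h1 : ∑ p : JV n k, m p = xd m + jd m := by
    unfold xd jd
    have h2 : ∑ b : Fin n, m (b, 0) = ∑ p : JV n k, if p.2 = 0 then m p else 0 := by
      rw [Fintype.sum_prod_type]
      refine Finset.sum_congr rfl fun b _ => ?_
      rw [Finset.sum_eq_single 0]
      · simp
      · intro l _ hl
        simp [hl]
      · intro h
        exact absurd (Finset.mem_univ _) h
    rw [h2, ← Finset.sum_add_distrib]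
    refine Finset.sum_congr rfl fun p _ => ?_
    split_ifs <;> simp
  have h3 : wt m = H53V.jw m + ∑ p : JV n k, m p := by
    unfold wt H53V.jw
    rw [← Finset.sum_add_distrib]
    refine Finset.sum_congr rfl fun p _ => ?_
    ring
  omega

/-- `C10_flat_support`, `wt ν = xd ν + H53V.jw ν + jd ν` (unfold, `Finset.sum_add_distrib`; `xd ν` is the sum over the `p` with `p.2 = 0`). -/
theorem flat_wt {A m μ : ℕ} {P : MvPolynomial (JV n k) (RR n d)}
    (h : ∀ ν ∈ P.support, xd ν ≤ A ∧ H53V.jw ν = m ∧ jd ν < μ) : WtA (A + m + μ) (flat P) := by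
  intro ν hν
  obtain ⟨m', hm', h1⟩ := C10_flat_support P ν hν
  simp only [h1]
  obtain ⟨h2, h3, h4⟩ := h m' hm'
  have h5 := m1_wt m'
  change wt m' ≤ _
  omega

theorem flat_ne {P : MvPolynomial (JV n k) (RR n d)} (h : P ≠ 0) : flat P ≠ 0 := by
  intro h1
  apply h
  have h2 : (sumAlgEquiv ℂ (JV n k) (Idx n d)).symm P = 0 := h1
  exact (map_eq_zero_iff _ (sumAlgEquiv ℂ (JV n k) (Idx n d)).symm.injective).1 h2

/-- `C10_flat_support`. -/
theorem flat_jd {A m μ : ℕ} {P : MvPolynomial (JV n k) (RR n d)}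
    (h : ∀ ν ∈ P.support, xd ν ≤ A ∧ H53V.jw ν = m ∧ jd ν < μ) :
    ∀ ν ∈ (flat P).support, (∑ p : JV n k, if p.2 = 0 then 0 else ν (Sum.inl p)) < μ := by
  intro ν hν
  obtain ⟨m', hm', h1⟩ := C10_flat_support P ν hν
  simp only [h1]
  exact (h m' hm').2.2

end Pool.Agent.H89X
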