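import Pool.Agent.Lib.H89X.MD
import Pool.Agent.Lib.H89T.C2

set_option autoImplicit false

/-!
CHUNK M3 of H89X, module M (moves, PROOF.md section M).  Iterated commutators with N.
-/

open MvPolynomial

namespace Pool.Agent.H89X

open Pool.Agent.H89T Pool.Agent.H67T Pool.Agent.H53U Pool.Agent.H53V Pool.Agent.H44K

variable {n d k : ℕ}

/-- Induction on `t` (`Function.iterate_succ_apply'`), `Adm.commutator` (H89T/C2.lean) with `s + 1 = k + 1 - t`. -/
theorem Adm_I {g : Idx n d → AA n d k} {lam : Fin n → Polynomial (AA n d k)} (h : Adm (k + 1) g lam)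
    {t : ℕ} (ht : t ≤ k + 1) : Adm (k + 1 - t) (gI g t) (lamI lam t) := by
  induction t with
  | zero => exact h
  | succ t ih =>
    have h1 := ih (by omega)
    rw [show k + 1 - t = (k + 1 - (t + 1)) + 1 by omega] at h1
    have h2 := h1.commutator
    have e1 : gI g (t + 1) = fun α => NA n d k (gI g t α) := by
      funext α
      exact Function.iterate_succ_apply' _ _ _
    have e2 : lamI lam (t + 1) =
        fun b => cf (NA n d k) (lamI lam t b) - Polynomial.derivative (lamI lam t b) := by
      funext b
      exact Function.iterate_succ_apply' _ _ _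
    rw [e1, e2]
    exact h2

/-- Coefficientwise `N` and `d / dt` do not raise the degree: induction on `t`, as in the proof of `Adm.commutator`. -/
theorem natDegree_lamI {lam : Fin n → Polynomial (AA n d k)} (h : ∀ b, (lam b).natDegree ≤ k) (t : ℕ)
    (b : Fin n) : (lamI lam t b).natDegree ≤ k := by
  induction t with
  | zero => exact h b
  | succ t ih =>
    have e2 : lamI lam (t + 1) b =
        cf (NA n d k) (lamI lam t b) - Polynomial.derivative (lamI lam t b) :=
      Function.iterate_succ_apply' _ _ _
    rw [e2]
    refine (Polynomial.natDegree_sub_le _ _).trans (max_le ?_ ?_)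
    · rw [Polynomial.natDegree_le_iff_coeff_eq_zero]
      intro N hN
      rw [coeff_cf, Polynomial.coeff_eq_zero_of_natDegree_lt (lt_of_le_of_lt ih hN), map_zero]
    · exact (Polynomial.natDegree_derivative_le _).trans ((Nat.sub_le _ _).trans ih)

/-- Induction on `l` (all `P`), `commutator` (H89T/C2.lean): `N (V_t Q) = V_t (N Q) + V_(t+1) Q` for `V_t = VV (gI g t) (lamI lam t)` (`Function.iterate_succ_apply'`, `natDegree_lamI`) and Pascal's rule
(`Finset.sum_antidiagonal_choose_succ_mul` / `Finset.sum_range_succ`, `Nat.choose_succ_succ`; compare `iterate_mul` in H78W/W14.lean). -/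
theorem iter_comm {g : Idx n d → AA n d k} {lam : Fin n → Polynomial (AA n d k)}
    (h : ∀ b, (lam b).natDegree ≤ k) (l : ℕ) (P : AA n d k) :
    (NA n d k)^[l] (VV g lam P) = ∑ x ∈ Finset.HasAntidiagonal.antidiagonal l,
      (l.choose x.1 : AA n d k) * VV (gI g x.1) (lamI lam x.1) ((NA n d k)^[x.2] P) := by
  induction l with
  | zero =>
    have h0 : VV (gI g 0) (lamI lam 0) = VV g lam := rfl
    simp [h0]
  | succ l ih =>
    have hstep : ∀ (t : ℕ) (Q : AA n d k), NA n d k (VV (gI g t) (lamI lam t) Q) =
        VV (gI g t) (lamI lam t) (NA n d k Q) + VV (gI g (t + 1)) (lamI lam (t + 1)) Q := by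
      intro t Q
      rw [commutator (gI g t) (lamI lam t) (fun b => natDegree_lamI h t b) Q]
      have e1 : gI g (t + 1) = fun α => NA n d k (gI g t α) := by
        funext α
        exact Function.iterate_succ_apply' _ _ _
      have e2 : lamI lam (t + 1) =
          fun b => cf (NA n d k) (lamI lam t b) - Polynomial.derivative (lamI lam t b) := by
        funext b
        exact Function.iterate_succ_apply' _ _ _
      rw [e1, e2]
    rw [Function.iterate_succ_apply', ih, map_sum]
    have h2 := Finset.sum_antidiagonal_choose_succ_mul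
      (fun i j => VV (gI g i) (lamI lam i) ((NA n d k)^[j] P)) l
    rw [h2, ← Finset.sum_add_distrib]
    refine Finset.sum_congr rfl fun x hx => ?_
    have hx' : x.1 + x.2 = l := Finset.HasAntidiagonal.mem_antidiagonal.1 hx
    have h3 : l.choose x.2 = l.choose x.1 := by
      rw [Nat.choose_symm_of_eq_add hx'.symm]
    have h4 : NA n d k ((l.choose x.1 : ℕ) : AA n d k) = 0 := Derivation.map_natCast _ _
    rw [Derivation.leibniz, h4, smul_zero, add_zero, smul_eq_mul, hstep, h3,
      Function.iterate_succ_apply' _ x.2, mul_add]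

end Pool.Agent.H89X
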