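import Pool.Agent.Lib.H89X.MD
import Pool.Agent.Lib.H89T.C1
import Pool.Agent.Lib.H89T.C3

set_option autoImplicit false

/-!
CHUNK M6 of H89X, module M (moves, PROOF.md section M).  Weights of the moves.
-/

open MvPolynomial

namespace Pool.Agent.H89X

open Pool.Agent.H89T Pool.Agent.H67T Pool.Agent.H53U Pool.Agent.H53V Pool.Agent.H44K

open Pool.Agent.H53L (MoveL lamB hA rhA vA X0D trk)

variable {n d k : ℕ} {a : Idx n d → ℂ} {x : Fin n → ℂ} {b0 : Fin n} {h : Fin n → Polynomial ℂ}
  {ρ : MvPolynomial (Fin n) ℂ} {g : Idx n d → AA n d k}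

/-- All the coefficients of order `l` have weight at most `2 l`. -/
def m6_W (p : Polynomial (AA n d k)) : Prop := ∀ l, WtA (2 * l) (p.coeff l)

theorem m6_W.mul {p q : Polynomial (AA n d k)} (hp : m6_W p) (hq : m6_W q) : m6_W (p * q) := by
  intro l
  rw [Polynomial.coeff_mul]
  refine WtA.sum fun r hr => ?_
  rw [Finset.HasAntidiagonal.mem_antidiagonal] at hr
  exact ((hp r.1).mul (hq r.2)).mono (by omega)

theorem m6_W.add {p q : Polynomial (AA n d k)} (hp : m6_W p) (hq : m6_W q) : m6_W (p + q) := by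
  intro l
  rw [Polynomial.coeff_add]
  exact (hp l).add (hq l)

theorem m6_W_C (c : ℂ) : m6_W (Polynomial.C (C c) : Polynomial (AA n d k)) := by
  intro l
  rw [Polynomial.coeff_C]
  split_ifs with h
  · exact (WtA.C c).mono (by omega)
  · exact WtA.zero _

theorem m6_W_vA (b : Fin n) : m6_W (vA b : Polynomial (AA n d k)) := by
  intro l
  unfold vA
  rcases Nat.eq_zero_or_pos l with h0 | h0
  · subst h0
    have h1 : (arc xA b - Polynomial.C (xA (b, 0)) : Polynomial (AA n d k)).coeff 0 = 0 := by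
      rw [Polynomial.coeff_sub, coeff_arc, dif_pos (by omega : 0 < k + 1), Polynomial.coeff_C_zero]
      exact sub_self _
    rw [h1]
    exact WtA.zero _
  · rw [Polynomial.coeff_sub, coeff_arc, Polynomial.coeff_C_of_ne_zero (by omega), sub_zero]
    split_ifs with h
    · exact (WtA.xA _).mono (by simp only; omega)
    · exact WtA.zero _

theorem m6_W_pow {p : Polynomial (AA n d k)} (hp : m6_W p) (e : ℕ) : m6_W (p ^ e) := by
  induction e with
  | zero =>
    rw [pow_zero]
    have h1 : (1 : Polynomial (AA n d k)) = Polynomial.C (C 1) := by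
      rw [C_1, Polynomial.C_1]
    rw [h1]
    exact m6_W_C 1
  | succ e ih =>
    rw [pow_succ]
    exact ih.mul hp

theorem m6_trk {A : Type*} [CommRing A] (k : ℕ) (p : Polynomial A) (i : ℕ) :
    (trk k p).coeff i = if i < k + 1 then p.coeff i else 0 := by
  unfold trk
  rw [Polynomial.finsetSum_coeff]
  split_ifs with hi
  · rw [Finset.sum_eq_single (⟨i, hi⟩ : Fin (k + 1))]
    · rw [Polynomial.coeff_C_mul, Polynomial.coeff_X_pow, if_pos rfl, mul_one]
    · intro j _ hj
      rw [Polynomial.coeff_C_mul, Polynomial.coeff_X_pow, if_neg, mul_zero]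
      intro h
      exact hj (Fin.ext h.symm)
    · intro h
      exact absurd (Finset.mem_univ _) h
  · refine Finset.sum_eq_zero fun j _ => ?_
    rw [Polynomial.coeff_C_mul, Polynomial.coeff_X_pow, if_neg, mul_zero]
    intro h
    have := j.2
    omega

/-- All the coefficients (of `t ^ l`, any `l`) of `v_b (t)` have weight at most `2 l`: `coeff_arc`, `WtA.xA` (`l + 1 ≤ 2 l` for `l ≥ 1`); closed under sums and products (`Polynomial.coeff_mul`, `WtA.mul`,
`WtA.sum`), so it holds for `ρ (v (t))` (`MvPolynomial.induction_on`). -/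
theorem WtA_rhA (ρ : MvPolynomial (Fin n) ℂ) (l : ℕ) : WtA (2 * l) ((rhA ρ : Polynomial (AA n d k)).coeff l) := by
  have h : m6_W (rhA ρ : Polynomial (AA n d k)) := by
    unfold rhA
    induction ρ using MvPolynomial.induction_on with
    | C c =>
      rw [aeval_C, Polynomial.algebraMap_apply, algebraMap_eq]
      exact m6_W_C c
    | add p q hp hq =>
      rw [map_add]
      exact hp.add hq
    | mul_X p b hp =>
      rw [map_mul, aeval_X]
      exact hp.mul (m6_W_vA b)
  exact h l

/-- The same (`Polynomial.induction_on'`). -/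
theorem WtA_hA (b : Fin n) (q : Polynomial ℂ) (l : ℕ) : WtA (2 * l) ((hA b q : Polynomial (AA n d k)).coeff l) := by
  have h : m6_W (hA b q : Polynomial (AA n d k)) := by
    unfold hA
    induction q using Polynomial.induction_on' with
    | add p q hp hq =>
      rw [map_add]
      exact hp.add hq
    | monomial i c =>
      rw [Polynomial.aeval_monomial, Polynomial.algebraMap_apply, algebraMap_eq]
      exact (m6_W_C c).mul (m6_W_pow (m6_W_vA b) i)
  exact h l

/-- `(trk k p).coeff l = p.coeff l` for `l ≤ k` and `0` for `l > k`. -/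
theorem WtP_lamB (b0 : Fin n) (h : Fin n → Polynomial ℂ) (b : Fin n) :
    WtP (2 * k) (lamB b0 h b : Polynomial (AA n d k)) := by
  intro l
  unfold lamB
  rw [m6_trk]
  split_ifs with hl
  · exact (WtA_hA b0 (h b) l).mono (by omega)
  · exact WtA.zero _

/-- `X0D (2 * k) g`: only the variables `x (b, 0)`, of weight `1`. -/
theorem WtA_X0D {e : ℕ} {q : AA n d k} (hq : X0D e q) : WtA e q := by
  intro m hm
  obtain ⟨h1, h2⟩ := hq m hm
  rw [Fintype.sum_prod_type]
  refine le_trans (le_of_eq ?_) h2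
  refine Finset.sum_congr rfl fun b _ => ?_
  rw [Finset.sum_eq_single (0 : Fin (k + 1))]
  · simp
  · intro l _ hl
    rw [h1 (b, l) hl, mul_zero]
  · intro h
    exact absurd (Finset.mem_univ _) h

/-- `WtA.field` (H89T/C3.lean). -/
theorem WtA_VV (hM : MoveL a x b0 h ρ g) {M : ℕ} {P : AA n d k} (hP : WtA M P) :
    WtA (M + 2 * k) (VV g (lamB b0 h) P) := by
  exact WtA.field (fun α => WtA_X0D (hM.g1 α)) (fun b => WtP_lamB b0 h b) hP

theorem WtA_iter (hM : MoveL a x b0 h ρ g) {M : ℕ} {P : AA n d k} (hP : WtA M P) (e : ℕ) :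
    WtA (M + 2 * k * e) ((VV g (lamB b0 h))^[e] P) := by
  induction e with
  | zero => exact hP
  | succ e ih =>
    rw [Function.iterate_succ_apply']
    have h1 : M + 2 * k * (e + 1) = (M + 2 * k * e) + 2 * k := by ring
    rw [h1]
    exact WtA_VV hM ih

/-- `natDegree ≤ k` (`trk`), and `EV g (lamB b0 h) = rhA ρ * Fx aA xA + X ^ (k + 1) * q` (`MoveL.g3`), `Ideal.mem_span_pair`. -/
theorem MoveL_adm (hM : MoveL a x b0 h ρ g) : Adm (k + 1) g (lamB b0 h) := by
  refine ⟨fun b => ?_, ?_⟩
  · rw [Polynomial.natDegree_le_iff_coeff_eq_zero]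
    intro N hN
    unfold lamB
    rw [m6_trk, if_neg (by omega)]
  · obtain ⟨q, hq⟩ := hM.g3
    rw [Ideal.mem_span_pair]
    refine ⟨rhA ρ, q, ?_⟩
    linear_combination -hq

/-- `VV_uA` (H89T/C1.lean), `MoveL.g3` (`Polynomial.X_pow_dvd_iff`), `Polynomial.coeff_mul`, `Finset.Nat.sum_antidiagonal_eq_sum_range_succ`; `uA j = (Fx aA xA).coeff j` by definition. -/
theorem VV_uA_move (hM : MoveL a x b0 h ρ g) {i : ℕ} (hi : i ≤ k) :
    VV g (lamB b0 h) (uA i) =
      ∑ j ∈ Finset.range (i + 1), (rhA ρ : Polynomial (AA n d k)).coeff j * uA (i - j) := by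
  rw [VV_uA g _ (MoveL_adm hM).deg]
  have h3 := hM.g3
  rw [Polynomial.X_pow_dvd_iff] at h3
  have h4 := h3 i (by omega)
  rw [Polynomial.coeff_sub, sub_eq_zero] at h4
  rw [h4, Polynomial.coeff_mul, Finset.Nat.sum_antidiagonal_eq_sum_range_succ
    (fun a b => (rhA ρ : Polynomial (AA n d k)).coeff a * (Fx aA xA : Polynomial (AA n d k)).coeff b)]
  rfl

end Pool.Agent.H89X
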