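import Pool.Agent.Lib.H89X.MD
import Pool.Agent.Lib.H53L.B10
import Pool.Agent.Lib.H53L.B07
import Pool.Agent.Lib.H78W.W15

set_option autoImplicit false

/-!
CHUNK M8 of H89X, module M (moves, PROOF.md section M).  One polynomial: the restriction to the fibre.
-/

open MvPolynomial

namespace Pool.Agent.H89X

open Pool.Agent.H89T Pool.Agent.H67T Pool.Agent.H53U Pool.Agent.H53V Pool.Agent.H44K

open Pool.Agent.H53L (MoveL lamB hA rhA vA X0D trk exists_W piA vF VF)

variable {n d k : ℕ}

theorem m8_exists {σ : Type*} [Finite σ] {P : MvPolynomial σ ℂ} (hP : P ≠ 0) :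
    ∃ z : σ → ℂ, eval z P ≠ 0 := by
  by_contra h
  push Not at h
  exact hP (MvPolynomial.funext fun z => by rw [h z, map_zero])

/-- The degree of a substitution. -/
theorem m8_deg {σ τ : Type*} (f : σ → MvPolynomial τ ℂ) (w : σ → ℕ) (hw : ∀ s, (f s).totalDegree ≤ w s)
    (q : MvPolynomial σ ℂ) (D : ℕ) (h : ∀ ν ∈ q.support, ∑ s ∈ ν.support, ν s * w s ≤ D) :
    (aeval f q).totalDegree ≤ D := by
  rw [aeval_def, eval₂_eq]
  refine totalDegree_finsetSum_le fun ν hν => ?_
  refine le_trans ?_ (h ν hν)
  refine (totalDegree_mul _ _).trans ?_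
  rw [algebraMap_eq, totalDegree_C, zero_add]
  refine (totalDegree_finsetProd _ _).trans ?_
  refine Finset.sum_le_sum fun s _ => ?_
  exact (totalDegree_pow _ _).trans (Nat.mul_le_mul_left _ (hw s))

/-- There is a point `(a0, x0)` with `piA a0 x0 P ≠ 0`: `P ≠ 0` has a nonzero value at some point (`MvPolynomial.funext`, infinite field), which is the value of `piA a0 x0 P` at a point
(`H53L.eval_spec` of B07 and `spec`, or `induction_on`); then `H53L.exists_W` (B10) with `r = 1`, `G = fun _ => P` (a family of one vector is linearly independent iff the vector is not `0`: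
`linearIndependent_unique_iff`). -/
theorem exists_W1 {P : AA n d k} (hP : P ≠ 0) :
    ∃ W : MvPolynomial (Fin n ⊕ Idx n d) ℂ, W ≠ 0 ∧ ∀ (a : Idx n d → ℂ) (x : Fin n → ℂ),
      eval (Sum.elim x a) W ≠ 0 → piA a x P ≠ 0 := by
  obtain ⟨z, hz⟩ := m8_exists hP
  have h1 : eval (fun p => z (Sum.inl p)) (spec (fun α => z (Sum.inr α)) P) = eval z P := by
    have h2 : ((aeval (fun p => z (Sum.inl p)) : MvPolynomial (JV n k) ℂ →ₐ[ℂ] ℂ).comp
        (spec (fun α => z (Sum.inr α)))) = aeval z := by
      apply algHom_ext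
      rintro (p | α)
      · simp [spec]
      · simp [spec]
    exact DFunLike.congr_fun h2 P
  rw [H53L.eval_spec] at h1
  have h3 : piA (fun α => z (Sum.inr α)) (fun b => z (Sum.inl (b, 0))) P ≠ 0 := by
    intro h4
    rw [h4, map_zero] at h1
    exact hz h1.symm
  obtain ⟨W, hW, h5⟩ := exists_W (r := 1) (fun _ => P) (fun α => z (Sum.inr α))
    (fun b => z (Sum.inl (b, 0))) (by
      rw [linearIndependent_unique_iff]
      exact h3)
  refine ⟨W, hW, fun a x hx => ?_⟩
  have h6 := h5 a x hx
  rw [linearIndependent_unique_iff] at h6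
  exact h6

/-- `P` is the sum of its monomials; `piA a x` of `monomial ν t` is a constant times the monomial with exponents `ν (inl (b, l.succ))` (`aeval_monomial`, `Finsupp.prod_fintype`, `Fintype.prod_sum_type`,
`Fintype.prod_prod_type`, `Fin.prod_univ_succ`), of degree `< μ`. -/
theorem degree_piA {μ : ℕ} {P : AA n d k}
    (hP : ∀ ν ∈ P.support, (∑ p : JV n k, if p.2 = 0 then 0 else ν (Sum.inl p)) < μ) (a : Idx n d → ℂ)
    (x : Fin n → ℂ) (hne : piA a x P ≠ 0) : (piA a x P).totalDegree < μ := by
  classical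
  have hP0 : P ≠ 0 := by
    intro h0
    rw [h0, map_zero] at hne
    exact hne rfl
  obtain ⟨ν0, hν0⟩ := MvPolynomial.support_nonempty.2 hP0
  have hμ := hP ν0 hν0
  have h1 : (piA a x P).totalDegree ≤ μ - 1 := by
    refine m8_deg _ (Sum.elim (fun p : JV n k => if p.2 = 0 then 0 else 1) fun _ => 0) ?_ P (μ - 1) ?_
    · rintro (⟨b, l⟩ | α)
      · refine Fin.cases ?_ (fun l => ?_) l
        · simp
        · simp
      · simp
    · intro ν hν
      have h2 := hP ν hν
      have h3 : ∑ s ∈ ν.support, ν s * (Sum.elim (fun p : JV n k => if p.2 = 0 then 0 else 1)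
          (fun _ => 0) : JV n k ⊕ Idx n d → ℕ) s ≤
          ∑ s, ν s * (Sum.elim (fun p : JV n k => if p.2 = 0 then 0 else 1)
          (fun _ => 0) : JV n k ⊕ Idx n d → ℕ) s :=
        Finset.sum_le_sum_of_subset (Finset.subset_univ _)
      refine h3.trans ?_
      rw [Fintype.sum_sum_type]
      simp only [Sum.elim_inl, Sum.elim_inr, mul_zero, Finset.sum_const_zero, add_zero]
      refine le_trans (le_of_eq ?_) (Nat.le_sub_one_of_lt h2)
      refine Finset.sum_congr rfl fun p _ => ?_
      split_ifs <;> simp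
  omega

/-- Let `q' = aeval (fun i => X i + C (y i)) q` (not `0`: substitute back; `q'.totalDegree ≤ q.totalDegree`).  The coefficient of order `i` along the line through `τ` is
`eval τ (homogeneousComponent i q')` (`w15_line` in H78W/W15.lean: `lineP` is the same expression, `w15_sh q y = q'`); take the smallest `r` with `homogeneousComponent r q' ≠ 0` (`Nat.find`), it is at most the
total degree; `MvPolynomial.funext` gives `τ`. -/
theorem exists_order {σ : Type} [Fintype σ] {q : MvPolynomial σ ℂ} (hq : q ≠ 0) {μ : ℕ}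
    (hdeg : q.totalDegree < μ) (y : σ → ℂ) :
    ∃ (r : ℕ) (τ : σ → ℂ), r < μ ∧
      (∀ τ' : σ → ℂ, ∀ i < r,
        (eval₂ Polynomial.C (fun p => Polynomial.C (y p) + Polynomial.C (τ' p) * Polynomial.X) q).coeff i = 0) ∧
      (eval₂ Polynomial.C (fun p => Polynomial.C (y p) + Polynomial.C (τ p) * Polynomial.X) q).coeff r ≠ 0 := by
  classical
  set q' := H78W.w15_sh q y with hq'
  have h0 : q' ≠ 0 := by
    intro h
    apply hq
    have h1 := H78W.w15_sh_aeval q y (fun p => (X p - C (y p) : MvPolynomial σ ℂ))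
    rw [← hq', h, map_zero] at h1
    have h2 : (fun p => (X p - C (y p) : MvPolynomial σ ℂ) + algebraMap ℂ (MvPolynomial σ ℂ) (y p)) = X := by
      funext p
      rw [algebraMap_eq]
      ring
    rw [h2, aeval_X_left, AlgHom.id_apply] at h1
    exact h1.symm
  have hdeg' : q'.totalDegree ≤ q.totalDegree := by
    refine m8_deg _ (fun _ => 1) (fun s => ?_) q _ (fun ν hν => ?_)
    · refine (totalDegree_add _ _).trans (max_le ?_ ?_)
      · rw [totalDegree_X]
      · rw [totalDegree_C]
        exact Nat.zero_le _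
    · simp only [mul_one]
      exact le_totalDegree hν
  have hex : ∃ r, homogeneousComponent r q' ≠ 0 := by
    by_contra h
    push Not at h
    apply h0
    rw [← sum_homogeneousComponent q']
    exact Finset.sum_eq_zero fun i _ => h i
  have hr : Nat.find hex ≤ q'.totalDegree := by
    by_contra h
    exact Nat.find_spec hex (homogeneousComponent_eq_zero _ _ (by omega))
  obtain ⟨τ, hτ⟩ := m8_exists (Nat.find_spec hex)
  refine ⟨Nat.find hex, τ, by omega, fun τ' i hi => ?_, ?_⟩
  · have h1 := H78W.w15_line q y τ' i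
    have h2 : homogeneousComponent i q' = 0 := by
      by_contra h
      exact Nat.find_min hex hi h
    rw [← hq', h2, map_zero] at h1
    exact h1
  · have h1 := H78W.w15_line q y τ (Nat.find hex)
    intro h2
    apply hτ
    rw [← h1]
    exact h2

end Pool.Agent.H89X
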