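import Pool.Agent.Lib.H89X.D0
import Pool.Agent.Lib.H53L.B03
import Pool.Agent.Lib.H53L.B05
import Pool.Agent.Lib.H89T.C10

set_option autoImplicit false

/-!
H89X, module M (moves, PROOF.md section M), definitions: the properties (W) and (S) in the flat ring `AA n d k` (jets of order `k`,
coefficients `Idx n d`), where the derivations `VV g (lamB b0 h)` of H53L (`MoveL`) act.
-/

open MvPolynomial

namespace Pool.Agent.H89X

open Pool.Agent.H89T Pool.Agent.H67T Pool.Agent.H53U Pool.Agent.H53V Pool.Agent.H44K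

variable {n d k : ℕ}

/-- The ideal `(u 0, ..., u (i - 1))` of the flat ring. -/
noncomputable def UA (n d k i : ℕ) : Ideal (AA n d k) :=
  Ideal.span (Set.range fun s : Fin i => (uA (s : ℕ) : AA n d k))

/-- Property (W) in the flat ring. -/
def PropWA (r J : ℕ) (P : AA n d k) : Prop :=
  ∀ j, 2 ≤ j → j ≤ J → ∀ l < (j - 1) * r, (NA n d k)^[l] P ∈ UA n d k (min j n) ^ (j - 1 - l / r)

/-- The coordinates `1, x_1, ..., x_n` in the flat ring. -/
noncomputable def xoA (n d k : ℕ) (o : Option (Fin n)) : AA n d k := o.elim 1 fun b => xA (b, 0)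

/-- Degree at most `E` in the jet variables (of all orders). -/
def JT (E : ℕ) (P : AA n d k) : Prop := ∀ ν ∈ P.support, ∑ p : JV n k, ν (Sum.inl p) ≤ E

/-- Property (S) in the flat ring. -/
def PropSA (D s : ℕ) (P : AA n d k) : Prop :=
  ∃ E : ℕ, E + d ≤ D + s ∧ ∀ o : Option (Fin n), ∃ c : Fin (k + 1) → AA n d k,
    xoA n d k o ^ s * P = ∑ i, c i * uA (i : ℕ) ∧ ∀ i, JT E (c i)

/-- `N ^ t g`. -/
noncomputable def gI (g : Idx n d → AA n d k) (t : ℕ) (α : Idx n d) : AA n d k := (NA n d k)^[t] (g α)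

/-- `(N - d / dt) ^ t lam`. -/
noncomputable def lamI (lam : Fin n → Polynomial (AA n d k)) (t : ℕ) (b : Fin n) : Polynomial (AA n d k) :=
  (fun p => cf (NA n d k) p - Polynomial.derivative p)^[t] (lam b)

end Pool.Agent.H89X
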