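import Pool.Agent.Lib.H89X.ND

set_option autoImplicit false

/-!
H89X, chunk N1: the transported jet agrees with the jet at `z₀` up to a high order.
-/

open MvPolynomial Filter Topology

namespace Pool.Agent.H89X

open Pool.Agent.H89T Pool.Agent.H67T

/-- Chunk N1 (M).  PROOF.  As `xhat_zero`, `xhat_one` (Lib/H89T/DA2.lean).  With `g = iteratedDeriv i (f . b)` (`analyticAt_iteratedDeriv`)
and `m = k - i`: the sum in `shift` is over `j ≥ i` (`Nat.choose_eq_zero_of_lt`), and for `j = i + l` the term is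
`choose j i * (z₀ - z) ^ l * iteratedDeriv (i + l) / (i + l)! = (z₀ - z) ^ l * (iteratedDeriv l g z / l !) / i !`
(`Nat.add_choose`, iterated derivatives of iterated derivatives as in `le_order_iteratedDeriv` in Lib/H89T/DB.lean:
`iteratedDeriv_eq_iterate`).  So the function is `(taylor sum of g - g z₀) / i !`; `taylor_order`, `le_order_mul` with a constant. -/
theorem xhat_gen {n : ℕ} (k : ℕ) {f : ℂ → Fin n → ℂ} {z₀ : ℂ}
    (hf : ∀ b, AnalyticAt ℂ (fun w => f w b) z₀) (b : Fin n) (i : Fin (k + 1)) :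
    ((k + 1 - (i : ℕ) : ℕ) : ℕ∞) ≤ analyticOrderAt
      (fun z => shift (z₀ - z) (jetf k f z) (b, i) - jetf k f z₀ (b, i)) z₀ := by
  obtain ⟨i, hi⟩ := i
  obtain ⟨m, rfl⟩ : ∃ m, k = i + m := ⟨k - i, by omega⟩
  obtain ⟨F, hF⟩ : ∃ F : ℂ → ℂ, F = fun w => f w b := ⟨_, rfl⟩
  obtain ⟨g, hg⟩ : ∃ g : ℂ → ℂ, g = iteratedDeriv i F := ⟨_, rfl⟩
  have hFa : AnalyticAt ℂ F z₀ := by rw [hF]; exact hf b
  have hga : AnalyticAt ℂ g z₀ := by rw [hg]; exact analyticAt_iteratedDeriv hFa i
  have hT := taylor_order hga m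
  have hTa : AnalyticAt ℂ (fun z => ∑ j ∈ Finset.range (m + 1),
      (z₀ - z) ^ j * (iteratedDeriv j g z / (j.factorial : ℂ)) - g z₀) z₀ := by
    refine AnalyticAt.fun_sub ?_ analyticAt_const
    apply Finset.analyticAt_fun_sum
    intro j _
    exact ((analyticAt_const.sub analyticAt_id).pow j).mul
      ((analyticAt_iteratedDeriv hga j).div_const)
  have h1 := le_order_mul hT hTa (analyticAt_const (v := ((i.factorial : ℕ) : ℂ)⁻¹))
  have h0 : i + m + 1 - i = m + 1 := by omega
  have h2 : (fun z => shift (z₀ - z) (jetf (i + m) f z) (b, ⟨i, hi⟩) -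
      jetf (i + m) f z₀ (b, ⟨i, hi⟩)) = fun z => (∑ j ∈ Finset.range (m + 1),
      (z₀ - z) ^ j * (iteratedDeriv j g z / (j.factorial : ℂ)) - g z₀) * ((i.factorial : ℕ) : ℂ)⁻¹ := by
    funext z
    have h3 : ((i.factorial : ℕ) : ℂ) ≠ 0 := by exact_mod_cast Nat.factorial_ne_zero i
    rw [sub_mul]
    congr 1
    · unfold shift jetf
      simp only [← hF]
      have e1 := Finset.sum_range (n := i + m + 1) fun j : ℕ => ((j.choose i : ℕ) : ℂ) * (z₀ - z) ^ (j - i) *
        (iteratedDeriv j F z / (j.factorial : ℂ))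
      rw [← e1, add_assoc, Finset.sum_range_add, Finset.sum_eq_zero, zero_add, Finset.sum_mul]
      · refine Finset.sum_congr rfl fun l _ => ?_
        have e2 : iteratedDeriv l g = iteratedDeriv (i + l) F := by
          rw [hg, iteratedDeriv_eq_iterate, iteratedDeriv_eq_iterate, iteratedDeriv_eq_iterate,
            ← Function.iterate_add_apply, add_comm l i]
        rw [e2, Nat.add_sub_cancel_left]
        have e3 : (((i + l).choose i : ℕ) : ℂ) * ((i.factorial : ℕ) : ℂ) * ((l.factorial : ℕ) : ℂ) =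
            (((i + l).factorial : ℕ) : ℂ) := by
          have e7 := Nat.choose_mul_factorial_mul_factorial (Nat.le_add_right i l)
          rw [Nat.add_sub_cancel_left] at e7
          exact_mod_cast e7
        have e4 : ((l.factorial : ℕ) : ℂ) ≠ 0 := by exact_mod_cast Nat.factorial_ne_zero l
        have e5 : (((i + l).factorial : ℕ) : ℂ) ≠ 0 := by exact_mod_cast Nat.factorial_ne_zero _
        have e6 : (((i + l).choose i : ℕ) : ℂ) ≠ 0 := by
          exact_mod_cast (Nat.choose_pos (Nat.le_add_right i l)).ne'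
        rw [← e3]
        field_simp
      · intro j hj
        rw [Nat.choose_eq_zero_of_lt (Finset.mem_range.1 hj)]
        simp
    · unfold jetf
      simp only [← hF]
      rw [← hg]
      exact div_eq_mul_inv _ _
  rw [h2]
  simp only [h0]
  exact h1

end Pool.Agent.H89X
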