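import Pool.Agent.Lib.H89X.N1

set_option autoImplicit false

/-!
H89X, chunk N2: `u i` of the transported jet at a zero of order `e > i`.
-/

open MvPolynomial Filter Topology

namespace Pool.Agent.H89X

open Pool.Agent.H89T Pool.Agent.H67T

/-- Chunk N2a (M).  PROOF.  `X ^ (i + 1)` divides `arc ξ b - arc η b` (`coeff_arc` in Lib/H89T/N1.lean, `Polynomial.X_pow_dvd_iff`), so the two arcs
have the same image in the quotient by `span {X ^ (i + 1)}`; `ev_map` (for `Ideal.Quotient.mk`) gives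
`X ^ (i + 1) ∣ Fx a ξ - Fx a η`; compare the coefficients of `X ^ i`. -/
theorem uu_congr_le {n d k : ℕ} {B : Type*} [CommRing B] (a : Idx n d → B) {ξ η : JV n k → B} {i : ℕ}
    (h : ∀ p : JV n k, (p.2 : ℕ) ≤ i → ξ p = η p) : uu a ξ i = uu a η i := by
  have harc : ∀ b, (Polynomial.X : Polynomial B) ^ (i + 1) ∣ arc ξ b - arc η b := by
    intro b
    rw [Polynomial.X_pow_dvd_iff]
    intro l hl
    rw [Polynomial.coeff_sub, coeff_arc, coeff_arc]
    split_ifs with h1
    · rw [h _ (Nat.lt_succ_iff.1 hl), sub_self]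
    · exact sub_zero _
  obtain ⟨I, hI⟩ : ∃ I : Ideal (Polynomial B), I = Ideal.span {(Polynomial.X : Polynomial B) ^ (i + 1)} := ⟨_, rfl⟩
  have hq : (fun b => Ideal.Quotient.mk I (arc ξ b)) = fun b => Ideal.Quotient.mk I (arc η b) := by
    funext b
    rw [Ideal.Quotient.eq, hI, Ideal.mem_span_singleton]
    exact harc b
  have h1 : Ideal.Quotient.mk I (Fx a ξ) = Ideal.Quotient.mk I (Fx a η) := by
    unfold Fx
    rw [ev_map, ev_map, hq]
  rw [Ideal.Quotient.eq, hI, Ideal.mem_span_singleton, Polynomial.X_pow_dvd_iff] at h1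
  have h2 := h1 i (Nat.lt_succ_self i)
  rw [Polynomial.coeff_sub, sub_eq_zero] at h2
  exact h2

/-- Chunk N2b (M).  PROOF.  As `order_uR_xhat` (Lib/H89T/DA3.lean): let `v z p = jetf k f z₀ p` if `p.2 ≤ i` and `shift (z₀ - z) (jetf k f z) p` otherwise.
`uu a (v z) i = uu a (jetf k f z₀) i` (`uu_congr_le`, `eval_uR`) `= iteratedDeriv i (F (f)) z₀ / i ! = 0` (`uu_jet`,
`natCast_le_analyticOrderAt_iff_iteratedDeriv_eq_zero`).  The coordinates of `v z` and of the transported jet agree up to order `k + 1 - p.2 ≥ k + 1 - i` for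
`p.2 ≤ i` (`xhat_gen`) and are equal otherwise (`order_zero_fun`); `le_order_eval_sub` (Lib/H89T/DB.lean). -/
theorem order_uR_xhat_gen {n d k : ℕ} (a : Idx n d → ℂ) {f : ℂ → Fin n → ℂ} {z₀ : ℂ}
    (hf : ∀ b, AnalyticAt ℂ (fun w => f w b) z₀) {e : ℕ}
    (he : (e : ℕ∞) ≤ analyticOrderAt (fun w => ev a (f w)) z₀) {i : ℕ} (hi : i < e) (hik : i ≤ k) :
    ((k + 1 - i : ℕ) : ℕ∞) ≤ analyticOrderAt
      (fun z => eval (shift (z₀ - z) (jetf k f z)) (uR a i)) z₀ := by
  obtain ⟨v, hv⟩ : ∃ v : ℂ → JV n k → ℂ, ∀ z p, v z p = if (p.2 : ℕ) ≤ i then jetf k f z₀ p else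
    shift (z₀ - z) (jetf k f z) p := ⟨_, fun _ _ => rfl⟩
  have hval : ∀ z, eval (v z) (uR a i) = 0 := by
    intro z
    have h3 : eval (v z) (uR a i) = eval (jetf k f z₀) (uR a i) := by
      rw [eval_uR, eval_uR]
      refine uu_congr_le a fun p hp => ?_
      rw [hv, if_pos hp]
    rw [h3, uu_jet a hf hik]
    have h4 := (natCast_le_analyticOrderAt_iff_iteratedDeriv_eq_zero (n := e)
      (analyticAt_ev a hf)).1 he i hi
    rw [h4, zero_div]
  have hvan : ∀ p, AnalyticAt ℂ (fun z => v z p) z₀ := by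
    intro p
    by_cases hp : (p.2 : ℕ) ≤ i
    · simp only [hv, hp, if_true]
      exact analyticAt_const
    · simp only [hv, hp, if_false]
      exact analyticAt_xhat k hf p
  have h5 := le_order_eval_sub (uR a i) (z₀ := z₀) (m := ((k + 1 - i : ℕ) : ℕ∞))
    (x := fun z => shift (z₀ - z) (jetf k f z)) (y := v) (analyticAt_xhat k hf) hvan ?_
  · simp only [hval, sub_zero] at h5
    exact h5
  · rintro ⟨b, l⟩
    by_cases hp : (l : ℕ) ≤ i
    · have h6 := xhat_gen k hf b l
      have h7 : (fun z => shift (z₀ - z) (jetf k f z) (b, l) - v z (b, l)) =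
          fun z => shift (z₀ - z) (jetf k f z) (b, l) - jetf k f z₀ (b, l) := by
        funext z
        rw [hv, if_pos hp]
      rw [h7]
      refine le_trans ?_ h6
      exact_mod_cast (by omega : k + 1 - i ≤ k + 1 - (l : ℕ))
    · have h7 : (fun z => shift (z₀ - z) (jetf k f z) (b, l) - v z (b, l)) =
          fun _ => 0 := by
        funext z
        rw [hv, if_neg hp, sub_self]
      rw [h7, order_zero_fun]
      exact le_top

end Pool.Agent.H89X
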