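import Pool.Agent.Lib.H89X.ND

set_option autoImplicit false

/-!
H89X, chunk N3: the order of the elements of a power of the ideal `(u 0, ..., u (j - 1))`.
-/

open MvPolynomial Filter Topology

namespace Pool.Agent.H89X

open Pool.Agent.H89T Pool.Agent.H67T

/-- The polynomials whose values along `x` have order at least `m`. -/
noncomputable def n3_V {n k : ℕ} {x : ℂ → JV n k → ℂ} {z₀ : ℂ}
    (hx : ∀ p, AnalyticAt ℂ (fun z => x z p) z₀) (m : ℕ∞) : Ideal (MvPolynomial (JV n k) ℂ) where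
  carrier := {Q | m ≤ analyticOrderAt (fun z => eval (x z) Q) z₀}
  add_mem' := by
    intro P Q hP hQ
    simp only [Set.mem_ofPred_eq] at hP hQ ⊢
    have h1 : (fun z => eval (x z) (P + Q)) = (fun z => eval (x z) P) + fun z => eval (x z) Q := by
      funext z
      rw [map_add]
      rfl
    rw [h1]
    exact (le_min hP hQ).trans le_analyticOrderAt_add
  zero_mem' := by
    simp only [Set.mem_ofPred_eq, map_zero]
    rw [order_zero_fun]
    exact le_top
  smul_mem' := by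
    intro P Q hQ
    simp only [Set.mem_ofPred_eq] at hQ ⊢
    have h1 : (fun z => eval (x z) (P • Q)) = fun z => eval (x z) Q * eval (x z) P := by
      funext z
      rw [smul_eq_mul, map_mul, mul_comm]
    rw [h1]
    exact le_order_mul hQ (analyticAt_eval Q hx) (analyticAt_eval P hx)

theorem n3_mem {n k : ℕ} {x : ℂ → JV n k → ℂ} {z₀ : ℂ}
    (hx : ∀ p, AnalyticAt ℂ (fun z => x z p) z₀) (m : ℕ∞) (Q : MvPolynomial (JV n k) ℂ) :
    Q ∈ n3_V hx m ↔ m ≤ analyticOrderAt (fun z => eval (x z) Q) z₀ := Iff.rfl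

theorem n3_mul {n k : ℕ} {x : ℂ → JV n k → ℂ} {z₀ : ℂ}
    (hx : ∀ p, AnalyticAt ℂ (fun z => x z p) z₀) (m m' : ℕ∞) :
    n3_V hx m * n3_V hx m' ≤ n3_V hx (m + m') := by
  rw [Ideal.mul_le]
  intro P hP Q hQ
  rw [n3_mem] at hP hQ ⊢
  have h1 : (fun z => eval (x z) (P * Q)) = (fun z => eval (x z) P) * fun z => eval (x z) Q := by
    funext z
    rw [map_mul]
    rfl
  rw [h1, analyticOrderAt_mul (analyticAt_eval P hx) (analyticAt_eval Q hx)]
  exact add_le_add hP hQ

/-- Chunk N3 (M).  PROOF.  For `m : ℕ` the polynomials `Q` with order of `eval (x z) Q` at least `m` form an ideal `V m` (`le_analyticOrderAt_add`, `le_order_mul` in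
Lib/H89T/DA2.lean, `analyticAt_eval`, `order_zero_fun`), and `V m * V m' ≤ V (m + m')` (`Ideal.mul_le`, `analyticOrderAt_mul`, `add_le_add`).  `IU k a j ≤ V m` by `h`
(`Ideal.span_le`), so `IU k a j ^ q ≤ V (q * m)` by induction on `q` (`pow_succ`, `Ideal.mul_mono`; `q = 0`: order at least `0`). -/
theorem ord_IU_pow {n d k : ℕ} {a : Idx n d → ℂ} {x : ℂ → JV n k → ℂ} {z₀ : ℂ}
    (hx : ∀ p, AnalyticAt ℂ (fun z => x z p) z₀) {m j : ℕ}
    (h : ∀ i < j, (m : ℕ∞) ≤ analyticOrderAt (fun z => eval (x z) (uR a i)) z₀) (q : ℕ)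
    {Q : MvPolynomial (JV n k) ℂ} (hQ : Q ∈ IU k a j ^ q) :
    ((q * m : ℕ) : ℕ∞) ≤ analyticOrderAt (fun z => eval (x z) Q) z₀ := by
  have h1 : IU k a j ≤ n3_V hx (m : ℕ∞) := by
    unfold IU
    rw [Ideal.span_le]
    rintro _ ⟨i, rfl⟩
    exact h i i.2
  have h2 : ∀ q : ℕ, IU k a j ^ q ≤ n3_V hx ((q * m : ℕ) : ℕ∞) := by
    intro q
    induction q with
    | zero =>
      intro P _
      rw [n3_mem, zero_mul, Nat.cast_zero]
      exact bot_le
    | succ q ih =>
      rw [pow_succ]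
      refine (Ideal.mul_mono ih h1).trans ((n3_mul hx _ _).trans ?_)
      rw [← Nat.cast_add, ← Nat.succ_mul]
  exact h2 q hQ

end Pool.Agent.H89X
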