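import Pool.Agent.Lib.H89X.N2
import Pool.Agent.Lib.H89X.N3

set_option autoImplicit false

/-!
H89X, chunk N4: the order of the operator (P) at a zero of order `e ≤ J`.
-/

open MvPolynomial Filter Topology

namespace Pool.Agent.H89X

open Pool.Agent.H89T Pool.Agent.H67T

theorem n4_mul {g h : ℂ → ℂ} {z₀ : ℂ} {a b : ℕ∞} (ha : a ≤ analyticOrderAt g z₀) (hb : b ≤ analyticOrderAt h z₀)
    (hga : AnalyticAt ℂ g z₀) (hh : AnalyticAt ℂ h z₀) : a + b ≤ analyticOrderAt (fun z => g z * h z) z₀ := by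
  have h1 := analyticOrderAt_mul hga hh
  have h2 : analyticOrderAt (fun z => g z * h z) z₀ = analyticOrderAt (g * h) z₀ := rfl
  rw [h2, h1]
  exact add_le_add ha hb

theorem n4_pow (z₀ : ℂ) (l : ℕ) : (l : ℕ∞) ≤ analyticOrderAt (fun z : ℂ => (z - z₀) ^ l) z₀ := by
  have hlin : AnalyticAt ℂ (fun z : ℂ => z - z₀) z₀ := analyticAt_id.sub analyticAt_const
  have h9 := analyticOrderAt_pow hlin l
  have h10 : analyticOrderAt (fun z : ℂ => (z - z₀) ^ l) z₀ =
      analyticOrderAt ((fun z : ℂ => z - z₀) ^ l) z₀ := rfl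
  rw [h10, h9]
  have h11 : analyticOrderAt (fun z : ℂ => z - z₀) z₀ = 1 := analyticOrderAt_id_sub_const_self
  rw [h11]
  simp

/-- Chunk N4 (M).  PROOF.  As `order_propA` (Lib/H89T/DA3.lean), with `q = (e - 1) * r` derivatives: `jetf k f z = shift (z - z₀) (xhat z)`, `xhat z = shift (z₀ - z) (jetf k f z)`
(`shift_shift`, `shift_zero`), and `eval_shift P q` (Lib/H89T/DA1.lean) gives
`eval (jetf k f z) P = ∑ l < q, (z - z₀) ^ l / l ! * eval (xhat z) (NN^[l] P) + (z - z₀) ^ q * (...)`.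
For `l < q`: `NN^[l] P ∈ IU k a (min e n) ^ (e - 1 - l / r)` (`hP e`), every `u i`, `i < min e n`, has order at least `k + 1 - i ≥ r` on `xhat z` (`order_uR_xhat_gen`;
`i ≤ n - 1`, `r + n ≤ k + 2`, so also `i ≤ k` because `1 ≤ r`), so by `ord_IU_pow` (`analyticAt_xhat`) the value has order at least `(e - 1 - l / r) * r`, and `l + (e - 1 - l / r) * r ≥ (e - 1) * r`
(`Nat.div_mul_le_self`, `l / r ≤ e - 1` by `Nat.div_lt_of_lt_mul`); the order of a product is the sum (`analyticOrderAt_mul`; order of `(z - z₀) ^ l` as at the end of `order_propA`). -/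
theorem order_propP {n d k r J : ℕ} (hn : 1 ≤ n) (hr : 1 ≤ r) (hk : r + n ≤ k + 2)
    {a : Idx n d → ℂ} {P : MvPolynomial (JV n k) ℂ} (hP : PropP a r J P) {f : ℂ → Fin n → ℂ} {z₀ : ℂ}
    (hf : ∀ b, AnalyticAt ℂ (fun w => f w b) z₀) {e : ℕ} (he2 : 2 ≤ e) (heJ : e ≤ J)
    (he : (e : ℕ∞) ≤ analyticOrderAt (fun w => ev a (f w)) z₀) :
    (((e - 1) * r : ℕ) : ℕ∞) ≤ analyticOrderAt (fun z => eval (jetf k f z) P) z₀ := by
  have hx := analyticAt_xhat k hf
  have hev : ∀ Q : MvPolynomial (JV n k) ℂ,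
      AnalyticAt ℂ (fun z => eval (shift (z₀ - z) (jetf k f z)) Q) z₀ :=
    fun Q => analyticAt_eval Q hx
  have hlin : AnalyticAt ℂ (fun z : ℂ => z - z₀) z₀ := analyticAt_id.sub analyticAt_const
  obtain ⟨R, hR⟩ := eval_shift P ((e - 1) * r)
  have h3 : (fun z => eval (jetf k f z) P) = (fun z => ∑ i ∈ Finset.range ((e - 1) * r),
      ((z - z₀) ^ i * (1 / (i.factorial : ℂ)) *
        eval (shift (z₀ - z) (jetf k f z)) ((NN n k ℂ)^[i] P))) +
      fun z => (z - z₀) ^ ((e - 1) * r) *
        (R.map (eval (shift (z₀ - z) (jetf k f z)))).eval (z - z₀) := by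
    funext z
    have h4 := hR (z - z₀) (shift (z₀ - z) (jetf k f z))
    rw [shift_shift] at h4
    have h5 : z - z₀ + (z₀ - z) = 0 := by ring
    rw [h5, shift_zero] at h4
    rw [h4, Pi.add_apply]
    congr 1
    refine Finset.sum_congr rfl fun i _ => ?_
    rw [mul_one_div]
  rw [h3]
  refine (le_min ?_ ?_).trans le_analyticOrderAt_add
  · apply le_order_sum
    intro l hl
    rw [Finset.mem_range] at hl
    have h6 := ord_IU_pow (m := r) hx (j := min e n) (a := a) (fun i hi => by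
      have h7 := order_uR_xhat_gen (k := k) a hf he (i := i) (lt_of_lt_of_le hi (min_le_left _ _))
        (by have := lt_of_lt_of_le hi (min_le_right e n); omega)
      refine le_trans ?_ h7
      have h8 : r ≤ k + 1 - i := by
        have := lt_of_lt_of_le hi (min_le_right e n)
        omega
      exact_mod_cast h8) (e - 1 - l / r) (hP e he2 heJ l hl)
    have h9 : ((l + (e - 1 - l / r) * r : ℕ) : ℕ∞) ≤ analyticOrderAt (fun z => (z - z₀) ^ l * (1 / (l.factorial : ℂ)) *
        eval (shift (z₀ - z) (jetf k f z)) ((NN n k ℂ)^[l] P)) z₀ := by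
      have h10 := n4_mul (le_order_mul (n4_pow z₀ l) (hlin.pow l)
        (analyticAt_const (v := 1 / (l.factorial : ℂ)))) h6 ((hlin.pow l).mul analyticAt_const) (hev _)
      rw [Nat.cast_add]
      exact h10
    refine le_trans ?_ h9
    have h11 : l / r < e - 1 := Nat.div_lt_of_lt_mul (by rwa [mul_comm] at hl)
    have h12 : l / r * r ≤ l := Nat.div_mul_le_self l r
    have h13 : (e - 1) * r = l / r * r + (e - 1 - l / r) * r := by
      rw [← add_mul]
      congr 1
      omega
    have h14 : (e - 1) * r ≤ l + (e - 1 - l / r) * r := by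
      rw [h13]
      exact Nat.add_le_add_right h12 _
    exact_mod_cast h14
  · have h7 : AnalyticAt ℂ (fun z => (R.map (eval (shift (z₀ - z) (jetf k f z)))).eval (z - z₀))
        z₀ := by
      have h8 : (fun z => (R.map (eval (shift (z₀ - z) (jetf k f z)))).eval (z - z₀)) =
          fun z => ∑ i ∈ R.support, eval (shift (z₀ - z) (jetf k f z)) (R.coeff i) *
            (z - z₀) ^ i := by
        funext z
        rw [Polynomial.eval_map, Polynomial.eval₂_eq_sum, Polynomial.sum_def]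
      rw [h8]
      apply Finset.analyticAt_fun_sum
      intro i _
      exact (hev _).mul (hlin.pow i)
    exact le_order_mul (n4_pow z₀ _) (hlin.pow _) h7

end Pool.Agent.H89X
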