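import Pool.Agent.Lib.H89X.ND

set_option autoImplicit false

/-!
H89X, chunk N5: the operator (B).
-/

open MvPolynomial Filter Topology

namespace Pool.Agent.H89X

open Pool.Agent.H89T Pool.Agent.H67T

/-- Chunk N5a (S).  PROOF.  `hB 0` is `B = ∑ A i * u i` (`xc .. 0 = 1`), so `PropB a B` (`Ideal.mem_span_range_iff_exists_fun`), and `order_propB` (Lib/H89T/DB.lean). -/
theorem order_propBX {n d K M s : ℕ} {a : Idx n d → ℂ} {B : MvPolynomial (JV n K) ℂ}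
    (hB : PropBX a M s B) {f : ℂ → Fin n → ℂ} {z₀ : ℂ}
    (hf : ∀ b, AnalyticAt ℂ (fun w => f w b) z₀) {e : ℕ}
    (he : (e : ℕ∞) ≤ analyticOrderAt (fun w => ev a (f w)) z₀) :
    ((e - K : ℕ) : ℕ∞) ≤ analyticOrderAt (fun z => eval (jetf K f z) B) z₀ := by
  refine order_propB ?_ hf he
  obtain ⟨A, -, hA⟩ := hB 0
  have h1 : (xc K ℂ (0 : Fin (n + 1)) : MvPolynomial (JV n K) ℂ) = 1 := rfl
  rw [h1, one_pow, one_mul] at hA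
  exact Ideal.mem_span_range_iff_exists_fun.mpr ⟨A, hA.symm⟩

/-- Chunk N5c (S/M).  PROOF.  As `norm_eval_le` (Lib/H89T/DE.lean): `‖coeff m P‖ * ‖∏ ξ p ^ m p‖ ≤ ‖coeff m P‖ * (T * S) ^ (∑ m p)` and `∑ m p ≤ totalDegree`
(`MvPolynomial.le_totalDegree`), `1 ≤ T * S`.  `C = ∑ m ∈ support, ‖coeff m P‖`. -/
theorem norm_eval_le_deg {n K w : ℕ} {P : MvPolynomial (JV n K) ℂ} (hP : P.totalDegree ≤ w) :
    ∃ C : ℝ, 0 ≤ C ∧ ∀ (ξ : JV n K → ℂ) (T S : ℝ), 1 ≤ T → 1 ≤ S → (∀ p, ‖ξ p‖ ≤ T * S) →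
      ‖eval ξ P‖ ≤ C * T ^ w * S ^ w := by
  refine ⟨∑ m ∈ P.support, ‖P.coeff m‖, Finset.sum_nonneg fun _ _ => norm_nonneg _,
    fun ξ T S hT hS hξ => ?_⟩
  have hTS : 1 ≤ T * S := one_le_mul_of_one_le_of_one_le hT hS
  rw [eval_eq', mul_assoc, ← mul_pow, Finset.sum_mul]
  refine (norm_sum_le _ _).trans (Finset.sum_le_sum fun m hm => ?_)
  rw [norm_mul]
  refine mul_le_mul_of_nonneg_left ?_ (norm_nonneg _)
  rw [norm_prod]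
  have hdeg : ∑ p, m p ≤ w := by
    have h1 := MvPolynomial.le_totalDegree hm
    rw [Finsupp.sum_fintype _ _ (fun _ => rfl)] at h1
    exact h1.trans hP
  calc ∏ p, ‖ξ p ^ m p‖ ≤ ∏ p, (T * S) ^ m p := by
        refine Finset.prod_le_prod (fun _ _ => norm_nonneg _) fun p _ => ?_
        rw [norm_pow]
        exact pow_le_pow_left₀ (norm_nonneg _) (hξ p) _
    _ = (T * S) ^ ∑ p, m p := Finset.prod_pow_eq_pow_sum _ _ _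
    _ ≤ (T * S) ^ w := pow_le_pow_right₀ hTS hdeg

theorem n5_xc {n K : ℕ} (y : ℂ → Fin (n + 1) → ℂ) (z : ℂ) (hz : y z 0 ≠ 0) (b : Fin (n + 1)) :
    eval (jetf K (ch 0 y) z) (xc K ℂ b) = y z b / y z 0 := by
  refine Fin.cases ?_ (fun b' => ?_) b
  · have h1 : (xc K ℂ (0 : Fin (n + 1)) : MvPolynomial (JV n K) ℂ) = 1 := rfl
    rw [h1, map_one, div_self hz]
  · have h1 : (xc K ℂ b'.succ : MvPolynomial (JV n K) ℂ) = X (b', 0) := rfl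
    rw [h1, eval_X]
    unfold jetf ch
    simp

/-- Chunk N5b (M/L).  PROOF.  As `QQ_le_B` (Lib/H89T/DE.lean).  For every `b` choose the `A b i` of `hP b`, `w = M + s - d` (`d ≤ M + s` by the degree condition; if there is no `i` .. there is `i = 0`), and `C b i` of `norm_eval_le_deg` (degree `w`).
`C = ∑ b, ∑ i, C b i`, `E = w + 1`.
Let `z` be given, `Λ = Lam ..`, `S = ‖y z‖ / ‖y z 0‖ ≥ 1` (`norm_coord_pos`), and `b` with `‖y z b‖ = ‖y z‖` (`Finite.exists_max`, `pi_norm_le_iff_of_nonneg`; `norm_le_pi_norm`).  The value of `xc b` on the jet of `ch 0 D.y` at `z` is `y b / y 0`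
(`b = 0`: `1`; `b = b'.succ`: `jetf _ _ z (b', 0) = ch 0 y z b'`), of norm `S`.  So
`S ^ s * ‖eval B‖ ≤ ∑ i, C b i * Λ ^ w * S ^ w * (Λ * ‖Fy z‖ / ‖y z 0‖ ^ d)` (`norm_eval_le_deg`, `norm_jetf_le`, `norm_uR_le`), and with `QQ_eq` (Lib/H89T/DC.lean):
`‖QQ‖ * ‖y‖ ^ d = ‖y 0‖ ^ M * ‖eval B‖ * ‖y‖ ^ d ≤ C * Λ ^ (w + 1) * ‖Fy‖ * ‖y 0‖ ^ M * S ^ w * S ^ d / S ^ s = C Λ ^ (w + 1) ‖Fy‖ ‖y 0‖ ^ M S ^ M` because `w + d = M + s`. -/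
theorem QQ_le_BX {n d K M s L : ℕ} (D : CurveData n d) {B : MvPolynomial (JV n K) ℂ}
    (hB : HasWt M B) (hP : PropBX (D.a 0) M s B) (hL : K ≤ L) (hd : d ≤ M + s) :
    ∃ (C : ℝ) (E : ℕ), 0 ≤ C ∧ ∀ z, (∀ j, D.y z j ≠ 0) → D.Fy z ≠ 0 →
      ‖QQ D.y 0 M B z‖ * ‖D.y z‖ ^ d ≤
        C * ‖D.Fy z‖ * ‖D.y z‖ ^ M * Lam D.y D.Fy d L z ^ E := by
  choose A hAw hAe using hP
  obtain ⟨w, hw⟩ : ∃ w, w = M + s - d := ⟨_, rfl⟩
  have hAw' : ∀ b i, (A b i).totalDegree ≤ w := by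
    intro b i
    have h := hAw b i
    omega
  choose C' hC' hb using fun b i => norm_eval_le_deg (hAw' b i)
  refine ⟨∑ b, ∑ i, C' b i, w + 1, Finset.sum_nonneg fun b _ => Finset.sum_nonneg fun i _ => hC' b i,
    fun z hz hF => ?_⟩
  obtain ⟨Λ, hΛ⟩ : ∃ Λ, Λ = Lam D.y D.Fy d L z := ⟨_, rfl⟩
  obtain ⟨S, hS⟩ : ∃ S, S = ‖D.y z‖ / ‖D.y z 0‖ := ⟨_, rfl⟩
  have hΛ1 : 1 ≤ Λ := by rw [hΛ]; exact one_le_Lam _ _ _ _ _
  have hS1 : 1 ≤ S := by rw [hS]; exact norm_coord_pos _ _ _ (hz 0)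
  have hypos : 0 < ‖D.y z 0‖ := norm_pos_iff.mpr (hz 0)
  obtain ⟨b, hbm⟩ := Finite.exists_max (fun b => ‖D.y z b‖)
  have hbn : ‖D.y z b‖ = ‖D.y z‖ :=
    le_antisymm (norm_le_pi_norm _ _) ((pi_norm_le_iff_of_nonneg (norm_nonneg _)).2 hbm)
  have hxb : ‖eval (jetf K (ch 0 D.y) z) (xc K ℂ b)‖ = S := by
    rw [n5_xc D.y z (hz 0) b, norm_div, hbn, hS]
  have hkey : S ^ s * ‖eval (jetf K (ch 0 D.y) z) B‖ ≤
      (∑ b, ∑ i, C' b i) * Λ ^ (w + 1) * S ^ w * (‖D.Fy z‖ / ‖D.y z 0‖ ^ d) := by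
    have h1 : S ^ s * ‖eval (jetf K (ch 0 D.y) z) B‖ =
        ‖eval (jetf K (ch 0 D.y) z) (∑ i, A b i * uR (D.a 0) (i : ℕ))‖ := by
      rw [← hAe b, map_mul, map_pow, norm_mul, norm_pow, hxb]
    rw [h1, map_sum]
    have h2 : ∑ i, C' b i ≤ ∑ b, ∑ i, C' b i :=
      Finset.single_le_sum (f := fun b => ∑ i, C' b i)
        (fun b _ => Finset.sum_nonneg fun i _ => hC' b i) (Finset.mem_univ b)
    have h3 : ‖∑ i, eval (jetf K (ch 0 D.y) z) (A b i * uR (D.a 0) (i : ℕ))‖ ≤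
        (∑ i, C' b i) * Λ ^ (w + 1) * S ^ w * (‖D.Fy z‖ / ‖D.y z 0‖ ^ d) := by
      rw [Finset.sum_mul, Finset.sum_mul, Finset.sum_mul]
      refine (norm_sum_le _ _).trans (Finset.sum_le_sum fun i _ => ?_)
      rw [map_mul, norm_mul]
      have h4 := hb b i (jetf K (ch 0 D.y) z) Λ S hΛ1 hS1 (by
        rw [hΛ, hS]
        exact norm_jetf_le _ _ _ hL 0 z hz)
      have h5 := norm_uR_le D 0 hL hz hF i
      rw [← hΛ] at h5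
      calc ‖eval (jetf K (ch 0 D.y) z) (A b i)‖ * ‖eval (jetf K (ch 0 D.y) z) (uR (D.a 0) (i : ℕ))‖
          ≤ (C' b i * Λ ^ w * S ^ w) * (Λ * (‖D.Fy z‖ / ‖D.y z 0‖ ^ d)) :=
            mul_le_mul h4 h5 (norm_nonneg _)
              (mul_nonneg (mul_nonneg (hC' b i) (by positivity)) (by positivity))
        _ = C' b i * Λ ^ (w + 1) * S ^ w * (‖D.Fy z‖ / ‖D.y z 0‖ ^ d) := by ring
    refine h3.trans ?_
    gcongr
  rw [QQ_eq D.hy.diff 0 hB (hz 0), norm_mul, norm_pow, ← hΛ]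
  have hyS : ‖D.y z‖ = S * ‖D.y z 0‖ := by rw [hS]; field_simp
  have hSs : 0 < S ^ s := by positivity
  rw [← mul_le_mul_iff_of_pos_left hSs, hyS]
  have hexp : S ^ w * S ^ d = S ^ M * S ^ s := by
    rw [← pow_add, ← pow_add, hw, Nat.sub_add_cancel hd]
  calc S ^ s * (‖D.y z 0‖ ^ M * ‖eval (jetf K (ch 0 D.y) z) B‖ * (S * ‖D.y z 0‖) ^ d)
      = ‖D.y z 0‖ ^ M * (S * ‖D.y z 0‖) ^ d * (S ^ s * ‖eval (jetf K (ch 0 D.y) z) B‖) := by ring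
    _ ≤ ‖D.y z 0‖ ^ M * (S * ‖D.y z 0‖) ^ d *
        ((∑ b, ∑ i, C' b i) * Λ ^ (w + 1) * S ^ w * (‖D.Fy z‖ / ‖D.y z 0‖ ^ d)) :=
        mul_le_mul_of_nonneg_left hkey (by positivity)
    _ = ‖D.y z 0‖ ^ M * (∑ b, ∑ i, C' b i) * Λ ^ (w + 1) * ‖D.Fy z‖ * (S ^ w * S ^ d) := by
        rw [mul_pow]
        field_simp
    _ = S ^ s * ((∑ b, ∑ i, C' b i) * ‖D.Fy z‖ * (S * ‖D.y z 0‖) ^ M * Λ ^ (w + 1)) := by
        rw [hexp, mul_pow]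
        ring

end Pool.Agent.H89X
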