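import Pool.Agent.Lib.H89X.N4
import Pool.Agent.Lib.H89X.N5

set_option autoImplicit false

/-!
H89X, chunk N6: the entire function `y 0 ^ M P (jet) * (y 0 ^ M' B (jet)) ^ r`.
-/

open MvPolynomial Filter Topology

namespace Pool.Agent.H89X

open Pool.Agent.H89T Pool.Agent.H67T

/-- The entire function. -/
noncomputable def Zx {n d k K : ℕ} (D : CurveData n d) (M M' r : ℕ) (P : MvPolynomial (JV n k) ℂ)
    (B : MvPolynomial (JV n K) ℂ) (z : ℂ) : ℂ :=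
  QQ D.y 0 M P z * QQ D.y 0 M' B z ^ r

/-- Chunk N6a (S).  `QQ_diff` (Lib/H89T/DC.lean). -/
theorem Zx_diff {n d k K : ℕ} (D : CurveData n d) (M M' r : ℕ) (P : MvPolynomial (JV n k) ℂ)
    (B : MvPolynomial (JV n K) ℂ) : Differentiable ℂ (Zx D M M' r P B) :=
  (QQ_diff D.hy.diff 0 M P).mul ((QQ_diff D.hy.diff 0 M' B).pow r)

/-- Chunk N6b (S).  `QQ_eq` (Lib/H89T/DC.lean) at `z₁`. -/
theorem Zx_ne {n d k K : ℕ} (D : CurveData n d) {M M' r : ℕ} {P : MvPolynomial (JV n k) ℂ}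
    {B : MvPolynomial (JV n K) ℂ} (hPw : HasWt M P) (hBw : HasWt M' B) {z₁ : ℂ} (hz : D.y z₁ 0 ≠ 0)
    (h1 : eval (jetf k (ch 0 D.y) z₁) P ≠ 0) (h2 : eval (jetf K (ch 0 D.y) z₁) B ≠ 0) :
    Zx D M M' r P B z₁ ≠ 0 := by
  unfold Zx
  rw [QQ_eq D.hy.diff 0 hPw hz, QQ_eq D.hy.diff 0 hBw hz]
  exact mul_ne_zero (mul_ne_zero (pow_ne_zero _ hz) h1)
    (pow_ne_zero _ (mul_ne_zero (pow_ne_zero _ hz) h2))

/-- Chunk N6c (M).  PROOF.  `e = 0, 1`: trivial.  For `e ≥ 2` the function `Fy` vanishes at `z` (`AnalyticAt.analyticOrderAt_ne_zero` or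
`natCast_le_analyticOrderAt_iff_iteratedDeriv_eq_zero`), so `y 0 ≠ 0` at `z` by `hch`, and the order of `w ↦ ev (D.a 0) (ch 0 D.y w)` at `z` is at least `e` (as in
`DF_order_factor` in Lib/H89T/DF.lean: it is `Fy * (y 0 ^ d)⁻¹` near `z`).  `e ≤ J`: `order_propP` with `e`, `DF_order_QQ` (Lib/H89T/DF.lean), `le_order_mul`.  `e > J`: `order_propP` with `J` in the place of `e`
(order at least `(J - 1) * r`), `order_propBX` (order at least `e - K`), `DF_order_pow`: order at least `(J - 1) * r + r * (e - K) ≥ r * (e - 1)`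
(`analyticOrderAt_mul`). -/
theorem Zx_order {n d k K J M M' s r : ℕ} (hn : 1 ≤ n) (hr : 1 ≤ r) (hk : r + n ≤ k + 2)
    (hJ : 2 ≤ J) (hKJ : K ≤ J) (D : CurveData n d) {P : MvPolynomial (JV n k) ℂ}
    {B : MvPolynomial (JV n K) ℂ} (hPw : HasWt M P) (hBw : HasWt M' B) (hP : PropP (D.a 0) r J P)
    (hB : PropBX (D.a 0) M' s B) (hch : ∀ z, D.Fy z = 0 → D.y z 0 ≠ 0) (z : ℂ) (e : ℕ)
    (he : (e : ℕ∞) ≤ analyticOrderAt D.Fy z) :
    ((r * (e - 1) : ℕ) : ℕ∞) ≤ analyticOrderAt (Zx D M M' r P B) z := by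
  rcases lt_or_ge e 2 with h2 | h2
  · have : e - 1 = 0 := by omega
    rw [this, mul_zero, Nat.cast_zero]
    exact bot_le
  · have hF0 : D.Fy z = 0 := by
      by_contra hne
      rw [(D.hF.analyticAt z).analyticOrderAt_eq_zero.2 hne] at he
      have h3 : e ≤ 0 := by exact_mod_cast he
      omega
    have hc := hch z hF0
    have hy := D.hy.diff
    have hchan : ∀ b, AnalyticAt ℂ (fun w => ch 0 D.y w b) z := fun b => analyticAt_ch hy 0 hc b
    have hnear : ∀ᶠ w in 𝓝 z, D.y w 0 ≠ 0 := (hy 0).continuous.continuousAt.eventually_ne hc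
    have heF : (e : ℕ∞) ≤ analyticOrderAt (fun w => ev (D.a 0) (ch 0 D.y w)) z := by
      have h1 : (fun w => ev (D.a 0) (ch 0 D.y w)) =ᶠ[𝓝 z]
          fun w => D.Fy w * (D.y w 0 ^ d)⁻¹ := by
        filter_upwards [hnear] with w hw
        rw [D.hFc 0 w hw, Fc, div_eq_mul_inv]
      rw [analyticOrderAt_congr h1]
      exact le_order_mul he (D.hF.analyticAt z)
        ((((hy 0).analyticAt z).pow d).inv (pow_ne_zero d hc))
    have hAan : AnalyticAt ℂ (QQ D.y 0 M P) z := (QQ_diff hy 0 M P).analyticAt z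
    have hBan : AnalyticAt ℂ (QQ D.y 0 M' B) z := (QQ_diff hy 0 M' B).analyticAt z
    have hmul : analyticOrderAt (Zx D M M' r P B) z =
        analyticOrderAt (QQ D.y 0 M P) z + analyticOrderAt (fun w => QQ D.y 0 M' B w ^ r) z :=
      analyticOrderAt_mul hAan (hBan.pow r)
    rw [hmul]
    rcases le_or_gt e J with hKe | hKe
    · have h3 : (((e - 1) * r : ℕ) : ℕ∞) ≤ analyticOrderAt (QQ D.y 0 M P) z :=
        DF_order_QQ hy 0 hPw hc (order_propP hn hr hk hP hchan h2 hKe heF)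
      rw [mul_comm] at h3
      exact h3.trans le_self_add
    · have h3 : (((J - 1) * r : ℕ) : ℕ∞) ≤ analyticOrderAt (QQ D.y 0 M P) z :=
        DF_order_QQ hy 0 hPw hc (order_propP hn hr hk hP hchan hJ le_rfl
          ((Nat.cast_le.2 hKe.le).trans heF))
      have h4 : ((e - K : ℕ) : ℕ∞) ≤ analyticOrderAt (QQ D.y 0 M' B) z :=
        DF_order_QQ hy 0 hBw hc (order_propBX hB hchan heF)
      have h5 := DF_order_pow hBan r h4
      refine le_trans ?_ (add_le_add h3 h5)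
      rw [← Nat.cast_add]
      refine Nat.cast_le.2 ?_
      rw [mul_comm (J - 1) r, ← mul_add]
      exact Nat.mul_le_mul_left r (by omega)

/-- Chunk N6d (S/M).  PROOF.  `QQ_le` (Lib/H89T/DE.lean, `c = 0`) for `P`: `‖QQ‖ ≤ C₁ ‖y‖ ^ M Λ ^ M`, and the `r`-th power of `QQ_le_BX`. -/
theorem Zx_bound {n d k K M M' s r L : ℕ} (D : CurveData n d) {P : MvPolynomial (JV n k) ℂ}
    {B : MvPolynomial (JV n K) ℂ} (hPw : HasWt M P) (hBw : HasWt M' B)
    (hB : PropBX (D.a 0) M' s B) (hk : k ≤ L) (hK : K ≤ L) (hd : d ≤ M' + s) :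
    ∃ (C : ℝ) (E : ℕ), 0 ≤ C ∧ ∀ z, (∀ j, D.y z j ≠ 0) → D.Fy z ≠ 0 →
      ‖Zx D M M' r P B z‖ * ‖D.y z‖ ^ (d * r) ≤
        C * ‖D.Fy z‖ ^ r * ‖D.y z‖ ^ (M + r * M') * Lam D.y D.Fy d L z ^ E := by
  obtain ⟨C₁, hC₁, h1⟩ := QQ_le D 0 hPw hk
  obtain ⟨C₂, E₂, hC₂, h2⟩ := QQ_le_BX D hBw hB hK hd
  refine ⟨C₁ * C₂ ^ r, M + r * E₂, by positivity, fun z hz hF => ?_⟩
  have hL := one_le_Lam D.y D.Fy d L z
  have e1 := h1 z hz
  have e2 := h2 z hz hF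
  have e3 := pow_le_pow_left₀ (by positivity) e2 r
  have e4 : ‖Zx D M M' r P B z‖ * ‖D.y z‖ ^ (d * r) =
      ‖QQ D.y 0 M P z‖ * (‖QQ D.y 0 M' B z‖ * ‖D.y z‖ ^ d) ^ r := by
    unfold Zx
    rw [norm_mul, norm_pow, mul_pow, ← pow_mul, mul_assoc]
  rw [e4]
  have hL0 : 0 ≤ Lam D.y D.Fy d L z := by linarith
  refine (mul_le_mul e1 e3 (by positivity) (by positivity)).trans (le_of_eq ?_)
  rw [mul_pow, mul_pow, mul_pow, ← pow_mul, ← pow_mul, pow_add, pow_add, mul_comm M' r, mul_comm E₂ r]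
  ring

end Pool.Agent.H89X
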