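import Pool.Agent.Lib.H89X.ND

set_option autoImplicit false

/-!
H89X, chunk N8: the charts `A t`: the coordinate `y 0` is replaced by `∑ t ^ b y b`.
-/

open MvPolynomial Filter Topology

namespace Pool.Agent.H89X

open Pool.Agent.H89T Pool.Agent.H67T

/-- The linear form `∑ t ^ b y b`. -/
noncomputable def lt {n : ℕ} (t : ℂ) (y : Fin (n + 1) → ℂ) : ℂ := ∑ b : Fin (n + 1), t ^ (b : ℕ) * y b

/-- The change of coordinates. -/
noncomputable def At (n : ℕ) (t : ℂ) : (Fin (n + 1) → ℂ) ≃ₗ[ℂ] (Fin (n + 1) → ℂ) where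
  toFun y := Fin.cons (lt t y) fun i : Fin n => y i.succ
  invFun y := Fin.cons (2 * y 0 - lt t y) fun i : Fin n => y i.succ
  map_add' y y' := by
    funext j
    refine Fin.cases ?_ (fun i => ?_) j
    · simp only [Fin.cons_zero, lt, Pi.add_apply, mul_add, Finset.sum_add_distrib]
    · simp only [Fin.cons_succ, Pi.add_apply]
  map_smul' c y := by
    funext j
    refine Fin.cases ?_ (fun i => ?_) j
    · simp only [Fin.cons_zero, lt, Pi.smul_apply, smul_eq_mul, RingHom.id_apply, Finset.mul_sum]
      exact Finset.sum_congr rfl fun b _ => by ring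
    · simp only [Fin.cons_succ, Pi.smul_apply, RingHom.id_apply]
  left_inv y := by
    funext j
    refine Fin.cases ?_ (fun i => ?_) j
    · simp only [Fin.cons_zero, lt, Fin.sum_univ_succ, Fin.val_zero, pow_zero, one_mul, Fin.cons_succ]
      ring
    · simp only [Fin.cons_succ]
  right_inv y := by
    funext j
    refine Fin.cases ?_ (fun i => ?_) j
    · simp only [Fin.cons_zero, lt, Fin.sum_univ_succ, Fin.val_zero, pow_zero, one_mul, Fin.cons_succ]
      ring
    · simp only [Fin.cons_succ]

/-- Chunk N8a (S). -/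
theorem At_zero (n : ℕ) (t : ℂ) (y : Fin (n + 1) → ℂ) : At n t y 0 = lt t y := by
  show (Fin.cons (lt t y) fun i : Fin n => y i.succ : Fin (n + 1) → ℂ) 0 = lt t y
  exact Fin.cons_zero _ _

/-- Chunk N8a (S). -/
theorem At_succ (n : ℕ) (t : ℂ) (y : Fin (n + 1) → ℂ) (i : Fin n) : At n t y i.succ = y i.succ := by
  show (Fin.cons (lt t y) fun i : Fin n => y i.succ : Fin (n + 1) → ℂ) i.succ = y i.succ
  exact Fin.cons_succ _ _ _

/-- Chunk N8a (S).  `lt 0 y = y 0`. -/
theorem At_at_zero (n : ℕ) (y : Fin (n + 1) → ℂ) : At n 0 y = y := by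
  funext j
  refine Fin.cases ?_ (fun i => ?_) j
  · rw [At_zero]
    unfold lt
    rw [Fin.sum_univ_succ]
    have h : ∑ i : Fin n, (0 : ℂ) ^ ((i.succ : Fin (n + 1)) : ℕ) * y i.succ = 0 := by
      refine Finset.sum_eq_zero fun i _ => ?_
      rw [Fin.val_succ, pow_succ, mul_zero, zero_mul]
    rw [h, add_zero]
    simp
  · rw [At_succ]

theorem n8_lt {n : ℕ} (y : Fin (n + 1) → ℂ) : Continuous fun t => lt t y := by
  unfold lt
  exact continuous_finsetSum _ fun b _ => (continuous_pow _).mul continuous_const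

/-- Chunk N8b (S). -/
theorem continuous_At (n : ℕ) (y : Fin (n + 1) → ℂ) (j : Fin (n + 1)) :
    Continuous fun t => At n t y j := by
  refine Fin.cases ?_ (fun i => ?_) j
  · have h : (fun t => At n t y 0) = fun t => lt t y := by
      funext t
      exact At_zero n t y
    rw [h]
    exact n8_lt y
  · have h : (fun t => At n t y i.succ) = fun _ => y i.succ := by
      funext t
      exact At_succ n t y i
    rw [h]
    exact continuous_const

/-- Chunk N8b (S). -/
theorem continuous_At_symm (n : ℕ) (y : Fin (n + 1) → ℂ) (j : Fin (n + 1)) :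
    Continuous fun t => (At n t).symm y j := by
  refine Fin.cases ?_ (fun i => ?_) j
  · have h : (fun t => (At n t).symm y 0) = fun t => 2 * y 0 - lt t y := by
      funext t
      show (Fin.cons (2 * y 0 - lt t y) fun i : Fin n => y i.succ : Fin (n + 1) → ℂ) 0 = _
      exact Fin.cons_zero _ _
    rw [h]
    exact continuous_const.sub (n8_lt y)
  · have h : (fun t => (At n t).symm y i.succ) = fun _ => y i.succ := by
      funext t
      show (Fin.cons (2 * y 0 - lt t y) fun i : Fin n => y i.succ : Fin (n + 1) → ℂ) i.succ = _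
      exact Fin.cons_succ _ _ _
    rw [h]
    exact continuous_const

/-- Chunk N8c (M).  PROOF.  Families `p : ℂ → MvPolynomial σ ℂ` with all coefficients continuous in `t` are closed under sums, products (`coeff_mul`, a finite sum over `Finset.antidiagonal`), powers (induction), and contain the
constants.  `sub` is `aeval (fun i => ∑ j, C (A (Pi.single j 1) i) * X j)`; by induction on `F` (`MvPolynomial.induction_on`: `C`, `add`, `mul_X`) the family `t ↦ aeval (..) F` is of this type
(`coeff_C_mul`, `coeff_X'`, `continuous_At_symm`). -/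
theorem continuous_coeff_sub (n : ℕ) (F : MvPolynomial (Fin (n + 1)) ℂ) (m : Fin (n + 1) →₀ ℕ) :
    Continuous fun t => coeff m (sub ((At n t).symm : (Fin (n + 1) → ℂ) →ₗ[ℂ] (Fin (n + 1) → ℂ)) F) := by
  revert m
  refine MvPolynomial.induction_on (motive := fun F => ∀ m : Fin (n + 1) →₀ ℕ,
    Continuous fun t => coeff m (sub ((At n t).symm : (Fin (n + 1) → ℂ) →ₗ[ℂ] (Fin (n + 1) → ℂ)) F)) F ?_ ?_ ?_
  · intro c m
    have h : (fun t => coeff m (sub ((At n t).symm : (Fin (n + 1) → ℂ) →ₗ[ℂ] (Fin (n + 1) → ℂ)) (C c))) =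
        fun _ => coeff m (C c : MvPolynomial (Fin (n + 1)) ℂ) := by
      funext t
      unfold sub
      rw [aeval_C]
      rfl
    rw [h]
    exact continuous_const
  · intro p q hp hq m
    have h : (fun t => coeff m (sub ((At n t).symm : (Fin (n + 1) → ℂ) →ₗ[ℂ] (Fin (n + 1) → ℂ)) (p + q))) =
        fun t => coeff m (sub ((At n t).symm : (Fin (n + 1) → ℂ) →ₗ[ℂ] (Fin (n + 1) → ℂ)) p) +
          coeff m (sub ((At n t).symm : (Fin (n + 1) → ℂ) →ₗ[ℂ] (Fin (n + 1) → ℂ)) q) := by
      funext t
      unfold sub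
      rw [map_add, coeff_add]
    rw [h]
    exact (hp m).add (hq m)
  · intro p i hp m
    have h : (fun t => coeff m (sub ((At n t).symm : (Fin (n + 1) → ℂ) →ₗ[ℂ] (Fin (n + 1) → ℂ)) (p * X i))) =
        fun t => ∑ x ∈ Finset.HasAntidiagonal.antidiagonal m,
          coeff x.1 (sub ((At n t).symm : (Fin (n + 1) → ℂ) →ₗ[ℂ] (Fin (n + 1) → ℂ)) p) *
            coeff x.2 (∑ j, C ((At n t).symm (Pi.single j 1) i) * X j : MvPolynomial (Fin (n + 1)) ℂ) := by
      funext t
      unfold sub
      rw [map_mul, aeval_X, coeff_mul]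
      rfl
    rw [h]
    refine continuous_finsetSum _ fun x _ => (hp x.1).mul ?_
    have h2 : (fun t => coeff x.2 (∑ j, C ((At n t).symm (Pi.single j 1) i) * X j : MvPolynomial (Fin (n + 1)) ℂ)) =
        fun t => ∑ j, (At n t).symm (Pi.single j 1) i * coeff x.2 (X j : MvPolynomial (Fin (n + 1)) ℂ) := by
      funext t
      rw [coeff_sum]
      refine Finset.sum_congr rfl fun j _ => ?_
      rw [coeff_C_mul]
    rw [h2]
    exact continuous_finsetSum _ fun j _ => (continuous_At_symm n _ i).mul continuous_const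

/-- Chunk N8d (S/M).  A nonzero vector: `t ↦ lt t y` is a nonzero polynomial in `t` (`Polynomial.ofFn`, or `∑ b, C (y b) * X ^ b`, coefficient `b` is `y b`), so it has finitely many roots
(`Polynomial.finite_setOf_isRoot` or `(p.roots.toFinset).finite_toSet`). -/
theorem finite_lt {n : ℕ} {y : Fin (n + 1) → ℂ} (hy : y ≠ 0) : {t : ℂ | lt t y = 0}.Finite := by
  classical
  obtain ⟨P, hP⟩ : ∃ P : Polynomial ℂ, P = ∑ b : Fin (n + 1), Polynomial.C (y b) * Polynomial.X ^ (b : ℕ) := ⟨_, rfl⟩
  have hne : P ≠ 0 := by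
    intro h0
    apply hy
    funext b
    have h1 : P.coeff (b : ℕ) = y b := by
      rw [hP, Polynomial.finsetSum_coeff, Finset.sum_eq_single b]
      · rw [Polynomial.coeff_C_mul, Polynomial.coeff_X_pow, if_pos rfl, mul_one]
      · intro c _ hc
        rw [Polynomial.coeff_C_mul, Polynomial.coeff_X_pow, if_neg, mul_zero]
        intro h2
        exact hc (Fin.ext h2.symm)
      · intro h
        exact absurd (Finset.mem_univ b) h
    rw [← h1, h0, Polynomial.coeff_zero]
    rfl
  refine (Multiset.finite_toSet P.roots).subset ?_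
  intro t ht
  have h2 : P.eval t = lt t y := by
    rw [hP, Polynomial.eval_finsetSum]
    unfold lt
    refine Finset.sum_congr rfl fun b _ => ?_
    rw [Polynomial.eval_mul, Polynomial.eval_C, Polynomial.eval_pow, Polynomial.eval_X]
    ring
  show t ∈ P.roots
  rw [Polynomial.mem_roots hne]
  show P.eval t = 0
  rw [h2]
  exact ht

end Pool.Agent.H89X
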