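import Pool.Agent.Lib.H89T.DG
import Pool.Agent.Lib.H89T.DP3
import Pool.Agent.Lib.H53L.C10

set_option autoImplicit false

/-!
H89X, module N (analysis): definitions and the interface.  `JV n k`, `Idx n d`, `uR`, `NN`, `HasWt`, `ev`, `CurveData`, `QQ`,
`Lam`, `Ineq` of Lib/H89T.
-/

open MvPolynomial

namespace Pool.Agent.H89X

open Pool.Agent.H89T Pool.Agent.H67T

section Props

variable {n d k : ℕ} {R : Type*} [CommRing R]

/-- The ideal `(u 0, ..., u (j - 1))` of the ring of the jets of order `k`. -/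
noncomputable def IU (k : ℕ) (a : Idx n d → R) (j : ℕ) : Ideal (MvPolynomial (JV n k) R) :=
  Ideal.span (Set.range fun i : Fin j => (uR a (i : ℕ) : MvPolynomial (JV n k) R))

/-- Property (P): the derivatives of `P` of order less than `(j - 1) * r` belong to powers of the ideal
`(u 0, ..., u (min j n - 1))`, for all `2 ≤ j ≤ J`. -/
def PropP (a : Idx n d → R) (r J : ℕ) (P : MvPolynomial (JV n k) R) : Prop :=
  ∀ j, 2 ≤ j → j ≤ J → ∀ l < (j - 1) * r,
    (NN n k R)^[l] P ∈ IU k a (min j n) ^ (j - 1 - l / r)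

/-- The homogeneous coordinates in the chart `y 0 ≠ 0`. -/
noncomputable def xc (k : ℕ) (R : Type*) [CommRing R] (b : Fin (n + 1)) : MvPolynomial (JV n k) R :=
  Fin.cases (motive := fun _ => MvPolynomial (JV n k) R) 1 (fun b => X (b, 0)) b

/-- Property (B), jets of order `k`: `x_b ^ s * B` is in the ideal `(u 0, ..., u k)`, for `b = 0, ..., n`, `x_0 = 1`, and
the coefficients have total degree at most `M + s - d`. -/
def PropBX (a : Idx n d → R) (M s : ℕ) (B : MvPolynomial (JV n k) R) : Prop :=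
  ∀ b : Fin (n + 1), ∃ A : Fin (k + 1) → MvPolynomial (JV n k) R,
    (∀ i, (A i).totalDegree + d ≤ M + s) ∧ xc k R b ^ s * B = ∑ i, A i * uR a (i : ℕ)

end Props

end Pool.Agent.H89X
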